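import Pool.Agent.H27.AP.AVd

/-!
# The average over primes of the product over the primes modulo which the prime is not a square
-/

set_option autoImplicit false

namespace Pool.Agent.H27.AP

open Finset AVx

/-- the conditions on `L = log x` -/
theorem av_large : ∀ᶠ L : ℝ in Filter.atTop, 16 ≤ L ∧ 1 ≤ Real.log L ∧
    9000000 * Real.log L ≤ Real.sqrt L ∧
    8 * (L ^ (1 / 4 : ℝ)) ^ 20 ≤ Real.exp (L ^ (1 / 4 : ℝ) / 8) ∧
    ∀ a : ℝ, Real.sqrt L ≤ a → 3 * a ^ 2 ≤ Real.exp (3 * a / 4) := by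
  have hlog : Filter.Tendsto Real.log Filter.atTop Filter.atTop := Real.tendsto_log_atTop
  have e1 : ∀ᶠ L : ℝ in Filter.atTop, 16 ≤ L := Filter.eventually_ge_atTop 16
  have e2 : ∀ᶠ L : ℝ in Filter.atTop, 1 ≤ Real.log L := hlog.eventually_ge_atTop 1
  have e3 : ∀ᶠ L : ℝ in Filter.atTop, 9000000 * Real.log L ≤ Real.sqrt L := by
    have h := (isLittleO_log_rpow_atTop (show (0 : ℝ) < 1 / 2 by norm_num)).def
      (show (0 : ℝ) < 1 / 9000000 by norm_num)
    filter_upwards [h, Filter.eventually_ge_atTop 0] with L h3 h4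
    rw [← Real.sqrt_eq_rpow, Real.norm_of_nonneg (Real.sqrt_nonneg L)] at h3
    have h5 := (le_abs_self (Real.log L)).trans h3
    linarith
  have hp : ∀ (k : ℕ) (b c : ℝ), 0 < b → 0 < c → ∀ᶠ y : ℝ in Filter.atTop,
      c * y ^ k ≤ Real.exp (b * y) := by
    intro k b c hb hc
    have h := (isLittleO_pow_exp_pos_mul_atTop (k := k) hb).def (show (0 : ℝ) < 1 / c by positivity)
    filter_upwards [h] with y h3
    rw [Real.norm_of_nonneg (Real.exp_pos _).le] at h3
    have h5 := (le_abs_self (y ^ k)).trans h3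
    calc c * y ^ k ≤ c * (1 / c * Real.exp (b * y)) := mul_le_mul_of_nonneg_left h5 hc.le
      _ = Real.exp (b * y) := by field_simp
  have e4 : ∀ᶠ L : ℝ in Filter.atTop,
      8 * (L ^ (1 / 4 : ℝ)) ^ 20 ≤ Real.exp (L ^ (1 / 4 : ℝ) / 8) := by
    have h := (tendsto_rpow_atTop (show (0 : ℝ) < 1 / 4 by norm_num)).eventually
      (hp 20 (1 / 8) 8 (by norm_num) (by norm_num))
    filter_upwards [h] with L h3
    have h4 : L ^ (1 / 4 : ℝ) / 8 = 1 / 8 * L ^ (1 / 4 : ℝ) := by ring
    rw [h4]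
    exact h3
  have e5 : ∀ᶠ L : ℝ in Filter.atTop,
      ∀ a : ℝ, Real.sqrt L ≤ a → 3 * a ^ 2 ≤ Real.exp (3 * a / 4) := by
    obtain ⟨a₀, ha₀⟩ := Filter.eventually_atTop.1 (hp 2 (3 / 4) 3 (by norm_num) (by norm_num))
    filter_upwards [Real.tendsto_sqrt_atTop.eventually_ge_atTop a₀] with L h3 a ha
    have h4 := ha₀ a (h3.trans ha)
    have h5 : 3 * a / 4 = 3 / 4 * a := by ring
    rw [h5]
    exact h4
  filter_upwards [e1, e2, e3, e4, e5] with L c1 c2 c3 c4 c5
  exact ⟨c1, c2, c3, c4, c5⟩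

theorem av (h1 : M1) (h2 : M2) : AV := by
  have hlog : Filter.Tendsto Real.log Filter.atTop Filter.atTop := Real.tendsto_log_atTop
  obtain ⟨x₀, hx₀⟩ := Filter.eventually_atTop.1 ((hlog.eventually av_large).and
    (Filter.eventually_ge_atTop 1))
  refine ⟨18000004, x₀, by norm_num, fun x hx A hA1 hA2 => ?_⟩
  obtain ⟨⟨c1, c2, c3, c4, c5⟩, c6⟩ := hx₀ x hx
  set L : ℝ := Real.log x with hL
  set l : ℝ := Real.log L with hl
  set u : ℝ := L ^ (1 / 4 : ℝ) with hu
  have hL0 : 0 < L := by linarith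
  have hT1 : T1 x = Real.exp (Real.sqrt L) := rfl
  have hA0 : 0 < A := lt_of_lt_of_le (by rw [hT1]; exact Real.exp_pos _) hA1
  set a : ℝ := Real.log A with ha
  have hAa : A = Real.exp a := (Real.exp_log hA0).symm
  have ha1 : Real.sqrt L ≤ a := by
    rw [hT1] at hA1
    exact (Real.le_log_iff_exp_le hA0).2 hA1
  have ha2 : a ≤ L := Real.log_le_log hA0 hA2
  have hsq : Real.sqrt L = u ^ 2 := by
    rw [hu, Real.sqrt_eq_rpow, ← Real.rpow_natCast, ← Real.rpow_mul hL0.le]
    norm_num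
  have hu4 : L = u ^ 4 := by
    rw [hu, ← Real.rpow_natCast, ← Real.rpow_mul hL0.le]
    norm_num
  have hu0 : 0 < u := Real.rpow_pos_of_pos hL0 _
  have hu2 : 2 ≤ u := by
    by_contra h
    push Not at h
    have h3 : u ^ 4 < 2 ^ 4 := pow_lt_pow_left₀ h hu0.le (by norm_num)
    rw [← hu4] at h3
    norm_num at h3
    linarith
  have hua : u ^ 2 ≤ a := hsq ▸ ha1
  have hua' : u ≤ a := by nlinarith
  have ha0 : 0 < a := by linarith
  have hl0 : 0 < l := by linarith
  have hla : 9000000 * l ≤ a := c3.trans ha1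
  -- the exponent `-1/8`
  set v : ℝ := L ^ (-(1 / 8) : ℝ) with hv
  have hv0 : 0 < v := Real.rpow_pos_of_pos hL0 _
  have hv2 : v ^ 2 * u = 1 := by
    rw [hv, hu, ← Real.rpow_natCast, ← Real.rpow_mul hL0.le, ← Real.rpow_add hL0]
    norm_num
  have huv : 1 ≤ u * v := by
    have h3 : u * v = L ^ (1 / 8 : ℝ) := by
      rw [hv, hu, ← Real.rpow_add hL0]
      norm_num
    rw [h3]
    exact Real.one_le_rpow (by linarith) (by norm_num)
  have hav : 1 ≤ a * v := huv.trans (mul_le_mul_of_nonneg_right hua' hv0.le)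
  -- the parameters
  have hw : ww x = Real.exp u := rfl
  have hlw : Real.log (ww x) = u := by rw [hw, Real.log_exp]
  have hw2 : 2 ≤ ww x := by
    rw [hw]
    have := Real.add_one_le_exp u
    linarith
  set t : ℝ := a / (9000000 * l) with ht
  have ht1 : t * l = a / 9000000 := by
    rw [ht]
    field_simp
  have ht2 : 1 ≤ t := by
    rw [ht, one_le_div (by positivity)]
    exact hla
  have ht3 : t ≤ a / 9000000 := by
    rw [← ht1]
    exact le_mul_of_one_le_right (by linarith) c2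
  set z : ℝ := Real.exp t with hz
  have hlz : Real.log z = t := Real.log_exp t
  have hz2 : 2 ≤ z := by
    have := Real.add_one_le_exp t
    linarith
  set r : ℕ := ⌈23 * l⌉₊ with hr
  have hr1 : 23 * l ≤ r := Nat.le_ceil _
  have hr2 : (r : ℝ) < 23 * l + 1 := Nat.ceil_lt_add_one (by positivity)
  -- the sieve inequality
  have hwA : ww x ≤ A := by
    rw [hw, hAa]
    exact Real.exp_le_exp.2 hua'
  have hzA : z ≤ A := by
    rw [hz, hAa]
    exact Real.exp_le_exp.2 (by linarith)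
  refine (lhs_le (by linarith) hwA (by linarith) hzA).trans ?_
  refine (main_ineq (S := SS (ww x)) (P := PZ z) (Y := Real.exp (a / 8)) (fun q hq => SS_prop hq)
    (fun q hq => ((mem_PZ' (by linarith)).1 hq).1) hA0.le (Real.exp_pos _).le r).trans ?_
  set S : Finset ℕ := SS (ww x) with hS
  have hS2 : ∀ q ∈ S, 2 ≤ q := fun q hq => (SS_prop hq).1.two_le
  -- the first factor
  have hcc0 : 0 ≤ cc S ∅ := cc_nonneg hS2
  have hcc : cc S ∅ ≤ 2 * v := by
    have h3 := cc_sq_le h2 hw2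
    rw [hlw] at h3
    have h4 : 4 / u = (2 * v) ^ 2 := by
      rw [div_eq_iff hu0.ne']
      linear_combination (-4 : ℝ) * hv2
    rw [h4] at h3
    exact le_of_sq_le_sq h3 (by positivity)
  have hla0 : 0 ≤ l / a := by positivity
  have hP0 : ∏ q ∈ PZ z, (1 - 1 / (q : ℝ)) ≤ 9000000 * (l / a) := by
    have h3 := h2 z hz2
    rw [hlz] at h3
    have h4 : 1 / t = 9000000 * (l / a) := by
      rw [ht]
      field_simp
    rwa [h4] at h3
  have hfac : (∑ q ∈ PZ z, 1 / (q : ℝ)) ^ (2 * r + 1) / (2 * r + 1).factorial ≤ l / a := by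
    set σ : ℝ := ∑ q ∈ PZ z, 1 / (q : ℝ) with hσ
    have hσ0 : 0 ≤ σ := sum_nonneg fun q _ => by positivity
    have hσ1 : σ ≤ 3 * l := by
      have h3 := h1 z hz2
      rw [hlz] at h3
      have h4 : Real.log (1 + t) ≤ l := Real.log_le_log (by linarith) (by linarith)
      linarith
    have h3 : Real.exp 1 ^ 2 * σ ≤ ((2 * r + 1 : ℕ) : ℝ) := by
      push_cast
      have h4 : Real.exp 1 ^ 2 ≤ 7.5 := by
        have h5 := Real.exp_one_lt_d9
        have h6 : 0 < Real.exp 1 := Real.exp_pos 1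
        nlinarith
      calc Real.exp 1 ^ 2 * σ ≤ 7.5 * (3 * l) := mul_le_mul h4 hσ1 hσ0 (by norm_num)
        _ ≤ 2 * (r : ℝ) + 1 := by linarith
    refine (brz_pow_div_factorial σ (2 * r + 1) hσ0 (by omega) h3).trans ?_
    have h4 : Real.exp (-((2 * r + 1 : ℕ) : ℝ)) ≤ Real.exp (-l) := by
      refine Real.exp_le_exp.2 ?_
      push_cast
      linarith
    refine h4.trans ?_
    rw [Real.exp_neg, hl, Real.exp_log hL0, ← one_div]
    rw [div_le_div_iff₀ hL0 ha0]
    nlinarith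
  -- the second term
  have hc0 : (0 : ℝ) ≤ ((PZ z).card : ℝ) := Nat.cast_nonneg _
  have hc1 : (0 : ℝ) ≤ 1 + ((PZ z).card : ℝ) := by linarith
  have hpow : (1 + ((PZ z).card : ℝ)) ^ (2 * r) ≤ Real.exp (a / 8) := by
    have h3 : ((PZ z).card : ℝ) ≤ z := by
      have h4 : (PZ z).card ≤ ⌊z⌋₊ := by
        unfold PZ
        refine (card_filter_le _ _).trans ?_
        rw [Nat.card_Icc]
        omega
      calc ((PZ z).card : ℝ) ≤ (⌊z⌋₊ : ℝ) := by exact_mod_cast h4
        _ ≤ z := Nat.floor_le (by linarith)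
    have h4 : 1 + ((PZ z).card : ℝ) ≤ Real.exp (1 + t) := by
      have h5 : (2 : ℝ) ≤ Real.exp 1 := by
        have := Real.add_one_le_exp (1 : ℝ)
        linarith
      rw [Real.exp_add, ← hz]
      nlinarith
    calc (1 + ((PZ z).card : ℝ)) ^ (2 * r) ≤ Real.exp (1 + t) ^ (2 * r) :=
          pow_le_pow_left₀ hc1 h4 _
      _ = Real.exp (((2 * r : ℕ) : ℝ) * (1 + t)) := by rw [Real.exp_nat_mul]
      _ ≤ Real.exp (a / 8) := by
          refine Real.exp_le_exp.2 ?_
          push_cast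
          have h5 : 2 * (r : ℝ) ≤ 48 * l := by linarith
          have h6 : 2 * (r : ℝ) * (1 + t) ≤ 48 * l * (1 + t) :=
            mul_le_mul_of_nonneg_right h5 (by linarith)
          have h7 : 48 * l * (1 + t) = 48 * l + 48 * (t * l) := by ring
          rw [h7, ht1] at h6
          linarith
  have hterm2 : (2 + Real.exp (a / 8)) * (1 + ((PZ z).card : ℝ)) ^ (2 * r) ≤ A * (l / a) * v := by
    have h3 : (1 : ℝ) ≤ Real.exp (a / 8) := Real.one_le_exp (by positivity)
    have h4 : (2 + Real.exp (a / 8)) * (1 + ((PZ z).card : ℝ)) ^ (2 * r) ≤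
        (3 * Real.exp (a / 8)) * Real.exp (a / 8) :=
      mul_le_mul (by linarith) hpow (pow_nonneg hc1 _) (by positivity)
    have h5 : Real.exp (a / 8) * Real.exp (a / 8) = Real.exp (a / 4) := by
      rw [← Real.exp_add]
      congr 1
      ring
    have h6 : A = Real.exp (a / 4) * Real.exp (3 * a / 4) := by
      rw [← Real.exp_add, hAa]
      congr 1
      ring
    have h7 := c5 a ha1
    have h8 : 3 * Real.exp (a / 4) ≤ A * (l / a) * v := by
      have h9 : Real.exp (a / 4) * (3 * a ^ 2) * (l / a) * v ≤ A * (l / a) * v := by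
        rw [h6]
        gcongr
      refine le_trans ?_ h9
      have h10 : Real.exp (a / 4) * (3 * a ^ 2) * (l / a) * v =
          3 * Real.exp (a / 4) * (l * (a * v)) := by
        field_simp
      rw [h10]
      apply le_mul_of_one_le_right (by positivity)
      nlinarith
    calc _ ≤ _ := h4
      _ = 3 * Real.exp (a / 4) := by rw [mul_assoc, h5]
      _ ≤ _ := h8
  -- the third term
  have hterm3 : tau S (Real.exp (a / 8)) * A * ∏ q ∈ PZ z, (1 + 1 / (q : ℝ)) ≤
      A * (l / a) * v := by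
    have h3 : tau S (Real.exp (a / 8)) ≤ Real.exp (-(u / 8)) * (1 + u) ^ 3 := by
      refine (tau_le h1 hw2 (Real.exp_pos _)).trans ?_
      rw [hlw, Real.log_exp]
      refine mul_le_mul_of_nonneg_right (Real.exp_le_exp.2 ?_) (by positivity)
      have h4 : u / 8 ≤ a / 8 / u := by
        rw [le_div_iff₀ hu0]
        nlinarith
      linarith
    have h4 : ∏ q ∈ PZ z, (1 + 1 / (q : ℝ)) ≤ (u ^ 4) ^ 3 := by
      refine (prod_one_add_le h1 hz2).trans ?_
      rw [hlz]
      refine pow_le_pow_left₀ (by linarith) ?_ 3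
      rw [← hu4]
      linarith
    have h5 : (1 + u) ^ 3 ≤ 8 * u ^ 3 := by
      have h6 : (1 + u) ^ 3 ≤ (2 * u) ^ 3 := pow_le_pow_left₀ (by linarith) (by linarith) 3
      calc _ ≤ _ := h6
        _ = 8 * u ^ 3 := by ring
    have h6 : tau S (Real.exp (a / 8)) * ∏ q ∈ PZ z, (1 + 1 / (q : ℝ)) ≤
        Real.exp (-(u / 8)) * (8 * u ^ 15) := by
      calc tau S (Real.exp (a / 8)) * ∏ q ∈ PZ z, (1 + 1 / (q : ℝ))
          ≤ (Real.exp (-(u / 8)) * (8 * u ^ 3)) * (u ^ 4) ^ 3 := by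
            apply mul_le_mul _ h4 (prod_nonneg fun q _ => by positivity) (by positivity)
            exact h3.trans (mul_le_mul_of_nonneg_left h5 (Real.exp_pos _).le)
        _ = Real.exp (-(u / 8)) * (8 * u ^ 15) := by ring
    have h7 : Real.exp (-(u / 8)) * (8 * u ^ 15) ≤ l / a * v := by
      have h8 : Real.exp (-(u / 8)) * (8 * u ^ 20) ≤ 1 := by
        calc Real.exp (-(u / 8)) * (8 * u ^ 20) ≤ Real.exp (-(u / 8)) * Real.exp (u / 8) :=
              mul_le_mul_of_nonneg_left c4 (Real.exp_pos _).le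
          _ = 1 := by rw [← Real.exp_add]; simp
      have h9 : Real.exp (-(u / 8)) * (8 * u ^ 15) * u ^ 5 ≤ 1 := by
        calc _ = Real.exp (-(u / 8)) * (8 * u ^ 20) := by ring
          _ ≤ 1 := h8
      have h10 : 1 ≤ (l / a * v) * u ^ 5 := by
        have h11 : (1 : ℝ) ≤ l / a * u ^ 4 := by
          rw [← hu4, div_mul_eq_mul_div, one_le_div ha0]
          nlinarith
        calc (1 : ℝ) = 1 * 1 := (mul_one 1).symm
          _ ≤ (l / a * u ^ 4) * (u * v) := mul_le_mul h11 huv zero_le_one (by positivity)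
          _ = (l / a * v) * u ^ 5 := by ring
      exact le_of_mul_le_mul_right (h9.trans h10) (by positivity)
    calc tau S (Real.exp (a / 8)) * A * ∏ q ∈ PZ z, (1 + 1 / (q : ℝ))
        = A * (tau S (Real.exp (a / 8)) * ∏ q ∈ PZ z, (1 + 1 / (q : ℝ))) := by ring
      _ ≤ A * (l / a * v) := mul_le_mul_of_nonneg_left (h6.trans h7) hA0.le
      _ = A * (l / a) * v := by ring
  -- the first term
  have hterm1 : cc S ∅ * A * (∏ q ∈ PZ z, (1 - 1 / (q : ℝ)) +
        (∑ q ∈ PZ z, 1 / (q : ℝ)) ^ (2 * r + 1) / (2 * r + 1).factorial) ≤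
      2 * v * A * (9000001 * (l / a)) := by
    have h3 : ∏ q ∈ PZ z, (1 - 1 / (q : ℝ)) +
        (∑ q ∈ PZ z, 1 / (q : ℝ)) ^ (2 * r + 1) / (2 * r + 1).factorial ≤ 9000001 * (l / a) := by
      linarith
    calc _ ≤ cc S ∅ * A * (9000001 * (l / a)) :=
          mul_le_mul_of_nonneg_left h3 (mul_nonneg hcc0 hA0.le)
      _ ≤ _ := by
          refine mul_le_mul_of_nonneg_right ?_ (by positivity)
          exact mul_le_mul_of_nonneg_right hcc hA0.le
  calc _ ≤ 2 * v * A * (9000001 * (l / a)) + A * (l / a) * v + A * (l / a) * v :=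
        add_le_add (add_le_add hterm1 hterm2) hterm3
    _ = 18000004 * A * (l / a) * v := by ring

end Pool.Agent.H27.AP
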