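import Pool.Agent.H27.AP.Defs

/-!
# Sums of products of quadratic characters over intervals
-/

set_option autoImplicit false

namespace Pool.Agent.H27.AP.AVx

open Finset

/-- product of quadratic characters -/
noncomputable def chi (d : Finset ℕ) (a : ℕ) : ℝ := ∏ q ∈ d, ((jacobiSym (a : ℤ) q : ℤ) : ℝ)

lemma chi_empty (a : ℕ) : chi ∅ a = 1 := by simp [chi]

lemma chi_mul (d : Finset ℕ) (a b : ℕ) : chi d (a * b) = chi d a * chi d b := by
  unfold chi
  rw [← prod_mul_distrib]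
  refine prod_congr rfl fun q _ => ?_
  rw [Nat.cast_mul, jacobiSym.mul_left]
  push_cast
  rfl

lemma chi_abs (d : Finset ℕ) (a : ℕ) : |chi d a| ≤ 1 := by
  unfold chi
  rw [abs_prod]
  refine prod_le_one (fun q _ => abs_nonneg _) fun q _ => ?_
  rcases jacobiSym.trichotomy (a : ℤ) q with h | h | h <;> rw [h] <;> norm_num

lemma chi_mod {d : Finset ℕ} {D : ℕ} (h : ∀ q ∈ d, q ∣ D) (a : ℕ) : chi d (a % D) = chi d a := by
  unfold chi
  refine prod_congr rfl fun q hq => ?_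
  have h1 : (((a % D : ℕ) : ℤ) % (q : ℤ)) = ((a : ℤ) % (q : ℤ)) := by
    exact_mod_cast Nat.mod_mod_of_dvd a (h q hq)
  rw [jacobiSym.mod_left' h1]

lemma chi_add {d : Finset ℕ} {D : ℕ} (h : ∀ q ∈ d, q ∣ D) (a : ℕ) :
    chi d (D + a) = chi d a := by
  rw [← chi_mod h (D + a), Nat.add_mod_left, chi_mod h]

lemma exists_neg {d : Finset ℕ} (hne : d.Nonempty) (hd : ∀ q ∈ d, q.Prime ∧ q ≠ 2) :
    ∃ b, chi d b = -1 := by
  obtain ⟨q₀, hq₀⟩ := hne
  obtain ⟨hp, h2⟩ := hd q₀ hq₀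
  have : Fact q₀.Prime := ⟨hp⟩
  have hch : ringChar (ZMod q₀) ≠ 2 := by
    rw [ZMod.ringChar_zmod_n]
    exact h2
  obtain ⟨g, hg⟩ := FiniteField.exists_nonsquare hch
  have hcop : Nat.Coprime q₀ (∏ q ∈ d.erase q₀, q) := by
    apply Nat.Coprime.prod_right
    intro q hq
    rw [mem_erase] at hq
    exact (Nat.coprime_primes hp (hd q hq.2).1).2 fun h => hq.1 h.symm
  obtain ⟨b, hb1, hb2⟩ := Nat.chineseRemainder hcop g.val 1
  refine ⟨b, ?_⟩
  unfold chi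
  rw [← mul_prod_erase d _ hq₀]
  have e1 : jacobiSym (b : ℤ) q₀ = -1 := by
    rw [← jacobiSym.legendreSym.to_jacobiSym, legendreSym.eq_neg_one_iff]
    have h3 : ((b : ℤ) : ZMod q₀) = g := by
      have h1 : (b : ZMod q₀) = ((g.val : ℕ) : ZMod q₀) := (ZMod.natCast_eq_natCast_iff _ _ _).2 hb1
      rw [ZMod.natCast_zmod_val] at h1
      simpa using h1
    rw [h3]
    exact hg
  have e2 : ∏ q ∈ d.erase q₀, ((jacobiSym (b : ℤ) q : ℤ) : ℝ) = 1 := by
    apply prod_eq_one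
    intro q hq
    have h3 : b ≡ 1 [MOD q] := hb2.of_dvd (dvd_prod_of_mem _ hq)
    have h4 : ((b : ℤ) % (q : ℤ)) = ((1 : ℤ) % (q : ℤ)) := by
      exact_mod_cast h3
    rw [jacobiSym.mod_left' h4, jacobiSym.one_left]
    norm_num
  rw [e1, e2]
  norm_num

lemma sum_period {d : Finset ℕ} (hne : d.Nonempty) (hd : ∀ q ∈ d, q.Prime ∧ q ≠ 2) :
    ∑ a ∈ range (∏ q ∈ d, q), chi d a = 0 := by
  obtain ⟨b, hb⟩ := exists_neg hne hd
  set D : ℕ := ∏ q ∈ d, q with hD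
  have hdvd : ∀ q ∈ d, q ∣ D := fun q hq => dvd_prod_of_mem _ hq
  have hDpos : 0 < D := prod_pos fun q hq => (hd q hq).1.pos
  have : NeZero D := ⟨hDpos.ne'⟩
  have hcop : Nat.Coprime b D := by
    apply Nat.Coprime.prod_right
    intro q hq
    have hq0 : q ≠ 0 := (hd q hq).1.ne_zero
    by_contra hcon
    have h1 : jacobiSym (b : ℤ) q = 0 := jacobiSym.eq_zero_iff.2 ⟨hq0, by
      rw [Int.gcd_natCast_natCast]; exact hcon⟩
    have h2 : chi d b = 0 := by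
      unfold chi
      apply prod_eq_zero hq
      rw [h1]
      norm_num
    rw [h2] at hb
    norm_num at hb
  have hsum : ∑ m ∈ range D, chi d m = ∑ x : ZMod D, chi d x.val := by
    refine (Finset.sum_nbij' (fun x : ZMod D => x.val) (fun m : ℕ => (m : ZMod D))
      ?_ ?_ ?_ ?_ ?_).symm
    · intro x _; exact Finset.mem_range.2 (ZMod.val_lt x)
    · intro m _; exact Finset.mem_univ _
    · intro x _; exact ZMod.natCast_zmod_val x
    · intro m hm; exact ZMod.val_cast_of_lt (Finset.mem_range.1 hm)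
    · intro x _; rfl
  have hmul : ∑ x : ZMod D, chi d ((ZMod.unitOfCoprime b hcop : ZMod D) * x).val =
      ∑ x : ZMod D, chi d x.val :=
    Fintype.sum_equiv (Units.mulLeft (ZMod.unitOfCoprime b hcop)) _ _ (fun x => rfl)
  have hval : ∀ x : ZMod D,
      chi d ((ZMod.unitOfCoprime b hcop : ZMod D) * x).val = - chi d x.val := by
    intro x
    rw [ZMod.coe_unitOfCoprime, ZMod.val_mul, chi_mod hdvd, chi_mul, ZMod.val_natCast,
      chi_mod hdvd, hb]
    ring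
  rw [hsum]
  simp only [hval, Finset.sum_neg_distrib] at hmul
  linarith

lemma sum_period_shift {d : Finset ℕ} (hne : d.Nonempty) (hd : ∀ q ∈ d, q.Prime ∧ q ≠ 2)
    (m : ℕ) : ∑ i ∈ range (∏ q ∈ d, q), chi d (m + i) = 0 := by
  have hdvd : ∀ q ∈ d, q ∣ ∏ q ∈ d, q := fun q hq => dvd_prod_of_mem _ hq
  induction m with
  | zero => simpa using sum_period hne hd
  | succ m ih =>
    have h1 := sum_range_succ (fun i => chi d (m + i)) (∏ q ∈ d, q)
    have h2 := sum_range_succ' (fun i => chi d (m + i)) (∏ q ∈ d, q)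
    rw [h1, ih, zero_add] at h2
    have h3 : chi d (m + ∏ q ∈ d, q) = chi d m := by
      rw [add_comm, chi_add hdvd]
    have h4 : ∀ i, chi d (m + 1 + i) = chi d (m + (i + 1)) := fun i => by
      congr 1; omega
    simp only [h4]
    rw [h3, add_zero] at h2
    linarith

lemma sum_shift_le {d : Finset ℕ} (hne : d.Nonempty) (hd : ∀ q ∈ d, q.Prime ∧ q ≠ 2) :
    ∀ N m : ℕ, |∑ i ∈ range N, chi d (m + i)| ≤ ((∏ q ∈ d, q : ℕ) : ℝ) := by
  have hDpos : 0 < ∏ q ∈ d, q := prod_pos fun q hq => (hd q hq).1.pos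
  intro N
  induction N using Nat.strong_induction_on with
  | _ N ih =>
    intro m
    by_cases h : ∏ q ∈ d, q ≤ N
    · obtain ⟨k, rfl⟩ := Nat.exists_eq_add_of_le h
      rw [sum_range_add, sum_period_shift hne hd, zero_add]
      have h1 : ∀ i, chi d (m + (∏ q ∈ d, q + i)) = chi d (m + ∏ q ∈ d, q + i) := fun i => by
        congr 1; omega
      simp only [h1]
      exact ih k (by omega) _
    · push Not at h
      calc |∑ i ∈ range N, chi d (m + i)| ≤ ∑ i ∈ range N, |chi d (m + i)| :=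
            Finset.abs_sum_le_sum_abs _ _
        _ ≤ ∑ i ∈ range N, (1 : ℝ) := Finset.sum_le_sum fun i _ => chi_abs d _
        _ = N := by simp
        _ ≤ _ := by exact_mod_cast h.le

/-- sums over intervals -/
lemma sum_Ioc_le {d : Finset ℕ} (hne : d.Nonempty) (hd : ∀ q ∈ d, q.Prime ∧ q ≠ 2)
    (m n : ℕ) : |∑ b ∈ Ioc m n, chi d b| ≤ ((∏ q ∈ d, q : ℕ) : ℝ) := by
  have h1 : Ioc m n = Ico (m + 1) (n + 1) := by
    ext a
    rw [mem_Ioc, mem_Ico]
    omega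
  rw [h1, sum_Ico_eq_sum_range]
  exact sum_shift_le hne hd _ _

lemma sum_Ioc_triv (d : Finset ℕ) (m n : ℕ) :
    |∑ b ∈ Ioc m n, chi d b| ≤ ((n - m : ℕ) : ℝ) := by
  calc |∑ b ∈ Ioc m n, chi d b| ≤ ∑ b ∈ Ioc m n, |chi d b| := abs_sum_le_sum_abs _ _
    _ ≤ ∑ b ∈ Ioc m n, (1 : ℝ) := sum_le_sum fun b _ => chi_abs d b
    _ = _ := by simp

/-- multiples of `m` in an interval -/
lemma sum_multiples {m : ℕ} (hm : 0 < m) (X Z : ℕ) (f : ℕ → ℝ) :
    ∑ a ∈ (Ioc X Z).filter (fun a => m ∣ a), f a = ∑ b ∈ Ioc (X / m) (Z / m), f (m * b) := by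
  symm
  apply sum_bij (fun b _ => m * b)
  · intro b hb
    rw [mem_Ioc] at hb
    rw [mem_filter, mem_Ioc]
    refine ⟨⟨?_, ?_⟩, dvd_mul_right m b⟩
    · rw [mul_comm]
      exact (Nat.div_lt_iff_lt_mul hm).1 hb.1
    · rw [mul_comm]
      exact (Nat.le_div_iff_mul_le hm).1 hb.2
  · intro b _ b' _ h
    exact Nat.eq_of_mul_eq_mul_left hm h
  · intro a ha
    rw [mem_filter, mem_Ioc] at ha
    obtain ⟨⟨h1, h2⟩, b, rfl⟩ := ha
    refine ⟨b, ?_, rfl⟩
    rw [mem_Ioc]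
    refine ⟨(Nat.div_lt_iff_lt_mul hm).2 (by rw [mul_comm]; exact h1),
      (Nat.le_div_iff_mul_le hm).2 (by rw [mul_comm]; exact h2)⟩
  · intro b _
    rfl

/-- the sum over the multiples of `m` -/
lemma sum_chi_multiples_le {d : Finset ℕ} (hne : d.Nonempty) (hd : ∀ q ∈ d, q.Prime ∧ q ≠ 2)
    {m : ℕ} (hm : 0 < m) (X Z : ℕ) :
    |∑ a ∈ (Ioc X Z).filter (fun a => m ∣ a), chi d a| ≤ ((∏ q ∈ d, q : ℕ) : ℝ) := by
  rw [sum_multiples hm]
  simp only [chi_mul]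
  rw [← mul_sum, abs_mul]
  calc |chi d m| * |∑ b ∈ Ioc (X / m) (Z / m), chi d b| ≤ 1 * ((∏ q ∈ d, q : ℕ) : ℝ) := by
        apply mul_le_mul (chi_abs d m) (sum_Ioc_le hne hd _ _) (abs_nonneg _) zero_le_one
    _ = _ := one_mul _

lemma sum_chi_multiples_triv (d : Finset ℕ) {m : ℕ} (hm : 0 < m) (X Z : ℕ) :
    |∑ a ∈ (Ioc X Z).filter (fun a => m ∣ a), chi d a| ≤ ((Z / m - X / m : ℕ) : ℝ) := by
  rw [sum_multiples hm]
  simp only [chi_mul]
  rw [← mul_sum, abs_mul]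
  calc |chi d m| * |∑ b ∈ Ioc (X / m) (Z / m), chi d b| ≤ 1 * ((Z / m - X / m : ℕ) : ℝ) := by
        apply mul_le_mul (chi_abs d m) (sum_Ioc_triv d _ _) (abs_nonneg _) zero_le_one
    _ = _ := one_mul _

end Pool.Agent.H27.AP.AVx
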