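import Pool.Agent.H27.AP.AVa

/-!
# The weights
-/

set_option autoImplicit false

namespace Pool.Agent.H27.AP.AVx

open Finset

/-- the weight of an integer -/
noncomputable def Phi (S : Finset ℕ) (a : ℕ) : ℝ :=
  ∏ q ∈ S, (((jacobiSym (a : ℤ) q : ℤ) : ℝ) / (2 * q) + (1 - 1 / (2 * (q : ℝ))))

/-- the coefficients -/
noncomputable def cc (S d : Finset ℕ) : ℝ :=
  (∏ q ∈ d, 1 / (2 * (q : ℝ))) * ∏ q ∈ S \ d, (1 - 1 / (2 * (q : ℝ)))

lemma Phi_eq (S : Finset ℕ) (a : ℕ) : Phi S a = ∑ d ∈ S.powerset, cc S d * chi d a := by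
  unfold Phi
  rw [prod_add]
  refine sum_congr rfl fun d _ => ?_
  have h1 : ∏ q ∈ d, ((jacobiSym (a : ℤ) q : ℤ) : ℝ) / (2 * q) =
      (∏ q ∈ d, 1 / (2 * (q : ℝ))) * chi d a := by
    unfold chi
    rw [← prod_mul_distrib]
    refine prod_congr rfl fun q _ => ?_
    ring
  rw [h1]
  unfold cc
  ring

lemma half_pos {q : ℕ} (hq : 2 ≤ q) : (0 : ℝ) ≤ 1 - 1 / (2 * (q : ℝ)) := by
  have h1 : (2 : ℝ) ≤ q := by exact_mod_cast hq
  rw [sub_nonneg, div_le_one (by linarith)]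
  linarith

lemma cc_nonneg {S d : Finset ℕ} (hS : ∀ q ∈ S, 2 ≤ q) : 0 ≤ cc S d := by
  unfold cc
  apply mul_nonneg
  · exact prod_nonneg fun q _ => by positivity
  · exact prod_nonneg fun q hq => half_pos (hS q (mem_sdiff.1 hq).1)

lemma sum_cc (S : Finset ℕ) : ∑ d ∈ S.powerset, cc S d = 1 := by
  unfold cc
  rw [← prod_add]
  apply prod_eq_one
  intro q _
  ring

lemma cc_empty (S : Finset ℕ) : cc S ∅ = ∏ q ∈ S, (1 - 1 / (2 * (q : ℝ))) := by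
  unfold cc
  simp

lemma Phi_nonneg {S : Finset ℕ} (hS : ∀ q ∈ S, 2 ≤ q) (a : ℕ) : 0 ≤ Phi S a := by
  apply prod_nonneg
  intro q hq
  have h1 : (2 : ℝ) ≤ q := by exact_mod_cast hS q hq
  have h2 : -1 ≤ ((jacobiSym (a : ℤ) q : ℤ) : ℝ) := by
    rcases jacobiSym.trichotomy (a : ℤ) q with h | h | h <;> rw [h] <;> norm_num
  have h3 : -(1 / (2 * (q : ℝ))) ≤ ((jacobiSym (a : ℤ) q : ℤ) : ℝ) / (2 * q) := by
    rw [← neg_div]
    gcongr
  have h4 : 1 / (2 * (q : ℝ)) ≤ 1 / 4 := by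
    apply one_div_le_one_div_of_le (by norm_num)
    linarith
  linarith

/-- the mass of the large coefficients -/
noncomputable def tau (S : Finset ℕ) (Y : ℝ) : ℝ :=
  ∑ d ∈ S.powerset.filter (fun d => Y < ((∏ q ∈ d, q : ℕ) : ℝ)), cc S d

lemma tau_nonneg {S : Finset ℕ} (hS : ∀ q ∈ S, 2 ≤ q) (Y : ℝ) : 0 ≤ tau S Y :=
  sum_nonneg fun _ _ => cc_nonneg hS

lemma tau_le_one {S : Finset ℕ} (hS : ∀ q ∈ S, 2 ≤ q) (Y : ℝ) : tau S Y ≤ 1 := by
  rw [← sum_cc S]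
  exact sum_le_sum_of_subset_of_nonneg (filter_subset _ _) fun _ _ _ => cc_nonneg hS

/-- the sum of the weights of the multiples of `m` -/
lemma sum_Phi_multiples {S : Finset ℕ} (hS : ∀ q ∈ S, q.Prime ∧ q ≠ 2) {m : ℕ} (hm : 0 < m)
    (X Z : ℕ) {Y : ℝ} (hY : 0 ≤ Y) :
    |∑ a ∈ (Ioc X Z).filter (fun a => m ∣ a), Phi S a - cc S ∅ * ((Z / m - X / m : ℕ) : ℝ)| ≤
      Y + tau S Y * ((Z / m - X / m : ℕ) : ℝ) := by
  have hS2 : ∀ q ∈ S, 2 ≤ q := fun q hq => (hS q hq).1.two_le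
  set N : ℝ := ((Z / m - X / m : ℕ) : ℝ) with hN
  have hN0 : 0 ≤ N := Nat.cast_nonneg _
  have h1 : ∑ a ∈ (Ioc X Z).filter (fun a => m ∣ a), Phi S a =
      ∑ d ∈ S.powerset, cc S d * ∑ a ∈ (Ioc X Z).filter (fun a => m ∣ a), chi d a := by
    simp only [Phi_eq]
    rw [sum_comm]
    refine sum_congr rfl fun d _ => ?_
    rw [mul_sum]
  have h2 : ∑ a ∈ (Ioc X Z).filter (fun a => m ∣ a), chi ∅ a = N := by
    rw [sum_multiples hm]
    simp [chi_empty, hN]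
  have h3 : ∅ ∈ S.powerset := empty_mem_powerset S
  rw [h1, ← add_sum_erase _ _ h3, h2, add_sub_cancel_left]
  calc |∑ d ∈ S.powerset.erase ∅, cc S d * ∑ a ∈ (Ioc X Z).filter (fun a => m ∣ a), chi d a|
      ≤ ∑ d ∈ S.powerset.erase ∅,
          |cc S d * ∑ a ∈ (Ioc X Z).filter (fun a => m ∣ a), chi d a| := abs_sum_le_sum_abs _ _
    _ ≤ ∑ d ∈ S.powerset.erase ∅, cc S d *
          (Y + if Y < ((∏ q ∈ d, q : ℕ) : ℝ) then N else 0) := by
        apply sum_le_sum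
        intro d hd
        rw [mem_erase, mem_powerset] at hd
        rw [abs_mul, abs_of_nonneg (cc_nonneg hS2)]
        apply mul_le_mul_of_nonneg_left _ (cc_nonneg hS2)
        by_cases hlt : Y < ((∏ q ∈ d, q : ℕ) : ℝ)
        · rw [if_pos hlt]
          have := sum_chi_multiples_triv d hm X Z
          linarith
        · rw [if_neg hlt]
          have := sum_chi_multiples_le (nonempty_iff_ne_empty.2 hd.1)
            (fun q hq => hS q (hd.2 hq)) hm X Z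
          push Not at hlt
          linarith
    _ ≤ ∑ d ∈ S.powerset, cc S d * (Y + if Y < ((∏ q ∈ d, q : ℕ) : ℝ) then N else 0) := by
        apply sum_le_sum_of_subset_of_nonneg (erase_subset _ _)
        intro d _ _
        apply mul_nonneg (cc_nonneg hS2)
        split_ifs <;> linarith
    _ = Y + tau S Y * N := by
        simp only [mul_add]
        rw [sum_add_distrib, ← sum_mul, sum_cc, one_mul]
        congr 1
        unfold tau
        rw [sum_mul, sum_filter]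
        refine sum_congr rfl fun d _ => ?_
        split_ifs <;> simp

/-- the number of multiples -/
lemma count_multiples {A : ℝ} (hA : 0 ≤ A) {m : ℕ} (hm : 0 < m) :
    |((⌊2 * A⌋₊ / m - ⌊A⌋₊ / m : ℕ) : ℝ) - A / m| ≤ 1 := by
  have hm' : (0 : ℝ) < m := by exact_mod_cast hm
  have h1 : ⌊2 * A⌋₊ / m = ⌊2 * A / m⌋₊ := (Nat.floor_div_natCast _ _).symm
  have h2 : ⌊A⌋₊ / m = ⌊A / m⌋₊ := (Nat.floor_div_natCast _ _).symm
  have h3 : ⌊A / (m : ℝ)⌋₊ ≤ ⌊2 * A / (m : ℝ)⌋₊ := by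
    apply Nat.floor_le_floor
    gcongr
    linarith
  rw [h1, h2, Nat.cast_sub h3]
  have e1 := Nat.floor_le (show 0 ≤ 2 * A / (m : ℝ) by positivity)
  have e2 := Nat.lt_floor_add_one (2 * A / (m : ℝ))
  have e3 := Nat.floor_le (show 0 ≤ A / (m : ℝ) by positivity)
  have e4 := Nat.lt_floor_add_one (A / (m : ℝ))
  have e5 : 2 * A / (m : ℝ) = 2 * (A / m) := by ring
  rw [e5] at e1 e2
  rw [e5]
  rw [abs_le]
  constructor <;> linarith

/-- the sum of the weights of the multiples of `m` in `(A, 2A]` -/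
lemma sum_Phi_le {S : Finset ℕ} (hS : ∀ q ∈ S, q.Prime ∧ q ≠ 2) {m : ℕ} (hm : 0 < m)
    {A Y : ℝ} (hA : 0 ≤ A) (hY : 0 ≤ Y) :
    |∑ a ∈ (Ioc ⌊A⌋₊ ⌊2 * A⌋₊).filter (fun a => m ∣ a), Phi S a - cc S ∅ * (A / m)| ≤
      2 + Y + tau S Y * (A / m) := by
  have hS2 : ∀ q ∈ S, 2 ≤ q := fun q hq => (hS q hq).1.two_le
  have h1 := sum_Phi_multiples hS hm ⌊A⌋₊ ⌊2 * A⌋₊ hY
  have h2 := count_multiples hA hm
  set N : ℝ := ((⌊2 * A⌋₊ / m - ⌊A⌋₊ / m : ℕ) : ℝ) with hN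
  have h3 : 0 ≤ cc S ∅ := cc_nonneg hS2
  have h4 : cc S ∅ ≤ 1 := by
    rw [← sum_cc S]
    exact single_le_sum (f := fun d => cc S d) (fun _ _ => cc_nonneg hS2) (empty_mem_powerset S)
  have h5 := tau_nonneg hS2 Y
  have h6 := tau_le_one hS2 Y
  have h7 : |cc S ∅ * N - cc S ∅ * (A / m)| ≤ 1 := by
    rw [← mul_sub, abs_mul, abs_of_nonneg h3]
    calc cc S ∅ * |N - A / m| ≤ 1 * 1 := mul_le_mul h4 h2 (abs_nonneg _) zero_le_one
      _ = 1 := one_mul _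
  have h8 : tau S Y * N ≤ tau S Y * (A / m) + 1 := by
    have e1 : N ≤ A / m + 1 := by
      have := (abs_le.1 h2).2
      linarith
    calc tau S Y * N ≤ tau S Y * (A / m + 1) := by gcongr
      _ = tau S Y * (A / m) + tau S Y := by ring
      _ ≤ _ := by linarith
  calc _ = |(∑ a ∈ (Ioc ⌊A⌋₊ ⌊2 * A⌋₊).filter (fun a => m ∣ a), Phi S a - cc S ∅ * N) +
        (cc S ∅ * N - cc S ∅ * (A / m))| := by congr 1; ring
    _ ≤ _ := abs_add_le _ _
    _ ≤ _ := by linarith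

end Pool.Agent.H27.AP.AVx
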