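import Mathlib

/-!
# Elementary symmetric sums: Bonferroni inequalities
-/

set_option autoImplicit false

namespace Pool.Agent.H27.AP

open Finset

/-- partial alternating sums of binomial coefficients -/
lemma alt_choose (n m : ℕ) :
    ∑ j ∈ Finset.range (m + 1), (-1 : ℤ) ^ j * ((n + 1).choose j : ℤ) = (-1) ^ m * (n.choose m : ℤ) := by
  induction m with
  | zero => simp
  | succ m ih =>
    rw [Finset.sum_range_succ, ih, Nat.choose_succ_succ]
    push_cast
    ring

theorem bonf (B : Finset ℕ) (r : ℕ) :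
    (if B = ∅ then (1 : ℤ) else 0) ≤
      ∑ j ∈ Finset.range (2 * r + 1), (-1) ^ j * (B.card.choose j : ℤ) := by
  by_cases hB : B = ∅
  · subst hB
    have h := Finset.sum_range_succ' (fun j => (-1 : ℤ) ^ j * ((Finset.card (∅ : Finset ℕ)).choose j : ℤ)) (2 * r)
    rw [h]
    simp
  · rw [if_neg hB]
    have hc : 0 < B.card := Finset.card_pos.mpr (Finset.nonempty_iff_ne_empty.mpr hB)
    obtain ⟨n, hn⟩ := Nat.exists_eq_succ_of_ne_zero hc.ne'
    rw [hn, Nat.succ_eq_add_one, alt_choose]
    have : (-1 : ℤ) ^ (2 * r) = 1 := by rw [pow_mul]; norm_num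
    rw [this, one_mul]
    exact_mod_cast Nat.zero_le _

/-- the elementary symmetric sums of an inserted element -/
lemma esum_insert (P : Finset ℕ) (g : ℕ → ℝ) (a : ℕ) (ha : a ∉ P) (j : ℕ) :
    ∑ d ∈ (insert a P).powersetCard (j + 1), ∏ q ∈ d, g q =
      ∑ d ∈ P.powersetCard (j + 1), ∏ q ∈ d, g q + g a * ∑ d ∈ P.powersetCard j, ∏ q ∈ d, g q := by
  rw [Finset.powersetCard_succ_insert ha, Finset.sum_union]
  · congr 1
    rw [Finset.sum_image, Finset.mul_sum]
    · refine Finset.sum_congr rfl fun d hd => ?_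
      rw [Finset.prod_insert]
      intro h
      exact ha ((Finset.mem_powersetCard.mp hd).1 h)
    · intro d hd d' hd' h
      have h1 : a ∉ d := fun h => ha ((Finset.mem_powersetCard.mp hd).1 h)
      have h2 : a ∉ d' := fun h => ha ((Finset.mem_powersetCard.mp hd').1 h)
      rw [← Finset.erase_insert h1, h, Finset.erase_insert h2]
  · rw [Finset.disjoint_left]
    intro d hd hd'
    obtain ⟨e, -, rfl⟩ := Finset.mem_image.mp hd'
    exact ha ((Finset.mem_powersetCard.mp hd).1 (Finset.mem_insert_self a e))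

lemma esum_nonneg (P : Finset ℕ) (g : ℕ → ℝ) (hg : ∀ q ∈ P, 0 ≤ g q) (j : ℕ) :
    0 ≤ ∑ d ∈ P.powersetCard j, ∏ q ∈ d, g q :=
  Finset.sum_nonneg fun d hd => Finset.prod_nonneg fun q hq =>
    hg q ((Finset.mem_powersetCard.mp hd).1 hq)

theorem esym_pow (P : Finset ℕ) (g : ℕ → ℝ) (hg : ∀ q ∈ P, 0 ≤ g q) (j : ℕ) :
    ∑ d ∈ P.powersetCard j, ∏ q ∈ d, g q ≤ (∑ q ∈ P, g q) ^ j / j.factorial := by
  induction P using Finset.induction_on generalizing j with
  | empty =>
    cases j with
    | zero => simp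
    | succ j => simp [Finset.powersetCard_eq_empty.mpr]
  | insert a P ha ih =>
    have hga : 0 ≤ g a := hg a (Finset.mem_insert_self a P)
    have hgP : ∀ q ∈ P, 0 ≤ g q := fun q hq => hg q (Finset.mem_insert_of_mem hq)
    cases j with
    | zero => simp
    | succ j =>
      rw [esum_insert P g a ha, Finset.sum_insert ha]
      have h1 := ih hgP (j + 1)
      have h2 := ih hgP j
      set S := ∑ q ∈ P, g q with hS
      have hS0 : 0 ≤ S := Finset.sum_nonneg hgP
      have h3 : S ^ (j + 1) + (j + 1) * (g a * S ^ j) ≤ (g a + S) ^ (j + 1) := by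
        have key : ∀ k : ℕ, S ^ (k + 1) + (k + 1) * (g a * S ^ k) ≤ (g a + S) ^ (k + 1) := by
          intro k
          induction k with
          | zero => simp; linarith
          | succ k ihk =>
            have e1 : (g a + S) ^ (k + 1 + 1) = (g a + S) ^ (k + 1) * (g a + S) := pow_succ _ _
            have e2 : (S ^ (k + 1) + (k + 1) * (g a * S ^ k)) * (g a + S) ≤
                (g a + S) ^ (k + 1) * (g a + S) :=
              mul_le_mul_of_nonneg_right ihk (by positivity)
            have e3 : 0 ≤ ((k : ℝ) + 1) * (g a * S ^ k) * g a := by positivity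
            rw [e1]
            refine le_trans ?_ e2
            push_cast
            have : S ^ (k + 1 + 1) + ((k : ℝ) + 1 + 1) * (g a * S ^ (k + 1)) +
                ((k : ℝ) + 1) * (g a * S ^ k) * g a =
                (S ^ (k + 1) + (k + 1) * (g a * S ^ k)) * (g a + S) := by ring
            linarith
        exact key j
      have hf : (0 : ℝ) < (j + 1).factorial := by exact_mod_cast Nat.factorial_pos _
      have hf' : (0 : ℝ) < j.factorial := by exact_mod_cast Nat.factorial_pos _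
      have hff : ((j + 1).factorial : ℝ) = (j + 1) * j.factorial := by
        rw [Nat.factorial_succ]; push_cast; ring
      calc ∑ d ∈ P.powersetCard (j + 1), ∏ q ∈ d, g q + g a * ∑ d ∈ P.powersetCard j, ∏ q ∈ d, g q
          ≤ S ^ (j + 1) / (j + 1).factorial + g a * (S ^ j / j.factorial) :=
            add_le_add h1 (mul_le_mul_of_nonneg_left h2 hga)
        _ = (S ^ (j + 1) + (j + 1) * (g a * S ^ j)) / (j + 1).factorial := by
            rw [hff]; field_simp
        _ ≤ (g a + S) ^ (j + 1) / (j + 1).factorial := by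
            apply div_le_div_of_nonneg_right h3 hf.le

lemma esym_two (P : Finset ℕ) (g : ℕ → ℝ) (h0 : ∀ q ∈ P, 0 ≤ g q) (h1 : ∀ q ∈ P, g q ≤ 1)
    (m : ℕ) :
    0 ≤ (-1) ^ m * (∏ q ∈ P, (1 - g q) -
        ∑ j ∈ Finset.range m, (-1) ^ j * ∑ d ∈ P.powersetCard j, ∏ q ∈ d, g q) ∧
      (-1) ^ m * (∏ q ∈ P, (1 - g q) -
        ∑ j ∈ Finset.range m, (-1) ^ j * ∑ d ∈ P.powersetCard j, ∏ q ∈ d, g q) ≤
      ∑ d ∈ P.powersetCard m, ∏ q ∈ d, g q := by
  induction P using Finset.induction_on generalizing m with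
  | empty =>
    cases m with
    | zero => simp
    | succ m =>
      rw [Finset.sum_range_succ']
      simp [Finset.powersetCard_eq_empty.mpr]
  | insert a P ha ih =>
    have hga : 0 ≤ g a := h0 a (Finset.mem_insert_self a P)
    have hga1 : g a ≤ 1 := h1 a (Finset.mem_insert_self a P)
    have hP0 : ∀ q ∈ P, 0 ≤ g q := fun q hq => h0 q (Finset.mem_insert_of_mem hq)
    have hP1 : ∀ q ∈ P, g q ≤ 1 := fun q hq => h1 q (Finset.mem_insert_of_mem hq)
    have ih' := ih hP0 hP1
    cases m with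
    | zero =>
      have e := ih' 0
      simp only [pow_zero, one_mul, Finset.range_zero, Finset.sum_empty, sub_zero] at e ⊢
      rw [Finset.prod_insert ha]
      have e2 : ∑ d ∈ P.powersetCard 0, ∏ q ∈ d, g q = 1 := by simp
      have e3 : ∑ d ∈ (insert a P).powersetCard 0, ∏ q ∈ d, g q = 1 := by simp
      rw [e2] at e
      rw [e3]
      constructor
      · exact mul_nonneg (by linarith) e.1
      · calc (1 - g a) * ∏ q ∈ P, (1 - g q) ≤ 1 * 1 :=
            mul_le_mul (by linarith) e.2 e.1 zero_le_one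
          _ = 1 := one_mul 1
    | succ m =>
      have hrec : ∑ j ∈ Finset.range (m + 1), (-1) ^ j * ∑ d ∈ (insert a P).powersetCard j, ∏ q ∈ d, g q =
          ∑ j ∈ Finset.range (m + 1), (-1) ^ j * ∑ d ∈ P.powersetCard j, ∏ q ∈ d, g q
          - g a * ∑ j ∈ Finset.range m, (-1) ^ j * ∑ d ∈ P.powersetCard j, ∏ q ∈ d, g q := by
        rw [Finset.sum_range_succ', Finset.sum_range_succ']
        have : ∀ j ∈ Finset.range m, (-1) ^ (j + 1) * ∑ d ∈ (insert a P).powersetCard (j + 1), ∏ q ∈ d, g q =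
            (-1) ^ (j + 1) * ∑ d ∈ P.powersetCard (j + 1), ∏ q ∈ d, g q
            - g a * ((-1) ^ j * ∑ d ∈ P.powersetCard j, ∏ q ∈ d, g q) := by
          intro j _
          rw [esum_insert P g a ha]
          ring
        rw [Finset.sum_congr rfl this, Finset.sum_sub_distrib, ← Finset.mul_sum]
        simp only [Finset.powersetCard_zero]
        ring
      have hD : (-1) ^ (m + 1) * (∏ q ∈ insert a P, (1 - g q) -
          ∑ j ∈ Finset.range (m + 1), (-1) ^ j * ∑ d ∈ (insert a P).powersetCard j, ∏ q ∈ d, g q) =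
          (-1) ^ (m + 1) * (∏ q ∈ P, (1 - g q) -
            ∑ j ∈ Finset.range (m + 1), (-1) ^ j * ∑ d ∈ P.powersetCard j, ∏ q ∈ d, g q)
          + g a * ((-1) ^ m * (∏ q ∈ P, (1 - g q) -
            ∑ j ∈ Finset.range m, (-1) ^ j * ∑ d ∈ P.powersetCard j, ∏ q ∈ d, g q)) := by
        rw [hrec, Finset.prod_insert ha]
        ring
      rw [hD, esum_insert P g a ha]
      have e1 := ih' (m + 1)
      have e2 := ih' m
      constructor
      · exact add_nonneg e1.1 (mul_nonneg hga e2.1)
      · exact add_le_add e1.2 (mul_le_mul_of_nonneg_left e2.2 hga)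

theorem esym_le (P : Finset ℕ) (g : ℕ → ℝ) (h0 : ∀ q ∈ P, 0 ≤ g q) (h1 : ∀ q ∈ P, g q ≤ 1)
    (r : ℕ) :
    ∑ j ∈ Finset.range (2 * r + 1), (-1) ^ j * ∑ d ∈ P.powersetCard j, ∏ q ∈ d, g q ≤
      ∏ q ∈ P, (1 - g q) + (∑ q ∈ P, g q) ^ (2 * r + 1) / (2 * r + 1).factorial := by
  have h := (esym_two P g h0 h1 (2 * r + 1)).2
  have h2 := esym_pow P g h0 (2 * r + 1)
  have e : (-1 : ℝ) ^ (2 * r + 1) = -1 := by rw [pow_succ, pow_mul]; norm_num
  rw [e] at h
  linarith

end Pool.Agent.H27.AP
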