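import Pool.Agent.H27.AP.AVb
import Pool.Agent.H27.AP.Esym

/-!
# The sieve inequality with weights
-/

set_option autoImplicit false

namespace Pool.Agent.H27.AP.AVx

open Finset

lemma prod_dvd_iff {P e : Finset ℕ} (hP : ∀ q ∈ P, q.Prime) (he : e ⊆ P) (a : ℕ) :
    ∏ q ∈ e, q ∣ a ↔ e ⊆ P.filter (fun q => q ∣ a) := by
  constructor
  · intro h q hq
    rw [mem_filter]
    exact ⟨he hq, (dvd_prod_of_mem _ hq).trans h⟩
  · intro h
    apply Finset.prod_primes_dvd a (fun q hq => (hP q (he hq)).prime)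
    intro q hq
    exact (mem_filter.1 (h hq)).2

lemma sum_powersetCard_le (P : Finset ℕ) (F : Finset ℕ → ℝ) (hF : ∀ e ∈ P.powerset, 0 ≤ F e)
    (N : ℕ) : ∑ j ∈ range N, ∑ e ∈ P.powersetCard j, F e ≤ ∑ e ∈ P.powerset, F e := by
  have h1 : ∑ j ∈ range N, ∑ e ∈ P.powersetCard j, F e ≤
      ∑ j ∈ range (N + (P.card + 1)), ∑ e ∈ P.powersetCard j, F e := by
    apply sum_le_sum_of_subset_of_nonneg
    · exact range_subset_range.2 (by omega)
    · intro j _ _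
      exact sum_nonneg fun e he => hF e (mem_powerset.2 (mem_powersetCard.1 he).1)
  have h2 : ∑ j ∈ range (P.card + 1), ∑ e ∈ P.powersetCard j, F e =
      ∑ j ∈ range (N + (P.card + 1)), ∑ e ∈ P.powersetCard j, F e := by
    apply sum_subset
    · exact range_subset_range.2 (by omega)
    · intro j _ hj
      rw [mem_range] at hj
      rw [powersetCard_eq_empty.2 (by omega), sum_empty]
  rw [sum_powerset, h2]
  exact h1

lemma sum_choose_le (n r : ℕ) :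
    ∑ j ∈ range (2 * r + 1), ((n.choose j : ℕ) : ℝ) ≤ (1 + (n : ℝ)) ^ (2 * r) := by
  rw [add_comm (1 : ℝ), add_pow]
  refine sum_le_sum fun j hj => ?_
  rw [one_pow, mul_one]
  have h7 : ((n.choose j : ℕ) : ℝ) ≤ (n : ℝ) ^ j := by
    exact_mod_cast Nat.choose_le_pow n j
  have h8 : (1 : ℝ) ≤ ((2 * r).choose j : ℝ) := by
    have : 0 < (2 * r).choose j := Nat.choose_pos (by rw [mem_range] at hj; omega)
    exact_mod_cast this
  calc ((n.choose j : ℕ) : ℝ) ≤ (n : ℝ) ^ j * 1 := by rw [mul_one]; exact h7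
    _ ≤ (n : ℝ) ^ j * ((2 * r).choose j : ℝ) := by gcongr

/-- the sieve inequality -/
theorem main_ineq {S P : Finset ℕ} (hS : ∀ q ∈ S, q.Prime ∧ q ≠ 2) (hP : ∀ q ∈ P, q.Prime)
    {A Y : ℝ} (hA : 0 ≤ A) (hY : 0 ≤ Y) (r : ℕ) :
    ∑ a ∈ (Ioc ⌊A⌋₊ ⌊2 * A⌋₊).filter (fun a => ∀ q ∈ P, ¬ q ∣ a), Phi S a ≤
      cc S ∅ * A * (∏ q ∈ P, (1 - 1 / (q : ℝ)) +
        (∑ q ∈ P, 1 / (q : ℝ)) ^ (2 * r + 1) / (2 * r + 1).factorial) +
      (2 + Y) * (1 + (P.card : ℝ)) ^ (2 * r) +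
      tau S Y * A * ∏ q ∈ P, (1 + 1 / (q : ℝ)) := by
  classical
  have hS2 : ∀ q ∈ S, 2 ≤ q := fun q hq => (hS q hq).1.two_le
  set I := Ioc ⌊A⌋₊ ⌊2 * A⌋₊ with hI
  set B : ℕ → Finset ℕ := fun a => P.filter (fun q => q ∣ a) with hB
  -- Bonferroni
  have h1 : ∑ a ∈ I.filter (fun a => ∀ q ∈ P, ¬ q ∣ a), Phi S a ≤
      ∑ a ∈ I, Phi S a * ∑ j ∈ range (2 * r + 1), (-1 : ℝ) ^ j * ((B a).card.choose j : ℝ) := by
    rw [sum_filter]
    apply sum_le_sum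
    intro a _
    have h2 := bonf (B a) r
    have h3 : ((if B a = ∅ then (1 : ℤ) else 0 : ℤ) : ℝ) ≤
        ∑ j ∈ range (2 * r + 1), (-1 : ℝ) ^ j * ((B a).card.choose j : ℝ) := by
      exact_mod_cast h2
    have h4 : (∀ q ∈ P, ¬ q ∣ a) ↔ B a = ∅ := by
      rw [hB]
      simp only [filter_eq_empty_iff]
    have h5 := Phi_nonneg hS2 a
    by_cases hc : B a = ∅
    · rw [if_pos (h4.2 hc)]
      rw [if_pos hc] at h3
      push_cast at h3
      calc Phi S a = Phi S a * 1 := (mul_one _).symm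
        _ ≤ _ := mul_le_mul_of_nonneg_left h3 h5
    · rw [if_neg (fun h => hc (h4.1 h))]
      rw [if_neg hc] at h3
      push_cast at h3
      exact mul_nonneg h5 h3
  refine h1.trans ?_
  -- exchange the sums
  have hchoose : ∀ (a j : ℕ), ((B a).card.choose j : ℝ) =
      ∑ e ∈ P.powersetCard j, if ∏ q ∈ e, q ∣ a then (1 : ℝ) else 0 := by
    intro a j
    rw [← card_powersetCard, ← sum_filter, sum_const, nsmul_eq_mul, mul_one]
    congr 2
    ext e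
    simp only [mem_powersetCard, mem_filter]
    constructor
    · rintro ⟨h2, h3⟩
      have h4 : e ⊆ P := h2.trans (filter_subset _ _)
      exact ⟨⟨h4, h3⟩, (prod_dvd_iff hP h4 a).2 h2⟩
    · rintro ⟨⟨h2, h3⟩, h4⟩
      exact ⟨(prod_dvd_iff hP h2 a).1 h4, h3⟩
  have h2 : ∑ a ∈ I, Phi S a * ∑ j ∈ range (2 * r + 1), (-1 : ℝ) ^ j * ((B a).card.choose j : ℝ) =
      ∑ j ∈ range (2 * r + 1), (-1 : ℝ) ^ j * ∑ e ∈ P.powersetCard j,
        ∑ a ∈ I.filter (fun a => ∏ q ∈ e, q ∣ a), Phi S a := by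
    simp only [mul_sum]
    rw [sum_comm]
    refine sum_congr rfl fun j _ => ?_
    simp only [hchoose, mul_sum]
    rw [sum_comm]
    refine sum_congr rfl fun e _ => ?_
    rw [sum_filter]
    refine sum_congr rfl fun a _ => ?_
    split_ifs <;> ring
  rw [h2]
  -- each term
  have hm : ∀ (j : ℕ), ∀ e ∈ P.powersetCard j, 0 < ∏ q ∈ e, q := by
    intro j e he
    exact prod_pos fun q hq => (hP q ((mem_powersetCard.1 he).1 hq)).pos
  have hinv : ∀ e : Finset ℕ, A / ((∏ q ∈ e, q : ℕ) : ℝ) = A * ∏ q ∈ e, (1 / (q : ℝ)) := by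
    intro e
    push_cast
    rw [prod_div_distrib, prod_const_one]
    ring
  have h3 : ∑ j ∈ range (2 * r + 1), (-1 : ℝ) ^ j * ∑ e ∈ P.powersetCard j,
        ∑ a ∈ I.filter (fun a => ∏ q ∈ e, q ∣ a), Phi S a ≤
      ∑ j ∈ range (2 * r + 1), ((-1 : ℝ) ^ j * ∑ e ∈ P.powersetCard j,
        cc S ∅ * (A * ∏ q ∈ e, (1 / (q : ℝ))) + ∑ e ∈ P.powersetCard j,
          (2 + Y + tau S Y * (A * ∏ q ∈ e, (1 / (q : ℝ))))) := by
    apply sum_le_sum
    intro j _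
    have h4 : |∑ e ∈ P.powersetCard j, ∑ a ∈ I.filter (fun a => ∏ q ∈ e, q ∣ a), Phi S a -
        ∑ e ∈ P.powersetCard j, cc S ∅ * (A * ∏ q ∈ e, (1 / (q : ℝ)))| ≤
        ∑ e ∈ P.powersetCard j, (2 + Y + tau S Y * (A * ∏ q ∈ e, (1 / (q : ℝ)))) := by
      rw [← sum_sub_distrib]
      refine (abs_sum_le_sum_abs _ _).trans (sum_le_sum fun e he => ?_)
      have h5 := sum_Phi_le hS (hm j e he) hA hY
      rw [hinv e] at h5
      exact h5
    rw [abs_le] at h4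
    rcases neg_one_pow_eq_or ℝ j with h8 | h8 <;> rw [h8] <;> linarith [h4.1, h4.2]
  refine h3.trans ?_
  rw [sum_add_distrib]
  have h4 : ∑ j ∈ range (2 * r + 1), (-1 : ℝ) ^ j * ∑ e ∈ P.powersetCard j,
      cc S ∅ * (A * ∏ q ∈ e, (1 / (q : ℝ))) ≤ cc S ∅ * A * (∏ q ∈ P, (1 - 1 / (q : ℝ)) +
        (∑ q ∈ P, 1 / (q : ℝ)) ^ (2 * r + 1) / (2 * r + 1).factorial) := by
    have h5 := esym_le P (fun q => 1 / (q : ℝ)) (fun q _ => by positivity) (fun q hq => by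
      have h6 : (1 : ℝ) ≤ q := by exact_mod_cast (hP q hq).one_lt.le
      rw [div_le_one (by linarith)]
      exact h6) r
    have h6 : ∑ j ∈ range (2 * r + 1), (-1 : ℝ) ^ j * ∑ e ∈ P.powersetCard j,
      cc S ∅ * (A * ∏ q ∈ e, (1 / (q : ℝ))) = cc S ∅ * A * ∑ j ∈ range (2 * r + 1),
        (-1 : ℝ) ^ j * ∑ e ∈ P.powersetCard j, ∏ q ∈ e, (1 / (q : ℝ)) := by
      simp only [mul_sum]
      refine sum_congr rfl fun j _ => sum_congr rfl fun e _ => ?_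
      ring
    rw [h6]
    exact mul_le_mul_of_nonneg_left h5 (mul_nonneg (cc_nonneg hS2) hA)
  have h5 : ∑ j ∈ range (2 * r + 1), ∑ e ∈ P.powersetCard j,
      (2 + Y + tau S Y * (A * ∏ q ∈ e, (1 / (q : ℝ)))) ≤
      (2 + Y) * (1 + (P.card : ℝ)) ^ (2 * r) +
      tau S Y * A * ∏ q ∈ P, (1 + 1 / (q : ℝ)) := by
    have h6 : ∑ j ∈ range (2 * r + 1), ∑ e ∈ P.powersetCard j,
        (2 + Y + tau S Y * (A * ∏ q ∈ e, (1 / (q : ℝ)))) =
        (2 + Y) * ∑ j ∈ range (2 * r + 1), ((P.card.choose j : ℕ) : ℝ) +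
        tau S Y * A * ∑ j ∈ range (2 * r + 1), ∑ e ∈ P.powersetCard j, ∏ q ∈ e, (1 / (q : ℝ)) := by
      rw [mul_sum, mul_sum, ← sum_add_distrib]
      refine sum_congr rfl fun j _ => ?_
      rw [sum_add_distrib, sum_const, card_powersetCard, nsmul_eq_mul, mul_sum]
      have h8 : ∑ e ∈ P.powersetCard j, tau S Y * (A * ∏ q ∈ e, (1 / (q : ℝ))) =
          ∑ e ∈ P.powersetCard j, tau S Y * A * ∏ q ∈ e, (1 / (q : ℝ)) :=
        sum_congr rfl fun e _ => by ring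
      rw [h8]
      ring
    rw [h6]
    have h7 := sum_choose_le P.card r
    have h8 : ∑ j ∈ range (2 * r + 1), ∑ e ∈ P.powersetCard j, ∏ q ∈ e, (1 / (q : ℝ)) ≤
        ∏ q ∈ P, (1 + 1 / (q : ℝ)) := by
      rw [prod_one_add]
      exact sum_powersetCard_le P (fun e => ∏ q ∈ e, (1 / (q : ℝ)))
        (fun e _ => prod_nonneg fun q _ => by positivity) (2 * r + 1)
    have h9 : 0 ≤ tau S Y * A := mul_nonneg (tau_nonneg hS2 Y) hA
    have h10 : 0 ≤ 2 + Y := by linarith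
    exact add_le_add (mul_le_mul_of_nonneg_left h7 h10) (mul_le_mul_of_nonneg_left h8 h9)
  linarith

end Pool.Agent.H27.AP.AVx
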