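import Pool.Agent.H27.AP.Defs

/-!
# Brun's pure sieve at the level `T`
-/

set_option autoImplicit false

namespace Pool.Agent.H27.AP

/-- `s ^ m / m! ≤ exp (- m)` if `m` is large compared to `s`. -/
theorem brz_pow_div_factorial (s : ℝ) (m : ℕ) (hs : 0 ≤ s) (hm : 0 < m)
    (h : Real.exp 1 ^ 2 * s ≤ m) : s ^ m / m.factorial ≤ Real.exp (-(m : ℝ)) := by
  have hm' : (0 : ℝ) < m := by exact_mod_cast hm
  have hf : (0 : ℝ) < m.factorial := by exact_mod_cast m.factorial_pos
  have h1 : (m : ℝ) ^ m / m.factorial ≤ Real.exp m := Real.pow_div_factorial_le_exp _ hm'.le m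
  have h2 : (Real.exp 1 ^ 2 * s) ^ m ≤ (m : ℝ) ^ m :=
    pow_le_pow_left₀ (by positivity) h m
  have h3 : (Real.exp 1 ^ 2 * s) ^ m = Real.exp m * Real.exp m * s ^ m := by
    rw [mul_pow, ← pow_mul, mul_comm 2 m, pow_mul, ← Real.exp_nat_mul, mul_one, sq]
  have h4 : Real.exp m * Real.exp m * (s ^ m / m.factorial) ≤ Real.exp m := by
    calc Real.exp m * Real.exp m * (s ^ m / m.factorial)
        = (Real.exp 1 ^ 2 * s) ^ m / m.factorial := by rw [h3]; ring
      _ ≤ (m : ℝ) ^ m / m.factorial := by gcongr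
      _ ≤ Real.exp m := h1
  have h5 : Real.exp m * (s ^ m / m.factorial) ≤ 1 := by
    have h6 : Real.exp m * (Real.exp m * (s ^ m / m.factorial)) ≤ Real.exp m * 1 := by
      rw [mul_one, ← mul_assoc]; exact h4
    exact le_of_mul_le_mul_left h6 (Real.exp_pos _)
  rw [Real.exp_neg, ← one_div, le_div_iff₀ (Real.exp_pos _), mul_comm]
  exact h5

theorem brz (h : BR) (h1 : M1) : BRz := by
  -- the conditions on `L = log x`
  have hlog : Filter.Tendsto Real.log Filter.atTop Filter.atTop := Real.tendsto_log_atTop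
  have hA : ∀ᶠ L : ℝ in Filter.atTop, 1 ≤ Real.log L := hlog.eventually_ge_atTop 1
  have hB : ∀ᶠ L : ℝ in Filter.atTop, Real.log L ≤ 1 / KK ^ 2 * L := by
    have h2 : ∀ᶠ L : ℝ in Filter.atTop, ‖Real.log L‖ ≤ 1 / KK ^ 2 * ‖(id L : ℝ)‖ :=
      Real.isLittleO_log_id_atTop.def (by unfold KK; positivity)
    filter_upwards [h2, Filter.eventually_ge_atTop 0] with L h3 h4
    rw [id, Real.norm_of_nonneg h4] at h3
    exact (le_abs_self _).trans h3
  have hC : ∀ᶠ L : ℝ in Filter.atTop, 1 ≤ L := Filter.eventually_ge_atTop 1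
  obtain ⟨x₀, hx₀⟩ := Filter.eventually_atTop.1 ((hlog.eventually (hA.and (hB.and hC))).and
    (Filter.eventually_ge_atTop 1))
  refine ⟨x₀, fun x hx P Om N hP hOm hN => ?_⟩
  obtain ⟨⟨c1, c2, c3⟩, c4⟩ := hx₀ x hx
  set L : ℝ := Real.log x with hL
  have hL0 : 0 < L := by linarith
  have hx0 : 0 < x := by linarith
  have hlL : 0 < Real.log L := by linarith
  have hK : (1 : ℝ) / KK ^ 2 = 1 / 9000000 := by unfold KK; norm_num
  rw [hK] at c2
  -- the level
  set T : ℝ := TT x with hT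
  set t : ℝ := L / (KK ^ 2 * Real.log L) with ht
  have hTt : T = Real.exp t := rfl
  have hKK : KK ^ 2 = 9000000 := by unfold KK; norm_num
  have ht1 : t * Real.log L = L / 9000000 := by
    rw [ht, hKK]
    field_simp
  have ht0 : 0 ≤ t := by
    rw [ht, hKK]; positivity
  have ht2 : 1 ≤ t := by
    have h2 : 1 * Real.log L ≤ t * Real.log L := by rw [ht1]; linarith
    exact le_of_mul_le_mul_right h2 hlL
  have ht3 : t ≤ L / 9000000 := by
    rw [← ht1]
    exact le_mul_of_one_le_right ht0 c1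
  have hT1 : 2 ≤ T := by
    rw [hTt]
    have := Real.add_one_le_exp t
    linarith
  -- the sum
  set σ : ℝ := ∑ q ∈ P, ((Om q).card : ℝ) / q with hσ
  have hσ0 : 0 ≤ σ := Finset.sum_nonneg fun q _ => by positivity
  have hsub : P ⊆ PZ T := by
    intro q hq
    obtain ⟨h2, h3⟩ := hP q hq
    unfold PZ
    rw [Finset.mem_filter, Finset.mem_Icc]
    exact ⟨⟨h2.one_lt.le, Nat.le_floor h3⟩, h2⟩
  have hσ1 : σ ≤ 6 * Real.log L := by
    have h2 : σ ≤ ∑ q ∈ P, 2 * (1 / (q : ℝ)) := by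
      refine Finset.sum_le_sum fun q hq => ?_
      have h3 : ((Om q).card : ℝ) ≤ 2 := by exact_mod_cast hOm q hq
      rw [mul_one_div]
      gcongr
    have h3 : ∑ q ∈ P, 2 * (1 / (q : ℝ)) ≤ ∑ q ∈ PZ T, 2 * (1 / (q : ℝ)) :=
      Finset.sum_le_sum_of_subset_of_nonneg hsub fun q _ _ => by positivity
    have h4 := h1 T hT1
    rw [← Finset.mul_sum, ← Finset.mul_sum] at h3
    rw [← Finset.mul_sum] at h2
    have h5 : Real.log (1 + Real.log T) ≤ Real.log L := by
      have h6 : Real.log T = t := by rw [hTt, Real.log_exp]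
      rw [h6]
      refine Real.log_le_log (by linarith) ?_
      linarith
    linarith
  -- the number of steps
  set r : ℕ := ⌈23 * Real.log L⌉₊ with hr
  have hr1 : 23 * Real.log L ≤ r := Nat.le_ceil _
  have hr2 : (r : ℝ) < 23 * Real.log L + 1 := Nat.ceil_lt_add_one (by positivity)
  have hmain := h P Om N r (fun q hq => (hP q hq).1) hOm
  refine hmain.trans ?_
  have hfac : σ ^ (2 * r + 1) / (2 * r + 1).factorial ≤ 1 / L ^ 5 := by
    have h2 : Real.exp 1 ^ 2 * σ ≤ ((2 * r + 1 : ℕ) : ℝ) := by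
      push_cast
      have h3 : Real.exp 1 ^ 2 ≤ 7.5 := by
        have h4 := Real.exp_one_lt_d9
        have h5 : 0 < Real.exp 1 := Real.exp_pos 1
        nlinarith
      calc Real.exp 1 ^ 2 * σ ≤ 7.5 * (6 * Real.log L) := mul_le_mul h3 hσ1 hσ0 (by norm_num)
        _ ≤ 2 * (r : ℝ) + 1 := by linarith
    refine (brz_pow_div_factorial σ (2 * r + 1) hσ0 (by omega) h2).trans ?_
    have h3 : Real.exp (-((2 * r + 1 : ℕ) : ℝ)) ≤ Real.exp (-(5 * Real.log L)) := by
      refine Real.exp_le_exp.2 ?_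
      push_cast
      linarith
    refine h3.trans (le_of_eq ?_)
    have h4 : Real.exp (5 * Real.log L) = L ^ 5 := by
      have h5 := Real.exp_nat_mul (Real.log L) 5
      rw [Real.exp_log hL0] at h5
      rw [← h5]
      norm_num
    rw [Real.exp_neg, h4, one_div]
  have hsmall : (1 + 2 * (P.card : ℝ)) ^ (2 * r) ≤ x ^ (1 / 4 : ℝ) := by
    have h2 : (P.card : ℝ) ≤ T := by
      have h3 : P.card ≤ (PZ T).card := Finset.card_le_card hsub
      have h4 : (PZ T).card ≤ ⌊T⌋₊ := by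
        unfold PZ
        refine (Finset.card_filter_le _ _).trans ?_
        rw [Nat.card_Icc]
        omega
      calc (P.card : ℝ) ≤ (⌊T⌋₊ : ℝ) := by exact_mod_cast h3.trans h4
        _ ≤ T := Nat.floor_le (by linarith)
    have h3 : 1 + 2 * (P.card : ℝ) ≤ Real.exp (2 + t) := by
      have h4 : (3 : ℝ) ≤ Real.exp 2 := by
        have := Real.add_one_le_exp (2 : ℝ)
        linarith
      rw [Real.exp_add, ← hTt]
      nlinarith
    calc (1 + 2 * (P.card : ℝ)) ^ (2 * r) ≤ Real.exp (2 + t) ^ (2 * r) :=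
          pow_le_pow_left₀ (by positivity) h3 _
      _ = Real.exp (((2 * r : ℕ) : ℝ) * (2 + t)) := by rw [Real.exp_nat_mul]
      _ ≤ Real.exp (L / 4) := by
          refine Real.exp_le_exp.2 ?_
          push_cast
          have h4 : 2 * (r : ℝ) ≤ 48 * Real.log L := by linarith
          have h5 : 2 * (r : ℝ) * (2 + t) ≤ 48 * Real.log L * (2 + t) :=
            mul_le_mul_of_nonneg_right h4 (by linarith)
          have h6 : 48 * Real.log L * (2 + t) = 96 * Real.log L + 48 * (t * Real.log L) := by ring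
          rw [h6, ht1] at h5
          linarith
      _ = x ^ (1 / 4 : ℝ) := by
          rw [Real.rpow_def_of_pos hx0, ← hL]
          congr 1
          ring
  have hN0 : (0 : ℝ) ≤ N := Nat.cast_nonneg N
  have h2 : (N : ℝ) * (σ ^ (2 * r + 1) / (2 * r + 1).factorial) ≤ N / L ^ 5 := by
    calc (N : ℝ) * (σ ^ (2 * r + 1) / (2 * r + 1).factorial) ≤ N * (1 / L ^ 5) :=
          mul_le_mul_of_nonneg_left hfac hN0
      _ = N / L ^ 5 := by ring
  linarith

end Pool.Agent.H27.AP
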