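import Pool.Agent.H27.AP.AVc
import Pool.Agent.H27.AP.Brz

/-!
# Estimates for the terms of the weighted sieve inequality
-/

set_option autoImplicit false

namespace Pool.Agent.H27.AP.AVx

open Finset

lemma mem_PZ' {z : ℝ} {q : ℕ} (hz : 0 ≤ z) : q ∈ PZ z ↔ q.Prime ∧ (q : ℝ) ≤ z := by
  simp only [PZ, mem_filter, mem_Icc]
  constructor
  · rintro ⟨⟨-, h⟩, hq⟩
    exact ⟨hq, (Nat.le_floor_iff hz).1 h⟩
  · rintro ⟨hq, h⟩
    exact ⟨⟨hq.one_lt.le, Nat.le_floor h⟩, hq⟩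

/-- the odd primes up to `w` -/
noncomputable def SS (w : ℝ) : Finset ℕ := (PZ w).filter (fun q => q ≠ 2)

lemma SS_prop {w : ℝ} {q : ℕ} (hq : q ∈ SS w) : q.Prime ∧ q ≠ 2 := by
  unfold SS PZ at hq
  rw [mem_filter, mem_filter] at hq
  exact ⟨hq.1.2, hq.2⟩

/-- the weight of a prime -/
lemma Phi_prime {p : ℕ} (hp : p.Prime) {w : ℝ} (hw0 : 0 ≤ w) (hw : w < p) :
    ∏ q ∈ NZ p w, (1 - 1 / (q : ℝ)) = Phi (SS w) p := by
  classical
  have h1 : NZ p w = (SS w).filter (fun q => ¬ IsSquare ((p : ℕ) : ZMod q)) := by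
    ext q
    simp only [NZ, SS, mem_filter, and_assoc]
  rw [h1, prod_filter]
  unfold Phi
  refine prod_congr rfl fun q hq => ?_
  obtain ⟨hqp, hq2⟩ := SS_prop hq
  have hqw : (q : ℝ) ≤ w := by
    unfold SS at hq
    rw [mem_filter, mem_PZ' hw0] at hq
    exact hq.1.2
  have hqlt : q < p := by
    have : (q : ℝ) < p := lt_of_le_of_lt hqw hw
    exact_mod_cast this
  have : Fact q.Prime := ⟨hqp⟩
  have h0 : (((p : ℕ) : ℤ) : ZMod q) ≠ 0 := by
    push_cast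
    intro h
    rw [ZMod.natCast_eq_zero_iff] at h
    rcases (Nat.dvd_prime hp).1 h with h | h
    · exact hqp.one_lt.ne' h
    · omega
  have hq0 : (q : ℝ) ≠ 0 := by exact_mod_cast hqp.ne_zero
  rw [← jacobiSym.legendreSym.to_jacobiSym]
  by_cases hs : IsSquare ((p : ℕ) : ZMod q)
  · have h2 : legendreSym q ((p : ℕ) : ℤ) = 1 := (legendreSym.eq_one_iff q h0).2 (by
      push_cast; exact hs)
    rw [if_neg (not_not.2 hs), h2]
    push_cast
    ring
  · have h2 : legendreSym q ((p : ℕ) : ℤ) = -1 := (legendreSym.eq_neg_one_iff q).2 (by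
      push_cast; exact hs)
    rw [if_pos hs, h2]
    push_cast
    field_simp
    ring

/-- the sum over primes is at most the sum over the sifted integers -/
lemma lhs_le {w z A : ℝ} (hw0 : 0 ≤ w) (hw : w ≤ A) (hz0 : 0 ≤ z) (hz : z ≤ A) :
    ∑ p ∈ (PZ (2 * A)).filter (fun p : ℕ => A < (p : ℝ)), ∏ q ∈ NZ p w, (1 - 1 / (q : ℝ)) ≤
      ∑ a ∈ (Ioc ⌊A⌋₊ ⌊2 * A⌋₊).filter (fun a => ∀ q ∈ PZ z, ¬ q ∣ a), Phi (SS w) a := by
  have hA : 0 ≤ A := hw0.trans hw
  have h1 : ∑ p ∈ (PZ (2 * A)).filter (fun p : ℕ => A < (p : ℝ)),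
      ∏ q ∈ NZ p w, (1 - 1 / (q : ℝ)) =
      ∑ p ∈ (PZ (2 * A)).filter (fun p : ℕ => A < (p : ℝ)), Phi (SS w) p := by
    refine sum_congr rfl fun p hp => ?_
    rw [mem_filter, mem_PZ' (by linarith)] at hp
    exact Phi_prime hp.1.1 hw0 (lt_of_le_of_lt hw hp.2)
  rw [h1]
  apply sum_le_sum_of_subset_of_nonneg
  · intro p hp
    rw [mem_filter, mem_PZ' (by linarith)] at hp
    obtain ⟨⟨hpp, hp2⟩, hpA⟩ := hp
    rw [mem_filter, mem_Ioc]
    refine ⟨⟨(Nat.floor_lt hA).2 hpA, Nat.le_floor hp2⟩, fun q hq hqp => ?_⟩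
    rw [mem_PZ' hz0] at hq
    rcases (Nat.dvd_prime hpp).1 hqp with h | h
    · exact hq.1.one_lt.ne' h
    · rw [h] at hq
      linarith [hq.2]
  · intro a _ _
    exact Phi_nonneg (fun q hq => (SS_prop hq).1.two_le) a

lemma sum_inv_mul_pred (N : ℕ) :
    ∑ q ∈ Icc 2 (N + 1), 1 / ((q : ℝ) * ((q : ℝ) - 1)) ≤ 1 - 1 / ((N : ℝ) + 1) := by
  induction N with
  | zero => simp
  | succ n ih =>
    rw [sum_Icc_succ_top (by omega)]
    have h1 : (0 : ℝ) < (n : ℝ) + 1 := by positivity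
    push_cast
    have h2 : 1 / (((n : ℝ) + 1 + 1) * ((n : ℝ) + 1 + 1 - 1)) =
        1 / ((n : ℝ) + 1) - 1 / ((n : ℝ) + 1 + 1) := by
      have h3 : (n : ℝ) + 1 + 1 ≠ 0 := by positivity
      have h4 : (n : ℝ) + 1 + 1 - 1 = n + 1 := by ring
      rw [h4]
      field_simp
      ring
    rw [h2]
    linarith

lemma sum_inv_mul_pred_le {w : ℝ} : ∑ q ∈ SS w, 1 / ((q : ℝ) * ((q : ℝ) - 1)) ≤ 1 := by
  have h1 : SS w ⊆ Icc 2 (⌊w⌋₊ + 1) := by
    intro q hq
    have h2 := (SS_prop hq).1.two_le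
    unfold SS PZ at hq
    rw [mem_filter, mem_filter, mem_Icc] at hq
    rw [mem_Icc]
    omega
  have h2 : ∑ q ∈ SS w, 1 / ((q : ℝ) * ((q : ℝ) - 1)) ≤
      ∑ q ∈ Icc 2 (⌊w⌋₊ + 1), 1 / ((q : ℝ) * ((q : ℝ) - 1)) := by
    apply sum_le_sum_of_subset_of_nonneg h1
    intro q hq _
    rw [mem_Icc] at hq
    have h3 : (2 : ℝ) ≤ q := by exact_mod_cast hq.1
    have h4 : (0 : ℝ) ≤ (q : ℝ) - 1 := by linarith
    positivity
  refine h2.trans ((sum_inv_mul_pred _).trans ?_)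
  have : (0 : ℝ) ≤ 1 / ((⌊w⌋₊ : ℝ) + 1) := by positivity
  linarith

/-- the mass of the trivial character -/
lemma cc_sq_le (h2 : M2) {w : ℝ} (hw : 2 ≤ w) : cc (SS w) ∅ ^ 2 ≤ 4 / Real.log w := by
  have hlw : 0 < Real.log w := Real.log_pos (by linarith)
  rw [cc_empty, ← prod_pow]
  have h3 : ∏ q ∈ SS w, (1 - 1 / (2 * (q : ℝ))) ^ 2 ≤
      ∏ q ∈ SS w, ((1 - 1 / (q : ℝ)) * Real.exp (1 / 4 * (1 / ((q : ℝ) * ((q : ℝ) - 1))))) := by
    refine prod_le_prod (fun q _ => by positivity) fun q hq => ?_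
    have hq2 : (2 : ℝ) ≤ q := by exact_mod_cast (SS_prop hq).1.two_le
    have hq1 : (0 : ℝ) < (q : ℝ) - 1 := by linarith
    have hq0 : (0 : ℝ) < q := by linarith
    have h4 := Real.add_one_le_exp (1 / 4 * (1 / ((q : ℝ) * ((q : ℝ) - 1))))
    have h5 : (0 : ℝ) ≤ 1 - 1 / (q : ℝ) := by
      rw [sub_nonneg, div_le_one hq0]; linarith
    have h6 : (1 - 1 / (2 * (q : ℝ))) ^ 2 =
        (1 - 1 / (q : ℝ)) * (1 / 4 * (1 / ((q : ℝ) * ((q : ℝ) - 1))) + 1) := by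
      field_simp
      ring
    rw [h6]
    exact mul_le_mul_of_nonneg_left h4 h5
  refine h3.trans ?_
  rw [prod_mul_distrib, ← Real.exp_sum, ← mul_sum]
  have h4 : Real.exp (1 / 4 * ∑ q ∈ SS w, 1 / ((q : ℝ) * ((q : ℝ) - 1))) ≤ 2 := by
    have h5 : Real.exp (1 / 4 * ∑ q ∈ SS w, 1 / ((q : ℝ) * ((q : ℝ) - 1))) ≤
        Real.exp (1 / 4) := by
      apply Real.exp_le_exp.2
      have := sum_inv_mul_pred_le (w := w)
      linarith
    refine h5.trans ?_
    have h6 : Real.exp (1 / 4) ^ 4 = Real.exp 1 := by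
      rw [← Real.exp_nat_mul]
      norm_num
    have h7 := Real.exp_one_lt_d9
    by_contra h8
    push Not at h8
    have h9 : (2 : ℝ) ^ 4 < Real.exp (1 / 4) ^ 4 := pow_lt_pow_left₀ h8 (by norm_num) (by norm_num)
    rw [h6] at h9
    norm_num at h9
    linarith
  have h5 : ∏ q ∈ SS w, (1 - 1 / (q : ℝ)) ≤ 2 / Real.log w := by
    have h6 := h2 w hw
    have h7 : (2 : ℕ) ∈ PZ w := (mem_PZ' (by linarith)).2 ⟨Nat.prime_two, by push_cast; exact hw⟩
    have h8 : SS w = (PZ w).erase 2 := by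
      ext q
      simp only [SS, mem_filter, mem_erase]
      tauto
    rw [← mul_prod_erase _ _ h7, ← h8] at h6
    push_cast at h6
    have h9 : (2 : ℝ) / Real.log w = 2 * (1 / Real.log w) := by ring
    rw [h9]
    linarith
  have h6 : 0 ≤ ∏ q ∈ SS w, (1 - 1 / (q : ℝ)) := by
    apply prod_nonneg
    intro q hq
    have hq2 : (2 : ℝ) ≤ q := by exact_mod_cast (SS_prop hq).1.two_le
    rw [sub_nonneg, div_le_one (by linarith)]
    linarith
  calc (∏ q ∈ SS w, (1 - 1 / (q : ℝ))) *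
        Real.exp (1 / 4 * ∑ q ∈ SS w, 1 / ((q : ℝ) * ((q : ℝ) - 1)))
      ≤ 2 / Real.log w * 2 := mul_le_mul h5 h4 (Real.exp_pos _).le (by positivity)
    _ = 4 / Real.log w := by ring

lemma prod_one_add_le (h1 : M1) {z : ℝ} (hz : 2 ≤ z) :
    ∏ q ∈ PZ z, (1 + 1 / (q : ℝ)) ≤ (1 + Real.log z) ^ 3 := by
  have hlz : 0 < Real.log z := Real.log_pos (by linarith)
  calc ∏ q ∈ PZ z, (1 + 1 / (q : ℝ)) ≤ ∏ q ∈ PZ z, Real.exp (1 / (q : ℝ)) := by
        refine prod_le_prod (fun q _ => by positivity) fun q _ => ?_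
        have := Real.add_one_le_exp (1 / (q : ℝ))
        linarith
    _ = Real.exp (∑ q ∈ PZ z, 1 / (q : ℝ)) := (Real.exp_sum _ _).symm
    _ ≤ Real.exp (3 * Real.log (1 + Real.log z)) := Real.exp_le_exp.2 (h1 z hz)
    _ = (1 + Real.log z) ^ 3 := by
        have h3 := Real.exp_nat_mul (Real.log (1 + Real.log z)) 3
        rw [Real.exp_log (by linarith)] at h3
        rw [← h3]
        norm_num

/-- Rankin's bound for the mass of the large conductors -/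
lemma tau_le (h1 : M1) {w : ℝ} (hw : 2 ≤ w) {Y : ℝ} (hY : 0 < Y) :
    tau (SS w) Y ≤ Real.exp (-(Real.log Y / Real.log w)) * (1 + Real.log w) ^ 3 := by
  have hlw : 0 < Real.log w := Real.log_pos (by linarith)
  set s : ℝ := 1 / Real.log w with hs
  have hs0 : 0 < s := by positivity
  have hS2 : ∀ q ∈ SS w, 2 ≤ q := fun q hq => (SS_prop hq).1.two_le
  -- Rankin
  have h3 : tau (SS w) Y ≤ ∑ d ∈ (SS w).powerset, cc (SS w) d *
      (Real.exp (-(Real.log Y / Real.log w)) * ∏ q ∈ d, (q : ℝ) ^ s) := by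
    unfold tau
    have h4 : ∑ d ∈ (SS w).powerset.filter (fun d => Y < ((∏ q ∈ d, q : ℕ) : ℝ)), cc (SS w) d ≤
        ∑ d ∈ (SS w).powerset.filter (fun d => Y < ((∏ q ∈ d, q : ℕ) : ℝ)), cc (SS w) d *
      (Real.exp (-(Real.log Y / Real.log w)) * ∏ q ∈ d, (q : ℝ) ^ s) := by
      refine sum_le_sum fun d hd => ?_
      rw [mem_filter] at hd
      apply le_mul_of_one_le_right (cc_nonneg hS2)
      have h5 : ∏ q ∈ d, (q : ℝ) ^ s = (((∏ q ∈ d, q : ℕ) : ℝ)) ^ s := by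
        push_cast
        rw [Real.finsetProd_rpow _ _ (fun q _ => by positivity)]
      rw [h5]
      have h6 : Y ^ s ≤ (((∏ q ∈ d, q : ℕ) : ℝ)) ^ s :=
        Real.rpow_le_rpow hY.le hd.2.le hs0.le
      have h7 : Y ^ s = Real.exp (Real.log Y / Real.log w) := by
        rw [Real.rpow_def_of_pos hY, hs]
        congr 1
        ring
      rw [h7] at h6
      calc (1 : ℝ) = Real.exp (-(Real.log Y / Real.log w)) * Real.exp (Real.log Y / Real.log w) := by
            rw [← Real.exp_add]; simp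
        _ ≤ _ := mul_le_mul_of_nonneg_left h6 (Real.exp_pos _).le
    refine h4.trans (sum_le_sum_of_subset_of_nonneg (filter_subset _ _) fun d _ _ => ?_)
    exact mul_nonneg (cc_nonneg hS2) (mul_nonneg (Real.exp_pos _).le
      (prod_nonneg fun q _ => by positivity))
  refine h3.trans ?_
  have h4 : ∑ d ∈ (SS w).powerset, cc (SS w) d *
      (Real.exp (-(Real.log Y / Real.log w)) * ∏ q ∈ d, (q : ℝ) ^ s) =
      Real.exp (-(Real.log Y / Real.log w)) *
        ∏ q ∈ SS w, ((q : ℝ) ^ s * (1 / (2 * (q : ℝ))) + (1 - 1 / (2 * (q : ℝ)))) := by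
    rw [prod_add, mul_sum]
    refine sum_congr rfl fun d _ => ?_
    unfold cc
    rw [prod_mul_distrib]
    ring
  rw [h4]
  refine mul_le_mul_of_nonneg_left ?_ (Real.exp_pos _).le
  have h5 : ∏ q ∈ SS w, ((q : ℝ) ^ s * (1 / (2 * (q : ℝ))) + (1 - 1 / (2 * (q : ℝ)))) ≤
      ∏ q ∈ SS w, (1 + 1 / (q : ℝ)) := by
    refine prod_le_prod (fun q hq => ?_) fun q hq => ?_
    · have := half_pos (hS2 q hq)
      positivity
    · have hq0 : (0 : ℝ) < q := by exact_mod_cast (SS_prop hq).1.pos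
      have hqw : (q : ℝ) ≤ w := by
        unfold SS at hq
        rw [mem_filter, mem_PZ' (by linarith)] at hq
        exact hq.1.2
      have h6 : (q : ℝ) ^ s ≤ 3 := by
        have h7 : (q : ℝ) ^ s ≤ w ^ s := Real.rpow_le_rpow hq0.le hqw hs0.le
        have h8 : w ^ s = Real.exp 1 := by
          rw [Real.rpow_def_of_pos (by linarith), hs]
          congr 1
          field_simp
        have h9 := Real.exp_one_lt_d9
        rw [h8] at h7
        linarith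
      have h7 : 0 ≤ 1 / (2 * (q : ℝ)) := by positivity
      have h8 : (q : ℝ) ^ s * (1 / (2 * (q : ℝ))) ≤ 3 * (1 / (2 * (q : ℝ))) :=
        mul_le_mul_of_nonneg_right h6 h7
      have h9 : 1 / (q : ℝ) = 2 * (1 / (2 * (q : ℝ))) := by field_simp
      rw [h9]
      linarith
  have h6 : ∏ q ∈ SS w, (1 + 1 / (q : ℝ)) ≤ ∏ q ∈ PZ w, (1 + 1 / (q : ℝ)) := by
    rw [← prod_filter_mul_prod_filter_not (PZ w) (fun q => q ≠ 2)]
    apply le_mul_of_one_le_right
    · exact prod_nonneg fun q _ => by positivity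
    · calc (1 : ℝ) = ∏ q ∈ (PZ w).filter (fun q => ¬ q ≠ 2), (1 : ℝ) := prod_const_one.symm
        _ ≤ _ := prod_le_prod (fun _ _ => zero_le_one) fun q _ => by
            have : (0 : ℝ) ≤ 1 / (q : ℝ) := by positivity
            linarith
  exact h5.trans (h6.trans (prod_one_add_le h1 hw))

end Pool.Agent.H27.AP.AVx
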