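import Pool.Agent.H27.AP.Defs
import Pool.Agent.H27.AP.Esym

/-!
# Brun's pure sieve
-/

set_option autoImplicit false

open Finset

namespace Pool.Agent.H27.AP

/-- integers of `[1, N]` in a residue class -/
theorem br_base (N m a : ℕ) (hm : 0 < m) :
    |(((Icc 1 N).filter (fun k => k ≡ a [MOD m])).card : ℝ) - N / m| ≤ 1 := by
  have h0 : Icc 1 N = Ioc 0 N := by
    ext x
    simp [Nat.succ_le_iff]
  rw [h0]
  have h1 := Nat.Ioc_filter_modEq_card 0 N hm a
  have hmQ : (0 : ℚ) < m := by exact_mod_cast hm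
  have h3 : ⌊((0 : ℕ) - a : ℚ) / m⌋ ≤ ⌊((N : ℚ) - a) / m⌋ := by
    apply Int.floor_le_floor
    apply div_le_div_of_nonneg_right _ hmQ.le
    simp
  rw [max_eq_left (by linarith)] at h1
  have h4 : ((((Ioc 0 N).filter (fun k => k ≡ a [MOD m])).card : ℤ) : ℚ) =
      (⌊((N : ℚ) - a) / m⌋ : ℚ) - (⌊((0 : ℕ) - a : ℚ) / m⌋ : ℚ) := by
    rw [h1]
    push_cast
    ring
  have h5 := Int.floor_le (((N : ℚ) - a) / m)
  have h6 := Int.lt_floor_add_one (((N : ℚ) - a) / m)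
  have h7 := Int.floor_le (((0 : ℕ) - a : ℚ) / m)
  have h8 := Int.lt_floor_add_one (((0 : ℕ) - a : ℚ) / m)
  have h9 : ((N : ℚ) - a) / m - ((0 : ℕ) - a : ℚ) / m = N / m := by
    push_cast
    ring
  have h10 : |((((Ioc 0 N).filter (fun k => k ≡ a [MOD m])).card : ℕ) : ℚ) - N / m| ≤ 1 := by
    rw [abs_le]
    push_cast at h4
    constructor <;> linarith
  have h11 : (((|((((Ioc 0 N).filter (fun k => k ≡ a [MOD m])).card : ℕ) : ℚ) - N / m|) : ℚ) : ℝ)
      ≤ ((1 : ℚ) : ℝ) := by exact_mod_cast h10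
  push_cast at h11
  exact h11

/-- integers of `[1, N]` in a residue class and with prescribed sets of residues modulo primes -/
theorem br_ap (Om : (q : ℕ) → Finset (ZMod q)) (N : ℕ) (d : Finset ℕ) (hd : ∀ q ∈ d, q.Prime) :
    ∀ (m a : ℕ), 0 < m → (∀ q ∈ d, Nat.Coprime m q) →
    |(((Icc 1 N).filter (fun k => k ≡ a [MOD m] ∧ ∀ q ∈ d, (k : ZMod q) ∈ Om q)).card : ℝ)
      - N / m * ∏ q ∈ d, ((Om q).card : ℝ) / q| ≤ ∏ q ∈ d, ((Om q).card : ℝ) := by
  induction d using Finset.induction_on with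
  | empty =>
    intro m a hm _
    simpa using br_base N m a hm
  | insert q d hqd ih =>
    intro m a hm hc
    have hq : q.Prime := hd q (mem_insert_self _ _)
    have ih' := ih (fun q' h => hd q' (mem_insert_of_mem h))
    have hcq := hc q (mem_insert_self _ _)
    have : NeZero q := ⟨hq.ne_zero⟩
    have h1 : ((Icc 1 N).filter (fun k => k ≡ a [MOD m] ∧
        ∀ q' ∈ insert q d, (k : ZMod q') ∈ Om q')).card =
        ∑ w ∈ Om q, ((Icc 1 N).filter (fun k => k ≡ (Nat.chineseRemainder hcq a w.val : ℕ)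
          [MOD (m * q)] ∧ ∀ q' ∈ d, (k : ZMod q') ∈ Om q')).card := by
      rw [card_eq_sum_card_fiberwise (f := fun k : ℕ => (k : ZMod q)) (t := Om q)]
      · refine sum_congr rfl fun w hw => ?_
        congr 1
        ext k
        simp only [mem_filter, mem_insert, forall_eq_or_imp]
        have h2 : (k : ZMod q) = w ↔ k ≡ w.val [MOD q] := by
          rw [← ZMod.natCast_eq_natCast_iff, ZMod.natCast_zmod_val]
        have hcr := (Nat.chineseRemainder hcq a w.val).2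
        have h3 : k ≡ (Nat.chineseRemainder hcq a w.val : ℕ) [MOD (m * q)] ↔
            k ≡ a [MOD m] ∧ (k : ZMod q) = w := by
          rw [← Nat.modEq_and_modEq_iff_modEq_mul hcq, h2]
          constructor
          · rintro ⟨h4, h5⟩
            exact ⟨h4.trans hcr.1, h5.trans hcr.2⟩
          · rintro ⟨h4, h5⟩
            exact ⟨h4.trans hcr.1.symm, h5.trans hcr.2.symm⟩
        rw [h3]
        constructor
        · rintro ⟨⟨h4, h5, h6, h7⟩, h8⟩
          exact ⟨h4, ⟨h5, h8⟩, h7⟩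
        · rintro ⟨h4, ⟨h5, h8⟩, h7⟩
          exact ⟨⟨h4, h5, h8 ▸ hw, h7⟩, h8⟩
      · intro k hk
        simp only [coe_filter, mem_insert, forall_eq_or_imp, Set.mem_setOf_eq] at hk
        exact hk.2.2.1
    rw [h1, prod_insert hqd, prod_insert hqd]
    have hqR : (q : ℝ) ≠ 0 := by exact_mod_cast hq.ne_zero
    have hmR : (m : ℝ) ≠ 0 := by exact_mod_cast hm.ne'
    have h2 : (((∑ w ∈ Om q, ((Icc 1 N).filter (fun k => k ≡ (Nat.chineseRemainder hcq a w.val : ℕ)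
          [MOD (m * q)] ∧ ∀ q' ∈ d, (k : ZMod q') ∈ Om q')).card : ℕ) : ℝ)
        - N / m * (((Om q).card : ℝ) / q * ∏ q ∈ d, ((Om q).card : ℝ) / q)) =
        ∑ w ∈ Om q, ((((Icc 1 N).filter (fun k => k ≡ (Nat.chineseRemainder hcq a w.val : ℕ)
          [MOD (m * q)] ∧ ∀ q' ∈ d, (k : ZMod q') ∈ Om q')).card : ℝ)
          - N / ((m * q : ℕ) : ℝ) * ∏ q ∈ d, ((Om q).card : ℝ) / q) := by
      rw [sum_sub_distrib, sum_const, nsmul_eq_mul]
      push_cast
      field_simp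
    rw [h2]
    refine (abs_sum_le_sum_abs _ _).trans ?_
    rw [← nsmul_eq_mul, ← sum_const]
    refine sum_le_sum fun w _ => ?_
    refine ih' (m * q) _ (Nat.mul_pos hm hq.pos) fun q' hq' => ?_
    refine Nat.Coprime.mul_left (hc q' (mem_insert_of_mem hq')) ?_
    rw [Nat.coprime_primes hq (hd q' (mem_insert_of_mem hq'))]
    rintro rfl
    exact hqd hq'

/-- integers of `[1, N]` with prescribed sets of residues modulo primes -/
theorem br_ad (Om : (q : ℕ) → Finset (ZMod q)) (N : ℕ) (d : Finset ℕ) (hd : ∀ q ∈ d, q.Prime) :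
    |(((Icc 1 N).filter (fun k => ∀ q ∈ d, (k : ZMod q) ∈ Om q)).card : ℝ)
      - N * ∏ q ∈ d, ((Om q).card : ℝ) / q| ≤ ∏ q ∈ d, ((Om q).card : ℝ) := by
  have h := br_ap Om N d hd 1 0 one_pos (fun q _ => Nat.coprime_one_left q)
  simpa [Nat.modEq_one] using h

theorem br : BR := by
  classical
  intro P Om N r hP hO
  set B : ℕ → Finset ℕ := fun k => P.filter (fun q => (k : ZMod q) ∈ Om q) with hB
  have h1 : {k : ℕ | 1 ≤ k ∧ k ≤ N ∧ ∀ q ∈ P, (k : ZMod q) ∉ Om q} =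
      (((Icc 1 N).filter (fun k => B k = ∅) : Finset ℕ) : Set ℕ) := by
    ext k
    simp only [Set.mem_setOf_eq, coe_filter, mem_Icc, hB, filter_eq_empty_iff]
    tauto
  have h2 : (({k : ℕ | 1 ≤ k ∧ k ≤ N ∧ ∀ q ∈ P, (k : ZMod q) ∉ Om q}.ncard : ℕ) : ℤ) ≤
      ∑ j ∈ range (2 * r + 1), (-1) ^ j * ∑ d ∈ P.powersetCard j,
        (((Icc 1 N).filter (fun k => ∀ q ∈ d, (k : ZMod q) ∈ Om q)).card : ℤ) := by
    rw [h1, Set.ncard_coe_finset, card_filter]
    push_cast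
    refine (sum_le_sum fun k _ => bonf (B k) r).trans (le_of_eq ?_)
    rw [sum_comm]
    refine sum_congr rfl fun j _ => ?_
    rw [← mul_sum]
    congr 1
    have h3 : ∀ k, (((B k).card.choose j : ℕ) : ℤ) =
        ∑ d ∈ P.powersetCard j, if (∀ q ∈ d, (k : ZMod q) ∈ Om q) then (1 : ℤ) else 0 := by
      intro k
      rw [← card_powersetCard, ← sum_filter, sum_const, nsmul_eq_mul, mul_one]
      congr 2
      ext d
      simp only [mem_powersetCard, mem_filter, hB]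
      constructor
      · rintro ⟨h4, h5⟩
        exact ⟨⟨fun q hq => (mem_filter.1 (h4 hq)).1, h5⟩, fun q hq => (mem_filter.1 (h4 hq)).2⟩
      · rintro ⟨⟨h4, h5⟩, h6⟩
        exact ⟨fun q hq => mem_filter.2 ⟨h4 hq, h6 q hq⟩, h5⟩
    simp only [h3]
    rw [sum_comm]
    refine sum_congr rfl fun d _ => ?_
    rw [card_filter]
    push_cast
    rfl
  have h2R : (({k : ℕ | 1 ≤ k ∧ k ≤ N ∧ ∀ q ∈ P, (k : ZMod q) ∉ Om q}.ncard : ℕ) : ℝ) ≤
      ∑ j ∈ range (2 * r + 1), (-1) ^ j * ∑ d ∈ P.powersetCard j,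
        (((Icc 1 N).filter (fun k => ∀ q ∈ d, (k : ZMod q) ∈ Om q)).card : ℝ) := by
    exact_mod_cast h2
  refine h2R.trans ?_
  set g : ℕ → ℝ := fun q => ((Om q).card : ℝ) / q with hg
  have hg0 : ∀ q ∈ P, 0 ≤ g q := fun q _ => by positivity
  have hg1 : ∀ q ∈ P, g q ≤ 1 := fun q hq => by
    have h2 := (hP q hq).two_le
    have h3 := hO q hq
    have h4 : (0 : ℝ) < q := by exact_mod_cast (hP q hq).pos
    rw [hg]
    simp only
    rw [div_le_one h4]
    exact_mod_cast h3.trans h2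
  have h4 := esym_le P g hg0 hg1 r
  have hN : (0 : ℝ) ≤ N := by positivity
  have h5 : ∑ j ∈ range (2 * r + 1), (-1 : ℝ) ^ j * ∑ d ∈ P.powersetCard j,
        (((Icc 1 N).filter (fun k => ∀ q ∈ d, (k : ZMod q) ∈ Om q)).card : ℝ) ≤
      N * (∑ j ∈ range (2 * r + 1), (-1 : ℝ) ^ j * ∑ d ∈ P.powersetCard j, ∏ q ∈ d, g q)
      + ∑ j ∈ range (2 * r + 1), ∑ d ∈ P.powersetCard j, (2 : ℝ) ^ j := by
    rw [mul_sum, ← sum_add_distrib]
    refine sum_le_sum fun j _ => ?_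
    have h6 : ∀ d ∈ P.powersetCard j, |(((Icc 1 N).filter
        (fun k => ∀ q ∈ d, (k : ZMod q) ∈ Om q)).card : ℝ) - N * ∏ q ∈ d, g q| ≤ (2 : ℝ) ^ j := by
      intro d hd
      rw [mem_powersetCard] at hd
      refine (br_ad Om N d (fun q hq => hP q (hd.1 hq))).trans ?_
      rw [← hd.2, ← prod_const]
      refine prod_le_prod (fun q _ => by positivity) fun q hq => ?_
      exact_mod_cast hO q (hd.1 hq)
    have h7 : |∑ d ∈ P.powersetCard j, (((Icc 1 N).filter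
        (fun k => ∀ q ∈ d, (k : ZMod q) ∈ Om q)).card : ℝ) -
        N * ∑ d ∈ P.powersetCard j, ∏ q ∈ d, g q| ≤ ∑ d ∈ P.powersetCard j, (2 : ℝ) ^ j := by
      rw [mul_sum, ← sum_sub_distrib]
      exact (abs_sum_le_sum_abs _ _).trans (sum_le_sum h6)
    rw [abs_le] at h7
    rcases neg_one_pow_eq_or ℝ j with h8 | h8 <;> rw [h8] <;> linarith [h7.1, h7.2]
  have h6 : ∑ j ∈ range (2 * r + 1), ∑ d ∈ P.powersetCard j, (2 : ℝ) ^ j ≤
      (1 + 2 * (P.card : ℝ)) ^ (2 * r) := by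
    rw [add_comm (1 : ℝ), add_pow]
    refine sum_le_sum fun j hj => ?_
    rw [sum_const, card_powersetCard, nsmul_eq_mul, one_pow, mul_one, mul_pow]
    have h7 : (P.card.choose j : ℝ) ≤ (P.card : ℝ) ^ j := by
      exact_mod_cast Nat.choose_le_pow P.card j
    have h8 : (1 : ℝ) ≤ ((2 * r).choose j : ℝ) := by
      have : 0 < (2 * r).choose j := Nat.choose_pos (by rw [mem_range] at hj; omega)
      exact_mod_cast this
    calc (P.card.choose j : ℝ) * 2 ^ j ≤ (P.card : ℝ) ^ j * 2 ^ j := by gcongr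
      _ = 2 ^ j * (P.card : ℝ) ^ j * 1 := by ring
      _ ≤ 2 ^ j * (P.card : ℝ) ^ j * ((2 * r).choose j : ℝ) := by gcongr
  calc _ ≤ _ := h5
    _ ≤ N * (∏ q ∈ P, (1 - g q) + (∑ q ∈ P, g q) ^ (2 * r + 1) / (2 * r + 1).factorial) +
        (1 + 2 * (P.card : ℝ)) ^ (2 * r) := add_le_add (mul_le_mul_of_nonneg_left h4 hN) h6
    _ = _ := by rw [mul_add]

end Pool.Agent.H27.AP
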