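import Pool.Agent.H27.AP.Defs

set_option autoImplicit false

namespace Pool.Agent.H27.AP

open Finset

/-- The character `m ↦ (p / m)` on odd `m`, zero on even `m`. -/
noncomputable def lfchi (p m : ℕ) : ℤ :=
  open Classical in if Odd m then jacobiSym (p : ℤ) m else 0

theorem lf_chi_odd {p m : ℕ} (h : Odd m) : lfchi p m = jacobiSym (p : ℤ) m := by
  unfold lfchi; rw [if_pos h]

theorem lf_chi_even {p m : ℕ} (h : ¬ Odd m) : lfchi p m = 0 := by
  unfold lfchi; rw [if_neg h]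

theorem lf_chi_zero (p : ℕ) : lfchi p 0 = 0 := lf_chi_even (by decide)

theorem lf_chi_one (p : ℕ) : lfchi p 1 = 1 := by
  rw [lf_chi_odd (by decide)]; exact jacobiSym.one_right _

theorem lf_chi_mul (p m k : ℕ) : lfchi p (m * k) = lfchi p m * lfchi p k := by
  by_cases hm : Odd m
  · by_cases hk : Odd k
    · rw [lf_chi_odd (hm.mul hk), lf_chi_odd hm, lf_chi_odd hk]
      exact jacobiSym.mul_right' _ hm.pos.ne' hk.pos.ne'
    · rw [lf_chi_even hk, lf_chi_even (fun h => hk (Nat.odd_mul.1 h).2), mul_zero]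
  · rw [lf_chi_even hm, lf_chi_even (fun h => hm (Nat.odd_mul.1 h).1), zero_mul]

theorem lf_chi_tri (p m : ℕ) : lfchi p m = 0 ∨ lfchi p m = 1 ∨ lfchi p m = -1 := by
  by_cases hm : Odd m
  · rw [lf_chi_odd hm]; exact jacobiSym.trichotomy _ _
  · rw [lf_chi_even hm]; exact Or.inl rfl

theorem lf_chi_abs (p m : ℕ) : |(lfchi p m : ℝ)| ≤ 1 := by
  rcases lf_chi_tri p m with h | h | h <;> rw [h] <;> norm_num

theorem lf_chi_mod (p m : ℕ) : lfchi p (m % (4 * p)) = lfchi p m := by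
  have hev : Even (4 * p) := ⟨2 * p, by ring⟩
  by_cases hm : Odd m
  · have h2 : Odd (m % (4 * p)) := by
      rw [Nat.odd_iff] at hm ⊢
      rw [Nat.mod_mod_of_dvd _ (by exact ⟨2 * p, by ring⟩), hm]
    rw [lf_chi_odd hm, lf_chi_odd h2]
    have := jacobiSym.mod_right (p : ℤ) hm
    rw [this]; simp
  · have h2 : ¬ Odd (m % (4 * p)) := by
      rw [Nat.odd_iff] at hm ⊢
      rwa [Nat.mod_mod_of_dvd _ (by exact ⟨2 * p, by ring⟩)]
    rw [lf_chi_even hm, lf_chi_even h2]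

theorem lf_chi_add (p m : ℕ) : lfchi p (4 * p + m) = lfchi p m := by
  rw [← lf_chi_mod p (4 * p + m), ← lf_chi_mod p m]
  congr 1
  exact Nat.add_mod_left _ _

theorem lf_exists_neg (p : ℕ) (hp : p.Prime) : ∃ b, lfchi p b = -1 := by
  rcases hp.eq_two_or_odd' with h2 | hodd
  · refine ⟨3, ?_⟩
    subst h2
    rw [lf_chi_odd (by decide)]
    norm_num
  · haveI : Fact p.Prime := ⟨hp⟩
    have hch : ringChar (ZMod p) ≠ 2 := by
      rw [ZMod.ringChar_zmod_n]
      rintro rfl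
      exact absurd hodd (by decide)
    obtain ⟨a, ha⟩ := FiniteField.exists_nonsquare hch
    have hcop : Nat.Coprime 4 p := by
      have : Nat.Coprime (2 ^ 2) p := Nat.Coprime.pow_left 2 (Nat.coprime_two_left.2 hodd)
      simpa using this
    obtain ⟨b, hb1, hb2⟩ := Nat.chineseRemainder hcop 1 a.val
    refine ⟨b, ?_⟩
    have hb4 : b % 4 = 1 := hb1
    have hbodd : Odd b := Nat.odd_iff.2 (by omega)
    rw [lf_chi_odd hbodd, ← jacobiSym.quadratic_reciprocity_one_mod_four hb4 hodd,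
      ← jacobiSym.legendreSym.to_jacobiSym, legendreSym.eq_neg_one_iff]
    have : ((b : ℤ) : ZMod p) = a := by
      have h1 : (b : ZMod p) = ((a.val : ℕ) : ZMod p) := (ZMod.natCast_eq_natCast_iff _ _ _).2 hb2
      rw [ZMod.natCast_zmod_val] at h1
      simpa using h1
    rw [this]; exact ha

theorem lf_sum_period (p : ℕ) (hp : p.Prime) : ∑ m ∈ range (4 * p), lfchi p m = 0 := by
  obtain ⟨b, hb⟩ := lf_exists_neg p hp
  have hn : 0 < 4 * p := by have := hp.pos; omega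
  haveI : NeZero (4 * p) := ⟨hn.ne'⟩
  -- `b` is a unit modulo `4 p`
  have hbodd : Odd b := by
    by_contra h
    rw [lf_chi_even h] at hb; norm_num at hb
  have hcop : Nat.Coprime b (4 * p) := by
    have h1 : Nat.Coprime b 4 := by
      have : Nat.Coprime b (2 ^ 2) := Nat.Coprime.pow_right 2 (Nat.coprime_two_right.2 hbodd)
      simpa using this
    have h2 : Nat.Coprime b p := by
      rw [lf_chi_odd hbodd] at hb
      have hne : jacobiSym (p : ℤ) b ≠ 0 := by rw [hb]; norm_num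
      have h3 : ¬ (b ≠ 0 ∧ (p : ℤ).gcd b ≠ 1) := fun h => hne (jacobiSym.eq_zero_iff.2 h)
      push Not at h3
      have h4 := h3 hbodd.pos.ne'
      have h5 : Nat.gcd p b = 1 := by simpa [Int.gcd_natCast_natCast] using h4
      exact (Nat.coprime_comm.1 h5)
    exact Nat.Coprime.mul_right h1 h2
  have hsum : ∑ m ∈ range (4 * p), lfchi p m = ∑ x : ZMod (4 * p), lfchi p x.val := by
    refine (Finset.sum_nbij' (fun x : ZMod (4 * p) => x.val) (fun m : ℕ => (m : ZMod (4 * p)))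
      ?_ ?_ ?_ ?_ ?_).symm
    · intro x _; exact Finset.mem_range.2 (ZMod.val_lt x)
    · intro m _; exact Finset.mem_univ _
    · intro x _; exact ZMod.natCast_zmod_val x
    · intro m hm; exact ZMod.val_cast_of_lt (Finset.mem_range.1 hm)
    · intro x _; rfl
  have hmul : ∑ x : ZMod (4 * p), lfchi p ((ZMod.unitOfCoprime b hcop : ZMod (4 * p)) * x).val =
      ∑ x : ZMod (4 * p), lfchi p x.val :=
    Fintype.sum_equiv (Units.mulLeft (ZMod.unitOfCoprime b hcop)) _ _ (fun x => rfl)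
  have hval : ∀ x : ZMod (4 * p),
      lfchi p ((ZMod.unitOfCoprime b hcop : ZMod (4 * p)) * x).val = - lfchi p x.val := by
    intro x
    rw [ZMod.coe_unitOfCoprime, ZMod.val_mul, lf_chi_mod, lf_chi_mul, ZMod.val_natCast, lf_chi_mod,
      hb]
    ring
  rw [hsum]
  simp only [hval, Finset.sum_neg_distrib] at hmul
  omega

theorem lf_sum_abs (p : ℕ) (hp : p.Prime) (N : ℕ) :
    |∑ i ∈ range N, (lfchi p i : ℝ)| ≤ 4 * p := by
  induction N using Nat.strong_induction_on with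
  | _ N ih =>
    by_cases h : 4 * p ≤ N
    · have hN : N = 4 * p + (N - 4 * p) := by omega
      rw [hN, Finset.sum_range_add]
      have h0 : ∑ i ∈ range (4 * p), (lfchi p i : ℝ) = 0 := by
        have := lf_sum_period p hp
        exact_mod_cast this
      rw [h0, zero_add]
      simp only [lf_chi_add]
      exact ih _ (by have := hp.pos; omega)
    · push Not at h
      calc |∑ i ∈ range N, (lfchi p i : ℝ)| ≤ ∑ i ∈ range N, |(lfchi p i : ℝ)| :=
            Finset.abs_sum_le_sum_abs _ _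
        _ ≤ ∑ i ∈ range N, (1 : ℝ) := Finset.sum_le_sum fun i _ => lf_chi_abs p i
        _ = N := by simp
        _ ≤ 4 * p := by exact_mod_cast h.le

/-- Abel's inequality. -/
theorem lf_abel (a c : ℕ → ℝ) (B : ℝ) (hB : 0 ≤ B) (ha : ∀ i, a (i + 1) ≤ a i) (ha0 : ∀ i, 0 ≤ a i)
    (hc : ∀ n, |∑ i ∈ range n, c i| ≤ B) (n : ℕ) : |∑ i ∈ range n, a i * c i| ≤ a 0 * B := by
  have key : ∀ n, ∑ i ∈ range n, a i * c i =
      ∑ i ∈ range n, (a i - a (i + 1)) * (∑ j ∈ range (i + 1), c j) + a n * ∑ j ∈ range n, c j := by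
    intro n
    induction n with
    | zero => simp
    | succ n ih =>
      rw [Finset.sum_range_succ, ih, Finset.sum_range_succ (fun i => (a i - a (i + 1)) *
        (∑ j ∈ range (i + 1), c j)), Finset.sum_range_succ (fun j => c j) n]
      ring
  have tel : ∀ n, ∑ i ∈ range n, (a i - a (i + 1)) = a 0 - a n := by
    intro n
    exact Finset.sum_range_sub' a n
  rw [key]
  calc |∑ i ∈ range n, (a i - a (i + 1)) * (∑ j ∈ range (i + 1), c j) + a n * ∑ j ∈ range n, c j|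
      ≤ |∑ i ∈ range n, (a i - a (i + 1)) * (∑ j ∈ range (i + 1), c j)| +
          |a n * ∑ j ∈ range n, c j| := abs_add_le _ _
    _ ≤ ∑ i ∈ range n, (a i - a (i + 1)) * B + a n * B := by
        refine add_le_add ?_ ?_
        · refine (Finset.abs_sum_le_sum_abs _ _).trans (Finset.sum_le_sum fun i _ => ?_)
          rw [abs_mul, abs_of_nonneg (sub_nonneg.2 (ha i))]
          exact mul_le_mul_of_nonneg_left (hc _) (sub_nonneg.2 (ha i))
        · rw [abs_mul, abs_of_nonneg (ha0 n)]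
          exact mul_le_mul_of_nonneg_left (hc _) (ha0 n)
    _ = a 0 * B := by rw [← Finset.sum_mul, tel]; ring

/-- `m ↦ m ^ (-s)` as a monoid with zero homomorphism. -/
noncomputable def lfpow (s : ℝ) (hs : 1 < s) : ℕ →*₀ ℝ where
  toFun m := (m : ℝ) ^ (-s)
  map_zero' := by
    simp only [Nat.cast_zero]
    exact Real.zero_rpow (by linarith)
  map_one' := by simp
  map_mul' m k := by
    simp only [Nat.cast_mul]
    exact Real.mul_rpow (Nat.cast_nonneg _) (Nat.cast_nonneg _)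

/-- `m ↦ χ(m) m ^ (-s)` as a monoid with zero homomorphism. -/
noncomputable def lfchipow (p : ℕ) (s : ℝ) (hs : 1 < s) : ℕ →*₀ ℝ where
  toFun m := (lfchi p m : ℝ) * (m : ℝ) ^ (-s)
  map_zero' := by simp [lf_chi_zero]
  map_one' := by simp [lf_chi_one]
  map_mul' m k := by
    simp only [Nat.cast_mul]
    rw [Real.mul_rpow (Nat.cast_nonneg _) (Nat.cast_nonneg _), lf_chi_mul]
    push_cast; ring

theorem lf_summable (s : ℝ) (hs : 1 < s) : Summable (fun m : ℕ => (m : ℝ) ^ (-s)) :=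
  Real.summable_nat_rpow.2 (by linarith)

theorem lf_summable_chi (p : ℕ) (s : ℝ) (hs : 1 < s) :
    Summable (fun m : ℕ => ‖(lfchi p m : ℝ) * (m : ℝ) ^ (-s)‖) := by
  refine Summable.of_nonneg_of_le (fun _ => norm_nonneg _) (fun m => ?_) (lf_summable s hs)
  rw [norm_mul, Real.norm_eq_abs, Real.norm_eq_abs, abs_of_nonneg (Real.rpow_nonneg
    (Nat.cast_nonneg m) _)]
  calc _ ≤ 1 * (m : ℝ) ^ (-s) := mul_le_mul_of_nonneg_right (lf_chi_abs p m)
        (Real.rpow_nonneg (Nat.cast_nonneg m) _)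
    _ = _ := one_mul _

/-- one term of the zeta series -/
theorem lf_term (s : ℝ) (hs : 1 < s) (m : ℕ) (hm : 1 ≤ m) :
    (s - 1) * ((m + 1 : ℕ) : ℝ) ^ (-s) ≤ (m : ℝ) ^ (1 - s) - ((m + 1 : ℕ) : ℝ) ^ (1 - s) := by
  have hm0 : (0 : ℝ) < m := by exact_mod_cast hm
  have hM : (0 : ℝ) < ((m + 1 : ℕ) : ℝ) := by positivity
  set M : ℝ := ((m + 1 : ℕ) : ℝ) with hMdef
  have hmM : (m : ℝ) = M * (1 - 1 / M) := by
    rw [hMdef]; push_cast; field_simp; ring
  have hu : 0 < 1 - 1 / M := by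
    by_contra h
    push Not at h
    nlinarith [mul_nonpos_of_nonneg_of_nonpos hM.le h]
  have h1 : (m : ℝ) ^ (1 - s) = M ^ (1 - s) * (1 - 1 / M) ^ (1 - s) := by
    rw [← Real.mul_rpow hM.le hu.le, ← hmM]
  have h2 : 1 + (s - 1) / M ≤ (1 - 1 / M) ^ (1 - s) := by
    rw [Real.rpow_def_of_pos hu]
    have h3 : Real.log (1 - 1 / M) ≤ -(1 / M) := by
      have := Real.log_le_sub_one_of_pos hu
      linarith
    have h4 : (s - 1) / M ≤ Real.log (1 - 1 / M) * (1 - s) := by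
      have : (s - 1) * (1 / M) ≤ (s - 1) * (- Real.log (1 - 1 / M)) :=
        mul_le_mul_of_nonneg_left (by linarith) (by linarith)
      calc (s - 1) / M = (s - 1) * (1 / M) := by ring
        _ ≤ _ := this
        _ = _ := by ring
    calc 1 + (s - 1) / M ≤ 1 + Real.log (1 - 1 / M) * (1 - s) := by linarith
      _ ≤ _ := by have := Real.add_one_le_exp (Real.log (1 - 1 / M) * (1 - s)); linarith
  have h5 : M ^ (-s) = M ^ (1 - s) / M := by
    rw [show (-s : ℝ) = (1 - s) - 1 by ring, Real.rpow_sub_one hM.ne']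
  rw [h1, h5]
  have h6 : 0 < M ^ (1 - s) := Real.rpow_pos_of_pos hM _
  have h7 := mul_le_mul_of_nonneg_left h2 h6.le
  calc (s - 1) * (M ^ (1 - s) / M) = M ^ (1 - s) * (1 + (s - 1) / M) - M ^ (1 - s) := by
        field_simp; ring
    _ ≤ _ := by linarith

theorem lf_zeta (s : ℝ) (hs : 1 < s) : ∑' m : ℕ, (m : ℝ) ^ (-s) ≤ 1 + 1 / (s - 1) := by
  have hs1 : 0 < s - 1 := by linarith
  have hpart : ∀ N : ℕ, ∑ m ∈ range (N + 2), (m : ℝ) ^ (-s) ≤
      1 + (1 - ((N + 1 : ℕ) : ℝ) ^ (1 - s)) / (s - 1) := by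
    intro N
    induction N with
    | zero =>
      rw [Finset.sum_range_succ, Finset.sum_range_succ, Finset.sum_range_zero]
      simp only [Nat.cast_zero, zero_add, Nat.cast_one, Real.one_rpow, sub_self, zero_div, add_zero]
      rw [Real.zero_rpow (by linarith)]; norm_num
    | succ N ih =>
      rw [Finset.sum_range_succ]
      have h1 := lf_term s hs (N + 1) (by omega)
      have h2 : ((N + 1 + 1 : ℕ) : ℝ) ^ (-s) ≤
          (((N + 1 : ℕ) : ℝ) ^ (1 - s) - ((N + 1 + 1 : ℕ) : ℝ) ^ (1 - s)) / (s - 1) := by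
        rw [le_div_iff₀ hs1, mul_comm]; exact h1
      have h3 : ((N + 2 : ℕ) : ℝ) ^ (-s) = ((N + 1 + 1 : ℕ) : ℝ) ^ (-s) := rfl
      rw [h3]
      calc _ ≤ 1 + (1 - ((N + 1 : ℕ) : ℝ) ^ (1 - s)) / (s - 1) +
            (((N + 1 : ℕ) : ℝ) ^ (1 - s) - ((N + 1 + 1 : ℕ) : ℝ) ^ (1 - s)) / (s - 1) :=
            add_le_add ih h2
        _ = _ := by ring
  refine Real.tsum_le_of_sum_range_le (fun n => Real.rpow_nonneg (Nat.cast_nonneg n) _) ?_
  intro N
  have hb : ∀ N : ℕ, 1 + (1 - ((N + 1 : ℕ) : ℝ) ^ (1 - s)) / (s - 1) ≤ 1 + 1 / (s - 1) := by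
    intro N
    have : 0 ≤ ((N + 1 : ℕ) : ℝ) ^ (1 - s) := Real.rpow_nonneg (Nat.cast_nonneg _) _
    have : (1 - ((N + 1 : ℕ) : ℝ) ^ (1 - s)) / (s - 1) ≤ 1 / (s - 1) :=
      div_le_div_of_nonneg_right (by linarith) hs1.le
    linarith
  calc ∑ i ∈ range N, (i : ℝ) ^ (-s) ≤ ∑ i ∈ range (N + 2), (i : ℝ) ^ (-s) :=
        Finset.sum_le_sum_of_subset_of_nonneg (Finset.range_mono (by omega))
          (fun i _ _ => Real.rpow_nonneg (Nat.cast_nonneg i) _)
    _ ≤ _ := (hpart N).trans (hb N)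

theorem lf_L (p : ℕ) (hp : p.Prime) (s : ℝ) (hs : 1 < s) :
    ∑' m : ℕ, (lfchi p m : ℝ) * (m : ℝ) ^ (-s) ≤ 2 + Real.log (4 * p) := by
  have hsum : Summable (fun m : ℕ => (lfchi p m : ℝ) * (m : ℝ) ^ (-s)) :=
    (lf_summable_chi p s hs).of_norm
  have hlim := hsum.hasSum.tendsto_sum_nat
  have hlim2 := hlim.comp (Filter.tendsto_add_atTop_nat (4 * p))
  refine le_of_tendsto' hlim2 ?_
  intro N
  simp only [Function.comp_apply]
  rw [Nat.add_comm N, Finset.sum_range_add]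
  have hp0 : (0 : ℝ) < 4 * p := by have := hp.pos; positivity
  have h1 : ∑ x ∈ range (4 * p), (lfchi p x : ℝ) * (x : ℝ) ^ (-s) ≤ 1 + Real.log (4 * p) := by
    have hle : ∑ x ∈ range (4 * p), (lfchi p x : ℝ) * (x : ℝ) ^ (-s) ≤
        ∑ x ∈ range (4 * p), (x : ℝ)⁻¹ := by
      refine Finset.sum_le_sum fun x _ => ?_
      rcases Nat.eq_zero_or_pos x with h0 | h0
      · subst h0; simp [lf_chi_zero]
      · have hx1 : (1 : ℝ) ≤ x := by exact_mod_cast h0
        calc (lfchi p x : ℝ) * (x : ℝ) ^ (-s) ≤ 1 * (x : ℝ) ^ (-s) :=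
              mul_le_mul_of_nonneg_right ((le_abs_self _).trans (lf_chi_abs p x))
                (Real.rpow_nonneg (Nat.cast_nonneg x) _)
          _ = (x : ℝ) ^ (-s) := one_mul _
          _ ≤ (x : ℝ) ^ (-1 : ℝ) := Real.rpow_le_rpow_of_exponent_le hx1 (by linarith)
          _ = (x : ℝ)⁻¹ := Real.rpow_neg_one _
    have hh : ∑ x ∈ range (4 * p), (x : ℝ)⁻¹ ≤ 1 + Real.log ((4 * p : ℕ) : ℝ) := by
      have h := harmonic_le_one_add_log (4 * p)
      refine le_trans ?_ h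
      rw [harmonic_eq_sum_Icc]
      push_cast
      have hsub : (range (4 * p)).erase 0 ⊆ Finset.Icc 1 (4 * p) := by
        intro x hx
        rw [Finset.mem_erase, Finset.mem_range] at hx
        rw [Finset.mem_Icc]; omega
      have h0 : ∑ x ∈ range (4 * p), (x : ℝ)⁻¹ = ∑ x ∈ (range (4 * p)).erase 0, (x : ℝ)⁻¹ := by
        rw [← Finset.sum_erase_add (range (4 * p)) (fun x : ℕ => (x : ℝ)⁻¹)
          (Finset.mem_range.2 (by have := hp.pos; omega) : 0 ∈ range (4 * p))]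
        simp
      rw [h0]
      exact Finset.sum_le_sum_of_subset_of_nonneg hsub (fun i _ _ => by positivity)
    push_cast at hh
    linarith
  have h2 : |∑ i ∈ range N, ((4 * p + i : ℕ) : ℝ) ^ (-s) * (lfchi p (4 * p + i) : ℝ)| ≤ 1 := by
    have hab := lf_abel (fun i => ((4 * p + i : ℕ) : ℝ) ^ (-s))
      (fun i => (lfchi p (4 * p + i) : ℝ)) (4 * p) hp0.le ?_ ?_ ?_ N
    · refine hab.trans ?_
      simp only [Nat.add_zero]
      have h4 : (1 : ℝ) ≤ ((4 * p : ℕ) : ℝ) := by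
        have := hp.pos; exact_mod_cast (by omega : 1 ≤ 4 * p)
      calc ((4 * p : ℕ) : ℝ) ^ (-s) * (4 * p) ≤ ((4 * p : ℕ) : ℝ) ^ (-1 : ℝ) * (4 * p) :=
            mul_le_mul_of_nonneg_right (Real.rpow_le_rpow_of_exponent_le h4 (by linarith)) hp0.le
        _ = 1 := by
            rw [Real.rpow_neg_one]; push_cast; exact inv_mul_cancel₀ hp0.ne'
    · intro i
      refine Real.rpow_le_rpow_of_nonpos ?_ ?_ (by linarith)
      · have := hp.pos; exact_mod_cast (by omega : 0 < 4 * p + i)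
      · exact_mod_cast (by omega : 4 * p + i ≤ 4 * p + (i + 1))
    · intro i; exact Real.rpow_nonneg (Nat.cast_nonneg _) _
    · intro n
      simp only [lf_chi_add]
      exact lf_sum_abs p hp n
  have h3 : ∑ x ∈ range N, (lfchi p (4 * p + x) : ℝ) * ((4 * p + x : ℕ) : ℝ) ^ (-s) ≤ 1 := by
    refine le_trans (le_of_eq ?_) ((le_abs_self _).trans h2)
    exact Finset.sum_congr rfl fun i _ => mul_comm _ _
  linarith

theorem lf_x (s : ℝ) (hs : 1 < s) (q : ℕ) (hq : q.Prime) :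
    0 < (q : ℝ) ^ (-s) ∧ (q : ℝ) ^ (-s) ≤ 1 / 2 ∧ (q : ℝ) ^ (-s) ≤ 1 / q := by
  have h2 : (2 : ℝ) ≤ q := by exact_mod_cast hq.two_le
  have h0 : (0 : ℝ) < q := by linarith
  have h1 : (q : ℝ) ^ (-s) ≤ 1 / q := by
    calc (q : ℝ) ^ (-s) ≤ (q : ℝ) ^ (-1 : ℝ) :=
          Real.rpow_le_rpow_of_exponent_le (by linarith) (by linarith)
      _ = 1 / q := by rw [Real.rpow_neg_one, one_div]
  have h3 : (1 : ℝ) / q ≤ 1 / 2 := one_div_le_one_div_of_le (by norm_num) h2
  exact ⟨Real.rpow_pos_of_pos h0 _, h1.trans h3, h1⟩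

theorem lf_factor (p : ℕ) (s : ℝ) (hs : 1 < s) (q : ℕ) (hq : q.Prime) :
    1 ≤ (1 - (q : ℝ) ^ (-s))⁻¹ * (1 - (lfchi p q : ℝ) * (q : ℝ) ^ (-s))⁻¹ := by
  obtain ⟨hx0, hx1, -⟩ := lf_x s hs q hq
  set x := (q : ℝ) ^ (-s)
  rw [← mul_inv]
  refine (one_le_inv₀ ?_).2 ?_
  · rcases lf_chi_tri p q with h | h | h <;> rw [h] <;> push_cast <;> nlinarith
  · rcases lf_chi_tri p q with h | h | h <;> rw [h] <;> push_cast <;> nlinarith

theorem lf_prod (p : ℕ) (hp : p.Prime) (s : ℝ) (hs : 1 < s) (S : Finset ℕ)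
    (hS : ∀ q ∈ S, q.Prime ∧ lfchi p q = 1) :
    ∏ q ∈ S, ((1 - (q : ℝ) ^ (-s))⁻¹) ^ 2 ≤ (1 + 1 / (s - 1)) * (2 + Real.log (4 * p)) := by
  have hz : HasProd (fun q : Nat.Primes => (1 - lfpow s hs q)⁻¹) (∑' n, lfpow s hs n) := by
    refine EulerProduct.eulerProduct_completely_multiplicative_hasProd ?_
    exact (lf_summable s hs).norm
  have hl : HasProd (fun q : Nat.Primes => (1 - lfchipow p s hs q)⁻¹) (∑' n, lfchipow p s hs n) := by
    refine EulerProduct.eulerProduct_completely_multiplicative_hasProd ?_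
    exact lf_summable_chi p s hs
  have hm := hz.mul hl
  have hfac : ∀ q : Nat.Primes, 1 ≤ (1 - lfpow s hs q)⁻¹ * (1 - lfchipow p s hs q)⁻¹ :=
    fun q => lf_factor p s hs q q.2
  have hle : ∏ q ∈ S.subtype Nat.Prime, ((1 - lfpow s hs (q : Nat.Primes))⁻¹ *
      (1 - lfchipow p s hs (q : Nat.Primes))⁻¹) ≤
      (∑' n, lfpow s hs n) * (∑' n, lfchipow p s hs n) := by
    refine ge_of_tendsto hm ?_
    filter_upwards [Filter.eventually_ge_atTop (S.subtype Nat.Prime)] with T hT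
    exact Finset.prod_le_prod_of_subset_of_one_le hT (fun q _ => zero_le_one.trans (hfac q))
      (fun q _ _ => hfac q)
  have heq : ∏ q ∈ S.subtype Nat.Prime, ((1 - lfpow s hs (q : Nat.Primes))⁻¹ *
      (1 - lfchipow p s hs (q : Nat.Primes))⁻¹) = ∏ q ∈ S, ((1 - (q : ℝ) ^ (-s))⁻¹) ^ 2 := by
    rw [Finset.prod_subtype_of_mem (fun q : ℕ => (1 - lfpow s hs q)⁻¹ * (1 - lfchipow p s hs q)⁻¹)
      (fun q hq => (hS q hq).1)]
    refine Finset.prod_congr rfl fun q hq => ?_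
    show (1 - (q : ℝ) ^ (-s))⁻¹ * (1 - (lfchi p q : ℝ) * (q : ℝ) ^ (-s))⁻¹ = _
    rw [(hS q hq).2]; push_cast; rw [one_mul, sq]
  rw [← heq]
  refine hle.trans ?_
  have h1 : ∑' n, lfpow s hs n ≤ 1 + 1 / (s - 1) := lf_zeta s hs
  have h2 : ∑' n, lfchipow p s hs n ≤ 2 + Real.log (4 * p) := lf_L p hp s hs
  have h0 : 0 ≤ ∑' n, lfpow s hs n := tsum_nonneg fun n => Real.rpow_nonneg (Nat.cast_nonneg n) _
  have h3 : 0 ≤ 2 + Real.log (4 * p) := by
    have : 0 ≤ Real.log (4 * p) := Real.log_nonneg (by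
      have : (1 : ℝ) ≤ p := by exact_mod_cast hp.one_le
      linarith)
    linarith
  calc _ ≤ (∑' n, lfpow s hs n) * (2 + Real.log (4 * p)) := mul_le_mul_of_nonneg_left h2 h0
    _ ≤ _ := mul_le_mul_of_nonneg_right h1 h3

theorem lf_chi_sq (p q : ℕ) (hp : p.Prime) (hq : q.Prime) (hq2 : q ≠ 2) (hqp : q ≠ p)
    (h : IsSquare ((p : ℕ) : ZMod q)) : lfchi p q = 1 := by
  haveI : Fact q.Prime := ⟨hq⟩
  have hodd : Odd q := hq.odd_of_ne_two hq2
  have hne : ((p : ℕ) : ZMod q) ≠ 0 := by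
    intro h0
    rw [ZMod.natCast_eq_zero_iff] at h0
    exact hqp ((Nat.prime_dvd_prime_iff_eq hq hp).1 h0)
  rw [lf_chi_odd hodd, ← jacobiSym.legendreSym.to_jacobiSym]
  exact (legendreSym.eq_one_iff' q hne).2 h

/-- one factor: from `s` to `1` -/
theorem lf_shift (L : ℝ) (hL : 0 < L) (q : ℕ) (hq : q.Prime) :
    (1 - 1 / (q : ℝ))⁻¹ ≤ (1 - (q : ℝ) ^ (-(1 + 1 / L)))⁻¹ *
      Real.exp (2 / L * (Real.log q / q)) := by
  have hs : 1 < 1 + 1 / L := by have : 0 < 1 / L := by positivity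
                                linarith
  obtain ⟨hx0, hx1, hx2⟩ := lf_x (1 + 1 / L) hs q hq
  have h2 : (2 : ℝ) ≤ q := by exact_mod_cast hq.two_le
  have h0 : (0 : ℝ) < q := by linarith
  have hq2 : (1 : ℝ) / q ≤ 1 / 2 := one_div_le_one_div_of_le (by norm_num) h2
  set x := (q : ℝ) ^ (-(1 + 1 / L)) with hx
  have hdiff : 1 / (q : ℝ) - x ≤ Real.log q / q / L := by
    have h3 : x = (1 / q) * Real.exp (-(Real.log q / L)) := by
      rw [hx, show -(1 + 1 / L) = (-1 : ℝ) + -(1 / L) by ring, Real.rpow_add h0,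
        Real.rpow_neg_one, Real.rpow_def_of_pos h0,
        show Real.log q * -(1 / L) = -(Real.log q / L) by ring, one_div]
    rw [h3]
    have h4 := Real.add_one_le_exp (-(Real.log q / L))
    have h5 : (0 : ℝ) < 1 / q := by positivity
    have h6 := mul_le_mul_of_nonneg_left h4 h5.le
    calc 1 / (q : ℝ) - 1 / q * Real.exp (-(Real.log q / L)) ≤
          1 / q - 1 / q * (-(Real.log q / L) + 1) := by linarith
      _ = _ := by ring
  have hA : 0 < 1 - 1 / (q : ℝ) := by linarith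
  have hB : 0 < 1 - x := by linarith
  rw [inv_le_iff_one_le_mul₀ hA, mul_comm (1 - x)⁻¹, mul_assoc]
  have hC : 1 - x ≤ Real.exp (2 / L * (Real.log q / q)) * (1 - 1 / (q : ℝ)) := by
    have h7 := Real.add_one_le_exp (2 / L * (Real.log q / q))
    have h8 : 2 / L * (Real.log q / q) = 2 * (Real.log q / q / L) := by ring
    have h9 : (2 * (1 / (q : ℝ) - x) + 1) * (1 - 1 / (q : ℝ)) ≤
        Real.exp (2 / L * (Real.log q / q)) * (1 - 1 / (q : ℝ)) :=
      mul_le_mul_of_nonneg_right (by linarith) hA.le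
    nlinarith
  calc (1 : ℝ) = (1 - x) * (1 - x)⁻¹ := (mul_inv_cancel₀ hB.ne').symm
    _ ≤ (Real.exp (2 / L * (Real.log q / q)) * (1 - 1 / (q : ℝ))) * (1 - x)⁻¹ :=
        mul_le_mul_of_nonneg_right hC (inv_nonneg.2 hB.le)
    _ = _ := by ring

theorem lf (h1 : M1) (h2 : M2) (h3 : M3) : LF := by
  classical
  refine ⟨12 * Real.exp 8, by positivity, fun p hp z hz => ?_⟩
  have hL2 : (0.69 : ℝ) < Real.log z := by
    have ha : Real.log 2 ≤ Real.log z := Real.log_le_log (by norm_num) hz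
    have hb := Real.log_two_gt_d9
    linarith
  set L := Real.log z with hLdef
  have hL : 0 < L := by linarith
  set P1 : Finset ℕ := (PZ z).filter (fun q => lfchi p q = 1) with hP1
  have hmem : ∀ q ∈ PZ z, q.Prime := fun q hq => (Finset.mem_filter.1 hq).2
  have hfac : ∀ q : ℕ, q.Prime → (1 / 2 : ℝ) ≤ 1 - 1 / q ∧ 1 - 1 / (q : ℝ) ≤ 1 := by
    intro q hq
    have hq2 : (2 : ℝ) ≤ q := by exact_mod_cast hq.two_le
    have : (1 : ℝ) / q ≤ 1 / 2 := one_div_le_one_div_of_le (by norm_num) hq2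
    have : (0 : ℝ) ≤ 1 / q := by positivity
    constructor <;> linarith
  -- the product over `P1`
  have hsq : ∏ q ∈ P1, ((1 - (q : ℝ) ^ (-(1 + 1 / L)))⁻¹) ^ 2 ≤
      (1 + L) * (2 + Real.log (4 * p)) := by
    have hs : 1 < 1 + 1 / L := by have : 0 < 1 / L := by positivity
                                  linarith
    have := lf_prod p hp (1 + 1 / L) hs P1 (fun q hq =>
      ⟨hmem q (Finset.mem_filter.1 hq).1, (Finset.mem_filter.1 hq).2⟩)
    have he : 1 / (1 + 1 / L - 1) = L := by field_simp; ring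
    rwa [he] at this
  have hP1le : ∏ q ∈ P1, (1 - 1 / (q : ℝ))⁻¹ ≤
      Real.sqrt ((1 + L) * (2 + Real.log (4 * p))) * Real.exp 8 := by
    have ha : ∏ q ∈ P1, (1 - 1 / (q : ℝ))⁻¹ ≤ (∏ q ∈ P1, (1 - (q : ℝ) ^ (-(1 + 1 / L)))⁻¹) *
        ∏ q ∈ P1, Real.exp (2 / L * (Real.log q / q)) := by
      rw [← Finset.prod_mul_distrib]
      refine Finset.prod_le_prod (fun q hq => ?_) (fun q hq => ?_)
      · have := (hfac q (hmem q (Finset.mem_filter.1 hq).1)).1
        exact inv_nonneg.2 (by linarith)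
      · exact lf_shift L hL q (hmem q (Finset.mem_filter.1 hq).1)
    refine ha.trans (mul_le_mul ?_ ?_ ?_ (Real.sqrt_nonneg _))
    · refine Real.le_sqrt_of_sq_le ?_
      rw [← Finset.prod_pow]; exact hsq
    · rw [← Real.exp_sum]
      refine Real.exp_le_exp.2 ?_
      rw [← Finset.mul_sum]
      have hb : ∑ q ∈ P1, Real.log q / (q : ℝ) ≤ L + 2 := by
        refine le_trans (Finset.sum_le_sum_of_subset_of_nonneg (Finset.filter_subset _ _)
          (fun q hq _ => ?_)) (h3 z hz)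
        have : (1 : ℝ) ≤ q := by exact_mod_cast (hmem q hq).one_le
        exact div_nonneg (Real.log_nonneg this) (by linarith)
      calc 2 / L * ∑ q ∈ P1, Real.log q / (q : ℝ) ≤ 2 / L * (L + 2) :=
            mul_le_mul_of_nonneg_left hb (by positivity)
        _ ≤ 8 := by
            rw [div_mul_eq_mul_div, div_le_iff₀ hL]; linarith
    · exact Finset.prod_nonneg fun q _ => (Real.exp_pos _).le
  -- the complement of `NZ`
  have hNZsub : NZ p z ⊆ PZ z := Finset.filter_subset _ _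
  have hR : PZ z \ NZ p z ⊆ P1 ∪ {2, p} := by
    intro q hq
    rw [Finset.mem_sdiff] at hq
    obtain ⟨hq1, hq2⟩ := hq
    by_cases hq3 : q = 2
    · simp [hq3]
    by_cases hq4 : q = p
    · simp [hq4]
    have hsqr : IsSquare ((p : ℕ) : ZMod q) := by
      by_contra hns
      exact hq2 (by unfold NZ; rw [Finset.mem_filter]; exact ⟨hq1, hq3, hns⟩)
    refine Finset.mem_union_left _ ?_
    rw [hP1, Finset.mem_filter]
    exact ⟨hq1, lf_chi_sq p q hp (hmem q hq1) hq3 hq4 hsqr⟩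
  have hone : ∀ q : ℕ, q.Prime → 1 ≤ (1 - 1 / (q : ℝ))⁻¹ ∧ (1 - 1 / (q : ℝ))⁻¹ ≤ 2 := by
    intro q hq
    obtain ⟨ha, hb⟩ := hfac q hq
    refine ⟨(one_le_inv₀ (by linarith)).2 hb, ?_⟩
    rw [inv_le_comm₀ (by linarith) (by norm_num)]
    linarith
  have hprU : ∀ q ∈ P1 ∪ {2, p}, q.Prime := by
    intro q hq
    rw [Finset.mem_union, Finset.mem_insert, Finset.mem_singleton] at hq
    rcases hq with hq | rfl | rfl
    · exact hmem q (Finset.mem_filter.1 hq).1
    · exact Nat.prime_two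
    · exact hp
  have hRle : ∏ q ∈ PZ z \ NZ p z, (1 - 1 / (q : ℝ))⁻¹ ≤ 4 * ∏ q ∈ P1, (1 - 1 / (q : ℝ))⁻¹ := by
    calc ∏ q ∈ PZ z \ NZ p z, (1 - 1 / (q : ℝ))⁻¹ ≤ ∏ q ∈ P1 ∪ {2, p}, (1 - 1 / (q : ℝ))⁻¹ :=
          Finset.prod_le_prod_of_subset_of_one_le hR
            (fun q hq => zero_le_one.trans (hone q (hprU q (hR hq))).1)
            (fun q hq _ => (hone q (hprU q hq)).1)
      _ = (∏ q ∈ ({2, p} : Finset ℕ) \ P1, (1 - 1 / (q : ℝ))⁻¹) *
            ∏ q ∈ P1, (1 - 1 / (q : ℝ))⁻¹ := by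
          rw [← Finset.prod_sdiff (Finset.subset_union_left (s₁ := P1) (s₂ := ({2, p} : Finset ℕ))),
            Finset.union_sdiff_left]
      _ ≤ 4 * ∏ q ∈ P1, (1 - 1 / (q : ℝ))⁻¹ := by
          refine mul_le_mul_of_nonneg_right ?_ (Finset.prod_nonneg fun q hq =>
            zero_le_one.trans (hone q (hprU q (Finset.mem_union_left _ hq))).1)
          calc ∏ q ∈ ({2, p} : Finset ℕ) \ P1, (1 - 1 / (q : ℝ))⁻¹ ≤
                ∏ q ∈ ({2, p} : Finset ℕ) \ P1, (2 : ℝ) := by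
                refine Finset.prod_le_prod (fun q hq => ?_) (fun q hq => ?_)
                · exact zero_le_one.trans (hone q (hprU q (Finset.mem_union_right _
                    (Finset.mem_sdiff.1 hq).1))).1
                · exact (hone q (hprU q (Finset.mem_union_right _ (Finset.mem_sdiff.1 hq).1))).2
            _ = 2 ^ (({2, p} : Finset ℕ) \ P1).card := by rw [Finset.prod_const]
            _ ≤ 2 ^ 2 := pow_le_pow_right₀ (by norm_num)
                ((Finset.card_le_card Finset.sdiff_subset).trans Finset.card_le_two)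
            _ = 4 := by norm_num
  have hPne : ∏ q ∈ PZ z \ NZ p z, (1 - 1 / (q : ℝ)) ≠ 0 :=
    Finset.prod_ne_zero_iff.2 fun q hq => by
      have := (hfac q (hmem q (Finset.mem_sdiff.1 hq).1)).1
      intro h; rw [h] at this; norm_num at this
  have hsplit : ∏ q ∈ NZ p z, (1 - 1 / (q : ℝ)) =
      (∏ q ∈ PZ z, (1 - 1 / (q : ℝ))) * ∏ q ∈ PZ z \ NZ p z, (1 - 1 / (q : ℝ))⁻¹ := by
    rw [← Finset.prod_sdiff hNZsub, Finset.prod_inv_distrib]
    field_simp
  have hlogp : 2 ≤ Real.log (8 * p) := by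
    have ha : (16 : ℝ) ≤ 8 * p := by
      have : (2 : ℝ) ≤ p := by exact_mod_cast hp.two_le
      linarith
    have hb : Real.log 16 ≤ Real.log (8 * p) := Real.log_le_log (by norm_num) ha
    have hc : Real.log 16 = 4 * Real.log 2 := by
      rw [show (16 : ℝ) = 2 ^ 4 by norm_num, Real.log_pow]; norm_num
    have hd := Real.log_two_gt_d9
    linarith
  have hlogp' : Real.log (4 * p) ≤ Real.log (8 * p) := by
    have : (1 : ℝ) ≤ p := by exact_mod_cast hp.one_le
    exact Real.log_le_log (by linarith) (by linarith)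
  have hlogp0 : 0 ≤ Real.log (4 * p) := Real.log_nonneg (by
    have : (1 : ℝ) ≤ p := by exact_mod_cast hp.one_le
    linarith)
  have hsqrt : Real.sqrt ((1 + L) * (2 + Real.log (4 * p))) ≤
      3 * L * Real.sqrt (Real.log (8 * p) / L) := by
    rw [show 3 * L * Real.sqrt (Real.log (8 * p) / L) =
      Real.sqrt ((3 * L) ^ 2 * (Real.log (8 * p) / L)) by
        rw [Real.sqrt_mul (by positivity), Real.sqrt_sq (by positivity)]]
    refine Real.sqrt_le_sqrt ?_
    have ha : (3 * L) ^ 2 * (Real.log (8 * p) / L) = 9 * L * Real.log (8 * p) := by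
      field_simp; ring
    rw [ha]
    have hb : 1 + L ≤ 4 * L := by linarith
    have hc : 2 + Real.log (4 * p) ≤ 2 * Real.log (8 * p) := by linarith
    calc (1 + L) * (2 + Real.log (4 * p)) ≤ (4 * L) * (2 * Real.log (8 * p)) :=
          mul_le_mul hb hc (by linarith) (by linarith)
      _ ≤ 9 * L * Real.log (8 * p) := by nlinarith
  rw [hsplit]
  have hPZ0 : 0 ≤ ∏ q ∈ PZ z, (1 - 1 / (q : ℝ)) := Finset.prod_nonneg fun q hq => by
    have := (hfac q (hmem q hq)).1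
    linarith
  calc (∏ q ∈ PZ z, (1 - 1 / (q : ℝ))) * ∏ q ∈ PZ z \ NZ p z, (1 - 1 / (q : ℝ))⁻¹
      ≤ (1 / L) * (4 * (Real.sqrt ((1 + L) * (2 + Real.log (4 * p))) * Real.exp 8)) := by
        refine mul_le_mul (h2 z hz) (hRle.trans (mul_le_mul_of_nonneg_left hP1le (by norm_num)))
          (Finset.prod_nonneg fun q hq => ?_) (by positivity)
        exact zero_le_one.trans (hone q (hmem q (Finset.mem_sdiff.1 hq).1)).1
    _ ≤ (1 / L) * (4 * ((3 * L * Real.sqrt (Real.log (8 * p) / L)) * Real.exp 8)) := by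
        have h5 : 0 < 1 / L := by positivity
        have h6 : 0 < Real.exp 8 := Real.exp_pos 8
        refine mul_le_mul_of_nonneg_left ?_ h5.le
        refine mul_le_mul_of_nonneg_left ?_ (by norm_num)
        exact mul_le_mul_of_nonneg_right hsqrt h6.le
    _ = 12 * Real.exp 8 * Real.sqrt (Real.log (8 * p) / L) := by
        field_simp; ring

end Pool.Agent.H27.AP
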