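import Pool.Agent.H27.AP.Defs

/-!
# Lower bound for a common multiple
-/

set_option autoImplicit false

namespace Pool.Agent.H27.AP

theorem gcd_lcm_dvd (S : Finset ℕ) (h : ℕ → ℕ) (a : ℕ) :
    Nat.gcd a (S.lcm h) ∣ ∏ i ∈ S, Nat.gcd a (h i) := by
  classical
  induction S using Finset.induction_on with
  | empty => simp
  | insert b S hb ih =>
    rw [Finset.prod_insert hb, Finset.lcm_insert]
    have h1 : lcm (h b) (S.lcm h) ∣ h b * S.lcm h :=
      lcm_dvd (dvd_mul_right _ _) (dvd_mul_left _ _)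
    exact ((Nat.gcd_dvd_gcd_of_dvd_right a h1).trans (Nat.gcd_mul_right_dvd_mul_gcd a (h b) (S.lcm h))).trans
      (mul_dvd_mul_left _ ih)

theorem prod_le_lcm (S : Finset ℕ) (h : ℕ → ℕ) (g : ℕ) (h0 : ∀ i ∈ S, 0 < h i) (hg : 1 ≤ g)
    (hh : ∀ i ∈ S, ∀ j ∈ S, i ≠ j → Nat.gcd (h i) (h j) ≤ g) :
    ∏ i ∈ S, h i ≤ S.lcm h * g ^ (S.card ^ 2) := by
  classical
  induction S using Finset.induction_on with
  | empty => simp
  | insert b S hb ih =>
    have ih' := ih (fun i hi => h0 i (Finset.mem_insert_of_mem hi))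
      (fun i hi j hj hij => hh i (Finset.mem_insert_of_mem hi) j (Finset.mem_insert_of_mem hj) hij)
    have hb0 : 0 < h b := h0 b (Finset.mem_insert_self _ _)
    have hgcd : Nat.gcd (h b) (S.lcm h) ≤ g ^ S.card := by
      have h1 : Nat.gcd (h b) (S.lcm h) ≤ ∏ i ∈ S, Nat.gcd (h b) (h i) :=
        Nat.le_of_dvd (Finset.prod_pos fun i _ => Nat.gcd_pos_of_pos_left _ hb0)
          (gcd_lcm_dvd S h (h b))
      refine h1.trans ?_
      calc ∏ i ∈ S, Nat.gcd (h b) (h i) ≤ ∏ _i ∈ S, g := by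
            refine Finset.prod_le_prod' fun i hi => ?_
            exact hh b (Finset.mem_insert_self _ _) i (Finset.mem_insert_of_mem hi)
              (fun hbi => hb (hbi ▸ hi))
        _ = g ^ S.card := by simp
    rw [Finset.prod_insert hb, Finset.lcm_insert, Finset.card_insert_of_notMem hb]
    have hlcm : Nat.gcd (h b) (S.lcm h) * lcm (h b) (S.lcm h) = h b * S.lcm h :=
      Nat.gcd_mul_lcm (h b) (S.lcm h)
    calc h b * ∏ i ∈ S, h i ≤ h b * (S.lcm h * g ^ (S.card ^ 2)) := Nat.mul_le_mul_left _ ih'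
      _ = (Nat.gcd (h b) (S.lcm h) * lcm (h b) (S.lcm h)) * g ^ (S.card ^ 2) := by
          rw [hlcm, mul_assoc]
      _ ≤ (g ^ S.card * lcm (h b) (S.lcm h)) * g ^ (S.card ^ 2) :=
          Nat.mul_le_mul_right _ (Nat.mul_le_mul_right _ hgcd)
      _ = lcm (h b) (S.lcm h) * g ^ (S.card + S.card ^ 2) := by rw [pow_add]; ring
      _ ≤ lcm (h b) (S.lcm h) * g ^ ((S.card + 1) ^ 2) :=
          Nat.mul_le_mul_left _ (Nat.pow_le_pow_right hg (by nlinarith))

/-- Lower bound for a common multiple. -/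
theorem lcmS : LcmS := by
  intro S h g k h0 hk hg hh hdvd
  refine (prod_le_lcm S h g h0 hg hh).trans (Nat.mul_le_mul_right _ ?_)
  exact Nat.le_of_dvd hk (Finset.lcm_dvd hdvd)

end Pool.Agent.H27.AP
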