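import Pool.Agent.H27.AP.Defs

/-!
# Sums and products over primes: M1, M2, M3
-/

set_option autoImplicit false

open Finset

namespace Pool.Agent.H27.AP

/-- `n ↦ n ^ (-s)` as a homomorphism. -/
noncomputable def pw (s : ℝ) : ℕ →* ℝ where
  toFun n := (n : ℝ) ^ (-s)
  map_one' := by simp
  map_mul' a b := by
    push_cast
    exact Real.mul_rpow (by positivity) (by positivity)

theorem pw_apply (s : ℝ) (n : ℕ) : pw s n = (n : ℝ) ^ (-s) := rfl

theorem pw_nonneg (s : ℝ) (n : ℕ) : 0 ≤ pw s n := by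
  rw [pw_apply]; positivity

theorem pw_one (n : ℕ) : pw 1 n = 1 / (n : ℝ) := by
  rw [pw_apply, Real.rpow_neg_one, one_div]

theorem pw_lt_one {s : ℝ} (hs : 0 < s) {p : ℕ} (hp : p.Prime) : pw s p < 1 := by
  rw [pw_apply]
  exact Real.rpow_lt_one_of_one_lt_of_neg (by exact_mod_cast hp.one_lt) (by linarith)

theorem pw_norm_lt {s : ℝ} (hs : 0 < s) {p : ℕ} (hp : p.Prime) : ‖pw s p‖ < 1 := by
  rw [Real.norm_of_nonneg (pw_nonneg s p)]
  exact pw_lt_one hs hp

theorem PZ_eq (z : ℝ) : PZ z = (⌊z⌋₊ + 1).primesBelow := by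
  ext q
  simp only [PZ, Nat.primesBelow, mem_filter, mem_Icc, mem_range]
  constructor
  · rintro ⟨⟨-, h⟩, hq⟩
    exact ⟨by omega, hq⟩
  · rintro ⟨h, hq⟩
    exact ⟨⟨hq.one_lt.le, by omega⟩, hq⟩

theorem mem_PZ {z : ℝ} {q : ℕ} (hz : 0 ≤ z) : q ∈ PZ z ↔ q.Prime ∧ (q : ℝ) ≤ z := by
  simp only [PZ, mem_filter, mem_Icc]
  constructor
  · rintro ⟨⟨-, h⟩, hq⟩
    exact ⟨hq, (Nat.le_floor_iff hz).1 h⟩
  · rintro ⟨hq, h⟩
    exact ⟨⟨hq.one_lt.le, Nat.le_floor h⟩, hq⟩

/-- partial sums of `zeta` -/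
theorem sum_pw_le {s : ℝ} (hs : 1 < s) (M : ℕ) :
    ∑ m ∈ Icc 1 M, pw s m ≤ 1 + 1 / (s - 1) := by
  rcases Nat.eq_zero_or_pos M with h0 | hM
  · subst h0
    have : 0 < s - 1 := by linarith
    simp only [zero_lt_one, Icc_eq_empty_of_lt, sum_empty]
    positivity
  have h1 : Icc 1 M = insert 1 (Icc 2 M) := by
    ext k; simp only [mem_Icc, mem_insert]; omega
  have h2 : ∑ m ∈ Icc 2 M, pw s m = ∑ i ∈ Ico 1 M, ((i + 1 : ℕ) : ℝ) ^ (-s) := by
    have : Icc 2 M = (Ico 1 M).image (· + 1) := by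
      ext k
      simp only [mem_Icc, mem_image, mem_Ico]
      constructor
      · intro h; exact ⟨k - 1, by omega, by omega⟩
      · rintro ⟨a, h, rfl⟩; omega
    rw [this, sum_image (fun a _ b _ h => by simpa using h)]
    rfl
  have hanti : AntitoneOn (fun x : ℝ => x ^ (-s)) (Set.Icc ((1 : ℕ) : ℝ) (M : ℝ)) := by
    intro a ha b hb hab
    have ha0 : (0 : ℝ) < a := by
      have := ha.1; push_cast at this; linarith
    exact Real.rpow_le_rpow_of_nonpos ha0 hab (by linarith)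
  have h3 := AntitoneOn.sum_le_integral_Ico (f := fun x : ℝ => x ^ (-s)) (show (1 : ℕ) ≤ M from hM) hanti
  have h4 : ∫ x in ((1 : ℕ) : ℝ)..(M : ℝ), x ^ (-s) = ((M : ℝ) ^ (-s + 1) - ((1 : ℕ) : ℝ) ^ (-s + 1)) / (-s + 1) := by
    apply integral_rpow
    right
    refine ⟨by linarith, ?_⟩
    rw [Set.uIcc_of_le (by exact_mod_cast hM)]
    intro h
    have := h.1
    norm_num at this
  have h5 : ((M : ℝ) ^ (-s + 1) - ((1 : ℕ) : ℝ) ^ (-s + 1)) / (-s + 1) ≤ 1 / (s - 1) := by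
    have hs' : 0 < s - 1 := by linarith
    have h6 : ((M : ℝ) ^ (-s + 1) - ((1 : ℕ) : ℝ) ^ (-s + 1)) / (-s + 1) =
        (1 - (M : ℝ) ^ (-s + 1)) / (s - 1) := by
      rw [Nat.cast_one, Real.one_rpow, div_eq_div_iff (by linarith) hs'.ne']
      ring
    rw [h6]
    apply div_le_div_of_nonneg_right _ hs'.le
    have : 0 ≤ (M : ℝ) ^ (-s + 1) := by positivity
    linarith
  rw [h1, sum_insert (by simp), h2]
  have h7 : pw s 1 = 1 := map_one _
  rw [h7]
  have h8 : ∑ i ∈ Ico 1 M, ((i + 1 : ℕ) : ℝ) ^ (-s) ≤ 1 / (s - 1) := h3.trans (h4.le.trans h5)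
  exact add_le_add le_rfl h8

theorem hasSum_pw {s : ℝ} (hs : 0 < s) (N : ℕ) :
    HasSum (fun m : N.smoothNumbers => pw s m) (∏ p ∈ N.primesBelow, (1 - pw s p)⁻¹) :=
  (EulerProduct.summable_and_hasSum_smoothNumbers_prod_primesBelow_geometric
    (f := pw s) (fun hp => pw_norm_lt hs hp) N).2

theorem prod_pw_le {s : ℝ} (hs : 1 < s) (N : ℕ) :
    ∏ p ∈ N.primesBelow, (1 - pw s p)⁻¹ ≤ 1 + 1 / (s - 1) := by
  apply hasSum_le_of_sum_le (hasSum_pw (by linarith) N)
  intro t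
  set M := (t.image (fun m : N.smoothNumbers => (m : ℕ))).sup id with hM
  have h1 : ∑ m ∈ t, pw s m = ∑ m ∈ t.image (fun m : N.smoothNumbers => (m : ℕ)), pw s m := by
    rw [sum_image (fun a _ b _ h => Subtype.ext h)]
  rw [h1]
  refine le_trans (sum_le_sum_of_subset_of_nonneg ?_ fun i _ _ => pw_nonneg s i) (sum_pw_le hs M)
  intro m hm
  rw [mem_Icc]
  refine ⟨?_, ?_⟩
  · obtain ⟨a, -, rfl⟩ := mem_image.1 hm
    exact Nat.pos_of_ne_zero (Nat.ne_zero_of_mem_smoothNumbers a.2)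
  · exact le_sup (f := id) hm

theorem m1 : M1 := by
  intro z hz
  have hl : 0 < Real.log z := Real.log_pos (by linarith)
  set s : ℝ := 1 + 1 / Real.log z with hs
  have hs1 : 1 < s := by
    have : 0 < 1 / Real.log z := by positivity
    linarith
  have hL : 1 + 1 / (s - 1) = 1 + Real.log z := by
    rw [hs]; simp
  have hlog : 0 ≤ Real.log (1 + Real.log z) := Real.log_nonneg (by linarith)
  have hA : ∑ q ∈ PZ z, pw s q ≤ Real.log (1 + Real.log z) := by
    have h1 : ∑ q ∈ PZ z, pw s q ≤ ∑ q ∈ PZ z, Real.log ((1 - pw s q)⁻¹) := by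
      apply sum_le_sum
      intro q hq
      have hp := ((mem_PZ (by linarith)).1 hq).1
      have h2 := pw_lt_one (s := s) (by linarith) hp
      rw [Real.log_inv]
      have h3 := Real.log_le_sub_one_of_pos (show 0 < 1 - pw s q by linarith)
      linarith
    have h4 : ∑ q ∈ PZ z, Real.log ((1 - pw s q)⁻¹) = Real.log (∏ q ∈ PZ z, (1 - pw s q)⁻¹) := by
      rw [Real.log_prod]
      intro q hq
      have hp := ((mem_PZ (by linarith)).1 hq).1
      have h2 := pw_lt_one (s := s) (by linarith) hp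
      exact inv_ne_zero (by linarith)
    rw [h4] at h1
    refine h1.trans ?_
    apply Real.log_le_log
    · apply prod_pos
      intro q hq
      have hp := ((mem_PZ (by linarith)).1 hq).1
      have h2 := pw_lt_one (s := s) (by linarith) hp
      exact inv_pos.2 (by linarith)
    · rw [← hL, PZ_eq]
      exact prod_pw_le hs1 _
  have hB : ∑ q ∈ PZ z, 1 / (q : ℝ) ≤ Real.exp 1 * ∑ q ∈ PZ z, pw s q := by
    rw [mul_sum]
    apply sum_le_sum
    intro q hq
    obtain ⟨hp, hqz⟩ := (mem_PZ (by linarith)).1 hq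
    have hq0 : (0 : ℝ) < q := by exact_mod_cast hp.pos
    have hlq : Real.log q ≤ Real.log z := Real.log_le_log hq0 hqz
    rw [pw_apply, Real.rpow_def_of_pos hq0, ← Real.exp_add]
    have h5 : 1 / (q : ℝ) = Real.exp (-Real.log q) := by
      rw [Real.exp_neg, Real.exp_log hq0, one_div]
    rw [h5]
    apply Real.exp_le_exp.2
    have h6 : Real.log q * -s = -Real.log q - Real.log q / Real.log z := by
      rw [hs]; ring
    rw [h6]
    have h7 : Real.log q / Real.log z ≤ 1 := (div_le_one hl).2 hlq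
    linarith
  have he : Real.exp 1 ≤ 3 := by
    have := Real.exp_one_lt_d9
    linarith
  calc ∑ q ∈ PZ z, 1 / (q : ℝ) ≤ Real.exp 1 * ∑ q ∈ PZ z, pw s q := hB
    _ ≤ Real.exp 1 * Real.log (1 + Real.log z) :=
        mul_le_mul_of_nonneg_left hA (Real.exp_pos 1).le
    _ ≤ 3 * Real.log (1 + Real.log z) := mul_le_mul_of_nonneg_right he hlog

theorem m2 : M2 := by
  classical
  intro z hz
  have hl : 0 < Real.log z := Real.log_pos (by linarith)
  set N := ⌊z⌋₊ with hN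
  have hlow : Real.log z ≤ ∏ q ∈ PZ z, (1 - pw 1 q)⁻¹ := by
    rw [PZ_eq]
    have h1 := hasSum_pw (s := 1) one_pos (N + 1)
    have h2 := sum_le_hasSum ((Icc 1 N).subtype (fun m => m ∈ (N + 1).smoothNumbers))
      (fun i _ => pw_nonneg 1 _) h1
    refine le_trans ?_ h2
    have h3 : ∑ m ∈ (Icc 1 N).subtype (fun m => m ∈ (N + 1).smoothNumbers), pw 1 (m : ℕ) =
        ∑ m ∈ Icc 1 N, pw 1 m := by
      rw [sum_subtype_eq_sum_filter]
      congr 1
      apply filter_true_of_mem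
      intro m hm
      rw [mem_Icc] at hm
      rw [Nat.mem_smoothNumbers']
      intro p hp hpm
      exact Nat.lt_succ_of_le ((Nat.le_of_dvd hm.1 hpm).trans hm.2)
    have h4 : ∑ m ∈ Icc 1 N, pw 1 m = (harmonic N : ℝ) := by
      rw [harmonic_eq_sum_Icc]
      push_cast
      apply sum_congr rfl
      intro m _
      rw [pw_one, one_div]
    have h5 := log_add_one_le_harmonic N
    have h6 : Real.log z ≤ Real.log ((N + 1 : ℕ) : ℝ) := by
      apply Real.log_le_log (by linarith)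
      push_cast
      exact (Nat.lt_floor_add_one z).le
    calc Real.log z ≤ _ := h6
      _ ≤ (harmonic N : ℝ) := by exact_mod_cast h5
      _ = ∑ m ∈ Icc 1 N, pw 1 m := h4.symm
      _ = _ := h3.symm
  have hpos : 0 < ∏ q ∈ PZ z, (1 - 1 / (q : ℝ)) := by
    apply prod_pos
    intro q hq
    have hp := ((mem_PZ (by linarith)).1 hq).1
    have := pw_lt_one (s := 1) one_pos hp
    rw [pw_one] at this
    linarith
  have h7 : ∏ q ∈ PZ z, (1 - pw 1 q)⁻¹ = (∏ q ∈ PZ z, (1 - 1 / (q : ℝ)))⁻¹ := by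
    rw [← prod_inv_distrib]
    apply prod_congr rfl
    intro q _
    rw [pw_one]
  rw [h7] at hlow
  rw [one_div]
  exact (le_inv_comm₀ hl hpos).1 hlow

theorem sum_log_le (n : ℕ) (hn : n ≠ 0) : ∑ q ∈ n.primeFactors, Real.log q ≤ Real.log n := by
  have h1 : ∏ q ∈ n.primeFactors, q ≤ n := Nat.le_of_dvd (Nat.pos_of_ne_zero hn) (Nat.prod_primeFactors_dvd n)
  have h2 : ∑ q ∈ n.primeFactors, Real.log q = Real.log ((∏ q ∈ n.primeFactors, q : ℕ) : ℝ) := by
    rw [Nat.cast_prod, Real.log_prod]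
    intro q hq
    exact_mod_cast (Nat.prime_of_mem_primeFactors hq).ne_zero
  rw [h2]
  apply Real.log_le_log
  · have : 0 < ∏ q ∈ n.primeFactors, q := prod_pos fun q hq => (Nat.prime_of_mem_primeFactors hq).pos
    exact_mod_cast this
  · exact_mod_cast h1

theorem m3 : M3 := by
  intro z hz
  set N := ⌊z⌋₊ with hN
  have hz0 : (0 : ℝ) ≤ z := by linarith
  have hN2 : 2 ≤ N := Nat.le_floor (by exact_mod_cast hz)
  have hNz : (N : ℝ) ≤ z := Nat.floor_le hz0
  have hN0 : (0 : ℝ) < N := by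
    have : 0 < N := by omega
    exact_mod_cast this
  -- sum over n of log n
  have h1 : ∑ n ∈ Ioc 0 N, Real.log n ≤ N * Real.log N := by
    have : ∀ n ∈ Ioc 0 N, Real.log n ≤ Real.log N := by
      intro n hn
      rw [mem_Ioc] at hn
      apply Real.log_le_log
      · exact_mod_cast hn.1
      · exact_mod_cast hn.2
    refine (sum_le_sum this).trans ?_
    simp
  have h2 : ∑ n ∈ Ioc 0 N, ∑ q ∈ n.primeFactors, Real.log q ≤ ∑ n ∈ Ioc 0 N, Real.log n := by
    apply sum_le_sum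
    intro n hn
    rw [mem_Ioc] at hn
    exact sum_log_le n (by omega)
  have h3 : ∑ n ∈ Ioc 0 N, ∑ q ∈ n.primeFactors, Real.log q =
      ∑ q ∈ PZ z, ((N / q : ℕ) : ℝ) * Real.log q := by
    have h4 : ∀ n ∈ Ioc 0 N, ∑ q ∈ n.primeFactors, Real.log q =
        ∑ q ∈ PZ z, if q ∣ n then Real.log q else 0 := by
      intro n hn
      rw [mem_Ioc] at hn
      rw [← sum_filter]
      apply sum_congr _ fun _ _ => rfl
      ext q
      simp only [Nat.mem_primeFactors, PZ, mem_filter, mem_Icc]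
      constructor
      · rintro ⟨hq, hd, -⟩
        exact ⟨⟨⟨hq.one_lt.le, (Nat.le_of_dvd hn.1 hd).trans hn.2⟩, hq⟩, hd⟩
      · rintro ⟨⟨-, hq⟩, hd⟩
        exact ⟨hq, hd, by omega⟩
    rw [sum_congr rfl h4, sum_comm]
    apply sum_congr rfl
    intro q _
    rw [← sum_filter, sum_const, Nat.Ioc_filter_dvd_card_eq_div, nsmul_eq_mul]
  have h5 : ∑ q ∈ PZ z, ((N : ℝ) / q - 1) * Real.log q ≤
      ∑ q ∈ PZ z, ((N / q : ℕ) : ℝ) * Real.log q := by
    apply sum_le_sum
    intro q hq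
    have hp := ((mem_PZ hz0).1 hq).1
    apply mul_le_mul_of_nonneg_right _ (Real.log_nonneg (by exact_mod_cast hp.one_lt.le))
    have hq0 : (0 : ℝ) < q := by exact_mod_cast hp.pos
    rw [sub_le_iff_le_add, div_le_iff₀ hq0]
    have h6 : N < (N / q + 1) * q := by
      have := Nat.lt_div_mul_add (a := N) hp.pos
      linarith
    exact_mod_cast h6.le
  have h7 : ∑ q ∈ PZ z, Real.log q ≤ Real.log 4 * N := by
    have h8 := Chebyshev.theta_le_log4_mul_x (x := (N : ℝ)) hN0.le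
    rw [Chebyshev.theta, Nat.floor_natCast] at h8
    refine le_trans (le_of_eq ?_) h8
    apply sum_congr _ fun _ _ => rfl
    ext q
    simp only [PZ, mem_filter, mem_Icc, mem_Ioc]
    constructor
    · rintro ⟨⟨h, h'⟩, hq⟩
      exact ⟨⟨hq.pos, h'⟩, hq⟩
    · rintro ⟨⟨h, h'⟩, hq⟩
      exact ⟨⟨hq.one_lt.le, h'⟩, hq⟩
  have h9 : N * ∑ q ∈ PZ z, Real.log q / (q : ℝ) ≤ N * Real.log N + Real.log 4 * N := by
    have h10 : ∑ q ∈ PZ z, ((N : ℝ) / q - 1) * Real.log q =
        N * ∑ q ∈ PZ z, Real.log q / (q : ℝ) - ∑ q ∈ PZ z, Real.log q := by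
      rw [mul_sum, ← sum_sub_distrib]
      apply sum_congr rfl
      intro q _
      ring
    linarith
  have h11 : ∑ q ∈ PZ z, Real.log q / (q : ℝ) ≤ Real.log N + Real.log 4 := by
    have : N * ∑ q ∈ PZ z, Real.log q / (q : ℝ) ≤ N * (Real.log N + Real.log 4) := by linarith
    exact le_of_mul_le_mul_left this hN0
  have h12 : Real.log N ≤ Real.log z := Real.log_le_log hN0 hNz
  have h13 : Real.log 4 ≤ 2 := by
    have h14 : Real.log 4 = 2 * Real.log 2 := by
      rw [show (4 : ℝ) = 2 ^ 2 by norm_num, Real.log_pow]; norm_num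
    have := Real.log_two_lt_d9
    rw [h14]
    linarith
  linarith

end Pool.Agent.H27.AP
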