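import Pool.Agent.H27.AP.Defs

/-!
# Few primes modulo which two given primes generate a small subgroup
-/

set_option autoImplicit false

namespace Pool.Agent.H27.AP

/-- A collision in a group generated by two elements. -/
lemma pig_collision {G : Type*} [CommGroup G] (u v : G) (H : Subgroup G) [Finite H]
    (hu : u ∈ H) (hv : v ∈ H) (B : ℕ) (hB : Nat.card H < (B + 1) ^ 2) :
    ∃ e f : ℕ, e ≤ B ∧ f ≤ B ∧ (e, f) ≠ (0, 0) ∧ (u ^ e * v ^ f = 1 ∨ u ^ e = v ^ f) := by
  classical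
  have : Fintype H := Fintype.ofFinite H
  let F : Fin (B + 1) × Fin (B + 1) → H := fun ij =>
    ⟨u ^ (ij.1 : ℕ) * v ^ (ij.2 : ℕ), H.mul_mem (H.pow_mem hu _) (H.pow_mem hv _)⟩
  have hcard : Fintype.card H < Fintype.card (Fin (B + 1) × Fin (B + 1)) := by
    rw [Fintype.card_prod, Fintype.card_fin, ← Nat.card_eq_fintype_card, ← sq]
    exact hB
  obtain ⟨a, b, hab, hF⟩ := Fintype.exists_ne_map_eq_of_card_lt F hcard
  have key : ∀ a b : Fin (B + 1) × Fin (B + 1), a ≠ b → F a = F b → (a.1 : ℕ) ≤ (b.1 : ℕ) →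
      ∃ e f : ℕ, e ≤ B ∧ f ≤ B ∧ (e, f) ≠ (0, 0) ∧ (u ^ e * v ^ f = 1 ∨ u ^ e = v ^ f) := by
    intro a b hab hF h1
    have h2 : u ^ (a.1 : ℕ) * v ^ (a.2 : ℕ) = u ^ (b.1 : ℕ) * v ^ (b.2 : ℕ) :=
      congrArg Subtype.val hF
    obtain ⟨e, he⟩ := Nat.exists_eq_add_of_le h1
    have hb1 := b.1.2
    have hb2 := b.2.2
    have ha2 := a.2.2
    rw [he, pow_add, mul_assoc] at h2
    have h3 : v ^ (a.2 : ℕ) = u ^ e * v ^ (b.2 : ℕ) := mul_left_cancel h2
    rcases le_total (a.2 : ℕ) (b.2 : ℕ) with h4 | h4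
    · obtain ⟨f, hf⟩ := Nat.exists_eq_add_of_le h4
      refine ⟨e, f, by omega, by omega, ?_, Or.inl ?_⟩
      · intro h5
        rw [Prod.mk.injEq] at h5
        apply hab
        apply Prod.ext
        · apply Fin.ext
          omega
        · apply Fin.ext
          omega
      · rw [hf, pow_add, mul_left_comm] at h3
        have h5 : v ^ (a.2 : ℕ) * 1 = v ^ (a.2 : ℕ) * (u ^ e * v ^ f) := by
          rw [mul_one]
          exact h3
        exact (mul_left_cancel h5).symm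
    · obtain ⟨f, hf⟩ := Nat.exists_eq_add_of_le h4
      refine ⟨e, f, by omega, by omega, ?_, Or.inr ?_⟩
      · intro h5
        rw [Prod.mk.injEq] at h5
        apply hab
        apply Prod.ext
        · apply Fin.ext
          omega
        · apply Fin.ext
          omega
      · rw [hf, pow_add, mul_comm (u ^ e)] at h3
        exact (mul_left_cancel h3).symm
  rcases le_total (a.1 : ℕ) (b.1 : ℕ) with h1 | h1
  · exact key a b hab hF h1
  · exact key b a hab.symm hF.symm h1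

/-- Two distinct primes are multiplicatively independent. -/
lemma prime_pow_ne {p r : ℕ} (hp : p.Prime) (hr : r.Prime) (hpr : p ≠ r) {e f : ℕ}
    (h : (e, f) ≠ (0, 0)) : p ^ e ≠ r ^ f := by
  intro heq
  have hcop : Nat.Coprime (p ^ e) (r ^ f) :=
    Nat.Coprime.pow e f ((Nat.coprime_primes hp hr).2 hpr)
  rw [heq, Nat.coprime_self] at hcop
  have h1 : f = 0 := by
    by_contra hf
    have := Nat.one_lt_pow hf hr.one_lt
    omega
  have h2 : e = 0 := by
    by_contra he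
    have := Nat.one_lt_pow he hp.one_lt
    rw [hcop] at heq
    omega
  exact h (by rw [h1, h2])

lemma prime_pow_mul_gt {p r : ℕ} (hp : p.Prime) (hr : r.Prime) {e f : ℕ}
    (h : (e, f) ≠ (0, 0)) : 1 < p ^ e * r ^ f := by
  have h1 : 0 < p ^ e := pow_pos hp.pos e
  have h2 : 0 < r ^ f := pow_pos hr.pos f
  rcases Nat.eq_zero_or_pos e with he | he
  · have hf : f ≠ 0 := by
      intro hf
      exact h (by rw [he, hf])
    have := Nat.one_lt_pow hf hr.one_lt
    nlinarith
  · have := Nat.one_lt_pow he.ne' hp.one_lt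
    nlinarith

theorem pig : PIG := by
  classical
  intro p₁ p₂ T Y B hp₁ hp₂ hne hT₁ hT₂ hB S hS
  set W : ℕ := T ^ (2 * B) with hW
  have hT0 : 1 ≤ T := hp₁.one_lt.le.trans hT₁
  have hW0 : 1 ≤ W := Nat.one_le_pow _ _ hT0
  -- the numbers
  let a : ℕ × ℕ → ℕ := fun ef => if ef = (0, 0) then 1 else p₁ ^ ef.1 * p₂ ^ ef.2 - 1
  let b : ℕ × ℕ → ℕ := fun ef => if ef = (0, 0) then 1 else
    ((p₁ : ℤ) ^ ef.1 - (p₂ : ℤ) ^ ef.2).natAbs
  set R : Finset (ℕ × ℕ) := Finset.range (B + 1) ×ˢ Finset.range (B + 1) with hR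
  have hRcard : R.card = (B + 1) ^ 2 := by
    rw [hR, Finset.card_product, Finset.card_range, sq]
  have hpow : ∀ e f : ℕ, e ≤ B → f ≤ B → p₁ ^ e * p₂ ^ f ≤ W := by
    intro e f he hf
    calc p₁ ^ e * p₂ ^ f ≤ T ^ e * T ^ f :=
          Nat.mul_le_mul (Nat.pow_le_pow_left hT₁ e) (Nat.pow_le_pow_left hT₂ f)
      _ = T ^ (e + f) := (pow_add T e f).symm
      _ ≤ T ^ (2 * B) := Nat.pow_le_pow_right hT0 (by omega)
  have ha0 : ∀ ef, a ef ≠ 0 := by
    intro ef
    by_cases h : ef = (0, 0)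
    · simp [a, h]
    · have h1 := prime_pow_mul_gt hp₁ hp₂ (e := ef.1) (f := ef.2) h
      simp only [a, h, if_false]
      omega
  have hb0 : ∀ ef, b ef ≠ 0 := by
    intro ef
    by_cases h : ef = (0, 0)
    · simp [b, h]
    · have h1 := prime_pow_ne hp₁ hp₂ hne (e := ef.1) (f := ef.2) h
      simp only [b, h, if_false]
      rw [Int.natAbs_ne_zero, sub_ne_zero]
      exact_mod_cast h1
  have haW : ∀ ef ∈ R, a ef ≤ W := by
    intro ef hef
    rw [hR, Finset.mem_product, Finset.mem_range, Finset.mem_range] at hef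
    by_cases h : ef = (0, 0)
    · simp only [a, h, if_true]
      exact hW0
    · simp only [a, h, if_false]
      exact (Nat.sub_le _ _).trans (hpow _ _ (by omega) (by omega))
  have hbW : ∀ ef ∈ R, b ef ≤ W := by
    intro ef hef
    rw [hR, Finset.mem_product, Finset.mem_range, Finset.mem_range] at hef
    by_cases h : ef = (0, 0)
    · simp only [b, h, if_true]
      exact hW0
    · simp only [b, h, if_false]
      have h1 := hpow ef.1 0 (by omega) (by omega)
      have h2 := hpow 0 ef.2 (by omega) (by omega)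
      rw [pow_zero, mul_one] at h1
      rw [pow_zero, one_mul] at h2
      have h3 : ((p₁ : ℤ) ^ ef.1) ≤ W := by exact_mod_cast h1
      have h4 : ((p₂ : ℤ) ^ ef.2) ≤ W := by exact_mod_cast h2
      have h5 : (0 : ℤ) ≤ (p₁ : ℤ) ^ ef.1 := by positivity
      have h6 : (0 : ℤ) ≤ (p₂ : ℤ) ^ ef.2 := by positivity
      omega
  -- every prime of S divides one of the numbers
  have hdvd : ∀ q ∈ S, q ∣ ∏ ef ∈ R, (a ef * b ef) := by
    intro q hq
    obtain ⟨hqp, hYq, hq1, hq2, hqc⟩ := hS q hq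
    have : Fact q.Prime := ⟨hqp⟩
    have hu : IsUnit ((p₁ : ℕ) : ZMod q) := by
      rw [ZMod.isUnit_iff_coprime]
      exact (Nat.coprime_primes hp₁ hqp).2 (Ne.symm hq1)
    have hv : IsUnit ((p₂ : ℕ) : ZMod q) := by
      rw [ZMod.isUnit_iff_coprime]
      exact (Nat.coprime_primes hp₂ hqp).2 (Ne.symm hq2)
    obtain ⟨u, hu⟩ := hu
    obtain ⟨v, hv⟩ := hv
    obtain ⟨e, f, he, hf, hef, h⟩ := pig_collision u v
      (Subgroup.closure {u : (ZMod q)ˣ | (u : ZMod q) = (p₁ : ℕ) ∨ (u : ZMod q) = (p₂ : ℕ)})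
      (Subgroup.subset_closure (Or.inl hu)) (Subgroup.subset_closure (Or.inr hv)) B hqc
    have hmem : (e, f) ∈ R := by
      rw [hR, Finset.mem_product, Finset.mem_range, Finset.mem_range]
      exact ⟨by omega, by omega⟩
    refine dvd_trans ?_ (Finset.dvd_prod_of_mem (fun ef => a ef * b ef) hmem)
    rcases h with h | h
    · refine Dvd.dvd.mul_right ?_ _
      have h1 := congrArg (fun w : (ZMod q)ˣ => (w : ZMod q)) h
      simp only [Units.val_mul, Units.val_pow_eq_pow_val, Units.val_one, hu, hv] at h1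
      simp only [a, hef, if_false]
      have h2 : 1 ≤ p₁ ^ e * p₂ ^ f := (prime_pow_mul_gt hp₁ hp₂ hef).le
      rw [← ZMod.natCast_eq_zero_iff, Nat.cast_sub h2]
      push_cast
      rw [h1, sub_self]
    · refine Dvd.dvd.mul_left ?_ _
      have h1 := congrArg (fun w : (ZMod q)ˣ => (w : ZMod q)) h
      simp only [Units.val_pow_eq_pow_val, hu, hv] at h1
      simp only [b, hef, if_false]
      rw [← Int.natCast_dvd, ← ZMod.intCast_zmod_eq_zero_iff_dvd]
      push_cast
      rw [h1, sub_self]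
  have hprod : ∏ q ∈ S, q ∣ ∏ ef ∈ R, (a ef * b ef) :=
    Finset.prod_primes_dvd _ (fun q hq => (hS q hq).1.prime) hdvd
  have hpos : 0 < ∏ ef ∈ R, (a ef * b ef) :=
    Finset.prod_pos fun ef _ => Nat.pos_of_ne_zero (mul_ne_zero (ha0 ef) (hb0 ef))
  calc Y ^ S.card ≤ ∏ q ∈ S, q := Finset.pow_card_le_prod _ _ _ fun q hq => (hS q hq).2.1.le
    _ ≤ ∏ ef ∈ R, (a ef * b ef) := Nat.le_of_dvd hpos hprod
    _ ≤ ∏ _ef ∈ R, (W * W) := Finset.prod_le_prod' fun ef hef =>
        Nat.mul_le_mul (haW ef hef) (hbW ef hef)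
    _ = (W * W) ^ (B + 1) ^ 2 := by rw [Finset.prod_const, hRcard]
    _ = T ^ (4 * B * (B + 1) ^ 2) := by
        rw [hW, ← pow_add, ← pow_mul]
        congr 1
        ring

end Pool.Agent.H27.AP
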