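import Pool.Agent.H27.AP.Defs

/-!
# The integers with exactly one small prime divisor
-/

set_option autoImplicit false

open Pool.Agent.H27.ADS

namespace Pool.Agent.H27.AP

theorem s1_mem_PZ {z : ℝ} (hz : 0 ≤ z) {q : ℕ} : q ∈ PZ z ↔ q.Prime ∧ (q : ℝ) ≤ z := by
  unfold PZ
  rw [Finset.mem_filter, Finset.mem_Icc, Nat.le_floor_iff hz]
  constructor
  · rintro ⟨⟨-, h1⟩, h2⟩
    exact ⟨h2, h1⟩
  · rintro ⟨h1, h2⟩
    exact ⟨⟨h1.one_lt.le, h2⟩, h1⟩

theorem s1_fac {q : ℕ} (hq : q.Prime) : (1 : ℝ) / 2 ≤ 1 - 1 / (q : ℝ) ∧ 1 - 1 / (q : ℝ) ≤ 1 := by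
  have h2 : (2 : ℝ) ≤ q := by exact_mod_cast hq.two_le
  have h3 : 1 / (q : ℝ) ≤ 1 / 2 := one_div_le_one_div_of_le (by norm_num) h2
  have h4 : 0 ≤ 1 / (q : ℝ) := by positivity
  constructor <;> linarith

/-- The sieving primes. -/
noncomputable def s1P (p : ℕ) (T : ℝ) : Finset ℕ := (PZ T).filter (fun q => q ≠ 2 ∧ q ≠ p)

open Classical in
/-- The sieved residue classes. -/
noncomputable def s1Om (p a : ℕ) (q : ℕ) : Finset (ZMod q) :=
  if IsSquare ((p : ℕ) : ZMod q) then {0} else {0, ((p : ZMod q) ^ a)⁻¹}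

theorem s1Om_card (p a q : ℕ) : (s1Om p a q).card ≤ 2 := by
  unfold s1Om
  split_ifs
  · simp
  · exact Finset.card_le_two

theorem s1_NZ_sub {p : ℕ} {T : ℝ} : NZ p T ⊆ s1P p T := by
  classical
  intro q hq
  unfold NZ at hq
  unfold s1P
  simp only [Finset.mem_filter] at hq ⊢
  refine ⟨hq.1, hq.2.1, ?_⟩
  rintro rfl
  apply hq.2.2
  rw [ZMod.natCast_self]
  exact ⟨0, by simp⟩

/-- The product over the sieving primes. -/
theorem s1_prod {p : ℕ} {T : ℝ} (hT : 2 ≤ T) (a : ℕ) (h2 : M2) {B : ℝ}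
    (hB : ∏ q ∈ NZ p T, (1 - 1 / (q : ℝ)) ≤ B) :
    ∏ q ∈ s1P p T, (1 - ((s1Om p a q).card : ℝ) / q) ≤ 4 / Real.log T * B := by
  classical
  have hT0 : (0 : ℝ) ≤ T := by linarith
  have hPZ : ∀ q ∈ PZ T, q.Prime := fun q hq => ((s1_mem_PZ hT0).mp hq).1
  have hP : ∀ q ∈ s1P p T, q.Prime ∧ q ≠ 2 ∧ q ≠ p := by
    intro q hq
    unfold s1P at hq
    rw [Finset.mem_filter] at hq
    exact ⟨hPZ q hq.1, hq.2⟩
  have step1 : ∏ q ∈ s1P p T, (1 - ((s1Om p a q).card : ℝ) / q) ≤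
      ∏ q ∈ s1P p T, ((1 - 1 / (q : ℝ)) * (if q ∈ NZ p T then (1 - 1 / (q : ℝ)) else 1)) := by
    apply Finset.prod_le_prod
    · intro q hq
      obtain ⟨hq1, hq2, hq3⟩ := hP q hq
      have hq4 : 2 < q := lt_of_le_of_ne hq1.two_le (Ne.symm hq2)
      have hc : ((s1Om p a q).card : ℝ) ≤ 2 := by exact_mod_cast s1Om_card p a q
      have h3 : (2 : ℝ) < q := by exact_mod_cast hq4
      rw [sub_nonneg, div_le_one (by linarith)]
      linarith
    · intro q hq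
      obtain ⟨hq1, hq2, hq3⟩ := hP q hq
      have hq4 : 2 < q := lt_of_le_of_ne hq1.two_le (Ne.symm hq2)
      have h3 : (2 : ℝ) < q := by exact_mod_cast hq4
      have h0 : 0 < 1 / (q : ℝ) := by positivity
      haveI : Fact q.Prime := ⟨hq1⟩
      by_cases hs : IsSquare ((p : ℕ) : ZMod q)
      · have hn : q ∉ NZ p T := by
          unfold NZ
          rw [Finset.mem_filter]
          exact fun h => h.2.2 hs
        rw [if_neg hn, mul_one]
        unfold s1Om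
        rw [if_pos hs]
        simp
      · have hn : q ∈ NZ p T := by
          unfold NZ
          rw [Finset.mem_filter]
          unfold s1P at hq
          rw [Finset.mem_filter] at hq
          exact ⟨hq.1, hq2, hs⟩
        rw [if_pos hn]
        have hcard : (s1Om p a q).card = 2 := by
          unfold s1Om
          rw [if_neg hs]
          apply Finset.card_pair
          intro h
          have hp0 : (p : ZMod q) ≠ 0 := by
            intro h0
            apply hs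
            rw [h0]
            exact ⟨0, by simp⟩
          have h5 : ((p : ZMod q) ^ a)⁻¹ ≠ 0 := inv_ne_zero (pow_ne_zero _ hp0)
          exact h5 h.symm
        rw [hcard]
        have h6 : ((2 : ℕ) : ℝ) / q = 2 * (1 / q) := by push_cast; ring
        rw [h6]
        nlinarith
  have step2 : ∏ q ∈ s1P p T, ((1 - 1 / (q : ℝ)) * (if q ∈ NZ p T then (1 - 1 / (q : ℝ)) else 1))
      = (∏ q ∈ s1P p T, (1 - 1 / (q : ℝ))) * ∏ q ∈ NZ p T, (1 - 1 / (q : ℝ)) := by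
    rw [Finset.prod_mul_distrib]
    congr 1
    rw [← Finset.prod_filter]
    congr 1
    ext q
    rw [Finset.mem_filter]
    exact ⟨fun h => h.2, fun h => ⟨s1_NZ_sub h, h⟩⟩
  have step3 : ∏ q ∈ s1P p T, (1 - 1 / (q : ℝ)) ≤ 4 * ∏ q ∈ PZ T, (1 - 1 / (q : ℝ)) := by
    have h3 := Finset.prod_filter_mul_prod_filter_not (PZ T) (fun q => q ≠ 2 ∧ q ≠ p)
      (fun q => (1 - 1 / (q : ℝ)))
    have h4 : (1 : ℝ) / 4 ≤ ∏ q ∈ (PZ T).filter (fun q => ¬ (q ≠ 2 ∧ q ≠ p)), (1 - 1 / (q : ℝ)) := by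
      have hsub : (PZ T).filter (fun q => ¬ (q ≠ 2 ∧ q ≠ p)) ⊆ {2, p} := by
        intro q hq
        rw [Finset.mem_filter] at hq
        rw [Finset.mem_insert, Finset.mem_singleton]
        by_contra h
        push Not at h
        exact hq.2 h
      have hcard : ((PZ T).filter (fun q => ¬ (q ≠ 2 ∧ q ≠ p))).card ≤ 2 :=
        (Finset.card_le_card hsub).trans Finset.card_le_two
      calc (1 : ℝ) / 4 = (1 / 2) ^ 2 := by norm_num
        _ ≤ (1 / 2) ^ ((PZ T).filter (fun q => ¬ (q ≠ 2 ∧ q ≠ p))).card :=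
            pow_le_pow_of_le_one (by norm_num) (by norm_num) hcard
        _ = ∏ _q ∈ (PZ T).filter (fun q => ¬ (q ≠ 2 ∧ q ≠ p)), (1 / 2 : ℝ) := by
            rw [Finset.prod_const]
        _ ≤ _ := Finset.prod_le_prod (fun _ _ => by norm_num) (fun q hq =>
            (s1_fac (hPZ q (Finset.mem_filter.mp hq).1)).1)
    have h5 : 0 ≤ ∏ q ∈ s1P p T, (1 - 1 / (q : ℝ)) :=
      Finset.prod_nonneg fun q hq => by
        have := (s1_fac (hP q hq).1).1
        linarith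
    have h6 : ∏ q ∈ s1P p T, (1 - 1 / (q : ℝ)) =
        ∏ q ∈ (PZ T).filter (fun q => q ≠ 2 ∧ q ≠ p), (1 - 1 / (q : ℝ)) := rfl
    rw [← h6] at h3
    nlinarith
  have hlog : 0 < Real.log T := Real.log_pos (by linarith)
  have hNZ0 : 0 ≤ ∏ q ∈ NZ p T, (1 - 1 / (q : ℝ)) :=
    Finset.prod_nonneg fun q hq => by
      have := (s1_fac (hP q (s1_NZ_sub hq)).1).1
      linarith
  calc _ ≤ _ := step1
    _ = _ := step2
    _ ≤ (4 * ∏ q ∈ PZ T, (1 - 1 / (q : ℝ))) * ∏ q ∈ NZ p T, (1 - 1 / (q : ℝ)) :=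
        mul_le_mul_of_nonneg_right step3 hNZ0
    _ ≤ (4 * (1 / Real.log T)) * B := by
        have := h2 T hT
        exact mul_le_mul (by linarith) hB hNZ0 (by positivity)
    _ = 4 / Real.log T * B := by ring

/-- The cofactors for given `p ^ a`. -/
def s1G (x : ℝ) (p a N : ℕ) : Set ℕ := {k : ℕ | 1 ≤ k ∧ k ≤ N ∧ Mann (p ^ a * k) ∧
  ∀ p' : ℕ, p'.Prime → p' ∣ k → TT x < p'}

theorem s1G_sub {x : ℝ} {p a N : ℕ} (hp : p.Prime) (ha : 1 ≤ a) (hT : 0 ≤ TT x) :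
    s1G x p a N ⊆ {k : ℕ | 1 ≤ k ∧ k ≤ N ∧ ∀ q ∈ s1P p (TT x), (k : ZMod q) ∉ s1Om p a q} := by
  rintro k ⟨h1, h2, h3, h4⟩
  refine ⟨h1, h2, ?_⟩
  intro q hq hk
  unfold s1P at hq
  rw [Finset.mem_filter, s1_mem_PZ hT] at hq
  obtain ⟨⟨hqp, hqT⟩, hq2, hqp'⟩ := hq
  haveI : Fact q.Prime := ⟨hqp⟩
  have hk0 : (k : ZMod q) ≠ 0 := by
    intro h0
    rw [ZMod.natCast_eq_zero_iff] at h0
    exact absurd (h4 q hqp h0) (not_lt.mpr hqT)
  unfold s1Om at hk
  split_ifs at hk with hs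
  · rw [Finset.mem_singleton] at hk
    exact hk0 hk
  · rw [Finset.mem_insert, Finset.mem_singleton] at hk
    rcases hk with hk | hk
    · exact hk0 hk
    · apply hs
      have hp0 : (p : ZMod q) ≠ 0 := by
        intro h0
        apply hs
        rw [h0]
        exact ⟨0, by simp⟩
      apply h3 p hp (Dvd.dvd.mul_right (dvd_pow_self p (by omega)) k) q hqp hq2
      have hpos : 1 ≤ p ^ a * k := Nat.one_le_iff_ne_zero.mpr
        (Nat.mul_ne_zero (pow_ne_zero _ hp.ne_zero) (by omega))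
      have h5 : ((p ^ a * k - 1 : ℕ) : ZMod q) = 0 := by
        rw [Nat.cast_sub hpos]
        push_cast
        rw [hk, mul_inv_cancel₀ (pow_ne_zero _ hp0), sub_self]
      exact (ZMod.natCast_eq_zero_iff _ _).mp h5

theorem s1_count {x : ℝ} {X p a : ℕ} (hX : (X : ℝ) = x) (hp : p.Prime) (ha : 1 ≤ a)
    (hT : 2 ≤ TT x) (h2 : M2) {B : ℝ}
    (hB : ∏ q ∈ NZ p (TT x), (1 - 1 / (q : ℝ)) ≤ B)
    (hbr : ∀ (P : Finset ℕ) (Om : (q : ℕ) → Finset (ZMod q)) (N : ℕ),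
      (∀ q ∈ P, q.Prime ∧ (q : ℝ) ≤ TT x) → (∀ q ∈ P, (Om q).card ≤ 2) → (N : ℝ) ≤ x →
      ({k : ℕ | 1 ≤ k ∧ k ≤ N ∧ ∀ q ∈ P, (k : ZMod q) ∉ Om q}.ncard : ℝ) ≤
        N * ∏ q ∈ P, (1 - ((Om q).card : ℝ) / q) + N / Real.log x ^ 5 + x ^ (1 / 4 : ℝ))
    (hL : 0 < Real.log x) :
    ((s1G x p a (X / p ^ a)).ncard : ℝ) ≤
      x * (1 / (p : ℝ)) ^ a * (4 / Real.log (TT x) * B + 1 / Real.log x ^ 5) + x ^ (1 / 4 : ℝ) := by
  have hT0 : (0 : ℝ) ≤ TT x := by linarith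
  have hN1 : ((X / p ^ a : ℕ) : ℝ) ≤ x * (1 / (p : ℝ)) ^ a := by
    have h5 : ((X / p ^ a : ℕ) : ℝ) ≤ (X : ℝ) / ((p ^ a : ℕ) : ℝ) := Nat.cast_div_le
    rw [hX] at h5
    push_cast at h5
    rw [one_div, inv_pow, ← div_eq_mul_inv]
    exact h5
  have hN2 : ((X / p ^ a : ℕ) : ℝ) ≤ x := by
    rw [← hX]
    exact_mod_cast Nat.div_le_self _ _
  have hP : ∀ q ∈ s1P p (TT x), q.Prime ∧ (q : ℝ) ≤ TT x := by
    intro q hq
    unfold s1P at hq
    rw [Finset.mem_filter, s1_mem_PZ hT0] at hq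
    exact hq.1
  have h6 := hbr (s1P p (TT x)) (s1Om p a) (X / p ^ a) hP (fun q _ => s1Om_card p a q) hN2
  have hfin : {k : ℕ | 1 ≤ k ∧ k ≤ X / p ^ a ∧ ∀ q ∈ s1P p (TT x), (k : ZMod q) ∉ s1Om p a q}.Finite :=
    (Set.finite_Icc 1 (X / p ^ a)).subset fun k hk => ⟨hk.1, hk.2.1⟩
  have h7 : ((s1G x p a (X / p ^ a)).ncard : ℝ) ≤
      ({k : ℕ | 1 ≤ k ∧ k ≤ X / p ^ a ∧ ∀ q ∈ s1P p (TT x), (k : ZMod q) ∉ s1Om p a q}.ncard : ℝ) := by
    exact_mod_cast Set.ncard_le_ncard (s1G_sub hp ha hT0) hfin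
  have h8 := s1_prod hT a h2 hB
  have hlogT : 0 < Real.log (TT x) := Real.log_pos (by linarith)
  have hB0 : 0 ≤ B := by
    refine le_trans (Finset.prod_nonneg fun q hq => ?_) hB
    have := (s1_fac (hP q (s1_NZ_sub hq)).1).1
    linarith
  have hE : 0 ≤ 4 / Real.log (TT x) * B := by positivity
  calc ((s1G x p a (X / p ^ a)).ncard : ℝ) ≤ _ := h7
    _ ≤ _ := h6
    _ ≤ ((X / p ^ a : ℕ) : ℝ) * (4 / Real.log (TT x) * B + 1 / Real.log x ^ 5)
        + x ^ (1 / 4 : ℝ) := by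
        have h9 : ((X / p ^ a : ℕ) : ℝ) * ∏ q ∈ s1P p (TT x), (1 - ((s1Om p a q).card : ℝ) / q) ≤
            ((X / p ^ a : ℕ) : ℝ) * (4 / Real.log (TT x) * B) :=
          mul_le_mul_of_nonneg_left h8 (Nat.cast_nonneg _)
        have h10 : ((X / p ^ a : ℕ) : ℝ) / Real.log x ^ 5 =
            ((X / p ^ a : ℕ) : ℝ) * (1 / Real.log x ^ 5) := by ring
        rw [h10]
        linarith
    _ ≤ _ := by
        have h11 : 0 ≤ 4 / Real.log (TT x) * B + 1 / Real.log x ^ 5 := by positivity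
        have := mul_le_mul_of_nonneg_right hN1 h11
        linarith

theorem s1_geom {r : ℝ} (h0 : 0 ≤ r) (h1 : r ≤ 1 / 2) (M : ℕ) :
    ∑ a ∈ Finset.Icc 1 M, r ^ a + 2 * r ^ (M + 1) ≤ 2 * r := by
  induction M with
  | zero => simp
  | succ M ih =>
    rw [Finset.sum_Icc_succ_top (by omega)]
    have h3 : 0 ≤ r ^ (M + 1) := by positivity
    have h4 : r ^ (M + 1 + 1) = r ^ (M + 1) * r := pow_succ _ _
    rw [h4]
    nlinarith

/-- The set of `S1`. -/
def s1S (X : ℕ) : Set ℕ := {n : ℕ | 2 ≤ n ∧ n ≤ X ∧ Mann n ∧ ∃ p : ℕ, p.Prime ∧ p ∣ n ∧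
  (p : ℝ) ≤ T1 X ∧ ∀ p' : ℕ, p'.Prime → p' ∣ n → p' ≠ p → TT X < p'}

theorem s1_cover (X : ℕ) : s1S X ⊆ ⋃ i ∈ (PZ (T1 X)) ×ˢ Finset.Icc 1 (Nat.log 2 X),
    (fun k => i.1 ^ i.2 * k) '' s1G X i.1 i.2 (X / i.1 ^ i.2) := by
  rintro n ⟨h2, hX, hM, p, hp, hpn, hpT, hall⟩
  have hn0 : n ≠ 0 := by omega
  have ha : 1 ≤ n.factorization p := hp.factorization_pos_of_dvd hn0 hpn
  have hdec : p ^ n.factorization p * (n / p ^ n.factorization p) = n :=
    Nat.ordProj_mul_ordCompl_eq_self n p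
  have hpa : p ^ n.factorization p ∣ n := Nat.ordProj_dvd n p
  have hppos : 0 < p ^ n.factorization p := pow_pos hp.pos _
  have hT0 : (0 : ℝ) ≤ T1 X := (Real.exp_pos _).le
  rw [Set.mem_iUnion₂]
  refine ⟨(p, n.factorization p), ?_, n / p ^ n.factorization p, ⟨?_, ?_, ?_, ?_⟩, hdec⟩
  · rw [Finset.mem_product]
    refine ⟨(s1_mem_PZ hT0).mpr ⟨hp, hpT⟩, Finset.mem_Icc.mpr ⟨ha, ?_⟩⟩
    apply Nat.le_log_of_pow_le (by norm_num)
    calc 2 ^ n.factorization p ≤ p ^ n.factorization p := Nat.pow_le_pow_left hp.two_le _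
      _ ≤ n := Nat.le_of_dvd (by omega) hpa
      _ ≤ X := hX
  · exact Nat.div_pos (Nat.le_of_dvd (by omega) hpa) hppos
  · exact Nat.div_le_div_right hX
  · change Mann (p ^ n.factorization p * (n / p ^ n.factorization p))
    rw [hdec]
    exact hM
  · intro p' hp' hd
    apply hall p' hp' (hd.trans (Nat.ordCompl_dvd n p))
    rintro rfl
    exact Nat.not_dvd_ordCompl hp' hn0 hd

theorem s1_sum (X : ℕ) : ((s1S X).ncard : ℝ) ≤
    ∑ p ∈ PZ (T1 X), ∑ a ∈ Finset.Icc 1 (Nat.log 2 X), ((s1G X p a (X / p ^ a)).ncard : ℝ) := by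
  have hf : ∀ i : ℕ × ℕ, (s1G X i.1 i.2 (X / i.1 ^ i.2)).Finite := fun i =>
    (Set.finite_Icc 1 (X / i.1 ^ i.2)).subset fun k hk => ⟨hk.1, hk.2.1⟩
  have h1 : (s1S X).ncard ≤ ∑ i ∈ (PZ (T1 X)) ×ˢ Finset.Icc 1 (Nat.log 2 X),
      (s1G X i.1 i.2 (X / i.1 ^ i.2)).ncard := by
    calc (s1S X).ncard ≤ (⋃ i ∈ (PZ (T1 X)) ×ˢ Finset.Icc 1 (Nat.log 2 X),
          (fun k => i.1 ^ i.2 * k) '' s1G X i.1 i.2 (X / i.1 ^ i.2)).ncard := by
          refine Set.ncard_le_ncard (s1_cover X) (Set.Finite.biUnion (Finset.finite_toSet _) ?_)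
          intro i _
          exact (hf i).image _
      _ ≤ ∑ i ∈ (PZ (T1 X)) ×ˢ Finset.Icc 1 (Nat.log 2 X),
          ((fun k => i.1 ^ i.2 * k) '' s1G X i.1 i.2 (X / i.1 ^ i.2)).ncard :=
          Finset.set_ncard_biUnion_le _ _
      _ ≤ _ := Finset.sum_le_sum fun i _ => Set.ncard_image_le (hf i)
  rw [Finset.sum_product] at h1
  exact_mod_cast h1


theorem s1_p_le {T : ℝ} (hT : 2 ≤ T) {L l C : ℝ} {p : ℕ} (hL : 1 ≤ L) (hl : 1 ≤ l) (hC : 0 < C)
    (hTL : Real.log T = L / (KK ^ 2 * l)) (hp : p.Prime) (hpT : (p : ℝ) ≤ Real.exp (Real.sqrt L))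
    {t : ℝ} (ht : 0 < t) (htL : t ^ 40 = L) :
    C * Real.sqrt (Real.log (8 * p) / Real.log T) ≤ C * (2 * KK * l / t ^ 10) := by
  apply mul_le_mul_of_nonneg_left _ hC.le
  have hK : (0 : ℝ) < KK := by unfold KK; norm_num
  apply Real.sqrt_le_iff.mpr
  refine ⟨by positivity, ?_⟩
  have hp0 : (0 : ℝ) < p := by exact_mod_cast hp.pos
  have hsq : Real.sqrt L = t ^ 20 := by
    rw [← htL]
    rw [show t ^ 40 = (t ^ 20) ^ 2 by ring]
    exact Real.sqrt_sq (by positivity)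
  have h1 : Real.log (8 * p) ≤ 4 * Real.sqrt L := by
    rw [Real.log_mul (by norm_num) hp0.ne']
    have h2 : Real.log p ≤ Real.sqrt L := by
      rw [← Real.log_exp (Real.sqrt L)]
      exact Real.log_le_log hp0 hpT
    have h3 : Real.log 8 ≤ 3 := by
      have : Real.log 8 = 3 * Real.log 2 := by
        rw [show (8 : ℝ) = 2 ^ 3 by norm_num, Real.log_pow]
        push_cast
        ring
      rw [this]
      have := Real.log_two_lt_d9
      linarith
    have h4 : 1 ≤ Real.sqrt L := Real.one_le_sqrt.mpr hL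
    linarith
  rw [hTL, div_div_eq_mul_div, div_le_iff₀ (by linarith), hsq] at *
  rw [hsq] at h1
  have h5 : (2 * KK * l / t ^ 10) ^ 2 * L = 4 * KK ^ 2 * l ^ 2 * t ^ 20 := by
    rw [← htL]
    field_simp
    ring
  rw [h5]
  calc Real.log (8 * p) * (KK ^ 2 * l) ≤ (4 * t ^ 20) * (KK ^ 2 * l) := by
        apply mul_le_mul_of_nonneg_right h1 (by positivity)
    _ ≤ 4 * KK ^ 2 * l ^ 2 * t ^ 20 := by
        have : 0 ≤ 4 * t ^ 20 * KK ^ 2 * l := by positivity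
        nlinarith

/-- The numerical facts needed at the end. -/
theorem s1_num {L : ℝ} (hL : 4 * KK ^ 4 ≤ L) : ∃ t : ℝ, 1 ≤ t ∧ t ^ 40 = L ∧
    L ^ (11 / 10 : ℝ) = t ^ 44 ∧ 1 ≤ Real.log L ∧ Real.log L ≤ 40 * t ∧
    KK ^ 2 * Real.log L ≤ L ∧ Real.log (1 + Real.sqrt L) ≤ Real.log L ∧
    Real.exp L ^ (1 / 4 : ℝ) * Real.exp (Real.sqrt L) * (2 * L) ≤ Real.exp L / t ^ 44 := by
  have hK : KK = 3000 := rfl
  have hLb : (1000 : ℝ) ≤ L := by
    rw [hK] at hL
    norm_num at hL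
    linarith
  have hL0 : 0 < L := by linarith
  have hsq : Real.sqrt L * Real.sqrt L = L := Real.mul_self_sqrt hL0.le
  have hs4 : 4 ≤ Real.sqrt L := by
    rw [Real.le_sqrt (by norm_num) hL0.le]
    linarith
  have ht1 : 1 ≤ L ^ (1 / 40 : ℝ) := Real.one_le_rpow (by linarith) (by norm_num)
  have ht40 : (L ^ (1 / 40 : ℝ)) ^ 40 = L := by
    rw [← Real.rpow_natCast, ← Real.rpow_mul hL0.le]
    norm_num
  have ht44 : L ^ (11 / 10 : ℝ) = (L ^ (1 / 40 : ℝ)) ^ 44 := by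
    rw [← Real.rpow_natCast, ← Real.rpow_mul hL0.le]
    norm_num
  refine ⟨L ^ (1 / 40 : ℝ), ht1, ht40, ht44, ?_, ?_, ?_, ?_, ?_⟩
  · rw [Real.le_log_iff_exp_le hL0]
    have := Real.exp_one_lt_d9
    linarith
  · have := Real.log_le_rpow_div hL0.le (show (0 : ℝ) < 1 / 40 by norm_num)
    linarith
  · have h1 := Real.log_le_rpow_div hL0.le (show (0 : ℝ) < 1 / 2 by norm_num)
    rw [← Real.sqrt_eq_rpow] at h1
    have h2 : 2 * KK ^ 2 ≤ Real.sqrt L := by
      rw [Real.le_sqrt (by positivity) hL0.le]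
      calc (2 * KK ^ 2) ^ 2 = 4 * KK ^ 4 := by ring
        _ ≤ L := hL
    have h3 : 0 < Real.sqrt L := by linarith
    calc KK ^ 2 * Real.log L ≤ KK ^ 2 * (Real.sqrt L / (1 / 2)) :=
          mul_le_mul_of_nonneg_left h1 (by positivity)
      _ = (2 * KK ^ 2) * Real.sqrt L := by ring
      _ ≤ Real.sqrt L * Real.sqrt L := mul_le_mul_of_nonneg_right h2 h3.le
      _ = L := hsq
  · apply Real.log_le_log (by linarith)
    nlinarith
  · set t := L ^ (1 / 40 : ℝ)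
    have ht0 : 0 < t := by linarith
    rw [le_div_iff₀ (by positivity)]
    have h1 : Real.exp L ^ (1 / 4 : ℝ) = Real.exp (L / 4) := by
      rw [← Real.exp_mul]
      congr 1
      ring
    have h2 : Real.exp (Real.sqrt L) ≤ Real.exp (L / 4) := by
      apply Real.exp_le_exp.mpr
      nlinarith
    have h3 : t ^ 44 ≤ L ^ 2 := by
      rw [← ht40, ← pow_mul]
      exact pow_le_pow_right₀ ht1 (by norm_num)
    have h4 : 2 * L * L ^ 2 ≤ Real.exp (L / 2) := by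
      have h5 := Real.pow_div_factorial_le_exp (L / 2) (by linarith) 4
      have h6 : (L / 2) ^ 4 / ((4 : ℕ).factorial : ℝ) = L ^ 4 / 384 := by
        norm_num [Nat.factorial]
        ring
      rw [h6] at h5
      refine le_trans ?_ h5
      rw [le_div_iff₀ (by norm_num)]
      have h7 : 0 < L ^ 3 := by positivity
      nlinarith
    rw [h1]
    have h8 : 0 < Real.exp (L / 4) := Real.exp_pos _
    calc Real.exp (L / 4) * Real.exp (Real.sqrt L) * (2 * L) * t ^ 44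
        ≤ Real.exp (L / 4) * Real.exp (L / 4) * (2 * L) * L ^ 2 := by gcongr
      _ = Real.exp (L / 2) * (2 * L * L ^ 2) := by
          rw [← Real.exp_add]
          ring_nf
      _ ≤ Real.exp (L / 2) * Real.exp (L / 2) := by gcongr
      _ = Real.exp L := by
          rw [← Real.exp_add]
          ring_nf

theorem s1 (h : BRz) (h1 : M1) (h2 : M2) (h3 : LF) : S1 := by
  obtain ⟨x₀, hx₀⟩ := h
  obtain ⟨C, hC, hLF⟩ := h3
  have hK : (0 : ℝ) < KK := by unfold KK; norm_num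
  obtain ⟨B0, hB0⟩ : ∃ B0 : ℝ, B0 = max x₀ (Real.exp (4 * KK ^ 4)) := ⟨_, rfl⟩
  have hB0a : x₀ ≤ B0 := by rw [hB0]; exact le_max_left _ _
  have hB0b : Real.exp (4 * KK ^ 4) ≤ B0 := by rw [hB0]; exact le_max_right _ _
  have hB0p : 0 < B0 := lt_of_lt_of_le (Real.exp_pos _) hB0b
  have hLB : 4 * KK ^ 4 ≤ Real.log B0 := (Real.le_log_iff_exp_le hB0p).mpr hB0b
  have hLB0 : 0 ≤ Real.log B0 := le_trans (by positivity) hLB
  refine ⟨3072000 * KK ^ 3 * C + 241 + Real.log B0 ^ (11 / 10 : ℝ), by positivity, ?_⟩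
  intro X hX
  have hX3 : (3 : ℝ) ≤ X := by exact_mod_cast hX
  have hL1 : 1 ≤ Real.log X := by
    rw [Real.le_log_iff_exp_le (by linarith)]
    have := Real.exp_one_lt_d9
    linarith
  have hpow0 : 0 < Real.log X ^ (11 / 10 : ℝ) := Real.rpow_pos_of_pos (by linarith) _
  have hq0 : 0 ≤ (X : ℝ) / Real.log X ^ (11 / 10 : ℝ) := by positivity
  change ((s1S X).ncard : ℝ) ≤ _
  rcases lt_or_ge (X : ℝ) B0 with hsm | hbig
  · -- the trivial bound
    have h5 : (s1S X).ncard ≤ X := by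
      have h6 : s1S X ⊆ (Finset.Icc 1 X : Set ℕ) := by
        intro n hn
        rw [Finset.coe_Icc]
        exact ⟨by have := hn.1; omega, hn.2.1⟩
      have h7 := Set.ncard_le_ncard h6 (Finset.finite_toSet _)
      rw [Set.ncard_coe_finset, Nat.card_Icc] at h7
      omega
    have h6 : Real.log X ^ (11 / 10 : ℝ) ≤ Real.log B0 ^ (11 / 10 : ℝ) := by
      apply Real.rpow_le_rpow (by linarith) _ (by norm_num)
      exact Real.log_le_log (by linarith) hsm.le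
    calc ((s1S X).ncard : ℝ) ≤ X := by exact_mod_cast h5
      _ = Real.log X ^ (11 / 10 : ℝ) * ((X : ℝ) / Real.log X ^ (11 / 10 : ℝ)) := by
          field_simp
      _ ≤ (3072000 * KK ^ 3 * C + 241 + Real.log B0 ^ (11 / 10 : ℝ)) *
          ((X : ℝ) / Real.log X ^ (11 / 10 : ℝ)) := by
          apply mul_le_mul_of_nonneg_right _ hq0
          have : 0 ≤ 3072000 * KK ^ 3 * C + 241 := by positivity
          linarith
  · have hXx₀ : x₀ ≤ (X : ℝ) := hB0a.trans hbig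
    obtain ⟨L, hLdef⟩ : ∃ L : ℝ, L = Real.log X := ⟨_, rfl⟩
    have hLbig : 4 * KK ^ 4 ≤ L := by
      rw [hLdef]
      exact hLB.trans (Real.log_le_log hB0p hbig)
    obtain ⟨t, ht1, ht40, ht44, hl1, hl40, hKl, hls, hthird⟩ := s1_num hLbig
    have ht0 : 0 < t := by linarith
    have hL1' : 1 ≤ L := by rw [hLdef]; exact hL1
    have hL0 : 0 < L := by linarith
    have hXe : (X : ℝ) = Real.exp L := by rw [hLdef, Real.exp_log (by linarith)]
    have hTlog : Real.log (TT X) = L / (KK ^ 2 * Real.log L) := by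
      unfold TT
      rw [Real.log_exp, ← hLdef]
    have hT1def : T1 X = Real.exp (Real.sqrt L) := by
      unfold T1
      rw [← hLdef]
    have hTT : 2 ≤ TT X := by
      have h4 : 1 ≤ L / (KK ^ 2 * Real.log L) := by
        rw [one_le_div (by positivity)]
        exact hKl
      have h5 : TT X = Real.exp (L / (KK ^ 2 * Real.log L)) := by
        unfold TT
        rw [← hLdef]
      rw [h5]
      have h6 := Real.add_one_le_exp (L / (KK ^ 2 * Real.log L))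
      linarith
    have hT1 : 2 ≤ T1 X := by
      rw [hT1def]
      have h6 := Real.add_one_le_exp (Real.sqrt L)
      have h7 : 1 ≤ Real.sqrt L := Real.one_le_sqrt.mpr hL1'
      linarith
    have hT10 : (0 : ℝ) ≤ T1 X := by linarith
    -- bound for each pair
    obtain ⟨E, hE⟩ : ∃ E : ℝ, E = 4 / Real.log (TT X) * (C * (2 * KK * Real.log L / t ^ 10)) +
      1 / L ^ 5 := ⟨_, rfl⟩
    have hlogT : 0 < Real.log (TT X) := Real.log_pos (by linarith)
    have hE0 : 0 ≤ E := by rw [hE]; positivity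
    have hcount : ∀ p ∈ PZ (T1 X), ∀ a ∈ Finset.Icc 1 (Nat.log 2 X),
        ((s1G X p a (X / p ^ a)).ncard : ℝ) ≤
          (X : ℝ) * (1 / (p : ℝ)) ^ a * E + (X : ℝ) ^ (1 / 4 : ℝ) := by
      intro p hp a ha
      rw [s1_mem_PZ hT10] at hp
      rw [Finset.mem_Icc] at ha
      have h5 : ∏ q ∈ NZ p (TT X), (1 - 1 / (q : ℝ)) ≤
          C * (2 * KK * Real.log L / t ^ 10) := by
        refine (hLF p hp.1 (TT X) hTT).trans ?_
        exact s1_p_le hTT hL1' hl1 hC hTlog hp.1 (by rw [← hT1def]; exact hp.2) ht0 ht40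
      have h6 := s1_count rfl hp.1 ha.1 hTT h2 h5 (hx₀ X hXx₀) (by linarith)
      rw [← hLdef, ← hE] at h6
      exact h6
    have hMle : ((Nat.log 2 X : ℕ) : ℝ) ≤ 2 * L := by
      have h5 : ((Nat.log 2 X : ℕ) : ℝ) ≤ Real.logb 2 X := by
        have := Real.natLog_le_logb X 2
        exact_mod_cast this
      refine h5.trans ?_
      rw [← Real.log_div_log, ← hLdef, div_le_iff₀ (Real.log_pos (by norm_num))]
      have := Real.log_two_gt_d9
      nlinarith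
    have hcardP : ((PZ (T1 X)).card : ℝ) ≤ T1 X := by
      have h5 : (PZ (T1 X)).card ≤ ⌊T1 X⌋₊ := by
        unfold PZ
        refine (Finset.card_filter_le _ _).trans ?_
        rw [Nat.card_Icc]
        omega
      calc ((PZ (T1 X)).card : ℝ) ≤ (⌊T1 X⌋₊ : ℝ) := by exact_mod_cast h5
        _ ≤ T1 X := Nat.floor_le hT10
    have hx4 : 0 ≤ (X : ℝ) ^ (1 / 4 : ℝ) := by positivity
    have hinner : ∀ p ∈ PZ (T1 X), ∑ a ∈ Finset.Icc 1 (Nat.log 2 X),
        ((s1G X p a (X / p ^ a)).ncard : ℝ) ≤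
          (X : ℝ) * E * (2 * (1 / (p : ℝ))) + 2 * L * (X : ℝ) ^ (1 / 4 : ℝ) := by
      intro p hp
      have hp' := (s1_mem_PZ hT10).mp hp
      have hp2 : (2 : ℝ) ≤ p := by exact_mod_cast hp'.1.two_le
      calc ∑ a ∈ Finset.Icc 1 (Nat.log 2 X), ((s1G X p a (X / p ^ a)).ncard : ℝ)
          ≤ ∑ a ∈ Finset.Icc 1 (Nat.log 2 X),
            ((X : ℝ) * (1 / (p : ℝ)) ^ a * E + (X : ℝ) ^ (1 / 4 : ℝ)) :=
            Finset.sum_le_sum fun a ha => hcount p hp a ha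
        _ = (X : ℝ) * E * (∑ a ∈ Finset.Icc 1 (Nat.log 2 X), (1 / (p : ℝ)) ^ a) +
            ((Nat.log 2 X : ℕ) : ℝ) * (X : ℝ) ^ (1 / 4 : ℝ) := by
            rw [Finset.sum_add_distrib, Finset.sum_const, Nat.card_Icc, Finset.mul_sum,
              nsmul_eq_mul]
            congr 1
            apply Finset.sum_congr rfl
            intro a _
            ring
        _ ≤ _ := by
            have h5 : ∑ a ∈ Finset.Icc 1 (Nat.log 2 X), (1 / (p : ℝ)) ^ a ≤ 2 * (1 / (p : ℝ)) := by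
              have h6 := s1_geom (r := 1 / (p : ℝ)) (by positivity)
                (one_div_le_one_div_of_le (by norm_num) hp2) (Nat.log 2 X)
              have h7 : 0 ≤ (1 / (p : ℝ)) ^ (Nat.log 2 X + 1) := by positivity
              linarith
            have h8 : 0 ≤ (X : ℝ) * E := by positivity
            have h9 := mul_le_mul_of_nonneg_left h5 h8
            have h10 := mul_le_mul_of_nonneg_right hMle hx4
            linarith
    have hsum1 : ∑ p ∈ PZ (T1 X), 1 / (p : ℝ) ≤ 3 * Real.log L := by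
      refine (h1 (T1 X) hT1).trans ?_
      rw [hT1def, Real.log_exp]
      linarith
    have htot : ((s1S X).ncard : ℝ) ≤
        (X : ℝ) * E * (6 * Real.log L) + T1 X * (2 * L * (X : ℝ) ^ (1 / 4 : ℝ)) := by
      calc ((s1S X).ncard : ℝ) ≤ _ := s1_sum X
        _ ≤ ∑ p ∈ PZ (T1 X), ((X : ℝ) * E * (2 * (1 / (p : ℝ))) +
            2 * L * (X : ℝ) ^ (1 / 4 : ℝ)) := Finset.sum_le_sum hinner
        _ = (X : ℝ) * E * (2 * ∑ p ∈ PZ (T1 X), 1 / (p : ℝ)) +
            ((PZ (T1 X)).card : ℝ) * (2 * L * (X : ℝ) ^ (1 / 4 : ℝ)) := by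
            rw [Finset.sum_add_distrib, Finset.sum_const, nsmul_eq_mul, Finset.mul_sum,
              Finset.mul_sum]
        _ ≤ _ := by
            have h8 : 0 ≤ (X : ℝ) * E := by positivity
            have h9 : 2 * ∑ p ∈ PZ (T1 X), 1 / (p : ℝ) ≤ 6 * Real.log L := by linarith
            have h10 := mul_le_mul_of_nonneg_left h9 h8
            have h11 : 0 ≤ 2 * L * (X : ℝ) ^ (1 / 4 : ℝ) := by positivity
            have h12 := mul_le_mul_of_nonneg_right hcardP h11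
            linarith
    refine htot.trans ?_
    rw [← hLdef, ht44]
    have hthird' : T1 X * (2 * L * (X : ℝ) ^ (1 / 4 : ℝ)) ≤ (X : ℝ) / t ^ 44 := by
      rw [hT1def, hXe]
      calc Real.exp (Real.sqrt L) * (2 * L * Real.exp L ^ (1 / 4 : ℝ)) =
          Real.exp L ^ (1 / 4 : ℝ) * Real.exp (Real.sqrt L) * (2 * L) := by ring
        _ ≤ _ := hthird
    have hEle : E * (6 * Real.log L) ≤ (3072000 * KK ^ 3 * C + 240) / t ^ 44 := by
      have hE1 : E = 8 * KK ^ 3 * C * Real.log L ^ 2 / t ^ 50 + 1 / t ^ 200 := by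
        rw [hE, hTlog, ← ht40]
        have hl0 : Real.log (t ^ 40) ≠ 0 := by
          rw [ht40]
          linarith
        field_simp
        ring
      rw [hE1]
      have h5 : (8 * KK ^ 3 * C * Real.log L ^ 2 / t ^ 50 + 1 / t ^ 200) * (6 * Real.log L) ≤
          (8 * KK ^ 3 * C * (40 * t) ^ 2 / t ^ 50 + 1 / t ^ 200) * (6 * (40 * t)) := by
        gcongr
      refine h5.trans ?_
      have h6 : (8 * KK ^ 3 * C * (40 * t) ^ 2 / t ^ 50 + 1 / t ^ 200) * (6 * (40 * t)) =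
          3072000 * KK ^ 3 * C / t ^ 47 + 240 / t ^ 199 := by
        field_simp
        ring
      rw [h6, add_div]
      apply add_le_add
      · apply div_le_div_of_nonneg_left (by positivity) (by positivity)
        exact pow_le_pow_right₀ ht1 (by norm_num)
      · apply div_le_div_of_nonneg_left (by norm_num) (by positivity)
        exact pow_le_pow_right₀ ht1 (by norm_num)
    have hXp : (0 : ℝ) ≤ X := by linarith
    calc (X : ℝ) * E * (6 * Real.log L) + T1 X * (2 * L * (X : ℝ) ^ (1 / 4 : ℝ))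
        ≤ X * ((3072000 * KK ^ 3 * C + 240) / t ^ 44) + X / t ^ 44 := by
          have := mul_le_mul_of_nonneg_left hEle hXp
          linarith
      _ = (3072000 * KK ^ 3 * C + 241) * (X / t ^ 44) := by ring
      _ ≤ _ := by
          apply mul_le_mul_of_nonneg_right _ (by positivity)
          have : 0 ≤ Real.log B0 ^ (11 / 10 : ℝ) := Real.rpow_nonneg hLB0 _
          linarith

end Pool.Agent.H27.AP
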