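import Pool.Agent.H27.AP.S2c

/-! Module S2: all prime divisors larger than `T₁`, at most one of them at most `T`. -/

set_option autoImplicit false

open Finset Pool.Agent.H27.ADS

namespace Pool.Agent.H27.AP

/-- the set to be counted -/
def s2Bad (x : ℕ) : Set ℕ :=
  {n : ℕ | 2 ≤ n ∧ n ≤ x ∧ Mann n ∧ ¬ n.Prime ∧ (∀ p : ℕ, p.Prime → p ∣ n → T1 x < p) ∧
    ∀ p p' : ℕ, p.Prime → p'.Prime → p ∣ n → p' ∣ n → (p : ℝ) ≤ TT x → (p' : ℝ) ≤ TT x →
      p = p'}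

/-- the number of primes and the sum of their reciprocals -/
theorem s2_Q_card (x : ℕ) (T₁ : ℝ) : ((s2Q x T₁).card : ℝ) ≤ Real.sqrt x := by
  have h1 : (s2Q x T₁).card ≤ Nat.sqrt x := by
    unfold s2Q
    refine (card_filter_le _ _).trans ?_
    rw [Nat.card_Icc]
    omega
  exact (Nat.cast_le.2 h1).trans Real.nat_sqrt_le_real_sqrt

theorem s2_Q_inv {x : ℕ} {L : ℝ} (hx : 1 ≤ x) (hL : Real.log x = L) (T₁ : ℝ) :
    ∑ p ∈ s2Q x T₁, 1 / (p : ℝ) ≤ 1 + L := by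
  have h1 : ∑ p ∈ s2Q x T₁, 1 / (p : ℝ) ≤ ∑ p ∈ Icc 1 x, 1 / (p : ℝ) := by
    apply sum_le_sum_of_subset_of_nonneg
    · intro p hp
      have h2 := s2_mem_Q.1 hp
      rw [mem_Icc]
      exact ⟨h2.2.1.one_lt.le, h2.1.trans (Nat.sqrt_le_self x)⟩
    · intro p _ _
      positivity
  have h2 : ∑ p ∈ Icc 1 x, 1 / (p : ℝ) = (harmonic x : ℝ) := by
    rw [harmonic_eq_sum_Icc]
    push_cast
    apply sum_congr rfl
    intro p _
    rw [one_div]
  have h3 := harmonic_le_one_add_log x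
  rw [h2] at h1
  rw [← hL]
  exact h1.trans h3

/-- the final inequality -/
theorem s2_final {x L C S R K : ℝ} {F : ℕ} (hC : 0 < C) (hL : 16 ≤ L) (hx : x = Real.exp L)
    (he1 : Real.log L ^ (3 : ℝ) ≤ L ^ (1 / 40 : ℝ))
    (he3 : Real.exp (-Real.sqrt L) ≤ L ^ (-(11 / 10) : ℝ))
    (he4 : Real.exp (-(L / 4)) ≤ L ^ (-(11 / 10) : ℝ))
    (hF : Real.exp (Real.sqrt L) / 2 ≤ F)
    (hS : S ≤ 5 * C * Real.log L ^ 2 * L ^ (-(1 / 8) : ℝ)) (hR : R ≤ 1 + L)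
    (hK : K ≤ Real.sqrt x) :
    x / F + (x / (L / (KK ^ 2 * Real.log L)) * S + x / L ^ 5 * R + K * x ^ (1 / 4 : ℝ)) ≤
      (5 + 5 * C * KK ^ 2) * (x / L ^ (11 / 10 : ℝ)) := by
  have hL0 : 0 < L := by linarith
  have hlL : 0 < Real.log L := Real.log_pos (by linarith)
  have hx0 : 0 < x := by rw [hx]; exact Real.exp_pos _
  have hKK : 0 < KK ^ 2 := by unfold KK; norm_num
  have hneg : x / L ^ (11 / 10 : ℝ) = x * L ^ (-(11 / 10) : ℝ) := by
    rw [Real.rpow_neg hL0.le, div_eq_mul_inv]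
  rw [hneg]
  have t1 : x / F ≤ 2 * (x * L ^ (-(11 / 10) : ℝ)) := by
    have hE := Real.exp_pos (Real.sqrt L)
    calc x / F ≤ x / (Real.exp (Real.sqrt L) / 2) := by gcongr
      _ = 2 * (x * Real.exp (-Real.sqrt L)) := by
          rw [Real.exp_neg]
          field_simp
      _ ≤ 2 * (x * L ^ (-(11 / 10) : ℝ)) := by gcongr
  have t2 : x / (L / (KK ^ 2 * Real.log L)) * S ≤
      5 * C * KK ^ 2 * (x * L ^ (-(11 / 10) : ℝ)) := by
    have h1 : L ^ (-(11 / 10) : ℝ) = L ^ (1 / 40 : ℝ) * L ^ (-(1 / 8) : ℝ) * L⁻¹ := by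
      rw [← Real.rpow_neg_one L, ← Real.rpow_add hL0, ← Real.rpow_add hL0]
      norm_num
    calc x / (L / (KK ^ 2 * Real.log L)) * S
        ≤ x / (L / (KK ^ 2 * Real.log L)) *
            (5 * C * Real.log L ^ 2 * L ^ (-(1 / 8) : ℝ)) := by gcongr
      _ = 5 * C * KK ^ 2 * (x * (Real.log L ^ (3 : ℝ) * L ^ (-(1 / 8) : ℝ) * L⁻¹)) := by
          rw [show (3 : ℝ) = ((3 : ℕ) : ℝ) by norm_num, Real.rpow_natCast]
          field_simp
      _ ≤ 5 * C * KK ^ 2 * (x * (L ^ (1 / 40 : ℝ) * L ^ (-(1 / 8) : ℝ) * L⁻¹)) := by gcongr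
      _ = 5 * C * KK ^ 2 * (x * L ^ (-(11 / 10) : ℝ)) := by rw [h1]
  have t3 : x / L ^ 5 * R ≤ 2 * (x * L ^ (-(11 / 10) : ℝ)) := by
    have h1 : L ^ (-(4 : ℝ)) ≤ L ^ (-(11 / 10) : ℝ) :=
      Real.rpow_le_rpow_of_exponent_le (by linarith) (by norm_num)
    have h2 : L ^ (-(4 : ℝ)) = (L ^ 4)⁻¹ := by
      rw [Real.rpow_neg hL0.le, show (4 : ℝ) = ((4 : ℕ) : ℝ) by norm_num, Real.rpow_natCast]
    calc x / L ^ 5 * R ≤ x / L ^ 5 * (2 * L) := by
          gcongr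
          linarith
      _ = 2 * (x * (L ^ 4)⁻¹) := by field_simp
      _ ≤ 2 * (x * L ^ (-(11 / 10) : ℝ)) := by
          rw [← h2]
          gcongr
  have t4 : K * x ^ (1 / 4 : ℝ) ≤ x * L ^ (-(11 / 10) : ℝ) := by
    have h1 : Real.sqrt x * x ^ (1 / 4 : ℝ) = x * Real.exp (-(L / 4)) := by
      rw [Real.sqrt_eq_rpow, hx, ← Real.exp_mul, ← Real.exp_mul, ← Real.exp_add,
        ← Real.exp_add]
      congr 1
      ring
    calc K * x ^ (1 / 4 : ℝ) ≤ Real.sqrt x * x ^ (1 / 4 : ℝ) := by gcongr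
      _ = x * Real.exp (-(L / 4)) := h1
      _ ≤ x * L ^ (-(11 / 10) : ℝ) := by gcongr
  linarith

/-- the case of large `x` -/
theorem s2_large (h : BRz) (h2 : M2) (h3 : AV) : ∃ C X : ℝ, 0 < C ∧ ∀ x : ℕ, 3 ≤ x → X ≤ x →
    ((s2Bad x).ncard : ℝ) ≤ C * (x / Real.log x ^ (11 / 10 : ℝ)) := by
  obtain ⟨x₀, hx₀⟩ := h
  obtain ⟨C, x₁, hC, hx₁⟩ := h3
  obtain ⟨L₀, hL₀, hev⟩ := s2_ev
  refine ⟨5 + 5 * C * KK ^ 2, max (max x₀ x₁) (Real.exp L₀), by positivity, ?_⟩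
  intro x hx3 hX
  have hX0 : x₀ ≤ x := (le_max_left _ _).trans ((le_max_left _ _).trans hX)
  have hX1 : x₁ ≤ x := (le_max_right _ _).trans ((le_max_left _ _).trans hX)
  have hXL : Real.exp L₀ ≤ x := (le_max_right _ _).trans hX
  have hxpos : (0 : ℝ) < x := lt_of_lt_of_le (Real.exp_pos _) hXL
  set L : ℝ := Real.log x with hLdef
  have hL : L₀ ≤ L := by rwa [hLdef, Real.le_log_iff_exp_le hxpos]
  obtain ⟨he1, he2, he3, he4⟩ := hev L hL
  have hL16 : 16 ≤ L := hL₀.trans hL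
  have hL0 : 0 < L := by linarith
  have hlL : 0 < Real.log L := Real.log_pos (by linarith)
  have hKK : 0 < KK ^ 2 := by unfold KK; norm_num
  have hxe : (x : ℝ) = Real.exp L := by rw [hLdef, Real.exp_log hxpos]
  have hlogT : Real.log (TT x) = L / (KK ^ 2 * Real.log L) := by
    unfold TT
    rw [Real.log_exp]
  have hquart : L ^ (1 / 4 : ℝ) ≤ L / (KK ^ 2 * Real.log L) := by
    rw [le_div_iff₀ (by positivity)]
    calc L ^ (1 / 4 : ℝ) * (KK ^ 2 * Real.log L) ≤ L ^ (1 / 4 : ℝ) * L ^ (3 / 4 : ℝ) := by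
          gcongr
      _ = L := by
          rw [← Real.rpow_add hL0]
          norm_num
  have hq2 : 2 ≤ L ^ (1 / 4 : ℝ) := by
    have h5 : (2 : ℝ) = (16 : ℝ) ^ (1 / 4 : ℝ) := by
      rw [show (16 : ℝ) = 2 ^ (4 : ℝ) by norm_num, ← Real.rpow_mul (by norm_num)]
      norm_num
    rw [h5]
    exact Real.rpow_le_rpow (by norm_num) hL16 (by norm_num)
  have hwT : ww x ≤ TT x := by
    unfold ww TT
    rw [Real.exp_le_exp]
    exact hquart
  have hw0 : 0 ≤ ww x := (Real.exp_pos _).le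
  have hT2 : 2 ≤ TT x := by
    refine le_trans ?_ hwT
    unfold ww
    have := Real.add_one_le_exp (L ^ (1 / 4 : ℝ))
    linarith
  have hsq : 4 ≤ Real.sqrt L := by
    rw [Real.le_sqrt (by norm_num) hL0.le]
    linarith
  have hT1 : 2 ≤ T1 x := by
    unfold T1
    have := Real.add_one_le_exp (Real.sqrt L)
    linarith
  have hF : Real.exp (Real.sqrt L) / 2 ≤ (⌊T1 x⌋₊ : ℕ) := by
    have h5 := Nat.lt_floor_add_one (T1 x)
    have h6 : Real.exp (Real.sqrt L) = T1 x := rfl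
    rw [h6]
    linarith
  have hcount := s2_count (x := x) hT2 hw0 hwT (by linarith : (1 : ℝ) ≤ T1 x) h2 hL0
    (hx₀ x hX0)
  have hsum := s2_sumQ (C := C) (L := L) (w := ww x) (T₁ := T1 x) (x := x) hC hL16 (by omega)
    hLdef.symm hw0 rfl (hx₁ x hX1)
  rw [hlogT] at hcount
  exact hcount.trans (s2_final hC hL16 hxe he1 he3 he4 hF hsum
    (s2_Q_inv (by omega) hLdef.symm _) (s2_Q_card x _))

theorem s2_trivial (x : ℕ) : ((s2Bad x).ncard : ℝ) ≤ x := by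
  have h1 : s2Bad x ⊆ ((Icc 1 x : Finset ℕ) : Set ℕ) := by
    rintro n ⟨h1, h2, _⟩
    rw [mem_coe, mem_Icc]
    exact ⟨by omega, h2⟩
  have h2 := Set.ncard_le_ncard h1 (Finset.finite_toSet _)
  rw [Set.ncard_coe_finset, Nat.card_Icc] at h2
  exact_mod_cast h2

theorem s2 (h : BRz) (_h1 : M1) (h2 : M2) (h3 : AV) : S2 := by
  obtain ⟨C, X, hC, hX⟩ := s2_large h h2 h3
  set Y : ℝ := max X 3 with hY
  have hY3 : 3 ≤ Y := le_max_right _ _
  have hlY : 0 < Real.log Y := Real.log_pos (by linarith)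
  refine ⟨C + Real.log Y ^ (11 / 10 : ℝ), by positivity, ?_⟩
  intro x hx3
  change ((s2Bad x).ncard : ℝ) ≤ _
  have hx3' : (3 : ℝ) ≤ x := by exact_mod_cast hx3
  have hlx : 0 < Real.log x := Real.log_pos (by linarith)
  rcases le_or_gt X x with hle | hgt
  · refine (hX x hx3 hle).trans ?_
    gcongr
    have : 0 ≤ Real.log Y ^ (11 / 10 : ℝ) := by positivity
    linarith
  · have h5 : (x : ℝ) ≤ Y := hgt.le.trans (le_max_left _ _)
    have h6 : Real.log x ≤ Real.log Y := Real.log_le_log (by linarith) h5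
    have h7 : Real.log x ^ (11 / 10 : ℝ) ≤ Real.log Y ^ (11 / 10 : ℝ) :=
      Real.rpow_le_rpow hlx.le h6 (by norm_num)
    have h8 : 0 < Real.log x ^ (11 / 10 : ℝ) := by positivity
    have h9 : (x : ℝ) ≤ Real.log Y ^ (11 / 10 : ℝ) * (x / Real.log x ^ (11 / 10 : ℝ)) := by
      rw [mul_div_assoc', le_div_iff₀ h8, mul_comm]
      exact mul_le_mul_of_nonneg_right h7 (by linarith)
    refine (s2_trivial x).trans (h9.trans ?_)
    apply mul_le_mul_of_nonneg_right _ (by positivity)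
    linarith

end Pool.Agent.H27.AP
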