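import Pool.Agent.H27.AP.Defs

/-!
# The set of `n` with `n - 1 = q a`, `n + 1 = q' (a + 2)`, `q`, `q'` prime
-/

set_option autoImplicit false

namespace Pool.Agent.H27.AP.TWx

open Finset

/-- product over distinct integers `≥ 2` -/
lemma prod_one_sub_ge (S : Finset ℕ) (hS : ∀ s ∈ S, 2 ≤ s) :
    1 / ((S.card : ℝ) + 1) ≤ ∏ s ∈ S, (1 - 1 / (s : ℝ)) := by
  induction S using Finset.induction_on_max with
  | empty => simp
  | insert a S ha ih =>
    have haS : a ∉ S := fun h => (ha a h).false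
    rw [Finset.prod_insert haS, Finset.card_insert_of_notMem haS]
    have h2a : 2 ≤ a := hS a (Finset.mem_insert_self _ _)
    have hcard : S.card + 2 ≤ a := by
      have h1 : S ⊆ Finset.Ico 2 a := fun s hs =>
        Finset.mem_Ico.2 ⟨hS s (Finset.mem_insert_of_mem hs), ha s hs⟩
      have h2 := Finset.card_le_card h1
      rw [Nat.card_Ico] at h2
      omega
    have hI := ih fun s hs => hS s (Finset.mem_insert_of_mem hs)
    have ha0 : (0 : ℝ) < a := by positivity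
    have hc : ((S.card : ℝ) + 2) ≤ a := by exact_mod_cast hcard
    have h3 : 1 - 1 / ((S.card : ℝ) + 2) ≤ 1 - 1 / (a : ℝ) := by
      have := one_div_le_one_div_of_le (by positivity : (0 : ℝ) < (S.card : ℝ) + 2) hc
      linarith
    have h4 : (0 : ℝ) ≤ 1 - 1 / ((S.card : ℝ) + 2) := by
      rw [sub_nonneg, div_le_one (by positivity)]
      have : (0 : ℝ) ≤ S.card := Nat.cast_nonneg _
      linarith
    calc 1 / (((S.card + 1 : ℕ) : ℝ) + 1) = (1 - 1 / ((S.card : ℝ) + 2)) * (1 / ((S.card : ℝ) + 1)) := by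
          push_cast
          have h5 : ((S.card : ℝ) + 1) ≠ 0 := by positivity
          have h6 : ((S.card : ℝ) + 2) ≠ 0 := by positivity
          have h7 : ((S.card : ℝ) + 1 + 1) ≠ 0 := by positivity
          field_simp
          ring
      _ ≤ (1 - 1 / (a : ℝ)) * ∏ s ∈ S, (1 - 1 / (s : ℝ)) := by
          apply mul_le_mul h3 hI (by positivity) (h4.trans h3)

/-- the number of prime factors -/
lemma two_pow_card (m : ℕ) (hm : m ≠ 0) : 2 ^ m.primeFactors.card ≤ m := by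
  calc 2 ^ m.primeFactors.card = ∏ _p ∈ m.primeFactors, 2 := by simp
    _ ≤ ∏ p ∈ m.primeFactors, p := Finset.prod_le_prod' fun p hp =>
        (Nat.prime_of_mem_primeFactors hp).two_le
    _ ≤ m := Nat.le_of_dvd (Nat.pos_of_ne_zero hm) (Nat.prod_primeFactors_dvd m)

/-- the primes used in the sieve -/
noncomputable def Pa (T : ℝ) (m : ℕ) : Finset ℕ := (PZ T).filter (fun s => s ≠ 2 ∧ ¬ s ∣ m)

lemma mem_PZ {z : ℝ} (hz : 0 ≤ z) {q : ℕ} : q ∈ PZ z ↔ q.Prime ∧ (q : ℝ) ≤ z := by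
  unfold PZ
  rw [Finset.mem_filter, Finset.mem_Icc, Nat.le_floor_iff hz]
  constructor
  · rintro ⟨⟨-, h⟩, h'⟩
    exact ⟨h', h⟩
  · rintro ⟨h, h'⟩
    exact ⟨⟨h.one_lt.le, h'⟩, h⟩

lemma prod_Pa (h2 : M2) {T : ℝ} (hT : 2 ≤ T) {m : ℕ} (hm : m ≠ 0) :
    ∏ s ∈ Pa T m, (1 - 2 / (s : ℝ)) ≤
      ((m.primeFactors.card : ℝ) + 2) ^ 2 / Real.log T ^ 2 := by
  have hT0 : 0 ≤ T := by linarith
  have hlog : 0 < Real.log T := Real.log_pos (by linarith)
  have hpos : ∀ s : ℕ, s.Prime → (0 : ℝ) ≤ 1 - 1 / (s : ℝ) := by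
    intro s hs
    have h1 : (1 : ℝ) ≤ s := by exact_mod_cast hs.one_lt.le
    rw [sub_nonneg, div_le_one (by linarith)]
    exact h1
  have hle1 : ∀ s : ℕ, (1 : ℝ) - 1 / (s : ℝ) ≤ 1 := by
    intro s
    have : (0 : ℝ) ≤ 1 / (s : ℝ) := by positivity
    linarith
  have hPa : ∀ s ∈ Pa T m, s.Prime ∧ s ≠ 2 := by
    intro s hs
    unfold Pa at hs
    rw [Finset.mem_filter, mem_PZ hT0] at hs
    exact ⟨hs.1.1, hs.2.1⟩
  -- square
  have step1 : ∏ s ∈ Pa T m, (1 - 2 / (s : ℝ)) ≤ (∏ s ∈ Pa T m, (1 - 1 / (s : ℝ))) ^ 2 := by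
    rw [← Finset.prod_pow]
    apply Finset.prod_le_prod
    · intro s hs
      obtain ⟨hp, h2'⟩ := hPa s hs
      have h3 : (2 : ℝ) ≤ s := by exact_mod_cast hp.two_le
      rw [sub_nonneg, div_le_one (by linarith)]
      exact h3
    · intro s hs
      have h3 : (0 : ℝ) ≤ (1 / (s : ℝ)) ^ 2 := by positivity
      have h4 : (1 - 1 / (s : ℝ)) ^ 2 = 1 - 2 / (s : ℝ) + (1 / (s : ℝ)) ^ 2 := by ring
      rw [h4]
      linarith
  -- the other primes
  have hsub : Pa T m ⊆ PZ T := Finset.filter_subset _ _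
  have hB : PZ T \ Pa T m ⊆ insert 2 m.primeFactors := by
    intro s hs
    rw [Finset.mem_sdiff] at hs
    obtain ⟨h3, h4⟩ := hs
    have h5 := (mem_PZ hT0).1 h3
    rw [Finset.mem_insert]
    by_contra hcon
    push Not at hcon
    apply h4
    unfold Pa
    rw [Finset.mem_filter]
    refine ⟨h3, hcon.1, fun h6 => hcon.2 ?_⟩
    exact Nat.mem_primeFactors.2 ⟨h5.1, h6, hm⟩
  have hBp : ∀ s ∈ insert 2 m.primeFactors, s.Prime := by
    intro s hs
    rcases Finset.mem_insert.1 hs with h | h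
    · rw [h]; exact Nat.prime_two
    · exact Nat.prime_of_mem_primeFactors h
  have hBge : 1 / ((m.primeFactors.card : ℝ) + 2) ≤ ∏ s ∈ PZ T \ Pa T m, (1 - 1 / (s : ℝ)) := by
    have h3 := prod_one_sub_ge (insert 2 m.primeFactors) (fun s hs => (hBp s hs).two_le)
    have h4 : ((insert 2 m.primeFactors).card : ℝ) ≤ (m.primeFactors.card : ℝ) + 1 := by
      exact_mod_cast Finset.card_insert_le _ _
    have h5 : ∏ s ∈ insert 2 m.primeFactors, (1 - 1 / (s : ℝ)) ≤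
        ∏ s ∈ PZ T \ Pa T m, (1 - 1 / (s : ℝ)) := by
      rw [← Finset.prod_sdiff hB]
      calc _ ≤ 1 * ∏ s ∈ PZ T \ Pa T m, (1 - 1 / (s : ℝ)) := by
            apply mul_le_mul_of_nonneg_right
            · exact Finset.prod_le_one (fun s hs => hpos s (hBp s (Finset.mem_sdiff.1 hs).1))
                (fun s _ => hle1 s)
            · exact Finset.prod_nonneg fun s hs => hpos s (hBp s (hB hs))
        _ = _ := one_mul _
    refine le_trans ?_ (h3.trans h5)
    apply one_div_le_one_div_of_le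
    · positivity
    · linarith
  have step2 : ∏ s ∈ Pa T m, (1 - 1 / (s : ℝ)) ≤ ((m.primeFactors.card : ℝ) + 2) / Real.log T := by
    have h3 := h2 T hT
    rw [← Finset.prod_sdiff hsub] at h3
    have h4 : 0 ≤ ∏ s ∈ Pa T m, (1 - 1 / (s : ℝ)) :=
      Finset.prod_nonneg fun s hs => hpos s (hPa s hs).1
    have h5 : 1 / ((m.primeFactors.card : ℝ) + 2) * ∏ s ∈ Pa T m, (1 - 1 / (s : ℝ)) ≤
        1 / Real.log T := (mul_le_mul_of_nonneg_right hBge h4).trans h3
    have h6 : (0 : ℝ) < (m.primeFactors.card : ℝ) + 2 := by positivity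
    calc ∏ s ∈ Pa T m, (1 - 1 / (s : ℝ)) = ((m.primeFactors.card : ℝ) + 2) *
          (1 / ((m.primeFactors.card : ℝ) + 2) * ∏ s ∈ Pa T m, (1 - 1 / (s : ℝ))) := by
            field_simp
      _ ≤ ((m.primeFactors.card : ℝ) + 2) * (1 / Real.log T) := by gcongr
      _ = _ := by ring
  calc _ ≤ (∏ s ∈ Pa T m, (1 - 1 / (s : ℝ))) ^ 2 := step1
    _ ≤ (((m.primeFactors.card : ℝ) + 2) / Real.log T) ^ 2 := by
        apply pow_le_pow_left₀ (Finset.prod_nonneg fun s hs => hpos s (hPa s hs).1) step2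
    _ = _ := div_pow _ _ _

/-! ### The progression -/

/-- least common multiple of `a` and `a + 2` -/
def lam (a : ℕ) : ℕ := Nat.lcm a (a + 2)

/-- the first slope -/
def uu (a : ℕ) : ℕ := lam a / a

/-- the second slope -/
def vv (a : ℕ) : ℕ := lam a / (a + 2)

lemma uu_mul (a : ℕ) : uu a * a = lam a := Nat.div_mul_cancel (Nat.dvd_lcm_left _ _)

lemma vv_mul (a : ℕ) : vv a * (a + 2) = lam a := Nat.div_mul_cancel (Nat.dvd_lcm_right _ _)

lemma lam_pos {a : ℕ} (ha : 1 ≤ a) : 0 < lam a := Nat.lcm_pos (by omega) (by omega)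

lemma le_two_lam (a : ℕ) : a * (a + 2) ≤ 2 * lam a := by
  have h1 : Nat.gcd a (a + 2) * lam a = a * (a + 2) := Nat.gcd_mul_lcm a (a + 2)
  have h2 : Nat.gcd a (a + 2) ∣ 2 :=
    (Nat.dvd_add_right (Nat.gcd_dvd_left a (a + 2))).1 (Nat.gcd_dvd_right a (a + 2))
  have h3 : Nat.gcd a (a + 2) ≤ 2 := Nat.le_of_dvd (by norm_num) h2
  rw [← h1]
  exact Nat.mul_le_mul_right _ h3

lemma lam_dvd (a : ℕ) : lam a ∣ a * (a + 2) :=
  Dvd.intro_left (Nat.gcd a (a + 2)) (Nat.gcd_mul_lcm a (a + 2))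

lemma uu_dvd {a : ℕ} (ha : 1 ≤ a) : uu a ∣ a + 2 := by
  have h1 : a * uu a ∣ a * (a + 2) := by
    rw [mul_comm a (uu a), uu_mul]
    exact lam_dvd a
  exact Nat.dvd_of_mul_dvd_mul_left (by omega) h1

lemma vv_dvd (a : ℕ) : vv a ∣ a := by
  have h1 : vv a * (a + 2) ∣ a * (a + 2) := by
    rw [vv_mul]
    exact lam_dvd a
  exact Nat.dvd_of_mul_dvd_mul_right (by omega) h1

/-- the admissible values of `h` -/
noncomputable def HH (a N : ℕ) : Finset ℕ :=
  (Finset.Icc 1 N).filter (fun h => (1 + uu a * h).Prime ∧ (1 + vv a * h).Prime)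

lemma TWs_sub (x : ℕ) : TWs x ⊆ ((Finset.Icc 1 x).biUnion fun a =>
    (HH a (x / lam a)).image (fun h => lam a * h + a + 1) : Finset ℕ) := by
  rintro n ⟨hn2, hnx, a, q, q', ha, hq, hq', h1, h2⟩
  have hq2 := hq.two_le
  have hq'2 := hq'.two_le
  obtain ⟨k, rfl⟩ : ∃ k, q = k + 1 := ⟨q - 1, by omega⟩
  obtain ⟨k', rfl⟩ : ∃ k', q' = k' + 1 := ⟨q' - 1, by omega⟩
  have e1 : n = (k + 1) * a + 1 := by omega
  have e2 : k * a = k' * (a + 2) := by
    have : (k + 1) * a + 1 + 1 = (k' + 1) * (a + 2) := by rw [← e1, h2]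
    have h3 : (k + 1) * a = k * a + a := by ring
    have h4 : (k' + 1) * (a + 2) = k' * (a + 2) + (a + 2) := by ring
    omega
  have hd : lam a ∣ k * a := Nat.lcm_dvd ⟨k, by ring⟩ ⟨k', by rw [e2]; ring⟩
  obtain ⟨h, hh⟩ := hd
  have ek : k = uu a * h := by
    have : k * a = (uu a * h) * a := by rw [hh, ← uu_mul]; ring
    exact Nat.eq_of_mul_eq_mul_right (by omega) this
  have ek' : k' = vv a * h := by
    have : k' * (a + 2) = (vv a * h) * (a + 2) := by rw [← e2, hh, ← vv_mul]; ring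
    exact Nat.eq_of_mul_eq_mul_right (by omega) this
  have hh1 : 1 ≤ h := by
    rcases Nat.eq_zero_or_pos h with h0 | h0
    · rw [h0, mul_zero] at ek
      omega
    · exact h0
  have en : n = lam a * h + a + 1 := by
    rw [e1, ← hh]; ring
  have hle : h ≤ x / lam a := by
    rw [Nat.le_div_iff_mul_le (lam_pos ha), mul_comm]
    omega
  have hax : a ≤ x := by omega
  rw [Finset.mem_coe, Finset.mem_biUnion]
  refine ⟨a, Finset.mem_Icc.2 ⟨ha, hax⟩, ?_⟩
  rw [Finset.mem_image]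
  refine ⟨h, ?_, en.symm⟩
  unfold HH
  rw [Finset.mem_filter, Finset.mem_Icc]
  refine ⟨⟨hh1, hle⟩, ?_, ?_⟩
  · rw [← ek, add_comm]; exact hq
  · rw [← ek', add_comm]; exact hq'

lemma ncard_TWs_le (x : ℕ) :
    ((TWs x).ncard : ℝ) ≤ ∑ a ∈ Finset.Icc 1 x, ((HH a (x / lam a)).card : ℝ) := by
  have h1 := Set.ncard_le_ncard (TWs_sub x) (Finset.finite_toSet _)
  rw [Set.ncard_coe_finset] at h1
  have h2 : ((Finset.Icc 1 x).biUnion fun a =>
    (HH a (x / lam a)).image (fun h => lam a * h + a + 1)).card ≤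
      ∑ a ∈ Finset.Icc 1 x, (HH a (x / lam a)).card :=
    Finset.card_biUnion_le.trans (Finset.sum_le_sum fun a _ => Finset.card_image_le)
  exact_mod_cast h1.trans h2

/-! ### The sieve for one `a` -/

/-- the classes removed -/
def Om (a q : ℕ) : Finset (ZMod q) := {-((uu a : ℕ) : ZMod q)⁻¹, -((vv a : ℕ) : ZMod q)⁻¹}

lemma card_Om_le (a q : ℕ) : (Om a q).card ≤ 2 := Finset.card_le_two

lemma not_dvd_uu {a s : ℕ} (ha : 1 ≤ a) (h : ¬ s ∣ a * (a + 2)) : ¬ s ∣ uu a := fun h1 =>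
  h (h1.trans ((uu_dvd ha).trans (Dvd.intro_left _ rfl)))

lemma not_dvd_vv {a s : ℕ} (h : ¬ s ∣ a * (a + 2)) : ¬ s ∣ vv a := fun h1 =>
  h (h1.trans ((vv_dvd a).trans (Dvd.intro _ rfl)))

lemma card_Om {a s : ℕ} (ha : 1 ≤ a) (hs : s.Prime) (h2 : s ≠ 2) (h : ¬ s ∣ a * (a + 2)) :
    (Om a s).card = 2 := by
  have : Fact s.Prime := ⟨hs⟩
  unfold Om
  rw [Finset.card_pair]
  intro h1
  have hu : ((uu a : ℕ) : ZMod s) ≠ 0 := by
    rw [Ne, ZMod.natCast_eq_zero_iff]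
    exact not_dvd_uu ha h
  have h3 : ((uu a : ℕ) : ZMod s) = ((vv a : ℕ) : ZMod s) := inv_injective (neg_injective h1)
  have h4 : ((uu a * a : ℕ) : ZMod s) = ((vv a * (a + 2) : ℕ) : ZMod s) := by
    rw [uu_mul, vv_mul]
  push_cast at h4
  rw [← h3] at h4
  have h5 : ((uu a : ℕ) : ZMod s) * 2 = 0 := by linear_combination -h4
  rcases mul_eq_zero.1 h5 with h6 | h6
  · exact hu h6
  · have h7 : ((2 : ℕ) : ZMod s) = 0 := by exact_mod_cast h6
    rw [ZMod.natCast_eq_zero_iff] at h7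
    exact h2 ((Nat.prime_dvd_prime_iff_eq hs Nat.prime_two).1 h7)

lemma notMem_Om {a s h : ℕ} {T : ℝ} (ha : 1 ≤ a) (hs : s.Prime) (hsT : (s : ℝ) ≤ T)
    (hd : ¬ s ∣ a * (a + 2)) (hT : T < h) (hu : (1 + uu a * h).Prime)
    (hv : (1 + vv a * h).Prime) : (h : ZMod s) ∉ Om a s := by
  have : Fact s.Prime := ⟨hs⟩
  have hsh : s < h := by
    have : (s : ℝ) < h := lt_of_le_of_lt hsT hT
    exact_mod_cast this
  have key : ∀ c : ℕ, ¬ s ∣ c → (1 + c * h).Prime → (h : ZMod s) ≠ -((c : ℕ) : ZMod s)⁻¹ := by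
    intro c hc hp h1
    have hc0 : ((c : ℕ) : ZMod s) ≠ 0 := by
      rw [Ne, ZMod.natCast_eq_zero_iff]
      exact hc
    have h2 : ((1 + c * h : ℕ) : ZMod s) = 0 := by
      push_cast
      rw [h1, mul_neg, mul_inv_cancel₀ hc0]
      ring
    rw [ZMod.natCast_eq_zero_iff] at h2
    have h3 := (Nat.prime_dvd_prime_iff_eq hs hp).1 h2
    have h4 : 1 ≤ c := Nat.pos_of_ne_zero fun h0 => hc (by rw [h0]; exact Nat.dvd_zero s)
    have h5 : h ≤ c * h := Nat.le_mul_of_pos_left h h4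
    omega
  unfold Om
  rw [Finset.mem_insert, Finset.mem_singleton]
  push Not
  exact ⟨key _ (not_dvd_uu ha hd) hu, key _ (not_dvd_vv hd) hv⟩

/-- the bound for one `a` -/
lemma card_HH_le (h2 : M2) {x : ℝ} (hT2 : 2 ≤ TT x)
    (hx : ∀ (P : Finset ℕ) (Om : (q : ℕ) → Finset (ZMod q)) (N : ℕ),
      (∀ q ∈ P, q.Prime ∧ (q : ℝ) ≤ TT x) → (∀ q ∈ P, (Om q).card ≤ 2) → (N : ℝ) ≤ x →
      ({k : ℕ | 1 ≤ k ∧ k ≤ N ∧ ∀ q ∈ P, (k : ZMod q) ∉ Om q}.ncard : ℝ) ≤
        N * ∏ q ∈ P, (1 - ((Om q).card : ℝ) / q) + N / Real.log x ^ 5 + x ^ (1 / 4 : ℝ))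
    {a N : ℕ} (ha : 1 ≤ a) (hN : (N : ℝ) ≤ x) :
    ((HH a N).card : ℝ) ≤ TT x + x ^ (1 / 4 : ℝ) +
      N * ((((a * (a + 2)).primeFactors.card : ℝ) + 2) ^ 2 / Real.log (TT x) ^ 2 +
        1 / Real.log x ^ 5) := by
  have hT0 : 0 ≤ TT x := by linarith
  have hm : a * (a + 2) ≠ 0 := by positivity
  set P := Pa (TT x) (a * (a + 2)) with hP
  have hPm : ∀ s ∈ P, s.Prime ∧ (s : ℝ) ≤ TT x ∧ s ≠ 2 ∧ ¬ s ∣ a * (a + 2) := by
    intro s hs
    rw [hP] at hs
    unfold Pa at hs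
    rw [Finset.mem_filter, mem_PZ hT0] at hs
    exact ⟨hs.1.1, hs.1.2, hs.2.1, hs.2.2⟩
  have h3 := hx P (Om a) N (fun q hq => ⟨(hPm q hq).1, (hPm q hq).2.1⟩)
    (fun q _ => card_Om_le a q) hN
  have h4 : ∏ q ∈ P, (1 - ((Om a q).card : ℝ) / q) = ∏ q ∈ P, (1 - 2 / (q : ℝ)) := by
    apply Finset.prod_congr rfl
    intro q hq
    obtain ⟨e1, -, e3, e4⟩ := hPm q hq
    rw [card_Om ha e1 e3 e4]
    norm_num
  rw [h4] at h3
  have h5 := prod_Pa h2 hT2 hm
  set Sv : Set ℕ := {k : ℕ | 1 ≤ k ∧ k ≤ N ∧ ∀ q ∈ P, (k : ZMod q) ∉ Om a q} with hSv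
  have hfin : Sv.Finite := (Set.finite_Icc 1 N).subset fun k hk => ⟨hk.1, hk.2.1⟩
  have h6 : ((HH a N : Finset ℕ) : Set ℕ) ⊆ ((Finset.Icc 1 ⌊TT x⌋₊ : Finset ℕ) : Set ℕ) ∪ Sv := by
    intro h hh
    rw [Finset.mem_coe] at hh
    unfold HH at hh
    rw [Finset.mem_filter, Finset.mem_Icc] at hh
    obtain ⟨⟨e1, e2⟩, e3, e4⟩ := hh
    by_cases hle : (h : ℝ) ≤ TT x
    · left
      rw [Finset.mem_coe, Finset.mem_Icc]
      exact ⟨e1, Nat.le_floor hle⟩
    · right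
      refine ⟨e1, e2, fun q hq => ?_⟩
      obtain ⟨f1, f2, -, f4⟩ := hPm q hq
      exact notMem_Om ha f1 f2 f4 (not_le.1 hle) e3 e4
  have h7 : ((HH a N).card : ℝ) ≤ TT x + Sv.ncard := by
    have e1 := Set.ncard_le_ncard h6 ((Finset.finite_toSet _).union hfin)
    rw [Set.ncard_coe_finset] at e1
    have e2 := Set.ncard_union_le ((Finset.Icc 1 ⌊TT x⌋₊ : Finset ℕ) : Set ℕ) Sv
    rw [Set.ncard_coe_finset, Nat.card_Icc, Nat.add_sub_cancel] at e2
    have e3 : ((HH a N).card : ℝ) ≤ (⌊TT x⌋₊ : ℝ) + Sv.ncard := by exact_mod_cast e1.trans e2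
    have e4 := Nat.floor_le hT0
    linarith
  have h8 : (N : ℝ) * ∏ q ∈ P, (1 - 2 / (q : ℝ)) ≤
      N * ((((a * (a + 2)).primeFactors.card : ℝ) + 2) ^ 2 / Real.log (TT x) ^ 2) :=
    mul_le_mul_of_nonneg_left h5 (Nat.cast_nonneg _)
  calc ((HH a N).card : ℝ) ≤ TT x + Sv.ncard := h7
    _ ≤ TT x + (N * ∏ q ∈ P, (1 - 2 / (q : ℝ)) + N / Real.log x ^ 5 + x ^ (1 / 4 : ℝ)) := by
        gcongr
    _ ≤ TT x + (N * ((((a * (a + 2)).primeFactors.card : ℝ) + 2) ^ 2 / Real.log (TT x) ^ 2) +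
        N / Real.log x ^ 5 + x ^ (1 / 4 : ℝ)) := by linarith
    _ = _ := by ring

/-! ### Sums over `a` -/

lemma div_lam_le {a x : ℕ} (ha : 1 ≤ a) :
    ((x / lam a : ℕ) : ℝ) ≤ 2 * x * (1 / (a : ℝ) - 1 / ((a : ℝ) + 1)) := by
  have h0 : (0 : ℝ) < a := by exact_mod_cast ha
  have h1 : (0 : ℝ) < lam a := by exact_mod_cast lam_pos ha
  have h2 : (a : ℝ) * (a + 2) ≤ 2 * lam a := by exact_mod_cast le_two_lam a
  calc ((x / lam a : ℕ) : ℝ) ≤ (x : ℝ) / lam a := Nat.cast_div_le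
    _ ≤ 2 * x * (1 / ((a : ℝ) * (a + 1))) := by
        rw [div_le_iff₀ h1]
        have h3 : (0 : ℝ) < (a : ℝ) * (a + 1) := by positivity
        have h4 : (a : ℝ) * (a + 1) ≤ 2 * lam a := by nlinarith
        have h5 : 2 * (x : ℝ) * (1 / ((a : ℝ) * (a + 1))) * lam a =
            x * ((2 * lam a) / ((a : ℝ) * (a + 1))) := by
          field_simp
        rw [h5]
        have h6 : 1 ≤ (2 * (lam a : ℝ)) / ((a : ℝ) * (a + 1)) := by
          rw [one_le_div h3]
          exact h4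
        have h7 : (0 : ℝ) ≤ x := Nat.cast_nonneg _
        nlinarith
    _ = _ := by
        have h8 : (a : ℝ) + 1 ≠ 0 := by positivity
        congr 1
        field_simp
        ring

lemma sum_tele (m : ℕ) : ∀ n : ℕ, m ≤ n →
    ∑ a ∈ Finset.Ioc m n, (1 / (a : ℝ) - 1 / ((a : ℝ) + 1)) =
      1 / ((m : ℝ) + 1) - 1 / ((n : ℝ) + 1) := by
  intro n hn
  induction n, hn using Nat.le_induction with
  | base => simp
  | succ n hn ih =>
    rw [Finset.sum_Ioc_succ_top hn, ih]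
    push_cast
    ring

lemma sum_div_lam (x m n : ℕ) :
    ∑ a ∈ Finset.Ioc m n, ((x / lam a : ℕ) : ℝ) ≤ 2 * x * (1 / ((m : ℝ) + 1)) := by
  rcases le_or_gt m n with h | h
  · calc ∑ a ∈ Finset.Ioc m n, ((x / lam a : ℕ) : ℝ)
        ≤ ∑ a ∈ Finset.Ioc m n, 2 * x * (1 / (a : ℝ) - 1 / ((a : ℝ) + 1)) :=
          Finset.sum_le_sum fun a ha => div_lam_le (by
            rw [Finset.mem_Ioc] at ha
            omega)
      _ = 2 * x * (1 / ((m : ℝ) + 1) - 1 / ((n : ℝ) + 1)) := by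
          rw [← Finset.mul_sum, sum_tele m n h]
      _ ≤ 2 * x * (1 / ((m : ℝ) + 1)) := by
          have : (0 : ℝ) ≤ 1 / ((n : ℝ) + 1) := by positivity
          have h3 : (0 : ℝ) ≤ 2 * x := by positivity
          nlinarith
  · rw [Finset.Ioc_eq_empty (by omega), Finset.sum_empty]
    positivity

lemma card_HH_triv (a N : ℕ) : (HH a N).card ≤ N := by
  unfold HH
  refine (Finset.card_filter_le _ _).trans ?_
  rw [Nat.card_Icc]
  omega

/-! ### Estimates -/

lemma card_pf_le {L : ℝ} (hL : 3 ≤ L) (hlog : 1 ≤ Real.log L) {a : ℕ} (ha : 1 ≤ a)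
    (haL : (a : ℝ) ≤ L ^ 2) :
    ((((a * (a + 2)).primeFactors.card : ℕ) : ℝ) + 2) ≤ 10 * Real.log L := by
  have hL0 : 0 < L := by linarith
  have h1 := two_pow_card (a * (a + 2)) (by positivity)
  have h2 : (2 : ℝ) ^ (a * (a + 2)).primeFactors.card ≤ (a : ℝ) * (a + 2) := by exact_mod_cast h1
  have ha1 : (1 : ℝ) ≤ a := by exact_mod_cast ha
  have h3 : (a : ℝ) * (a + 2) ≤ L ^ 5 := by
    calc (a : ℝ) * (a + 2) ≤ 3 * (a : ℝ) ^ 2 := by nlinarith
      _ ≤ 3 * (L ^ 2) ^ 2 := by gcongr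
      _ ≤ L * (L ^ 2) ^ 2 := by gcongr
      _ = L ^ 5 := by ring
  have h4 := Real.log_le_log (by positivity) (h2.trans h3)
  rw [Real.log_pow, Real.log_pow] at h4
  have h5 : (0.69 : ℝ) < Real.log 2 := by have := Real.log_two_gt_d9; linarith
  set k : ℝ := ((a * (a + 2)).primeFactors.card : ℝ) with hk
  have hk0 : 0 ≤ k := Nat.cast_nonneg _
  have h6 : k * 0.69 ≤ 5 * Real.log L := by
    have e1 : k * 0.69 ≤ k * Real.log 2 := by gcongr
    have e2 : k * Real.log 2 ≤ 5 * Real.log L := by exact_mod_cast h4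
    linarith
  linarith

lemma logpow_le {L : ℝ} (hL : 1 ≤ L) : Real.log L ^ 4 ≤ 8 ^ 4 * Real.sqrt L := by
  have hL0 : 0 ≤ L := by linarith
  have h1 : Real.log L ≤ 8 * L ^ (1 / 8 : ℝ) := by
    have := Real.log_le_rpow_div hL0 (ε := 1 / 8) (by norm_num)
    calc Real.log L ≤ L ^ (1 / 8 : ℝ) / (1 / 8) := this
      _ = 8 * L ^ (1 / 8 : ℝ) := by ring
  have h2 : 0 ≤ Real.log L := Real.log_nonneg hL
  calc Real.log L ^ 4 ≤ (8 * L ^ (1 / 8 : ℝ)) ^ 4 := by gcongr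
    _ = 8 ^ 4 * (L ^ (1 / 8 : ℝ)) ^ 4 := by ring
    _ = 8 ^ 4 * Real.sqrt L := by
        rw [Real.sqrt_eq_rpow, ← Real.rpow_natCast (L ^ (1 / 8 : ℝ)) 4, ← Real.rpow_mul hL0]
        norm_num

lemma exp_half {L : ℝ} (hL : 7680 ≤ L) : 2 * L ^ 4 ≤ Real.exp (L / 2) := by
  have h1 := Real.pow_div_factorial_le_exp (L / 2) (by linarith) 5
  have h2 : (L / 2) ^ 5 / (Nat.factorial 5 : ℝ) = L ^ 4 * (L / 3840) := by
    have : (Nat.factorial 5 : ℝ) = 120 := by norm_num [Nat.factorial]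
    rw [this]; ring
  rw [h2] at h1
  have h3 : (2 : ℝ) ≤ L / 3840 := by linarith
  have h4 : (0 : ℝ) ≤ L ^ 4 := by positivity
  nlinarith

end Pool.Agent.H27.AP.TWx

namespace Pool.Agent.H27.AP

open TWx

/-- The exceptional set is small. -/
theorem tw (h : BRz) (_h1 : M1) (h2 : M2) : TW := by
  obtain ⟨x₀, hx₀⟩ := h
  set X₁ : ℝ := max x₀ (Real.exp (10 ^ 16)) with hX₁
  set C₂ : ℝ := Real.log X₁ ^ (3 / 2 : ℝ) with hC₂
  have hX₁e : Real.exp (10 ^ 16) ≤ X₁ := le_max_right _ _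
  have hX₁p : 0 < X₁ := lt_of_lt_of_le (Real.exp_pos _) hX₁e
  have hlX : (10 : ℝ) ^ 16 ≤ Real.log X₁ := (Real.le_log_iff_exp_le hX₁p).2 hX₁e
  have hC₂0 : 0 ≤ C₂ := Real.rpow_nonneg (le_trans (by norm_num) hlX) _
  set C₁ : ℝ := 3 + 2 * (100 * KK ^ 4 * 8 ^ 4 + 1) with hC₁
  have hC₁0 : 0 < C₁ := by rw [hC₁]; positivity
  refine ⟨C₁ + C₂, by linarith, ?_⟩
  intro x hx3
  have hxR : (3 : ℝ) ≤ x := by exact_mod_cast hx3
  have hx0 : (0 : ℝ) < x := by linarith
  have hlog3 : 1 < Real.log x := by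
    rw [Real.lt_log_iff_exp_lt hx0]
    have := Real.exp_one_lt_d9
    linarith
  set L : ℝ := Real.log x with hL
  have hL0 : 0 < L := by linarith
  have hLp : 0 < L ^ (3 / 2 : ℝ) := Real.rpow_pos_of_pos hL0 _
  by_cases hX : X₁ ≤ x
  · -- the main case
    have hLbig : (10 : ℝ) ^ 16 ≤ L := hlX.trans (Real.log_le_log hX₁p hX)
    have hexpL : Real.exp L = x := Real.exp_log hx0
    have hxx₀ : x₀ ≤ (x : ℝ) := (le_max_left _ _).trans hX
    set S : ℝ := Real.sqrt L with hS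
    have hSS : S * S = L := Real.mul_self_sqrt hL0.le
    have hSbig : (10 : ℝ) ^ 8 ≤ S := by
      rw [hS]
      apply Real.le_sqrt_of_sq_le
      norm_num at hLbig ⊢
      exact hLbig
    have hS0 : 0 < S := lt_of_lt_of_le (by norm_num) hSbig
    have hSL : S ≤ L := by
      rw [← hSS]
      have : (1 : ℝ) ≤ S := le_trans (by norm_num) hSbig
      nlinarith
    have hL32 : L ^ (3 / 2 : ℝ) = L * S := by
      have : (3 / 2 : ℝ) = 1 + 1 / 2 := by norm_num
      rw [this, Real.rpow_add hL0, Real.rpow_one, hS, Real.sqrt_eq_rpow]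
    have hlogL1 : 1 ≤ Real.log L := by
      rw [Real.le_log_iff_exp_le hL0]
      have h3 := Real.exp_one_lt_d9
      have h4 : (3 : ℝ) ≤ L := le_trans (by norm_num) hLbig
      linarith
    have hlogL2 : Real.log L ≤ 2 * S := by
      have e1 : Real.log L = 2 * Real.log S := by
        rw [← hSS, Real.log_mul hS0.ne' hS0.ne']; ring
      have e2 := Real.log_le_sub_one_of_pos hS0
      linarith
    have hlogL0 : 0 < Real.log L := by linarith
    have hKK : KK = 3000 := rfl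
    have hden : 0 < KK ^ 2 * Real.log L := by
      have : (0 : ℝ) < KK := by rw [hKK]; norm_num
      positivity
    have hTT : TT x = Real.exp (L / (KK ^ 2 * Real.log L)) := rfl
    have hlogTT : Real.log (TT x) = L / (KK ^ 2 * Real.log L) := by rw [hTT, Real.log_exp]
    have hq1 : 1 ≤ L / (KK ^ 2 * Real.log L) := by
      rw [one_le_div hden, hKK]
      calc (3000 : ℝ) ^ 2 * Real.log L ≤ 3000 ^ 2 * (2 * S) := by gcongr
        _ ≤ S * S := by nlinarith
        _ = L := hSS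
    have hT2 : 2 ≤ TT x := by
      rw [hTT]
      have := Real.add_one_le_exp (L / (KK ^ 2 * Real.log L))
      linarith
    have hThalf : TT x ≤ Real.exp (L / 2) := by
      rw [hTT]
      apply Real.exp_le_exp.2
      apply div_le_div_of_nonneg_left hL0.le (by norm_num)
      rw [hKK]
      nlinarith
    have hx14 : (x : ℝ) ^ (1 / 4 : ℝ) ≤ Real.exp (L / 2) := by
      rw [Real.rpow_def_of_pos hx0]
      apply Real.exp_le_exp.2
      linarith
    -- the bracket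
    set Bk : ℝ := 100 * KK ^ 4 * 8 ^ 4 / (L * S) + 1 / (L * S) with hBk
    have hLS : 0 < L * S := by positivity
    have hBk0 : 0 ≤ Bk := by rw [hBk]; positivity
    have hbr : ∀ a : ℕ, 1 ≤ a → (a : ℝ) ≤ L ^ 2 →
        ((((a * (a + 2)).primeFactors.card : ℕ) : ℝ) + 2) ^ 2 / Real.log (TT x) ^ 2 +
          1 / L ^ 5 ≤ Bk := by
      intro a ha haL
      have e1 := card_pf_le (L := L) (le_trans (by norm_num) hLbig) hlogL1 ha haL
      have e2 : ((((a * (a + 2)).primeFactors.card : ℕ) : ℝ) + 2) ^ 2 ≤ (10 * Real.log L) ^ 2 := by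
        gcongr
      have e3 : ((((a * (a + 2)).primeFactors.card : ℕ) : ℝ) + 2) ^ 2 / Real.log (TT x) ^ 2 ≤
          100 * KK ^ 4 * 8 ^ 4 / (L * S) := by
        calc ((((a * (a + 2)).primeFactors.card : ℕ) : ℝ) + 2) ^ 2 / Real.log (TT x) ^ 2
            ≤ (10 * Real.log L) ^ 2 / Real.log (TT x) ^ 2 := by gcongr
          _ = 100 * KK ^ 4 * Real.log L ^ 4 / L ^ 2 := by
              rw [hlogTT]
              field_simp
              ring
          _ ≤ 100 * KK ^ 4 * (8 ^ 4 * S) / L ^ 2 := by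
              have e4 := logpow_le (L := L) (by linarith)
              gcongr
          _ = 100 * KK ^ 4 * 8 ^ 4 / (L * S) := by
              rw [div_eq_div_iff (by positivity) hLS.ne']
              rw [← hSS]
              ring
      have e5 : 1 / L ^ 5 ≤ 1 / (L * S) := by
        apply one_div_le_one_div_of_le hLS
        calc L * S ≤ L * L := by gcongr
          _ = L ^ 2 := by ring
          _ ≤ L ^ 5 := pow_le_pow_right₀ (by linarith) (by norm_num)
      rw [hBk]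
      linarith
    -- the sum
    set M : ℕ := ⌊L ^ 2⌋₊ with hM
    have hML : (M : ℝ) ≤ L ^ 2 := Nat.floor_le (by positivity)
    have hML' : L ^ 2 < (M : ℝ) + 1 := Nat.lt_floor_add_one _
    have hsub : Finset.Icc 1 x ⊆ Finset.Ioc 0 M ∪ Finset.Ioc M x := by
      intro a ha
      rw [Finset.mem_Icc] at ha
      rw [Finset.mem_union, Finset.mem_Ioc, Finset.mem_Ioc]
      omega
    have hsplit : ∑ a ∈ Finset.Icc 1 x, ((HH a (x / lam a)).card : ℝ) ≤
        ∑ a ∈ Finset.Ioc 0 M, ((HH a (x / lam a)).card : ℝ) +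
          ∑ a ∈ Finset.Ioc M x, ((HH a (x / lam a)).card : ℝ) := by
      refine (Finset.sum_le_sum_of_subset_of_nonneg hsub fun _ _ _ => Nat.cast_nonneg _).trans ?_
      rw [Finset.sum_union]
      rw [Finset.disjoint_left]
      intro a h3 h4
      rw [Finset.mem_Ioc] at h3 h4
      omega
    have hsmall : ∑ a ∈ Finset.Ioc 0 M, ((HH a (x / lam a)).card : ℝ) ≤
        L ^ 2 * (2 * Real.exp (L / 2)) + 2 * x * Bk := by
      calc ∑ a ∈ Finset.Ioc 0 M, ((HH a (x / lam a)).card : ℝ)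
          ≤ ∑ a ∈ Finset.Ioc 0 M, (2 * Real.exp (L / 2) + ((x / lam a : ℕ) : ℝ) * Bk) := by
            apply Finset.sum_le_sum
            intro a ha
            rw [Finset.mem_Ioc] at ha
            have haM : (a : ℝ) ≤ L ^ 2 := by
              have : (a : ℝ) ≤ M := by exact_mod_cast ha.2
              linarith
            have e1 := card_HH_le h2 hT2 (hx₀ x hxx₀) (a := a) (N := x / lam a) ha.1
              (by exact_mod_cast Nat.div_le_self _ _)
            have e2 := hbr a ha.1 haM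
            have e3 : ((x / lam a : ℕ) : ℝ) *
              (((((a * (a + 2)).primeFactors.card : ℕ) : ℝ) + 2) ^ 2 / Real.log (TT x) ^ 2 +
                1 / L ^ 5) ≤ ((x / lam a : ℕ) : ℝ) * Bk :=
              mul_le_mul_of_nonneg_left e2 (Nat.cast_nonneg _)
            linarith
        _ = (M : ℝ) * (2 * Real.exp (L / 2)) +
            (∑ a ∈ Finset.Ioc 0 M, ((x / lam a : ℕ) : ℝ)) * Bk := by
            rw [Finset.sum_add_distrib, Finset.sum_const, Nat.card_Ioc, Nat.sub_zero,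
              nsmul_eq_mul, Finset.sum_mul]
        _ ≤ L ^ 2 * (2 * Real.exp (L / 2)) + 2 * x * Bk := by
            have e1 := sum_div_lam x 0 M
            have e2 : (∑ a ∈ Finset.Ioc 0 M, ((x / lam a : ℕ) : ℝ)) ≤ 2 * x := by
              refine e1.trans ?_
              simp
            have e3 : 0 < Real.exp (L / 2) := Real.exp_pos _
            gcongr
    have hlarge : ∑ a ∈ Finset.Ioc M x, ((HH a (x / lam a)).card : ℝ) ≤ 2 * x / (L * S) := by
      calc ∑ a ∈ Finset.Ioc M x, ((HH a (x / lam a)).card : ℝ)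
          ≤ ∑ a ∈ Finset.Ioc M x, ((x / lam a : ℕ) : ℝ) := by
            apply Finset.sum_le_sum
            intro a _
            exact_mod_cast card_HH_triv a _
        _ ≤ 2 * x * (1 / ((M : ℝ) + 1)) := sum_div_lam x M x
        _ ≤ 2 * x * (1 / (L * S)) := by
            have e1 : L * S ≤ (M : ℝ) + 1 := by
              calc L * S ≤ L * L := by gcongr
                _ = L ^ 2 := by ring
                _ ≤ _ := hML'.le
            gcongr
        _ = _ := by ring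
    have hexp : L ^ 2 * (2 * Real.exp (L / 2)) ≤ x / (L * S) := by
      rw [le_div_iff₀ hLS]
      have e1 := exp_half (L := L) (le_trans (by norm_num) hLbig)
      have e2 : 0 < Real.exp (L / 2) := Real.exp_pos _
      have e3 : Real.exp (L / 2) * Real.exp (L / 2) = x := by
        rw [← Real.exp_add, add_halves, hexpL]
      calc L ^ 2 * (2 * Real.exp (L / 2)) * (L * S) = (2 * (L ^ 3 * S)) * Real.exp (L / 2) := by ring
        _ ≤ (2 * (L ^ 3 * L)) * Real.exp (L / 2) := by gcongr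
        _ = (2 * L ^ 4) * Real.exp (L / 2) := by ring
        _ ≤ Real.exp (L / 2) * Real.exp (L / 2) := by gcongr
        _ = x := e3
    have htot : ((TWs x).ncard : ℝ) ≤ C₁ * (x / (L * S)) := by
      calc ((TWs x).ncard : ℝ) ≤ _ := ncard_TWs_le x
        _ ≤ _ := hsplit
        _ ≤ (x / (L * S) + 2 * x * Bk) + 2 * x / (L * S) := by linarith
        _ = C₁ * (x / (L * S)) := by
            rw [hBk, hC₁]
            field_simp
            ring
    rw [hL32]
    refine htot.trans ?_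
    have : 0 ≤ (x : ℝ) / (L * S) := by positivity
    nlinarith
  · -- small x
    push Not at hX
    have h3 : ((TWs x).ncard : ℝ) ≤ x := by
      have e1 : TWs x ⊆ ((Finset.Icc 1 x : Finset ℕ) : Set ℕ) := by
        intro n hn
        rw [Finset.mem_coe, Finset.mem_Icc]
        exact ⟨by have := hn.1; omega, hn.2.1⟩
      have e2 := Set.ncard_le_ncard e1 (Finset.finite_toSet _)
      rw [Set.ncard_coe_finset, Nat.card_Icc, Nat.add_sub_cancel] at e2
      exact_mod_cast e2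
    have h4 : L ^ (3 / 2 : ℝ) ≤ C₂ :=
      Real.rpow_le_rpow hL0.le (Real.log_le_log hx0 hX.le) (by norm_num)
    have h5 : (x : ℝ) ≤ C₂ * (x / L ^ (3 / 2 : ℝ)) := by
      rw [mul_div_assoc', le_div_iff₀ hLp]
      nlinarith
    have h6 : 0 ≤ C₁ * (x / L ^ (3 / 2 : ℝ)) := by positivity
    calc ((TWs x).ncard : ℝ) ≤ x := h3
      _ ≤ C₂ * (x / L ^ (3 / 2 : ℝ)) := h5
      _ ≤ (C₁ + C₂) * (x / L ^ (3 / 2 : ℝ)) := by linarith

end Pool.Agent.H27.AP
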