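import Pool.Agent.H27.AP.Defs

/-!
# Integers with a large smooth part
-/

set_option autoImplicit false

namespace Pool.Agent.H27.AP

open ArithmeticFunction

/-- The completely multiplicative function `(3/2) ^ Ω(m) / m`. -/
noncomputable def fOm : ℕ →* ℝ where
  toFun m := (3 / 2 : ℝ) ^ (cardFactors m) / m
  map_one' := by simp
  map_mul' := by
    intro a b
    rcases eq_or_ne a 0 with rfl | ha
    · simp
    rcases eq_or_ne b 0 with rfl | hb
    · simp
    rw [cardFactors_mul ha hb, pow_add, Nat.cast_mul, mul_div_mul_comm]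

lemma fOm_apply (m : ℕ) : fOm m = (3 / 2 : ℝ) ^ (cardFactors m) / m := rfl

lemma fOm_nonneg (m : ℕ) : 0 ≤ fOm m := by
  rw [fOm_apply]
  positivity

lemma fOm_prime {p : ℕ} (hp : p.Prime) : fOm p = 3 / (2 * p) := by
  rw [fOm_apply, cardFactors_apply_prime hp, pow_one]
  have : (p : ℝ) ≠ 0 := by exact_mod_cast hp.ne_zero
  field_simp

lemma fOm_sum (x : ℕ) :
    ∑ m ∈ Finset.Icc 1 x, fOm m ≤ ∏ p ∈ (x + 1).primesBelow, (1 - fOm p)⁻¹ := by
  classical
  have hlt : ∀ {p : ℕ}, p.Prime → ‖fOm p‖ < 1 := by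
    intro p hp
    rw [Real.norm_of_nonneg (fOm_nonneg p), fOm_prime hp]
    have h2 : (2 : ℝ) ≤ p := by exact_mod_cast hp.two_le
    rw [div_lt_one (by positivity)]
    linarith
  obtain ⟨-, h2⟩ := EulerProduct.summable_and_hasSum_smoothNumbers_prod_primesBelow_geometric
    hlt (x + 1)
  let g : Finset.Icc 1 x → (x + 1).smoothNumbers := fun m =>
    ⟨(m : ℕ), Nat.mem_smoothNumbers_of_lt (by
      have := Finset.mem_Icc.1 m.2
      omega) (by
      have := Finset.mem_Icc.1 m.2
      omega)⟩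
  have hg : Function.Injective g := by
    intro a b hab
    apply Subtype.ext
    exact congrArg (fun z : (x + 1).smoothNumbers => (z : ℕ)) hab
  have h3 : ∑ m ∈ Finset.Icc 1 x, fOm m =
      ∑ z ∈ (Finset.univ : Finset (Finset.Icc 1 x)).map ⟨g, hg⟩, fOm (z : ℕ) := by
    rw [Finset.sum_map, ← Finset.sum_coe_sort (Finset.Icc 1 x)]
    rfl
  rw [h3]
  exact sum_le_hasSum _ (fun z _ => fOm_nonneg _) h2

lemma smp_le (y m : ℕ) (hy : 1 ≤ y) : smp y m ≤ y ^ (cardFactors m) := by
  unfold smp
  calc ∏ p ∈ m.primeFactors.filter (fun p => p ≤ y), p ^ (m.factorization p)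
      ≤ ∏ p ∈ m.primeFactors.filter (fun p => p ≤ y), y ^ (m.factorization p) := by
        apply Finset.prod_le_prod'
        intro p hp
        rw [Finset.mem_filter] at hp
        exact Nat.pow_le_pow_left hp.2 _
    _ = y ^ (∑ p ∈ m.primeFactors.filter (fun p => p ≤ y), m.factorization p) :=
        Finset.prod_pow_eq_pow_sum _ _ _
    _ ≤ y ^ (cardFactors m) := by
        apply Nat.pow_le_pow_right hy
        rw [cardFactors_eq_sum_factorization, Finsupp.sum, Nat.support_factorization]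
        exact Finset.sum_le_sum_of_subset (Finset.filter_subset _ _)

lemma prod_bound (h : M1) (x : ℕ) (hx : 2 ≤ x) :
    ∏ p ∈ (x + 1).primesBelow, (1 - fOm p)⁻¹ ≤ (1 + Real.log x) ^ 18 := by
  have hPZ : (x + 1).primesBelow = PZ (x : ℝ) := by
    unfold Nat.primesBelow PZ
    rw [Nat.floor_natCast]
    ext p
    simp only [Finset.mem_filter, Finset.mem_range, Finset.mem_Icc]
    constructor
    · rintro ⟨h1, h2⟩
      exact ⟨⟨h2.one_lt.le, by omega⟩, h2⟩
    · rintro ⟨⟨h1, h2⟩, h3⟩
      exact ⟨by omega, h3⟩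
  have hlog : 0 ≤ Real.log x := Real.log_natCast_nonneg x
  have hx2 : (2 : ℝ) ≤ (x : ℝ) := by exact_mod_cast hx
  rw [hPZ]
  calc ∏ p ∈ PZ (x : ℝ), (1 - fOm p)⁻¹ ≤ ∏ p ∈ PZ (x : ℝ), Real.exp (6 * (1 / (p : ℝ))) := by
        apply Finset.prod_le_prod
        · intro p hp
          have hp' : p.Prime := (Finset.mem_filter.1 hp).2
          rw [fOm_prime hp']
          have h2 : (2 : ℝ) ≤ p := by exact_mod_cast hp'.two_le
          have : (3 : ℝ) / (2 * p) ≤ 1 := by
            rw [div_le_one (by positivity)]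
            linarith
          apply inv_nonneg.2
          linarith
        · intro p hp
          have hp' : p.Prime := (Finset.mem_filter.1 hp).2
          rw [fOm_prime hp']
          have h2 : (2 : ℝ) ≤ p := by exact_mod_cast hp'.two_le
          have h3 : (3 : ℝ) / (2 * p) ≤ 3 / 4 := by
            rw [div_le_div_iff₀ (by positivity) (by norm_num)]
            linarith
          set t : ℝ := 3 / (2 * p) with ht
          have ht0 : 0 ≤ t := by positivity
          have h4 : 6 * (1 / (p : ℝ)) = 4 * t := by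
            rw [ht]
            have : (p : ℝ) ≠ 0 := by positivity
            field_simp
            norm_num
          rw [h4]
          have h5 : (1 - t)⁻¹ ≤ 1 + 4 * t := by
            rw [inv_le_iff_one_le_mul₀ (by linarith)]
            nlinarith
          exact h5.trans (by linarith [Real.add_one_le_exp (4 * t)])
    _ = Real.exp (6 * ∑ p ∈ PZ (x : ℝ), 1 / (p : ℝ)) := by
        rw [← Real.exp_sum, Finset.mul_sum]
    _ ≤ Real.exp (18 * Real.log (1 + Real.log x)) := by
        apply Real.exp_le_exp.2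
        have := h (x : ℝ) hx2
        linarith
    _ = (1 + Real.log x) ^ 18 := by
        rw [mul_comm, Real.exp_mul, Real.exp_log (by linarith)]
        exact_mod_cast Real.rpow_natCast (1 + Real.log x) 18

theorem x1 (h : M1) : X1 := by
  classical
  intro x y X₀ hx hy hX
  set w : ℝ := Real.log X₀ / Real.log y with hw
  have hy1 : (1 : ℝ) < (y : ℝ) := by exact_mod_cast (by omega : 1 < y)
  have hlogy : 0 < Real.log y := Real.log_pos hy1
  have hlog : 0 ≤ Real.log x := Real.log_natCast_nonneg x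
  have hX0 : 0 < X₀ := by linarith
  let F : Finset ℕ := (Finset.Icc 1 x).filter (fun m => X₀ < smp y m)
  have hEF : {m : ℕ | 1 ≤ m ∧ m ≤ x ∧ X₀ < smp y m} = (F : Set ℕ) := by
    ext m
    simp only [Set.mem_setOf_eq, Finset.coe_filter, Finset.mem_Icc, F]
    tauto
  rw [hEF, Set.ncard_coe_finset]
  have hone : ∀ m ∈ F, (1 : ℝ) ≤ (2 / 3 : ℝ) ^ w * (x * fOm m) := by
    intro m hm
    rw [Finset.mem_filter, Finset.mem_Icc] at hm
    obtain ⟨⟨h1, h2⟩, h3⟩ := hm
    have h4 : X₀ < (y : ℝ) ^ (cardFactors m) := by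
      refine h3.trans_le ?_
      exact_mod_cast smp_le y m (by omega)
    have h5 : w ≤ (cardFactors m : ℝ) := by
      rw [hw, div_le_iff₀ hlogy, ← Real.log_pow]
      exact Real.log_le_log hX0 h4.le
    have h6 : (3 / 2 : ℝ) ^ w ≤ (3 / 2 : ℝ) ^ (cardFactors m) := by
      rw [← Real.rpow_natCast]
      exact Real.rpow_le_rpow_of_exponent_le (by norm_num) h5
    have h7 : (2 / 3 : ℝ) ^ w * (3 / 2 : ℝ) ^ w = 1 := by
      rw [← Real.mul_rpow (by norm_num) (by norm_num)]
      norm_num
    have hm0 : (0 : ℝ) < m := by exact_mod_cast h1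
    have h8 : (3 / 2 : ℝ) ^ (cardFactors m) ≤ x * fOm m := by
      rw [fOm_apply, ← mul_div_assoc, le_div_iff₀ hm0, mul_comm]
      apply mul_le_mul_of_nonneg_right _ (by positivity)
      exact_mod_cast h2
    calc (1 : ℝ) = (2 / 3 : ℝ) ^ w * (3 / 2 : ℝ) ^ w := h7.symm
      _ ≤ (2 / 3 : ℝ) ^ w * (x * fOm m) :=
          mul_le_mul_of_nonneg_left (h6.trans h8) (by positivity)
  calc (F.card : ℝ) = ∑ _m ∈ F, (1 : ℝ) := by simp
    _ ≤ ∑ m ∈ F, (2 / 3 : ℝ) ^ w * (x * fOm m) := Finset.sum_le_sum hone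
    _ ≤ ∑ m ∈ Finset.Icc 1 x, (2 / 3 : ℝ) ^ w * (x * fOm m) := by
        apply Finset.sum_le_sum_of_subset_of_nonneg (Finset.filter_subset _ _)
        intro m _ _
        have := fOm_nonneg m
        positivity
    _ = (2 / 3 : ℝ) ^ w * (x * ∑ m ∈ Finset.Icc 1 x, fOm m) := by
        rw [← Finset.mul_sum, ← Finset.mul_sum]
    _ ≤ (2 / 3 : ℝ) ^ w * (x * (1 + Real.log x) ^ 18) := by
        apply mul_le_mul_of_nonneg_left _ (by positivity)
        apply mul_le_mul_of_nonneg_left _ (by positivity)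
        exact (fOm_sum x).trans (prod_bound h x hx)
    _ ≤ (2 / 3 : ℝ) ^ w * (x * (1 + Real.log x) ^ 20) := by
        apply mul_le_mul_of_nonneg_left _ (by positivity)
        apply mul_le_mul_of_nonneg_left _ (by positivity)
        exact pow_le_pow_right₀ (by linarith) (by norm_num)
    _ = x * (1 + Real.log x) ^ 20 * (2 / 3 : ℝ) ^ w := by ring

end Pool.Agent.H27.AP
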