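import Pool.Agent.H27.AP.Defs

/-!
# Prime divisors of `n ^ 2 - 1` modulo which two small primes generate a small subgroup
-/

set_option autoImplicit false

namespace Pool.Agent.H27.AP

/-- The number of `n ≤ x` with `q ∣ n ^ 2 - 1`. -/
lemma x2_count (x q : ℕ) (hq : q.Prime) :
    (((Finset.Icc 2 x).filter (fun n => q ∣ n ^ 2 - 1)).card : ℝ) ≤ 2 * x / q := by
  classical
  have hq0 : (0 : ℝ) < q := by exact_mod_cast hq.pos
  rcases Nat.eq_zero_or_pos x with rfl | hx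
  · simp
  have h1 : (Finset.Icc 2 x).filter (fun n => q ∣ n ^ 2 - 1) ⊆
      ((Finset.Ioc 0 (x - 1)).filter (fun m => q ∣ m)).image (fun m => m + 1) ∪
      ((Finset.Ioc 0 (x + 1)).filter (fun m => q ∣ m)).image (fun m => m - 1) := by
    intro n hn
    rw [Finset.mem_filter, Finset.mem_Icc] at hn
    obtain ⟨⟨h2, h3⟩, h4⟩ := hn
    have h5 : n ^ 2 - 1 = (n + 1) * (n - 1) := by
      have := Nat.sq_sub_sq n 1
      simpa using this
    rw [h5, hq.dvd_mul] at h4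
    rw [Finset.mem_union]
    rcases h4 with h4 | h4
    · right
      rw [Finset.mem_image]
      refine ⟨n + 1, ?_, by omega⟩
      rw [Finset.mem_filter, Finset.mem_Ioc]
      exact ⟨⟨by omega, by omega⟩, h4⟩
    · left
      rw [Finset.mem_image]
      refine ⟨n - 1, ?_, by omega⟩
      rw [Finset.mem_filter, Finset.mem_Ioc]
      exact ⟨⟨by omega, by omega⟩, h4⟩
  have h2 : ((Finset.Icc 2 x).filter (fun n => q ∣ n ^ 2 - 1)).card ≤
      (x - 1) / q + (x + 1) / q := by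
    refine (Finset.card_le_card h1).trans ((Finset.card_union_le _ _).trans ?_)
    refine add_le_add ?_ ?_
    · refine Finset.card_image_le.trans ?_
      rw [Nat.Ioc_filter_dvd_card_eq_div]
    · refine Finset.card_image_le.trans ?_
      rw [Nat.Ioc_filter_dvd_card_eq_div]
  have h3 : (((x - 1) / q : ℕ) : ℝ) ≤ ((x - 1 : ℕ) : ℝ) / q := Nat.cast_div_le
  have h4 : (((x + 1) / q : ℕ) : ℝ) ≤ ((x + 1 : ℕ) : ℝ) / q := Nat.cast_div_le
  have h5 : (((Finset.Icc 2 x).filter (fun n => q ∣ n ^ 2 - 1)).card : ℝ) ≤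
      (((x - 1) / q : ℕ) : ℝ) + (((x + 1) / q : ℕ) : ℝ) := by exact_mod_cast h2
  calc (((Finset.Icc 2 x).filter (fun n => q ∣ n ^ 2 - 1)).card : ℝ)
      ≤ ((x - 1 : ℕ) : ℝ) / q + ((x + 1 : ℕ) : ℝ) / q := h5.trans (add_le_add h3 h4)
    _ = 2 * x / q := by
        rw [Nat.cast_sub hx]
        push_cast
        rw [← add_div]
        congr 1
        ring

/-- The bad primes in a block. -/
noncomputable def SS (y p₁ p₂ i : ℕ) : Finset ℕ :=
  open Classical in (Finset.Ioo y (1024 ^ (i + 1))).filter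
    (fun q => q.Prime ∧ 1024 ^ i ≤ q ∧ (hq p₁ p₂ q) ^ 5 < q ^ 3)

lemma SS_card (h : PIG) {y T p₁ p₂ : ℕ} (i : ℕ) (hT : 2 ≤ T) (hTy : T ≤ y) (h1 : p₁.Prime)
    (h2 : p₂.Prime) (hne : p₁ ≠ p₂) (h1T : p₁ ≤ T) (h2T : p₂ ≤ T) :
    (SS y p₁ p₂ i).card ≤ 4 * 2 ^ (9 * (i + 1)) := by
  set B : ℕ := 2 ^ (3 * (i + 1)) - 1 with hB
  have hpos : 2 ≤ 2 ^ (3 * (i + 1)) := by
    calc 2 = 2 ^ 1 := by norm_num
      _ ≤ 2 ^ (3 * (i + 1)) := Nat.pow_le_pow_right (by norm_num) (by omega)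
  have hB1 : B + 1 = 2 ^ (3 * (i + 1)) := by omega
  have h3 := h p₁ p₂ T y B h1 h2 hne h1T h2T (by omega) (SS y p₁ p₂ i) (by
    intro q hq
    unfold SS at hq
    rw [Finset.mem_filter, Finset.mem_Ioo] at hq
    obtain ⟨⟨ha, hb⟩, hc, hd, he⟩ := hq
    refine ⟨hc, ha, by omega, by omega, ?_⟩
    apply lt_of_pow_lt_pow_left₀ 5 (Nat.zero_le _)
    calc (Pool.Agent.H27.AP.hq p₁ p₂ q) ^ 5 < q ^ 3 := he
      _ ≤ (1024 ^ (i + 1)) ^ 3 := Nat.pow_le_pow_left hb.le 3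
      _ = ((B + 1) ^ 2) ^ 5 := by
        rw [hB1, show (1024 : ℕ) = 2 ^ 10 by norm_num, ← pow_mul, ← pow_mul, ← pow_mul, ← pow_mul]
        congr 1
        ring)
  have h4 : y ^ (SS y p₁ p₂ i).card ≤ y ^ (4 * B * (B + 1) ^ 2) :=
    h3.trans (Nat.pow_le_pow_left hTy _)
  have h5 : (SS y p₁ p₂ i).card ≤ 4 * B * (B + 1) ^ 2 :=
    (Nat.pow_le_pow_iff_right (by omega)).1 h4
  calc (SS y p₁ p₂ i).card ≤ 4 * B * (B + 1) ^ 2 := h5
    _ ≤ 4 * (B + 1) * (B + 1) ^ 2 := by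
        apply Nat.mul_le_mul_right
        omega
    _ = 4 * 2 ^ (9 * (i + 1)) := by
        rw [hB1, mul_assoc, ← pow_succ', ← pow_mul]
        congr 2
        ring

theorem x2 (h : PIG) : X2 := by
  classical
  intro x y T hx hT hTy
  set i₀ : ℕ := Nat.log 1024 y with hi₀
  have hy0 : y ≠ 0 := by omega
  -- the covering set
  let PP : Finset (ℕ × ℕ) := ((Finset.Icc 1 T) ×ˢ (Finset.Icc 1 T)).filter
    (fun p => p.1.Prime ∧ p.2.Prime ∧ p.1 ≠ p.2)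
  let F : Finset ℕ := PP.biUnion fun p => (Finset.Ico i₀ (x + 2)).biUnion fun i =>
    (SS y p.1 p.2 i).biUnion fun q => (Finset.Icc 2 x).filter (fun n => q ∣ n ^ 2 - 1)
  have hsub : {n : ℕ | 2 ≤ n ∧ n ≤ x ∧ ∃ q p₁ p₂ : ℕ, q.Prime ∧ y < q ∧ q ∣ n ^ 2 - 1 ∧
      p₁.Prime ∧ p₂.Prime ∧ p₁ ≠ p₂ ∧ p₁ ≤ T ∧ p₂ ≤ T ∧ p₁ ∣ n ∧ p₂ ∣ n ∧
      (hq p₁ p₂ q) ^ 5 < q ^ 3} ⊆ (F : Set ℕ) := by
    rintro n ⟨hn2, hnx, q, p₁, p₂, hqp, hyq, hqn, hp₁, hp₂, hne, h1T, h2T, -, -, hlt⟩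
    rw [Finset.mem_coe, Finset.mem_biUnion]
    refine ⟨(p₁, p₂), ?_, ?_⟩
    · rw [Finset.mem_filter, Finset.mem_product, Finset.mem_Icc, Finset.mem_Icc]
      exact ⟨⟨⟨hp₁.one_lt.le, h1T⟩, ⟨hp₂.one_lt.le, h2T⟩⟩, hp₁, hp₂, hne⟩
    · have hq1 : 1024 ^ Nat.log 1024 q ≤ q := Nat.pow_log_le_self 1024 hqp.pos.ne'
      have hq2 : q < 1024 ^ (Nat.log 1024 q + 1) := Nat.lt_pow_succ_log_self (by norm_num) q
      have hqx : q ≤ x + 1 := by
        have h5 : n ^ 2 - 1 = (n + 1) * (n - 1) := by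
          have := Nat.sq_sub_sq n 1
          simpa using this
        rw [h5, hqp.dvd_mul] at hqn
        rcases hqn with h6 | h6
        · exact (Nat.le_of_dvd (by omega) h6).trans (by omega)
        · exact (Nat.le_of_dvd (by omega) h6).trans (by omega)
      rw [Finset.mem_biUnion]
      refine ⟨Nat.log 1024 q, ?_, ?_⟩
      · rw [Finset.mem_Ico]
        constructor
        · exact Nat.log_mono_right hyq.le
        · have : Nat.log 1024 q ≤ q := Nat.log_le_self 1024 q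
          omega
      · rw [Finset.mem_biUnion]
        refine ⟨q, ?_, ?_⟩
        · unfold SS
          rw [Finset.mem_filter, Finset.mem_Ioo]
          exact ⟨⟨hyq, hq2⟩, hqp, hq1, hlt⟩
        · rw [Finset.mem_filter, Finset.mem_Icc]
          exact ⟨⟨hn2, hnx⟩, hqn⟩
  -- one block
  have hblock : ∀ p ∈ PP, ∀ i : ℕ, (((SS y p.1 p.2 i).biUnion fun q =>
      (Finset.Icc 2 x).filter (fun n => q ∣ n ^ 2 - 1)).card : ℝ) ≤
      2 ^ 12 * x * (1 / 2 : ℝ) ^ i := by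
    intro p hp i
    rw [Finset.mem_filter, Finset.mem_product, Finset.mem_Icc, Finset.mem_Icc] at hp
    obtain ⟨⟨⟨_, h1T⟩, ⟨_, h2T⟩⟩, h1, h2, hne⟩ := hp
    have hc : ((SS y p.1 p.2 i).card : ℝ) ≤ 4 * 2 ^ (9 * (i + 1)) := by
      exact_mod_cast SS_card h i hT hTy h1 h2 hne h1T h2T
    have hle : (((SS y p.1 p.2 i).biUnion fun q =>
        (Finset.Icc 2 x).filter (fun n => q ∣ n ^ 2 - 1)).card : ℝ) ≤
        ∑ q ∈ SS y p.1 p.2 i, (((Finset.Icc 2 x).filter (fun n => q ∣ n ^ 2 - 1)).card : ℝ) := by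
      exact_mod_cast Finset.card_biUnion_le
    refine hle.trans ?_
    have hterm : ∀ q ∈ SS y p.1 p.2 i,
        (((Finset.Icc 2 x).filter (fun n => q ∣ n ^ 2 - 1)).card : ℝ) ≤ 2 * x / 1024 ^ i := by
      intro q hq
      unfold SS at hq
      rw [Finset.mem_filter] at hq
      refine (x2_count x q hq.2.1).trans ?_
      apply div_le_div_of_nonneg_left (by positivity) (by positivity)
      exact_mod_cast hq.2.2.1
    calc ∑ q ∈ SS y p.1 p.2 i, (((Finset.Icc 2 x).filter (fun n => q ∣ n ^ 2 - 1)).card : ℝ)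
        ≤ (SS y p.1 p.2 i).card • (2 * x / 1024 ^ i : ℝ) := Finset.sum_le_card_nsmul _ _ _ hterm
      _ = (SS y p.1 p.2 i).card * (2 * x / 1024 ^ i : ℝ) := nsmul_eq_mul _ _
      _ ≤ (4 * 2 ^ (9 * (i + 1))) * (2 * x / 1024 ^ i : ℝ) := by
          apply mul_le_mul_of_nonneg_right hc (by positivity)
      _ = 2 ^ 12 * x * (1 / 2 : ℝ) ^ i := by
          have e1 : (1024 : ℝ) ^ i = 2 ^ i * 2 ^ (9 * i) := by
            rw [← pow_add, show (1024 : ℝ) = 2 ^ 10 by norm_num, ← pow_mul]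
            congr 1
            ring
          have e2 : (2 : ℝ) ^ (9 * (i + 1)) = 2 ^ 9 * 2 ^ (9 * i) := by
            rw [← pow_add]
            congr 1
            ring
          rw [e1, e2, one_div, inv_pow]
          have e3 : (2 : ℝ) ^ i ≠ 0 := by positivity
          have e4 : (2 : ℝ) ^ (9 * i) ≠ 0 := by positivity
          field_simp
          ring
  have hgeom : ∑ i ∈ Finset.Ico i₀ (x + 2), (1 / 2 : ℝ) ^ i ≤ 2 * (1 / 2 : ℝ) ^ i₀ := by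
    rcases le_total i₀ (x + 2) with h1 | h1
    · have h2 : ∀ m, ∑ i ∈ Finset.Ico i₀ (i₀ + m), (1 / 2 : ℝ) ^ i =
          2 * (1 / 2 : ℝ) ^ i₀ - 2 * (1 / 2 : ℝ) ^ (i₀ + m) := by
        intro m
        induction m with
        | zero => simp
        | succ m ih =>
          rw [← add_assoc, Finset.sum_Ico_succ_top (by omega), ih, pow_succ (1 / 2 : ℝ) (i₀ + m)]
          ring
      obtain ⟨m, hm⟩ := Nat.exists_eq_add_of_le h1
      rw [hm, h2 m]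
      have : (0 : ℝ) ≤ 2 * (1 / 2 : ℝ) ^ (i₀ + m) := by positivity
      linarith
    · rw [Finset.Ico_eq_empty_of_le h1, Finset.sum_empty]
      positivity
  have hy : (1 / 2 : ℝ) ^ i₀ ≤ 2 / (y : ℝ) ^ (1 / 10 : ℝ) := by
    have h1 : y < 1024 ^ (i₀ + 1) := Nat.lt_pow_succ_log_self (by norm_num) y
    have h2 : (y : ℝ) ≤ ((2 : ℝ) ^ (i₀ + 1)) ^ (10 : ℝ) := by
      have h3 : (y : ℝ) ≤ (1024 : ℝ) ^ (i₀ + 1) := by exact_mod_cast h1.le
      refine h3.trans (le_of_eq ?_)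
      have : ((2 : ℝ) ^ (i₀ + 1)) ^ (10 : ℝ) = ((2 : ℝ) ^ (i₀ + 1)) ^ (10 : ℕ) := by
        rw [← Real.rpow_natCast]
        norm_num
      rw [this, show (1024 : ℝ) = 2 ^ 10 by norm_num, ← pow_mul, ← pow_mul]
      congr 1
      ring
    have h3 : (y : ℝ) ^ (1 / 10 : ℝ) ≤ (2 : ℝ) ^ (i₀ + 1) := by
      calc (y : ℝ) ^ (1 / 10 : ℝ) ≤ (((2 : ℝ) ^ (i₀ + 1)) ^ (10 : ℝ)) ^ (1 / 10 : ℝ) :=
            Real.rpow_le_rpow (by positivity) h2 (by norm_num)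
        _ = (2 : ℝ) ^ (i₀ + 1) := by
            rw [← Real.rpow_mul (by positivity)]
            norm_num
    have hy1 : (0 : ℝ) < y := by exact_mod_cast Nat.pos_of_ne_zero hy0
    have h4 : (0 : ℝ) < (y : ℝ) ^ (1 / 10 : ℝ) := Real.rpow_pos_of_pos hy1 _
    rw [le_div_iff₀ h4]
    calc (1 / 2 : ℝ) ^ i₀ * (y : ℝ) ^ (1 / 10 : ℝ) ≤ (1 / 2 : ℝ) ^ i₀ * (2 : ℝ) ^ (i₀ + 1) :=
          mul_le_mul_of_nonneg_left h3 (by positivity)
      _ = 2 := by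
          rw [pow_succ, ← mul_assoc, ← mul_pow]
          norm_num
  have hPP : (PP.card : ℝ) ≤ (T : ℝ) ^ 2 := by
    have h1 : PP.card ≤ T * T := by
      refine (Finset.card_filter_le _ _).trans ?_
      rw [Finset.card_product, Nat.card_Icc, Nat.add_sub_cancel]
    rw [sq]
    exact_mod_cast h1
  have hF : (F.card : ℝ) ≤ ∑ _p ∈ PP, (2 ^ 12 * x * (2 * (1 / 2 : ℝ) ^ i₀)) := by
    have h1 : (F.card : ℝ) ≤ ∑ p ∈ PP, (((Finset.Ico i₀ (x + 2)).biUnion fun i =>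
        (SS y p.1 p.2 i).biUnion fun q =>
          (Finset.Icc 2 x).filter (fun n => q ∣ n ^ 2 - 1)).card : ℝ) := by
      exact_mod_cast Finset.card_biUnion_le
    refine h1.trans (Finset.sum_le_sum fun p hp => ?_)
    have h2 : (((Finset.Ico i₀ (x + 2)).biUnion fun i =>
        (SS y p.1 p.2 i).biUnion fun q =>
          (Finset.Icc 2 x).filter (fun n => q ∣ n ^ 2 - 1)).card : ℝ) ≤
        ∑ i ∈ Finset.Ico i₀ (x + 2), (((SS y p.1 p.2 i).biUnion fun q =>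
          (Finset.Icc 2 x).filter (fun n => q ∣ n ^ 2 - 1)).card : ℝ) := by
      exact_mod_cast Finset.card_biUnion_le
    refine h2.trans ((Finset.sum_le_sum fun i _ => hblock p hp i).trans ?_)
    rw [← Finset.mul_sum]
    exact mul_le_mul_of_nonneg_left hgeom (by positivity)
  have hE : ({n : ℕ | 2 ≤ n ∧ n ≤ x ∧ ∃ q p₁ p₂ : ℕ, q.Prime ∧ y < q ∧ q ∣ n ^ 2 - 1 ∧
      p₁.Prime ∧ p₂.Prime ∧ p₁ ≠ p₂ ∧ p₁ ≤ T ∧ p₂ ≤ T ∧ p₁ ∣ n ∧ p₂ ∣ n ∧
      (hq p₁ p₂ q) ^ 5 < q ^ 3}.ncard : ℝ) ≤ F.card := by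
    have := Set.ncard_le_ncard hsub F.finite_toSet
    rw [Set.ncard_coe_finset] at this
    exact_mod_cast this
  refine hE.trans (hF.trans ?_)
  rw [Finset.sum_const, nsmul_eq_mul]
  have hyp : (0 : ℝ) ≤ 2 / (y : ℝ) ^ (1 / 10 : ℝ) := by positivity
  calc (PP.card : ℝ) * (2 ^ 12 * x * (2 * (1 / 2 : ℝ) ^ i₀))
      ≤ (T : ℝ) ^ 2 * (2 ^ 12 * x * (2 * (2 / (y : ℝ) ^ (1 / 10 : ℝ)))) := by
        apply mul_le_mul hPP _ (by positivity) (by positivity)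
        apply mul_le_mul_of_nonneg_left _ (by positivity)
        linarith
    _ = 2 ^ 14 * ((T : ℝ) ^ 2 * x / (y : ℝ) ^ (1 / 10 : ℝ)) := by ring
    _ ≤ 2 ^ 20 * ((T : ℝ) ^ 2 * x / (y : ℝ) ^ (1 / 10 : ℝ)) := by
        apply mul_le_mul_of_nonneg_right (by norm_num) (by positivity)
    _ = 2 ^ 20 * T ^ 2 * x / (y : ℝ) ^ (1 / 10 : ℝ) := by ring

end Pool.Agent.H27.AP
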