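import Pool.Agent.H27.AP.X3d

/-!
# X3, first part: both primes divide the same side
-/

set_option autoImplicit false

open Finset

namespace Pool.Agent.H27.AP

/-- the integers with `m ∣ n - 1` or `m ∣ n + 1` -/
theorem x3a_count (x m : ℕ) (hm : 0 < m) :
    (((Icc 2 x).filter (fun n => m ∣ n - 1 ∨ m ∣ n + 1)).card : ℝ) ≤ 2 * (x : ℝ) / m := by
  rcases Nat.eq_zero_or_pos x with h0 | hx
  · subst h0
    simp
  have h1 : ((Icc 2 x).filter (fun n => m ∣ n - 1)).card ≤ (x - 1) / m := by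
    have h2 : ((Icc 2 x).filter (fun n => m ∣ n - 1)).card ≤ (Icc 1 ((x - 1) / m)).card := by
      apply card_le_card_of_injOn (fun n => (n - 1) / m)
      · intro n hn
        simp only [coe_filter, Set.mem_ofPred_eq, mem_Icc] at hn
        simp only [coe_Icc, Set.mem_Icc]
        refine ⟨Nat.div_pos (Nat.le_of_dvd (by omega) hn.2) hm, Nat.div_le_div_right (by omega)⟩
      · intro n hn n' hn' he
        simp only [coe_filter, Set.mem_ofPred_eq, mem_Icc] at hn hn'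
        have c1 : (n - 1) / m = (n' - 1) / m := he
        have c2 := Nat.div_mul_cancel hn.2
        have c3 := Nat.div_mul_cancel hn'.2
        rw [c1, c3] at c2
        omega
    rwa [Nat.card_Icc, Nat.add_sub_cancel] at h2
  have h3 : ((Icc 2 x).filter (fun n => m ∣ n + 1)).card ≤ (x + 1) / m := by
    have h2 : ((Icc 2 x).filter (fun n => m ∣ n + 1)).card ≤ (Icc 1 ((x + 1) / m)).card := by
      apply card_le_card_of_injOn (fun n => (n + 1) / m)
      · intro n hn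
        simp only [coe_filter, Set.mem_ofPred_eq, mem_Icc] at hn
        simp only [coe_Icc, Set.mem_Icc]
        refine ⟨Nat.div_pos (Nat.le_of_dvd (by omega) hn.2) hm, Nat.div_le_div_right (by omega)⟩
      · intro n hn n' hn' he
        simp only [coe_filter, Set.mem_ofPred_eq, mem_Icc] at hn hn'
        have c1 : (n + 1) / m = (n' + 1) / m := he
        have c2 := Nat.div_mul_cancel hn.2
        have c3 := Nat.div_mul_cancel hn'.2
        rw [c1, c3] at c2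
        omega
    rwa [Nat.card_Icc, Nat.add_sub_cancel] at h2
  have h4 : ((Icc 2 x).filter (fun n => m ∣ n - 1 ∨ m ∣ n + 1)).card ≤
      (x - 1) / m + (x + 1) / m := by
    rw [filter_or]
    exact (card_union_le _ _).trans (Nat.add_le_add h1 h3)
  have h5 : (((x - 1) / m : ℕ) : ℝ) ≤ ((x - 1 : ℕ) : ℝ) / m := Nat.cast_div_le
  have h6 : (((x + 1) / m : ℕ) : ℝ) ≤ ((x + 1 : ℕ) : ℝ) / m := Nat.cast_div_le
  rw [Nat.cast_sub (by omega)] at h5
  push_cast at h5 h6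
  have h7 : (((Icc 2 x).filter (fun n => m ∣ n - 1 ∨ m ∣ n + 1)).card : ℝ) ≤
      (((x - 1) / m : ℕ) : ℝ) + (((x + 1) / m : ℕ) : ℝ) := by exact_mod_cast h4
  have h8 : ((x : ℝ) - 1) / m + ((x : ℝ) + 1) / m = 2 * x / m := by ring
  linarith

theorem x3a_harm (x : ℕ) : ∑ u ∈ Icc 1 x, 1 / (u : ℝ) ≤ 1 + Real.log x := by
  have h := harmonic_le_one_add_log x
  rw [harmonic_eq_sum_Icc] at h
  push_cast at h
  simpa [one_div] using h

theorem x3a_sq (g x : ℕ) (hg : 1 ≤ g) : ∑ h ∈ Ioc g x, 1 / (h : ℝ) ^ 2 ≤ 1 / (g : ℝ) := by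
  rcases le_or_gt g x with h | h
  · have h1 := sum_Ioc_inv_sq_le_sub (α := ℝ) (show g ≠ 0 by omega) h
    have h2 : (0 : ℝ) ≤ (x : ℝ)⁻¹ := by positivity
    simp only [one_div]
    linarith
  · rw [Ioc_eq_empty_of_le h.le, sum_empty]
    positivity

theorem x3A : X3A := by
  classical
  refine ⟨8, by norm_num, fun x g hx hg => ?_⟩
  have hg1 : (1 : ℝ) ≤ g := by exact_mod_cast hg
  have hx3 : (3 : ℝ) ≤ x := by exact_mod_cast hx
  set E : ℝ := Real.sqrt g with hE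
  have hE1 : 1 ≤ E := Real.one_le_sqrt.2 hg1
  have hEE : E * E = g := Real.mul_self_sqrt (by linarith)
  have hlx : 1 ≤ Real.log x := by
    rw [Real.le_log_iff_exp_le (by linarith)]
    have := Real.exp_one_lt_d9
    linarith
  set T : Finset (ℕ × ℕ × ℕ) := (Ioc g x) ×ˢ ((Icc 1 x) ×ˢ (Icc 1 x)) with hT
  set A : ℕ × ℕ × ℕ → Finset ℕ := fun t => (Icc 2 x).filter
    (fun n => (1 + t.1 * t.2.1) * (1 + t.1 * t.2.2) ∣ n - 1 ∨
      (1 + t.1 * t.2.1) * (1 + t.1 * t.2.2) ∣ n + 1)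
    with hA
  have hsub : {n : ℕ | 2 ≤ n ∧ n ≤ x ∧ ∃ q q' : ℕ, q.Prime ∧ q'.Prime ∧ q ≠ q' ∧
    (q * q' ∣ n - 1 ∨ q * q' ∣ n + 1) ∧ g < Nat.gcd (q - 1) (q' - 1)} ⊆
      ((T.biUnion A : Finset ℕ) : Set ℕ) := by
    rintro n ⟨h2, hnx, q, q', hq, hq', hne, hd, hgcd⟩
    set h : ℕ := Nat.gcd (q - 1) (q' - 1) with hh
    obtain ⟨u, hu⟩ : h ∣ q - 1 := Nat.gcd_dvd_left _ _
    obtain ⟨v, hv⟩ : h ∣ q' - 1 := Nat.gcd_dvd_right _ _
    have hq2 := hq.two_le
    have hq2' := hq'.two_le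
    have e1 : q = 1 + h * u := by omega
    have e2 : q' = 1 + h * v := by omega
    have hu1 : 1 ≤ u := by
      rcases Nat.eq_zero_or_pos u with h0 | h0
      · rw [h0] at e1; simp only [mul_zero, add_zero] at e1; omega
      · exact h0
    have hv1 : 1 ≤ v := by
      rcases Nat.eq_zero_or_pos v with h0 | h0
      · rw [h0] at e2; simp only [mul_zero, add_zero] at e2; omega
      · exact h0
    have hle : q * q' ≤ n + 1 := by
      rcases hd with hd | hd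
      · exact (Nat.le_of_dvd (by omega) hd).trans (by omega)
      · exact Nat.le_of_dvd (by omega) hd
    have hql : q ≤ n + 1 := (Nat.le_mul_of_pos_right q hq'.pos).trans hle
    have hql' : q' ≤ n + 1 := (Nat.le_mul_of_pos_left q' hq.pos).trans hle
    have h3 : h * u ≤ x := by omega
    have h4 : h * v ≤ x := by omega
    have hh1 : 1 ≤ h := by omega
    have h5 : h ≤ x := (Nat.le_mul_of_pos_right h hu1).trans h3
    have h6 : u ≤ x := (Nat.le_mul_of_pos_left u hh1).trans h3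
    have h7 : v ≤ x := (Nat.le_mul_of_pos_left v hh1).trans h4
    rw [mem_coe, mem_biUnion]
    refine ⟨(h, u, v), ?_, ?_⟩
    · rw [hT, mem_product, mem_product, mem_Ioc, mem_Icc, mem_Icc]
      exact ⟨⟨hgcd, h5⟩, ⟨hu1, h6⟩, ⟨hv1, h7⟩⟩
    · rw [hA]
      simp only [mem_filter, mem_Icc]
      refine ⟨⟨h2, hnx⟩, ?_⟩
      rw [← e1, ← e2]
      exact hd
  have h1 : ({n : ℕ | 2 ≤ n ∧ n ≤ x ∧ ∃ q q' : ℕ, q.Prime ∧ q'.Prime ∧ q ≠ q' ∧
    (q * q' ∣ n - 1 ∨ q * q' ∣ n + 1) ∧ g < Nat.gcd (q - 1) (q' - 1)}.ncard : ℝ) ≤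
      ∑ t ∈ T, ((A t).card : ℝ) := by
    have h2 := Set.ncard_le_ncard hsub (Finset.finite_toSet _)
    rw [Set.ncard_coe_finset] at h2
    exact_mod_cast h2.trans card_biUnion_le
  refine h1.trans ?_
  have h2 : ∀ t ∈ T, ((A t).card : ℝ) ≤
      2 * x * (1 / (t.1 : ℝ) ^ 2 * (1 / (t.2.1 : ℝ) * (1 / (t.2.2 : ℝ)))) := by
    rintro ⟨h, u, v⟩ ht
    rw [hT, mem_product, mem_product, mem_Ioc, mem_Icc, mem_Icc] at ht
    obtain ⟨⟨a1, -⟩, ⟨a2, -⟩, ⟨a3, -⟩⟩ := ht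
    simp only at a1 a2 a3 ⊢
    have hh0 : (0 : ℝ) < h := by exact_mod_cast (show 0 < h by omega)
    have hu0 : (0 : ℝ) < u := by exact_mod_cast (show 0 < u by omega)
    have hv0 : (0 : ℝ) < v := by exact_mod_cast (show 0 < v by omega)
    have b1 := x3a_count x ((1 + h * u) * (1 + h * v)) (by positivity)
    have b2 : 2 * (x : ℝ) / (((1 + h * u) * (1 + h * v) : ℕ) : ℝ) ≤
        2 * x / ((h : ℝ) ^ 2 * u * v) := by
      apply div_le_div_of_nonneg_left (by positivity) (by positivity)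
      push_cast
      have c1 : (0 : ℝ) < (h : ℝ) * u := by positivity
      have c2 : (0 : ℝ) < (h : ℝ) * v := by positivity
      nlinarith
    have b5 : 2 * (x : ℝ) * (1 / (h : ℝ) ^ 2 * (1 / (u : ℝ) * (1 / (v : ℝ)))) =
        2 * x / ((h : ℝ) ^ 2 * u * v) := by
      field_simp
    rw [b5]
    exact b1.trans b2
  refine (sum_le_sum h2).trans ?_
  rw [← mul_sum]
  have h3 : ∑ t ∈ T, (1 / (t.1 : ℝ) ^ 2 * (1 / (t.2.1 : ℝ) * (1 / (t.2.2 : ℝ)))) ≤
      1 / (g : ℝ) * ((1 + Real.log x) * (1 + Real.log x)) := by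
    have h5 : ∑ t ∈ T, (1 / (t.1 : ℝ) ^ 2 * (1 / (t.2.1 : ℝ) * (1 / (t.2.2 : ℝ)))) =
        (∑ h ∈ Ioc g x, 1 / (h : ℝ) ^ 2) *
          ((∑ u ∈ Icc 1 x, 1 / (u : ℝ)) * ∑ v ∈ Icc 1 x, 1 / (v : ℝ)) := by
      rw [hT, sum_product, sum_mul]
      refine sum_congr rfl fun h _ => ?_
      rw [sum_product, sum_mul, mul_sum]
      refine sum_congr rfl fun u _ => ?_
      rw [mul_sum, mul_sum]
    rw [h5]
    have h6 := x3a_harm x
    have h7 : (0 : ℝ) ≤ ∑ u ∈ Icc 1 x, 1 / (u : ℝ) := sum_nonneg fun u _ => by positivity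
    exact mul_le_mul (x3a_sq g x hg) (mul_le_mul h6 h6 h7 (by linarith))
      (mul_nonneg h7 h7) (by positivity)
  have h4 : 2 * (x : ℝ) * ∑ t ∈ T, (1 / (t.1 : ℝ) ^ 2 * (1 / (t.2.1 : ℝ) * (1 / (t.2.2 : ℝ)))) ≤
      2 * x * (1 / (g : ℝ) * ((1 + Real.log x) * (1 + Real.log x))) :=
    mul_le_mul_of_nonneg_left h3 (by positivity)
  refine h4.trans ?_
  have hE0 : 0 < E := by linarith
  have hgE : 1 / (g : ℝ) ≤ 1 / E := by
    apply one_div_le_one_div_of_le hE0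
    rw [← hEE]
    nlinarith
  have h6 : (1 + Real.log x) * (1 + Real.log x) ≤ 4 * Real.log x ^ 2 := by nlinarith
  calc 2 * (x : ℝ) * (1 / (g : ℝ) * ((1 + Real.log x) * (1 + Real.log x)))
      ≤ 2 * x * (1 / E * (4 * Real.log x ^ 2)) := by gcongr
    _ = 8 * (x * Real.log x ^ 2 / E) := by ring

end Pool.Agent.H27.AP
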