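import Pool.Agent.H27.AP.X3d

/-!
# X3, second part: different sides, small product
-/

set_option autoImplicit false

open Finset

namespace Pool.Agent.H27.AP

/-- the integers of one class modulo `q q'` -/
theorem x3b_count (x q q' : ℕ) :
    (((Icc 1 x).filter (fun n => q.Prime ∧ q'.Prime ∧ q ≠ q' ∧ q ∣ n - 1 ∧ q' ∣ n + 1)).card : ℝ) ≤
      (x : ℝ) / ((q : ℝ) * q') + 1 := by
  by_cases h : q.Prime ∧ q'.Prime ∧ q ≠ q'
  · obtain ⟨hq, hq', hne⟩ := h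
    have hcop : Nat.Coprime q q' := (Nat.coprime_primes hq hq').mpr hne
    have h1 : ((Icc 1 x).filter
        (fun n => q.Prime ∧ q'.Prime ∧ q ≠ q' ∧ q ∣ n - 1 ∧ q' ∣ n + 1)).card ≤
        (range (x / (q * q') + 1)).card := by
      apply card_le_card_of_injOn (fun n => n / (q * q'))
      · intro n hn
        simp only [coe_filter, Set.mem_ofPred_eq, mem_Icc] at hn
        simp only [coe_range, Set.mem_Iio]
        exact Nat.lt_succ_of_le (Nat.div_le_div_right hn.1.2)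
      · intro n hn n' hn' he
        simp only [coe_filter, Set.mem_ofPred_eq, mem_Icc] at hn hn'
        obtain ⟨⟨a1, -⟩, -, -, -, a2, a3⟩ := hn
        obtain ⟨⟨b1, -⟩, -, -, -, b2, b3⟩ := hn'
        have c1 : n ≡ n' [MOD q] :=
          ((Nat.modEq_iff_dvd' a1).2 a2).symm.trans ((Nat.modEq_iff_dvd' b1).2 b2)
        have c2 : n ≡ n' [MOD q'] := by
          have d1 : n + 1 ≡ 0 [MOD q'] := (Nat.modEq_zero_iff_dvd).2 a3
          have d2 : n' + 1 ≡ 0 [MOD q'] := (Nat.modEq_zero_iff_dvd).2 b3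
          exact Nat.ModEq.add_right_cancel' 1 (d1.trans d2.symm)
        have c3 : n ≡ n' [MOD q * q'] := (Nat.modEq_and_modEq_iff_modEq_mul hcop).1 ⟨c1, c2⟩
        have c4 : n % (q * q') = n' % (q * q') := c3
        have c5 : n / (q * q') = n' / (q * q') := he
        rw [← Nat.div_add_mod n (q * q'), ← Nat.div_add_mod n' (q * q'), c4, c5]
    rw [card_range] at h1
    have h2 : (((Icc 1 x).filter
        (fun n => q.Prime ∧ q'.Prime ∧ q ≠ q' ∧ q ∣ n - 1 ∧ q' ∣ n + 1)).card : ℝ) ≤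
        ((x / (q * q') : ℕ) : ℝ) + 1 := by exact_mod_cast h1
    have h3 : ((x / (q * q') : ℕ) : ℝ) ≤ (x : ℝ) / ((q * q' : ℕ) : ℝ) := Nat.cast_div_le
    push_cast at h3
    linarith
  · have h1 : (Icc 1 x).filter
        (fun n => q.Prime ∧ q'.Prime ∧ q ≠ q' ∧ q ∣ n - 1 ∧ q' ∣ n + 1) = ∅ := by
      rw [filter_eq_empty_iff]
      rintro n - ⟨a1, a2, a3, -⟩
      exact h ⟨a1, a2, a3⟩
    rw [h1]
    simp only [card_empty, Nat.cast_zero]
    positivity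

theorem x3b_harm (x : ℕ) : ∑ u ∈ Icc 1 x, 1 / (u : ℝ) ≤ 1 + Real.log x := by
  have h := harmonic_le_one_add_log x
  rw [harmonic_eq_sum_Icc] at h
  push_cast at h
  simpa [one_div] using h

theorem x3b_sq (g x : ℕ) (hg : 1 ≤ g) : ∑ h ∈ Ioc g x, 1 / (h : ℝ) ^ 2 ≤ 1 / (g : ℝ) := by
  rcases le_or_gt g x with h | h
  · have h1 := sum_Ioc_inv_sq_le_sub (α := ℝ) (show g ≠ 0 by omega) h
    have h2 : (0 : ℝ) ≤ (x : ℝ)⁻¹ := by positivity
    simp only [one_div]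
    linarith
  · rw [Ioc_eq_empty_of_le h.le, sum_empty]
    positivity

theorem x3B : X3B := by
  classical
  refine ⟨8, by norm_num, fun x g hx hg => ?_⟩
  have hg1 : (1 : ℝ) ≤ g := by exact_mod_cast hg
  have hx3 : (3 : ℝ) ≤ x := by exact_mod_cast hx
  set E : ℝ := Real.sqrt g with hE
  have hE1 : 1 ≤ E := Real.one_le_sqrt.2 hg1
  have hEE : E * E = g := Real.mul_self_sqrt (by linarith)
  have hlx : 1 ≤ Real.log x := by
    rw [Real.le_log_iff_exp_le (by linarith)]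
    have := Real.exp_one_lt_d9
    linarith
  set T : Finset (ℕ × ℕ × ℕ) := ((Ioc g x) ×ˢ ((Icc 1 x) ×ˢ (Icc 1 x))).filter
    (fun t => (t.1 : ℝ) ^ 2 * t.2.1 * t.2.2 ≤ x * E) with hT
  set A : ℕ × ℕ × ℕ → Finset ℕ := fun t => (Icc 1 x).filter
    (fun n => (1 + t.1 * t.2.1).Prime ∧ (1 + t.1 * t.2.2).Prime ∧
      1 + t.1 * t.2.1 ≠ 1 + t.1 * t.2.2 ∧ 1 + t.1 * t.2.1 ∣ n - 1 ∧ 1 + t.1 * t.2.2 ∣ n + 1)
    with hA
  have hsub : {n : ℕ | 2 ≤ n ∧ n ≤ x ∧ ∃ q q' : ℕ, q.Prime ∧ q'.Prime ∧ q ≠ q' ∧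
    q ∣ n - 1 ∧ q' ∣ n + 1 ∧ g < Nat.gcd (q - 1) (q' - 1) ∧
    (q : ℝ) * q' ≤ x * Real.sqrt g} ⊆ ((T.biUnion A : Finset ℕ) : Set ℕ) := by
    rintro n ⟨h2, hnx, q, q', hq, hq', hne, hd, hd', hgcd, hqq⟩
    set h : ℕ := Nat.gcd (q - 1) (q' - 1) with hh
    obtain ⟨u, hu⟩ : h ∣ q - 1 := Nat.gcd_dvd_left _ _
    obtain ⟨v, hv⟩ : h ∣ q' - 1 := Nat.gcd_dvd_right _ _
    have hq2 := hq.two_le
    have hq2' := hq'.two_le
    have e1 : q = 1 + h * u := by omega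
    have e2 : q' = 1 + h * v := by omega
    have hu1 : 1 ≤ u := by
      rcases Nat.eq_zero_or_pos u with h0 | h0
      · rw [h0] at e1; simp only [mul_zero, add_zero] at e1; omega
      · exact h0
    have hv1 : 1 ≤ v := by
      rcases Nat.eq_zero_or_pos v with h0 | h0
      · rw [h0] at e2; simp only [mul_zero, add_zero] at e2; omega
      · exact h0
    have hql : q ≤ n - 1 := Nat.le_of_dvd (by omega) hd
    have hql' : q' ≤ n + 1 := Nat.le_of_dvd (by omega) hd'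
    have h3 : h * u ≤ x := by omega
    have h4 : h * v ≤ x := by omega
    have hh1 : 1 ≤ h := by omega
    have h5 : h ≤ x := (Nat.le_mul_of_pos_right h hu1).trans h3
    have h6 : u ≤ x := (Nat.le_mul_of_pos_left u hh1).trans h3
    have h7 : v ≤ x := (Nat.le_mul_of_pos_left v hh1).trans h4
    rw [mem_coe, mem_biUnion]
    refine ⟨(h, u, v), ?_, ?_⟩
    · rw [hT, mem_filter, mem_product, mem_product, mem_Ioc, mem_Icc, mem_Icc]
      refine ⟨⟨⟨hgcd, h5⟩, ⟨hu1, h6⟩, ⟨hv1, h7⟩⟩, ?_⟩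
      refine le_trans ?_ hqq
      rw [e1, e2]
      push_cast
      have a1 : (0 : ℝ) ≤ (h : ℝ) * u := by positivity
      have a2 : (0 : ℝ) ≤ (h : ℝ) * v := by positivity
      nlinarith
    · rw [hA]
      simp only [mem_filter, mem_Icc]
      refine ⟨⟨by omega, hnx⟩, ?_⟩
      rw [← e1, ← e2]
      exact ⟨hq, hq', hne, hd, hd'⟩
  have h1 : ({n : ℕ | 2 ≤ n ∧ n ≤ x ∧ ∃ q q' : ℕ, q.Prime ∧ q'.Prime ∧ q ≠ q' ∧
    q ∣ n - 1 ∧ q' ∣ n + 1 ∧ g < Nat.gcd (q - 1) (q' - 1) ∧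
    (q : ℝ) * q' ≤ x * Real.sqrt g}.ncard : ℝ) ≤ ∑ t ∈ T, ((A t).card : ℝ) := by
    have h2 := Set.ncard_le_ncard hsub (Finset.finite_toSet _)
    rw [Set.ncard_coe_finset] at h2
    exact_mod_cast h2.trans card_biUnion_le
  refine h1.trans ?_
  have h2 : ∀ t ∈ T, ((A t).card : ℝ) ≤
      2 * (x * E) * (1 / (t.1 : ℝ) ^ 2 * (1 / (t.2.1 : ℝ) * (1 / (t.2.2 : ℝ)))) := by
    rintro ⟨h, u, v⟩ ht
    rw [hT, mem_filter, mem_product, mem_product, mem_Ioc, mem_Icc, mem_Icc] at ht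
    obtain ⟨⟨⟨a1, -⟩, ⟨a2, -⟩, ⟨a3, -⟩⟩, a4⟩ := ht
    simp only at a1 a2 a3 a4 ⊢
    have hh0 : (0 : ℝ) < h := by exact_mod_cast (show 0 < h by omega)
    have hu0 : (0 : ℝ) < u := by exact_mod_cast (show 0 < u by omega)
    have hv0 : (0 : ℝ) < v := by exact_mod_cast (show 0 < v by omega)
    have b1 := x3b_count x (1 + h * u) (1 + h * v)
    have b2 : (x : ℝ) / (((1 + h * u : ℕ) : ℝ) * ((1 + h * v : ℕ) : ℝ)) ≤
        x / ((h : ℝ) ^ 2 * u * v) := by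
      apply div_le_div_of_nonneg_left (by positivity) (by positivity)
      push_cast
      have c1 : (0 : ℝ) < (h : ℝ) * u := by positivity
      have c2 : (0 : ℝ) < (h : ℝ) * v := by positivity
      nlinarith
    have b3 : (x : ℝ) / ((h : ℝ) ^ 2 * u * v) ≤ (x * E) / ((h : ℝ) ^ 2 * u * v) := by
      apply div_le_div_of_nonneg_right _ (by positivity)
      exact le_mul_of_one_le_right (by positivity) hE1
    have b4 : 1 ≤ (x * E) / ((h : ℝ) ^ 2 * u * v) := by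
      rw [one_le_div (by positivity)]
      exact a4
    have b5 : 2 * (x * E) * (1 / (h : ℝ) ^ 2 * (1 / (u : ℝ) * (1 / (v : ℝ)))) =
        (x * E) / ((h : ℝ) ^ 2 * u * v) + (x * E) / ((h : ℝ) ^ 2 * u * v) := by
      field_simp
      ring
    rw [b5]
    have b6 : ((A (h, u, v)).card : ℝ) ≤
        (x : ℝ) / (((1 + h * u : ℕ) : ℝ) * ((1 + h * v : ℕ) : ℝ)) + 1 := b1
    linarith
  refine (sum_le_sum h2).trans ?_
  rw [← mul_sum]
  have h3 : ∑ t ∈ T, (1 / (t.1 : ℝ) ^ 2 * (1 / (t.2.1 : ℝ) * (1 / (t.2.2 : ℝ)))) ≤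
      1 / (g : ℝ) * ((1 + Real.log x) * (1 + Real.log x)) := by
    have h4 : ∑ t ∈ T, (1 / (t.1 : ℝ) ^ 2 * (1 / (t.2.1 : ℝ) * (1 / (t.2.2 : ℝ)))) ≤
        ∑ t ∈ (Ioc g x) ×ˢ ((Icc 1 x) ×ˢ (Icc 1 x)),
          (1 / (t.1 : ℝ) ^ 2 * (1 / (t.2.1 : ℝ) * (1 / (t.2.2 : ℝ)))) :=
      sum_le_sum_of_subset_of_nonneg (filter_subset _ _) fun t _ _ => by positivity
    refine h4.trans ?_
    have h5 : ∑ t ∈ (Ioc g x) ×ˢ ((Icc 1 x) ×ˢ (Icc 1 x)),
          (1 / (t.1 : ℝ) ^ 2 * (1 / (t.2.1 : ℝ) * (1 / (t.2.2 : ℝ)))) =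
        (∑ h ∈ Ioc g x, 1 / (h : ℝ) ^ 2) *
          ((∑ u ∈ Icc 1 x, 1 / (u : ℝ)) * ∑ v ∈ Icc 1 x, 1 / (v : ℝ)) := by
      rw [sum_product, sum_mul]
      refine sum_congr rfl fun h _ => ?_
      rw [sum_product, sum_mul, mul_sum]
      refine sum_congr rfl fun u _ => ?_
      rw [mul_sum, mul_sum]
    rw [h5]
    have h6 := x3b_harm x
    have h7 : (0 : ℝ) ≤ ∑ u ∈ Icc 1 x, 1 / (u : ℝ) := sum_nonneg fun u _ => by positivity
    exact mul_le_mul (x3b_sq g x hg) (mul_le_mul h6 h6 h7 (by linarith))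
      (mul_nonneg h7 h7) (by positivity)
  have h4 : 2 * (x * E) * ∑ t ∈ T, (1 / (t.1 : ℝ) ^ 2 * (1 / (t.2.1 : ℝ) * (1 / (t.2.2 : ℝ)))) ≤
      2 * (x * E) * (1 / (g : ℝ) * ((1 + Real.log x) * (1 + Real.log x))) :=
    mul_le_mul_of_nonneg_left h3 (by positivity)
  refine h4.trans ?_
  have hE0 : 0 < E := by linarith
  have h5 : 2 * (x * E) * (1 / (g : ℝ) * ((1 + Real.log x) * (1 + Real.log x))) =
      2 * (x * (1 + Real.log x) ^ 2 / E) := by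
    rw [← hEE]
    field_simp
  rw [h5]
  have h6 : (1 + Real.log x) ^ 2 ≤ 4 * Real.log x ^ 2 := by nlinarith
  calc 2 * (x * (1 + Real.log x) ^ 2 / E) ≤ 2 * (x * (4 * Real.log x ^ 2) / E) := by gcongr
    _ = 8 * (x * Real.log x ^ 2 / E) := by ring

end Pool.Agent.H27.AP
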