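import Pool.Agent.H27.AP.X3c0

/-! Module X3c: different sides, large product. -/

set_option autoImplicit false

open Finset Pool.Agent.H27.ADS

namespace Pool.Agent.H27.AP

/-- the union bound for one family -/
theorem x3c_family {x g : ℕ} {K c : ℝ} (hg : 1 ≤ g) (hK : 0 ≤ K) (hc : 0 ≤ c)
    (A B : ℕ × ℕ × ℕ → ℕ) (hA : ∀ t ∈ x3cT x g c, 1 ≤ A t) (hB : ∀ t ∈ x3cT x g c, 1 ≤ B t)
    (hAB : ∀ t ∈ x3cT x g c, 2 * ((t.2.1 : ℝ) * t.1 * t.2.2) ≤ K * ((A t : ℝ) * B t)) :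
    (⋃ t ∈ x3cT x g c, x3cN x (A t) (B t) t.2.1).Finite ∧
    ((⋃ t ∈ x3cT x g c, x3cN x (A t) (B t) t.2.1).ncard : ℝ) ≤
      (K / g + c / Real.sqrt g) * x * (1 + Real.log x) ^ 2 := by
  constructor
  · refine (Set.finite_Iic x).subset ?_
    intro n hn
    rw [Set.mem_iUnion₂] at hn
    obtain ⟨t, _, h⟩ := hn
    exact h.2.1
  · have h1 := Finset.set_ncard_biUnion_le (x3cT x g c)
      (fun t => x3cN x (A t) (B t) t.2.1)
    have h2 : ((⋃ t ∈ x3cT x g c, x3cN x (A t) (B t) t.2.1).ncard : ℝ) ≤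
        ∑ t ∈ x3cT x g c, ((x3cN x (A t) (B t) t.2.1).ncard : ℝ) := by
      exact_mod_cast h1
    have h3 : ∀ t ∈ x3cT x g c, ((x3cN x (A t) (B t) t.2.1).ncard : ℝ) ≤
        K * x / ((t.2.1 : ℝ) ^ 2 * t.1 * t.2.2) + 1 := by
      rintro ⟨a, h, k⟩ ht
      have h4 := hA _ ht
      have h5 := hB _ ht
      have h6 := hAB _ ht
      rw [x3c_mem_T] at ht
      simp only at h4 h5 h6 ⊢
      have h7 := x3c_N (x := x) h4 h5 ht.1.2.1.1
      refine h7.trans ?_
      have ha0 : (0 : ℝ) < a := by exact_mod_cast ht.1.1.1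
      have hh0 : (0 : ℝ) < h := by exact_mod_cast ht.1.2.1.1
      have hk0 : (0 : ℝ) < k := by exact_mod_cast ht.1.2.2.1
      have hA0 : (0 : ℝ) < A (a, h, k) := by exact_mod_cast h4
      have hB0 : (0 : ℝ) < B (a, h, k) := by exact_mod_cast h5
      have h8 : 2 * (x : ℝ) / (h * A (a, h, k) * B (a, h, k)) ≤
          K * x / ((h : ℝ) ^ 2 * a * k) := by
        rw [div_le_div_iff₀ (by positivity) (by positivity)]
        have h9 : (0 : ℝ) ≤ x * h := by positivity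
        calc 2 * (x : ℝ) * ((h : ℝ) ^ 2 * a * k) = x * h * (2 * ((h : ℝ) * a * k)) := by ring
          _ ≤ x * h * (K * ((A (a, h, k) : ℝ) * B (a, h, k))) :=
              mul_le_mul_of_nonneg_left h6 h9
          _ = K * x * (h * A (a, h, k) * B (a, h, k)) := by ring
      linarith
    have h4 : ∑ t ∈ x3cT x g c, (K * x / ((t.2.1 : ℝ) ^ 2 * t.1 * t.2.2) + 1) =
        ∑ t ∈ x3cT x g c, K * x / ((t.2.1 : ℝ) ^ 2 * t.1 * t.2.2) + (x3cT x g c).card := by
      rw [sum_add_distrib, sum_const, nsmul_eq_mul, mul_one]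
    have h5 := x3c_sum (x := x) (c := c) hg hK
    have h6 := x3c_card (x := x) hg hc
    have h7 := sum_le_sum h3
    rw [h4] at h7
    have h8 : (K / g + c / Real.sqrt g) * x * (1 + Real.log x) ^ 2 =
        K / g * x * (1 + Real.log x) ^ 2 + c / Real.sqrt g * x * (1 + Real.log x) ^ 2 := by
      ring
    rw [h8]
    linarith

theorem x3c_cover {x g : ℕ} (hx : 3 ≤ x) (hg : 1 ≤ g) :
    {n : ℕ | 2 ≤ n ∧ n ≤ x ∧ n ∉ TWs x ∧ ∃ q q' : ℕ, q.Prime ∧ q'.Prime ∧ q ≠ q' ∧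
      q ∣ n - 1 ∧ q' ∣ n + 1 ∧ g < Nat.gcd (q - 1) (q' - 1) ∧
      (x : ℝ) * Real.sqrt g < q * q'} ⊆
    (⋃ t ∈ x3cT x g 1, x3cN x t.1 (t.1 + 2 + t.2.1 * t.2.2) t.2.1) ∪
    (⋃ t ∈ x3cT x g 2, x3cN x (t.1 + t.2.1 * t.2.2 - 2) t.1 t.2.1) := by
  rintro n ⟨hn2, hnx, hTW, q, q', hq, hq', hqq, ⟨a, ha⟩, ⟨b, hb⟩, hgcd, hlarge⟩
  have ha1 : 1 ≤ a := by
    rcases Nat.eq_zero_or_pos a with h | h
    · rw [h, mul_zero] at ha
      omega
    · exact h
  have hb1 : 1 ≤ b := by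
    rcases Nat.eq_zero_or_pos b with h | h
    · rw [h, mul_zero] at hb
      omega
    · exact h
  have hne : b ≠ a + 2 := by
    rintro rfl
    exact hTW ⟨hn2, hnx, a, q, q', ha1, hq, hq', ha, hb⟩
  set h : ℕ := Nat.gcd (q - 1) (q' - 1) with hh
  have hq2 := hq.two_le
  have hq2' := hq'.two_le
  obtain ⟨u, hu⟩ : h ∣ q - 1 := Nat.gcd_dvd_left _ _
  obtain ⟨v, hv⟩ : h ∣ q' - 1 := Nat.gcd_dvd_right _ _
  have hqu : q = 1 + h * u := by omega
  have hqv : q' = 1 + h * v := by omega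
  have hh2 : 2 ≤ h := by omega
  have ha2 : 2 * a ≤ n - 1 := by rw [ha]; exact Nat.mul_le_mul_right _ hq2
  have hb2 : 2 * b ≤ n + 1 := by rw [hb]; exact Nat.mul_le_mul_right _ hq2'
  have hhx : h ≤ x := by
    have h1 : h ≤ q - 1 := Nat.le_of_dvd (by omega) (Nat.gcd_dvd_left _ _)
    have h2 : q ≤ n - 1 := Nat.le_of_dvd (by omega) ⟨a, ha⟩
    omega
  have hE : (0 : ℝ) < Real.sqrt g := Real.sqrt_pos.2 (by exact_mod_cast hg)
  have hx0 : (0 : ℝ) < x := by
    have : 0 < x := by omega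
    exact_mod_cast this
  -- the product of the cofactors is small
  have hab : (a : ℝ) * b * Real.sqrt g ≤ x := by
    have e1 : (n : ℤ) - 1 = q * a := by
      have : ((n - 1 : ℕ) : ℤ) = ((q * a : ℕ) : ℤ) := by rw [ha]
      rw [Nat.cast_sub (by omega)] at this
      push_cast at this
      exact this
    have e1' : (n : ℝ) - 1 = q * a := by exact_mod_cast e1
    have e2' : (n : ℝ) + 1 = q' * b := by exact_mod_cast hb
    have hnx' : (n : ℝ) ≤ x := by exact_mod_cast hnx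
    have hn0 : (2 : ℝ) ≤ n := by exact_mod_cast hn2
    have hab0 : (0 : ℝ) < (a : ℝ) * b := by
      have h1 : (0 : ℝ) < a := by exact_mod_cast ha1
      have h2 : (0 : ℝ) < b := by exact_mod_cast hb1
      positivity
    have e3 : ((n : ℝ) - 1) * (n + 1) = (q * q') * (a * b) := by
      rw [e1', e2']
      ring
    have e4 : (x : ℝ) * Real.sqrt g * (a * b) ≤ (q * q') * (a * b) :=
      mul_le_mul_of_nonneg_right hlarge.le hab0.le
    have e5 : ((n : ℝ) - 1) * (n + 1) ≤ x * x := by nlinarith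
    have e6 : (x : ℝ) * (a * b * Real.sqrt g) ≤ x * x := by nlinarith
    exact le_of_mul_le_mul_left e6 hx0
  have hmain : (2 : ℤ) = b - a + h * (b * v - a * u) := by
    have e1 : (n : ℤ) - 1 = q * a := by
      have : ((n - 1 : ℕ) : ℤ) = ((q * a : ℕ) : ℤ) := by rw [ha]
      rw [Nat.cast_sub (by omega)] at this
      push_cast at this
      exact this
    have e2 : (n : ℤ) + 1 = q' * b := by exact_mod_cast hb
    have e3 : (q : ℤ) = 1 + h * u := by exact_mod_cast hqu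
    have e4 : (q' : ℤ) = 1 + h * v := by exact_mod_cast hqv
    rw [e3] at e1
    rw [e4] at e2
    linarith
  have hN : n ∈ x3cN x a b h := by
    refine ⟨by omega, hnx, ?_, ?_, ?_⟩
    · have h1 : Nat.gcd a b ∣ n - 1 := by
        rw [ha]
        exact Dvd.dvd.mul_left (Nat.gcd_dvd_left a b) q
      have h2 : Nat.gcd a b ∣ n + 1 := by
        rw [hb]
        exact Dvd.dvd.mul_left (Nat.gcd_dvd_right a b) q'
      have h3 := Nat.dvd_sub h2 h1
      rwa [show n + 1 - (n - 1) = 2 by omega] at h3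
    · refine ⟨u, ?_⟩
      have e1 : ((n - 1 : ℕ) : ℤ) = ((q * a : ℕ) : ℤ) := by rw [ha]
      rw [Nat.cast_sub (by omega)] at e1
      push_cast at e1 ⊢
      rw [e1]
      have e3 : (q : ℤ) = 1 + h * u := by exact_mod_cast hqu
      rw [e3]
      ring
    · refine ⟨v, ?_⟩
      have e2 : (n : ℤ) + 1 = q' * b := by exact_mod_cast hb
      have e4 : (q' : ℤ) = 1 + h * v := by exact_mod_cast hqv
      rw [e2, e4]
      push_cast
      ring
  rcases lt_or_gt_of_ne hne with hlt | hgt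
  · -- `b < a + 2`
    right
    obtain ⟨k, hk⟩ : h ∣ a + 2 - b := by
      have h1 : ((h : ℕ) : ℤ) ∣ ((a + 2 - b : ℕ) : ℤ) := by
        refine ⟨b * v - a * u, ?_⟩
        rw [Nat.cast_sub (by omega)]
        push_cast
        linarith
      exact_mod_cast h1
    have hk1 : 1 ≤ k := by
      rcases Nat.eq_zero_or_pos k with h0 | h0
      · rw [h0, mul_zero] at hk
        omega
      · exact h0
    have hhk : 2 * k ≤ h * k := Nat.mul_le_mul_right _ hh2
    have haeq : a = b + h * k - 2 := by omega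
    rw [Set.mem_iUnion₂]
    refine ⟨(b, h, k), ?_, ?_⟩
    · rw [x3c_mem_T]
      refine ⟨⟨⟨hb1, by omega⟩, ⟨by omega, hhx⟩, ⟨hk1, by omega⟩⟩, hgcd, ?_⟩
      have h1 : h * k ≤ 2 * a := by omega
      have h2 : (h : ℝ) * k ≤ 2 * a := by exact_mod_cast h1
      have hb0 : (0 : ℝ) ≤ b * Real.sqrt g := by positivity
      calc (b : ℝ) * h * k * Real.sqrt g = (b * Real.sqrt g) * (h * k) := by ring
        _ ≤ (b * Real.sqrt g) * (2 * a) := mul_le_mul_of_nonneg_left h2 hb0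
        _ = 2 * (a * b * Real.sqrt g) := by ring
        _ ≤ 2 * x := by linarith
    · simp only
      rw [← haeq]
      exact hN
  · left
    obtain ⟨k, hk⟩ : h ∣ b - (a + 2) := by
      have h1 : ((h : ℕ) : ℤ) ∣ ((b - (a + 2) : ℕ) : ℤ) := by
        refine ⟨-(b * v - a * u), ?_⟩
        rw [Nat.cast_sub (by omega)]
        push_cast
        linarith
      exact_mod_cast h1
    have hk1 : 1 ≤ k := by
      rcases Nat.eq_zero_or_pos k with h0 | h0
      · rw [h0, mul_zero] at hk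
        omega
      · exact h0
    have hhk : 2 * k ≤ h * k := Nat.mul_le_mul_right _ hh2
    have hbeq : b = a + 2 + h * k := by omega
    rw [Set.mem_iUnion₂]
    refine ⟨(a, h, k), ?_, ?_⟩
    · rw [x3c_mem_T]
      refine ⟨⟨⟨ha1, by omega⟩, ⟨by omega, hhx⟩, ⟨hk1, by omega⟩⟩, hgcd, ?_⟩
      have h1 : h * k ≤ b := by omega
      have h2 : (h : ℝ) * k ≤ b := by exact_mod_cast h1
      have ha0 : (0 : ℝ) ≤ a * Real.sqrt g := by positivity
      calc (a : ℝ) * h * k * Real.sqrt g = (a * Real.sqrt g) * (h * k) := by ring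
        _ ≤ (a * Real.sqrt g) * b := mul_le_mul_of_nonneg_left h2 ha0
        _ = a * b * Real.sqrt g := by ring
        _ ≤ 1 * x := by linarith
    · simp only
      rw [← hbeq]
      exact hN

theorem x3C : X3C := by
  refine ⟨36, by norm_num, fun x g hx hg => ?_⟩
  have hcov := x3c_cover hx hg
  obtain ⟨hf1, hn1⟩ := x3c_family (x := x) (g := g) (K := 2) (c := 1) hg (by norm_num)
    (by norm_num) (fun t => t.1) (fun t => t.1 + 2 + t.2.1 * t.2.2)
    (by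
      rintro ⟨a, h, k⟩ ht
      rw [x3c_mem_T] at ht
      exact ht.1.1.1)
    (by
      rintro ⟨a, h, k⟩ ht
      simp only
      omega)
    (by
      rintro ⟨a, h, k⟩ ht
      simp only
      push_cast
      have h1 : (0 : ℝ) ≤ a * (a + 2) := by positivity
      nlinarith)
  obtain ⟨hf2, hn2⟩ := x3c_family (x := x) (g := g) (K := 4) (c := 2) hg (by norm_num)
    (by norm_num) (fun t => t.1 + t.2.1 * t.2.2 - 2) (fun t => t.1)
    (by
      rintro ⟨a, h, k⟩ ht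
      rw [x3c_mem_T] at ht
      have h1 : 2 * 1 ≤ h * k := Nat.mul_le_mul (by omega) ht.1.2.2.1
      simp only
      omega)
    (by
      rintro ⟨a, h, k⟩ ht
      rw [x3c_mem_T] at ht
      exact ht.1.1.1)
    (by
      rintro ⟨a, h, k⟩ ht
      rw [x3c_mem_T] at ht
      have h1 : 2 * 1 ≤ h * k := Nat.mul_le_mul (by omega) ht.1.2.2.1
      have h2 : h * k ≤ 2 * (a + h * k - 2) := by omega
      have h3 : (h : ℝ) * k ≤ 2 * ((a + h * k - 2 : ℕ) : ℝ) := by exact_mod_cast h2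
      simp only
      have h4 : (0 : ℝ) ≤ a := Nat.cast_nonneg a
      nlinarith)
  have h1 := Set.ncard_le_ncard hcov (hf1.union hf2)
  have h2 := h1.trans (Set.ncard_union_le _ _)
  have h3 : (({n : ℕ | 2 ≤ n ∧ n ≤ x ∧ n ∉ TWs x ∧ ∃ q q' : ℕ, q.Prime ∧ q'.Prime ∧ q ≠ q' ∧
      q ∣ n - 1 ∧ q' ∣ n + 1 ∧ g < Nat.gcd (q - 1) (q' - 1) ∧
      (x : ℝ) * Real.sqrt g < q * q'}.ncard : ℕ) : ℝ) ≤
      ((⋃ t ∈ x3cT x g 1, x3cN x t.1 (t.1 + 2 + t.2.1 * t.2.2) t.2.1).ncard : ℝ) +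
      ((⋃ t ∈ x3cT x g 2, x3cN x (t.1 + t.2.1 * t.2.2 - 2) t.1 t.2.1).ncard : ℝ) := by
    exact_mod_cast h2
  have hg1 : (1 : ℝ) ≤ g := by exact_mod_cast hg
  have hs1 : 1 ≤ Real.sqrt g := Real.one_le_sqrt.2 hg1
  have hsg : Real.sqrt g ≤ g := by
    have h5 := Real.mul_self_sqrt (by linarith : (0 : ℝ) ≤ g)
    nlinarith
  have hinv : 1 / (g : ℝ) ≤ 1 / Real.sqrt g := one_div_le_one_div_of_le (by linarith) hsg
  have hlog : 1 ≤ Real.log x := by
    rw [Real.le_log_iff_exp_le (by positivity)]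
    have h5 := Real.exp_one_lt_d9
    have h6 : (3 : ℝ) ≤ x := by exact_mod_cast hx
    linarith
  have hx0 : (0 : ℝ) ≤ x := Nat.cast_nonneg x
  have h4 : (1 + Real.log x) ^ 2 ≤ 4 * Real.log x ^ 2 := by nlinarith
  have h5 : (2 / (g : ℝ) + 1 / Real.sqrt g) + (4 / (g : ℝ) + 2 / Real.sqrt g) ≤
      9 * (1 / Real.sqrt g) := by
    have e1 : 2 / (g : ℝ) = 2 * (1 / g) := by ring
    have e2 : 4 / (g : ℝ) = 4 * (1 / g) := by ring
    have e3 : 2 / Real.sqrt g = 2 * (1 / Real.sqrt g) := by ring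
    rw [e1, e2, e3]
    linarith
  have h6 : (0 : ℝ) ≤ x * (1 + Real.log x) ^ 2 := by positivity
  calc (({n : ℕ | 2 ≤ n ∧ n ≤ x ∧ n ∉ TWs x ∧ ∃ q q' : ℕ, q.Prime ∧ q'.Prime ∧ q ≠ q' ∧
      q ∣ n - 1 ∧ q' ∣ n + 1 ∧ g < Nat.gcd (q - 1) (q' - 1) ∧
      (x : ℝ) * Real.sqrt g < q * q'}.ncard : ℕ) : ℝ)
      ≤ ((2 / (g : ℝ) + 1 / Real.sqrt g) + (4 / (g : ℝ) + 2 / Real.sqrt g)) *
          (x * (1 + Real.log x) ^ 2) := by
        refine (h3.trans (add_le_add hn1 hn2)).trans (le_of_eq ?_)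
        ring
    _ ≤ 9 * (1 / Real.sqrt g) * (x * (1 + Real.log x) ^ 2) :=
        mul_le_mul_of_nonneg_right h5 h6
    _ ≤ 9 * (1 / Real.sqrt g) * (x * (4 * Real.log x ^ 2)) := by gcongr
    _ = 36 * (x * Real.log x ^ 2 / Real.sqrt g) := by ring

end Pool.Agent.H27.AP
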