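import Pool.Agent.H27.AP.Defs

/-!
# A large prime whose square divides `n ^ 2 - 1`
-/

set_option autoImplicit false

namespace Pool.Agent.H27.AP

/-- The number of `n ≤ x` with `q ^ 2 ∣ n ^ 2 - 1`, for an odd prime `q`. -/
lemma x4_count (x q : ℕ) (hq : q.Prime) (hq2 : 2 < q) :
    (((Finset.Icc 2 x).filter (fun n => q ^ 2 ∣ n ^ 2 - 1)).card : ℝ) ≤ 2 * x / (q : ℝ) ^ 2 := by
  classical
  have hq0 : (0 : ℝ) < q := by exact_mod_cast hq.pos
  rcases Nat.eq_zero_or_pos x with rfl | hx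
  · simp
  have h1 : (Finset.Icc 2 x).filter (fun n => q ^ 2 ∣ n ^ 2 - 1) ⊆
      ((Finset.Ioc 0 (x - 1)).filter (fun m => q ^ 2 ∣ m)).image (fun m => m + 1) ∪
      ((Finset.Ioc 0 (x + 1)).filter (fun m => q ^ 2 ∣ m)).image (fun m => m - 1) := by
    intro n hn
    rw [Finset.mem_filter, Finset.mem_Icc] at hn
    obtain ⟨⟨h2, h3⟩, h4⟩ := hn
    have h5 : n ^ 2 - 1 = (n + 1) * (n - 1) := by
      have := Nat.sq_sub_sq n 1
      simpa using this
    rw [h5] at h4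
    rw [Finset.mem_union]
    by_cases h6 : q ∣ n + 1
    · right
      have h7 : ¬ q ∣ n - 1 := by
        intro h8
        have h9 : q ∣ (n + 1) - (n - 1) := Nat.dvd_sub h6 h8
        have h10 : (n + 1) - (n - 1) = 2 := by omega
        rw [h10] at h9
        have := Nat.le_of_dvd (by norm_num) h9
        omega
      have h8 : Nat.Coprime (q ^ 2) (n - 1) :=
        Nat.Coprime.pow_left 2 ((Nat.Prime.coprime_iff_not_dvd hq).2 h7)
      have h9 : q ^ 2 ∣ n + 1 := h8.dvd_of_dvd_mul_right h4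
      rw [Finset.mem_image]
      refine ⟨n + 1, ?_, by omega⟩
      rw [Finset.mem_filter, Finset.mem_Ioc]
      exact ⟨⟨by omega, by omega⟩, h9⟩
    · left
      have h8 : Nat.Coprime (q ^ 2) (n + 1) :=
        Nat.Coprime.pow_left 2 ((Nat.Prime.coprime_iff_not_dvd hq).2 h6)
      have h9 : q ^ 2 ∣ n - 1 := h8.dvd_of_dvd_mul_left h4
      rw [Finset.mem_image]
      refine ⟨n - 1, ?_, by omega⟩
      rw [Finset.mem_filter, Finset.mem_Ioc]
      exact ⟨⟨by omega, by omega⟩, h9⟩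
  have h2 : ((Finset.Icc 2 x).filter (fun n => q ^ 2 ∣ n ^ 2 - 1)).card ≤
      (x - 1) / q ^ 2 + (x + 1) / q ^ 2 := by
    refine (Finset.card_le_card h1).trans ((Finset.card_union_le _ _).trans ?_)
    refine add_le_add ?_ ?_
    · refine Finset.card_image_le.trans ?_
      rw [Nat.Ioc_filter_dvd_card_eq_div]
    · refine Finset.card_image_le.trans ?_
      rw [Nat.Ioc_filter_dvd_card_eq_div]
  have h3 : (((x - 1) / q ^ 2 : ℕ) : ℝ) ≤ ((x - 1 : ℕ) : ℝ) / (q ^ 2 : ℕ) := Nat.cast_div_le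
  have h4 : (((x + 1) / q ^ 2 : ℕ) : ℝ) ≤ ((x + 1 : ℕ) : ℝ) / (q ^ 2 : ℕ) := Nat.cast_div_le
  have h5 : (((Finset.Icc 2 x).filter (fun n => q ^ 2 ∣ n ^ 2 - 1)).card : ℝ) ≤
      (((x - 1) / q ^ 2 : ℕ) : ℝ) + (((x + 1) / q ^ 2 : ℕ) : ℝ) := by exact_mod_cast h2
  calc (((Finset.Icc 2 x).filter (fun n => q ^ 2 ∣ n ^ 2 - 1)).card : ℝ)
      ≤ ((x - 1 : ℕ) : ℝ) / (q ^ 2 : ℕ) + ((x + 1 : ℕ) : ℝ) / (q ^ 2 : ℕ) :=
        h5.trans (add_le_add h3 h4)
    _ = 2 * x / (q : ℝ) ^ 2 := by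
        rw [Nat.cast_sub hx]
        push_cast
        rw [← add_div]
        congr 1
        ring

lemma x4_tele (y : ℕ) (hy : 1 ≤ y) (k : ℕ) :
    ∑ q ∈ Finset.Ioc y (y + k), 1 / (q : ℝ) ^ 2 ≤ 1 / (y : ℝ) - 1 / ((y + k : ℕ) : ℝ) := by
  induction k with
  | zero => simp
  | succ k ih =>
    rw [← add_assoc, Finset.sum_Ioc_succ_top (by omega)]
    have h1 : (0 : ℝ) < ((y + k : ℕ) : ℝ) := by
      have : 0 < y + k := by omega
      exact_mod_cast this
    have h2 : 1 / (((y + k + 1 : ℕ) : ℝ)) ^ 2 ≤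
        1 / ((y + k : ℕ) : ℝ) - 1 / ((y + k + 1 : ℕ) : ℝ) := by
      rw [Nat.cast_add_one (y + k), div_sub_div _ _ h1.ne' (by positivity),
        div_le_div_iff₀ (by positivity) (by positivity)]
      nlinarith
    linarith

theorem x4 : X4 := by
  classical
  intro x y hx hy
  let F : Finset ℕ := ((Finset.Ioc y (y + x)).filter Nat.Prime).biUnion fun q =>
    (Finset.Icc 2 x).filter (fun n => q ^ 2 ∣ n ^ 2 - 1)
  have hsub : {n : ℕ | 2 ≤ n ∧ n ≤ x ∧ ∃ q : ℕ, q.Prime ∧ y < q ∧ q ^ 2 ∣ n ^ 2 - 1} ⊆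
      (F : Set ℕ) := by
    rintro n ⟨hn2, hnx, q, hqp, hyq, hqn⟩
    rw [Finset.mem_coe, Finset.mem_biUnion]
    refine ⟨q, ?_, ?_⟩
    · rw [Finset.mem_filter, Finset.mem_Ioc]
      refine ⟨⟨hyq, ?_⟩, hqp⟩
      have h1 : q ^ 2 ≤ n ^ 2 - 1 := by
        apply Nat.le_of_dvd _ hqn
        have : 2 ^ 2 ≤ n ^ 2 := Nat.pow_le_pow_left hn2 2
        omega
      have h2 : q < n := by
        apply lt_of_pow_lt_pow_left₀ 2 (Nat.zero_le _)
        have : 2 ^ 2 ≤ n ^ 2 := Nat.pow_le_pow_left hn2 2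
        omega
      omega
    · rw [Finset.mem_filter, Finset.mem_Icc]
      exact ⟨⟨hn2, hnx⟩, hqn⟩
  have hE : ({n : ℕ | 2 ≤ n ∧ n ≤ x ∧ ∃ q : ℕ, q.Prime ∧ y < q ∧ q ^ 2 ∣ n ^ 2 - 1}.ncard : ℝ) ≤
      F.card := by
    have := Set.ncard_le_ncard hsub F.finite_toSet
    rw [Set.ncard_coe_finset] at this
    exact_mod_cast this
  have hy0 : (0 : ℝ) < y := by
    have : 0 < y := by omega
    exact_mod_cast this
  have hF : (F.card : ℝ) ≤ ∑ q ∈ (Finset.Ioc y (y + x)).filter Nat.Prime,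
      (((Finset.Icc 2 x).filter (fun n => q ^ 2 ∣ n ^ 2 - 1)).card : ℝ) := by
    exact_mod_cast Finset.card_biUnion_le
  refine hE.trans (hF.trans ?_)
  calc ∑ q ∈ (Finset.Ioc y (y + x)).filter Nat.Prime,
        (((Finset.Icc 2 x).filter (fun n => q ^ 2 ∣ n ^ 2 - 1)).card : ℝ)
      ≤ ∑ q ∈ (Finset.Ioc y (y + x)).filter Nat.Prime, (2 * x) * (1 / (q : ℝ) ^ 2) := by
        apply Finset.sum_le_sum
        intro q hq
        rw [Finset.mem_filter, Finset.mem_Ioc] at hq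
        refine (x4_count x q hq.2 (by omega)).trans (le_of_eq ?_)
        ring
    _ ≤ ∑ q ∈ Finset.Ioc y (y + x), (2 * x) * (1 / (q : ℝ) ^ 2) := by
        apply Finset.sum_le_sum_of_subset_of_nonneg (Finset.filter_subset _ _)
        intro q _ _
        positivity
    _ = (2 * x) * ∑ q ∈ Finset.Ioc y (y + x), 1 / (q : ℝ) ^ 2 := by rw [Finset.mul_sum]
    _ ≤ (2 * x) * (1 / (y : ℝ) - 1 / ((y + x : ℕ) : ℝ)) := by
        apply mul_le_mul_of_nonneg_left (x4_tele y (by omega) x) (by positivity)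
    _ ≤ (2 * x) * (1 / (y : ℝ)) := by
        apply mul_le_mul_of_nonneg_left _ (by positivity)
        have : (0 : ℝ) ≤ 1 / ((y + x : ℕ) : ℝ) := by positivity
        linarith
    _ ≤ 16 * x / y := by
        rw [mul_one_div]
        apply div_le_div_of_nonneg_right _ hy0.le
        have : (0 : ℝ) ≤ x := by positivity
        linarith

end Pool.Agent.H27.AP
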