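import Pool.Agent.H27.AP.Fin2
import Pool.Agent.H27.AP.Mert
import Pool.Agent.H27.AP.LF
import Pool.Agent.H27.AP.Br
import Pool.Agent.H27.AP.Brz
import Pool.Agent.H27.AP.AV
import Pool.Agent.H27.AP.S1
import Pool.Agent.H27.AP.S2
import Pool.Agent.H27.AP.TW
import Pool.Agent.H27.AP.X1
import Pool.Agent.H27.AP.Pig
import Pool.Agent.H27.AP.X2
import Pool.Agent.H27.AP.X3a
import Pool.Agent.H27.AP.X3b
import Pool.Agent.H27.AP.X3c
import Pool.Agent.H27.AP.X4
import Pool.Agent.H27.AP.Orb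
import Pool.Agent.H27.AP.Lcm

/-!
# All modules
-/

set_option autoImplicit false

namespace Pool.Agent.H27.AP

theorem main_all : Main :=
  have hbrz : BRz := brz br m1
  main_of (s1 hbrz m1 m2 (lf m1 m2 m3)) (s2 hbrz m1 m2 (av m1 m2)) (tw hbrz m1 m2) (x1 m1)
    (x2 pig) (x3_of x3A x3B x3C) x4 orb lcmS

end Pool.Agent.H27.AP
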