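import Pool.Agent.H27.AP.Core

/-!
# Asymptotic inequalities
-/

set_option autoImplicit false

open Pool.Agent.H27.ADS

namespace Pool.Agent.H27.AP

open Filter

theorem asy (a c : ℝ) (hc : 0 < c) :
    ∀ᶠ L : ℝ in atTop, a * Real.log L + a ≤ c * (L / (Real.log L) ^ 2) := by
  have h1 : (fun x : ℝ => Real.log x ^ 3) =o[atTop] (id : ℝ → ℝ) := Real.isLittleO_pow_log_id_atTop
  have h2 := h1.bound (show (0 : ℝ) < c / (2 * (|a| + 1)) by positivity)
  have h3 : ∀ᶠ L : ℝ in atTop, 1 ≤ Real.log L :=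
    Real.tendsto_log_atTop.eventually_ge_atTop 1
  filter_upwards [h2, h3, eventually_ge_atTop (1 : ℝ)] with L hL hl hL1
  rw [Real.norm_eq_abs, Real.norm_eq_abs, id, abs_of_nonneg (by positivity : 0 ≤ Real.log L ^ 3),
    abs_of_nonneg (by linarith : 0 ≤ L)] at hL
  have hl0 : 0 < Real.log L := by linarith
  have h4 : a * Real.log L + a ≤ 2 * (|a| + 1) * Real.log L := by
    have h5 : a ≤ |a| := le_abs_self a
    have h6 : 0 ≤ |a| := abs_nonneg a
    nlinarith
  refine h4.trans ?_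
  rw [← mul_div_assoc, le_div_iff₀ (by positivity)]
  calc 2 * (|a| + 1) * Real.log L * Real.log L ^ 2 = 2 * (|a| + 1) * Real.log L ^ 3 := by ring
    _ ≤ 2 * (|a| + 1) * (c / (2 * (|a| + 1)) * L) := by gcongr
    _ = c * L := by
      field_simp

/-- Everything of the form `b L ^ a exp (-c L / (log L) ^ 2)` is small. -/
theorem small (a b c : ℝ) (hb : 0 < b) (hc : 0 < c) :
    ∀ᶠ L : ℝ in atTop, b * L ^ a * Real.exp (-(c * (L / (Real.log L) ^ 2))) ≤
      1 / L ^ (11 / 10 : ℝ) := by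
  filter_upwards [asy (max (a + 11 / 10) (Real.log b)) c hc, eventually_gt_atTop (1 : ℝ),
    Real.tendsto_log_atTop.eventually_ge_atTop 1] with L hL hL1 hl
  have hL0 : 0 < L := by linarith
  rw [le_div_iff₀ (Real.rpow_pos_of_pos hL0 _)]
  have e1 : b * L ^ a * Real.exp (-(c * (L / (Real.log L) ^ 2))) * L ^ (11 / 10 : ℝ) =
      Real.exp (Real.log b + (a + 11 / 10) * Real.log L - c * (L / (Real.log L) ^ 2)) := by
    rw [Real.rpow_def_of_pos hL0, Real.rpow_def_of_pos hL0]
    conv_lhs => rw [← Real.exp_log hb]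
    rw [← Real.exp_add, ← Real.exp_add, ← Real.exp_add]
    congr 1
    ring
  rw [e1, ← Real.exp_zero]
  apply Real.exp_le_exp.mpr
  have h1 : (a + 11 / 10) * Real.log L ≤ max (a + 11 / 10) (Real.log b) * Real.log L :=
    mul_le_mul_of_nonneg_right (le_max_left _ _) (by linarith)
  have h2 : Real.log b ≤ max (a + 11 / 10) (Real.log b) := le_max_right _ _
  linarith

end Pool.Agent.H27.AP
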