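import Pool.Agent.H27.AP.Defs

/-!
# The deterministic part: two small prime divisors of an order
-/

set_option autoImplicit false

open Pool.Agent.H27.ADS

namespace Pool.Agent.H27.AP

open Finset

theorem mann_of_order {n : ℕ} (h : IsOrder n) (hns : ¬ IsSquare n) : Mann n := by
  obtain ⟨G, _, _, _, N, D, hD⟩ := h
  obtain ⟨D', hD', h0⟩ := hD.exists_normalised
  intro p hp hpn q hq hq2 hqn
  exact hD'.isSquare_zmod h0 hns hp hpn hq hq2 hqn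

theorem two_le_of_order {n : ℕ} (h : IsOrder n) : 2 ≤ n := by
  obtain ⟨G, _, _, _, N, D, hD⟩ := h
  exact hD.two_le

theorem hq_pos (p₁ p₂ q : ℕ) [NeZero q] : 0 < hq p₁ p₂ q := by
  unfold hq
  exact Nat.card_pos

theorem hq_dvd (p₁ p₂ q : ℕ) (hq' : q.Prime) : hq p₁ p₂ q ∣ q - 1 := by
  have : Fact q.Prime := ⟨hq'⟩
  unfold hq
  have h1 := Subgroup.card_subgroup_dvd_card
    (Subgroup.closure {u : (ZMod q)ˣ | (u : ZMod q) = (p₁ : ℕ) ∨ (u : ZMod q) = (p₂ : ℕ)})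
  rw [Nat.card_eq_fintype_card (α := (ZMod q)ˣ), ZMod.card_units] at h1
  exact h1

theorem smp_mul (y : ℕ) {a b : ℕ} (ha : a ≠ 0) (hb : b ≠ 0) :
    smp y (a * b) = smp y a * smp y b := by
  have key : ∀ m : ℕ, m ≠ 0 → ∀ s : Finset ℕ, m.primeFactors ⊆ s →
      smp y m = ∏ p ∈ s.filter (fun p => p ≤ y), p ^ (m.factorization p) := by
    intro m hm s hs
    unfold smp
    apply Finset.prod_subset (Finset.filter_subset_filter _ hs)
    intro p hp hp'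
    rw [mem_filter] at hp hp'
    have : p ∉ m.primeFactors := fun hc => hp' ⟨hc, hp.2⟩
    rw [← Nat.support_factorization, Finsupp.notMem_support_iff] at this
    rw [this, pow_zero]
  have hab : a * b ≠ 0 := mul_ne_zero ha hb
  rw [key (a * b) hab _ (subset_refl _),
    key a ha (a * b).primeFactors (Nat.primeFactors_mono (Nat.dvd_mul_right a b) hab),
    key b hb (a * b).primeFactors (Nat.primeFactors_mono (Nat.dvd_mul_left b a) hab),
    ← Finset.prod_mul_distrib]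
  refine Finset.prod_congr rfl fun p _ => ?_
  rw [Nat.factorization_mul ha hb, Finsupp.add_apply, pow_add]

theorem smp_split {y m : ℕ} (hm : m ≠ 0) (h : ∀ q : ℕ, q.Prime → y < q → ¬ q ^ 2 ∣ m) :
    m = smp y m * ∏ q ∈ m.primeFactors.filter (fun q => y < q), q := by
  have h1 := Nat.prod_factorization_pow_eq_self hm
  rw [Finsupp.prod, Nat.support_factorization] at h1
  rw [← Finset.prod_filter_mul_prod_filter_not m.primeFactors (fun p => p ≤ y)] at h1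
  conv_lhs => rw [← h1]
  unfold smp
  congr 1
  have h2 : m.primeFactors.filter (fun p => ¬ p ≤ y) = m.primeFactors.filter (fun q => y < q) := by
    simp only [not_le]
  rw [h2]
  refine Finset.prod_congr rfl fun q hq => ?_
  rw [mem_filter] at hq
  have hqp := Nat.prime_of_mem_primeFactors hq.1
  have h3 : m.factorization q = 1 := by
    have h4 : 1 ≤ m.factorization q :=
      (hqp.dvd_iff_one_le_factorization hm).mp (Nat.dvd_of_mem_primeFactors hq.1)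
    have h5 : ¬ 2 ≤ m.factorization q := by
      intro hc
      exact h q hqp hq.2 ((hqp.pow_dvd_iff_le_factorization hm).mpr hc)
    omega
  rw [h3, pow_one]

/-- The prime divisors of `n ^ 2 - 1` larger than `y`. -/
def SY (y n : ℕ) : Finset ℕ := (n ^ 2 - 1).primeFactors.filter (fun q => y < q)

theorem core (horb : Orb) (hlcm : LcmS) {n : ℕ} (hn : IsOrder n) (y g : ℕ) (hg : 1 ≤ g)
    {p₁ p₂ : ℕ} (hp₁ : p₁.Prime) (hp₂ : p₂.Prime) (h₁ : p₁ ∣ n) (h₂ : p₂ ∣ n)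
    (hX4 : ∀ q : ℕ, q.Prime → y < q → ¬ q ^ 2 ∣ n ^ 2 - 1)
    (hX2 : ∀ q : ℕ, q.Prime → y < q → q ∣ n ^ 2 - 1 → q ^ 3 ≤ (hq p₁ p₂ q) ^ 5)
    (hX3 : ∀ q q' : ℕ, q.Prime → q'.Prime → q ≠ q' → q ∣ n ^ 2 - 1 → q' ∣ n ^ 2 - 1 →
      y < q → y < q' → Nat.gcd (q - 1) (q' - 1) ≤ g)
    (hsum : ∑ q ∈ SY y n, ((n : ℝ) / Real.sqrt q + 1) < n) :
    (n ^ 2 - 1) ^ 3 ≤ (smp y (n ^ 2 - 1)) ^ 3 * (n * g ^ ((SY y n).card ^ 2)) ^ 5 := by
  set S := SY y n with hS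
  have hSmem : ∀ q ∈ S, q.Prime ∧ y < q ∧ q ∣ n ^ 2 - 1 := by
    intro q hq
    rw [hS, SY, mem_filter] at hq
    exact ⟨Nat.prime_of_mem_primeFactors hq.1, hq.2, Nat.dvd_of_mem_primeFactors hq.1⟩
  have hn2 := two_le_of_order hn
  have hm : n ^ 2 - 1 ≠ 0 := by
    have : 2 ^ 2 ≤ n ^ 2 := Nat.pow_le_pow_left hn2 2
    omega
  obtain ⟨k, hk0, hkn, hk⟩ := horb n hn p₁ p₂ hp₁ hp₂ h₁ h₂ S
    (fun q hq => ⟨(hSmem q hq).1, (hSmem q hq).2.2⟩) hsum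
  have h1 : ∏ q ∈ S, hq p₁ p₂ q ≤ k * g ^ (S.card ^ 2) := by
    refine hlcm S (hq p₁ p₂) g k ?_ hk0 hg ?_ hk
    · intro q hq
      have : NeZero q := ⟨(hSmem q hq).1.ne_zero⟩
      exact hq_pos p₁ p₂ q
    · intro q hq q' hq' hne
      obtain ⟨a1, a2, a3⟩ := hSmem q hq
      obtain ⟨b1, b2, b3⟩ := hSmem q' hq'
      refine le_trans (Nat.le_of_dvd ?_ (Nat.dvd_gcd
        ((Nat.gcd_dvd_left _ _).trans (hq_dvd p₁ p₂ q a1))
        ((Nat.gcd_dvd_right _ _).trans (hq_dvd p₁ p₂ q' b1)))) (hX3 q q' a1 b1 hne a3 b3 a2 b2)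
      exact Nat.gcd_pos_of_pos_left _ (by have := a1.two_le; omega)
  have h2 : (∏ q ∈ S, q) ^ 3 ≤ (∏ q ∈ S, hq p₁ p₂ q) ^ 5 := by
    rw [← Finset.prod_pow, ← Finset.prod_pow]
    exact Finset.prod_le_prod' fun q hq =>
      hX2 q (hSmem q hq).1 (hSmem q hq).2.1 (hSmem q hq).2.2
  have h3 : n ^ 2 - 1 = smp y (n ^ 2 - 1) * ∏ q ∈ S, q := smp_split hm hX4
  calc (n ^ 2 - 1) ^ 3 = (smp y (n ^ 2 - 1) * ∏ q ∈ S, q) ^ 3 := by rw [← h3]
    _ = (smp y (n ^ 2 - 1)) ^ 3 * (∏ q ∈ S, q) ^ 3 := by rw [mul_pow]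
    _ ≤ (smp y (n ^ 2 - 1)) ^ 3 * (∏ q ∈ S, hq p₁ p₂ q) ^ 5 := Nat.mul_le_mul_left _ h2
    _ ≤ _ := Nat.mul_le_mul_left _ (Nat.pow_le_pow_left
        (h1.trans (Nat.mul_le_mul_right _ hkn)) 5)

end Pool.Agent.H27.AP
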