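import Pool.Agent.H27.ADS.Struct

/-!
# Almost all orders of abelian affine difference sets are prime powers: statements

Every `def ... : Prop` below is the statement of one module of the proof.
Convention: `L = log x`.
-/

set_option autoImplicit false

open Pool.Agent.H27.ADS

namespace Pool.Agent.H27.AP

/-- The large constant. -/
def KK : ℝ := 3000

/-- `y = exp (L / (K log L))` -/
noncomputable def yy (x : ℝ) : ℝ := Real.exp (Real.log x / (KK * Real.log (Real.log x)))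

/-- `T = exp (L / (K ^ 2 log L))` -/
noncomputable def TT (x : ℝ) : ℝ := Real.exp (Real.log x / (KK ^ 2 * Real.log (Real.log x)))

/-- `T₁ = exp (L ^ (1/2))` -/
noncomputable def T1 (x : ℝ) : ℝ := Real.exp (Real.sqrt (Real.log x))

/-- `w = exp (L ^ (1/4))` -/
noncomputable def ww (x : ℝ) : ℝ := Real.exp (Real.log x ^ (1 / 4 : ℝ))

/-- The primes up to `z`. -/
noncomputable def PZ (z : ℝ) : Finset ℕ := (Finset.Icc 1 ⌊z⌋₊).filter Nat.Prime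

/-- The primes `q ≠ 2` up to `z` modulo which `p` is not a square. -/
noncomputable def NZ (p : ℕ) (z : ℝ) : Finset ℕ :=
  open Classical in (PZ z).filter (fun q => q ≠ 2 ∧ ¬ IsSquare ((p : ℕ) : ZMod q))

/-- The order of the subgroup of the units modulo `q` generated by `p₁` and `p₂`. -/
noncomputable def hq (p₁ p₂ q : ℕ) : ℕ :=
  Nat.card (Subgroup.closure {u : (ZMod q)ˣ | (u : ZMod q) = (p₁ : ℕ) ∨ (u : ZMod q) = (p₂ : ℕ)})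

/-- The `y`-smooth part of `m`. -/
noncomputable def smp (y m : ℕ) : ℕ :=
  ∏ p ∈ m.primeFactors.filter (fun p => p ≤ y), p ^ (m.factorization p)

/-- Prime divisors of `n` are squares modulo odd prime divisors of `n - 1`. -/
def Mann (n : ℕ) : Prop :=
  ∀ p : ℕ, p.Prime → p ∣ n → ∀ q : ℕ, q.Prime → q ≠ 2 → q ∣ n - 1 → IsSquare ((p : ℕ) : ZMod q)

/-! ### Sums and products over primes -/

/-- Mertens, upper bound for the sum of `1 / q`. -/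
def M1 : Prop := ∀ z : ℝ, 2 ≤ z → ∑ q ∈ PZ z, 1 / (q : ℝ) ≤ 3 * Real.log (1 + Real.log z)

/-- Mertens, upper bound for the product of `1 - 1 / q`. -/
def M2 : Prop := ∀ z : ℝ, 2 ≤ z → ∏ q ∈ PZ z, (1 - 1 / (q : ℝ)) ≤ 1 / Real.log z

/-- Mertens, upper bound for the sum of `log q / q`. -/
def M3 : Prop := ∀ z : ℝ, 2 ≤ z → ∑ q ∈ PZ z, Real.log q / (q : ℝ) ≤ Real.log z + 2

/-- Uniform bound for the product over the primes modulo which `p` is not a square. -/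
def LF : Prop := ∃ C : ℝ, 0 < C ∧ ∀ p : ℕ, p.Prime → ∀ z : ℝ, 2 ≤ z →
  ∏ q ∈ NZ p z, (1 - 1 / (q : ℝ)) ≤ C * Real.sqrt (Real.log (8 * p) / Real.log z)

/-! ### Brun's pure sieve -/

/-- Brun's pure sieve. -/
def BR : Prop := ∀ (P : Finset ℕ) (Om : (q : ℕ) → Finset (ZMod q)) (N r : ℕ),
  (∀ q ∈ P, q.Prime) → (∀ q ∈ P, (Om q).card ≤ 2) →
  ({k : ℕ | 1 ≤ k ∧ k ≤ N ∧ ∀ q ∈ P, (k : ZMod q) ∉ Om q}.ncard : ℝ) ≤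
    N * ∏ q ∈ P, (1 - ((Om q).card : ℝ) / q)
    + N * ((∑ q ∈ P, ((Om q).card : ℝ) / q) ^ (2 * r + 1) / (2 * r + 1).factorial)
    + (1 + 2 * (P.card : ℝ)) ^ (2 * r)

/-- The same with the level `T = exp (L / (K ^ 2 log L))`. -/
def BRz : Prop := ∃ x₀ : ℝ, ∀ x : ℝ, x₀ ≤ x →
  ∀ (P : Finset ℕ) (Om : (q : ℕ) → Finset (ZMod q)) (N : ℕ),
  (∀ q ∈ P, q.Prime ∧ (q : ℝ) ≤ TT x) → (∀ q ∈ P, (Om q).card ≤ 2) → (N : ℝ) ≤ x →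
  ({k : ℕ | 1 ≤ k ∧ k ≤ N ∧ ∀ q ∈ P, (k : ZMod q) ∉ Om q}.ncard : ℝ) ≤
    N * ∏ q ∈ P, (1 - ((Om q).card : ℝ) / q) + N / Real.log x ^ 5 + x ^ (1 / 4 : ℝ)

/-- Average over the primes `p` of `(A, 2A]` of the product over the primes `q ≤ w` modulo which
`p` is not a square. -/
def AV : Prop := ∃ C x₀ : ℝ, 0 < C ∧ ∀ x : ℝ, x₀ ≤ x → ∀ A : ℝ, T1 x ≤ A → A ≤ x →
  ∑ p ∈ (PZ (2 * A)).filter (fun p : ℕ => A < (p : ℝ)), ∏ q ∈ NZ p (ww x), (1 - 1 / (q : ℝ)) ≤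
    C * A * (Real.log (Real.log x) / Real.log A) * Real.log x ^ (-(1 / 8) : ℝ)

/-! ### The integers with at most one small prime divisor -/

/-- One prime divisor at most `T₁`, all others larger than `T`. -/
def S1 : Prop := ∃ C : ℝ, 0 < C ∧ ∀ x : ℕ, 3 ≤ x →
  ({n : ℕ | 2 ≤ n ∧ n ≤ x ∧ Mann n ∧ ∃ p : ℕ, p.Prime ∧ p ∣ n ∧ (p : ℝ) ≤ T1 x ∧
    ∀ p' : ℕ, p'.Prime → p' ∣ n → p' ≠ p → TT x < p'}.ncard : ℝ) ≤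
    C * (x / Real.log x ^ (11 / 10 : ℝ))

/-- All prime divisors larger than `T₁`, at most one of them at most `T`. -/
def S2 : Prop := ∃ C : ℝ, 0 < C ∧ ∀ x : ℕ, 3 ≤ x →
  ({n : ℕ | 2 ≤ n ∧ n ≤ x ∧ Mann n ∧ ¬ n.Prime ∧ (∀ p : ℕ, p.Prime → p ∣ n → T1 x < p) ∧
    ∀ p p' : ℕ, p.Prime → p'.Prime → p ∣ n → p' ∣ n → (p : ℝ) ≤ TT x → (p' : ℝ) ≤ TT x →
      p = p'}.ncard : ℝ) ≤ C * (x / Real.log x ^ (11 / 10 : ℝ))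

/-! ### The exceptional sets for the integers with two small prime divisors -/

/-- The set `n - 1 = q a`, `n + 1 = q' (a + 2)` with primes `q`, `q'`. -/
def TWs (x : ℕ) : Set ℕ := {n : ℕ | 2 ≤ n ∧ n ≤ x ∧ ∃ a q q' : ℕ, 1 ≤ a ∧ q.Prime ∧ q'.Prime ∧
  n - 1 = q * a ∧ n + 1 = q' * (a + 2)}

/-- Its size. -/
def TW : Prop := ∃ C : ℝ, 0 < C ∧ ∀ x : ℕ, 3 ≤ x →
  ((TWs x).ncard : ℝ) ≤ C * (x / Real.log x ^ (3 / 2 : ℝ))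

/-- Large smooth part. -/
def X1 : Prop := ∀ (x y : ℕ) (X₀ : ℝ), 2 ≤ x → 2 ≤ y → 1 ≤ X₀ →
  ({m : ℕ | 1 ≤ m ∧ m ≤ x ∧ X₀ < smp y m}.ncard : ℝ) ≤
    x * (1 + Real.log x) ^ 20 * (2 / 3 : ℝ) ^ (Real.log X₀ / Real.log y)

/-- Few primes modulo which two given primes generate a small subgroup. -/
def PIG : Prop := ∀ p₁ p₂ T Y B : ℕ, p₁.Prime → p₂.Prime → p₁ ≠ p₂ → p₁ ≤ T → p₂ ≤ T → 1 ≤ B →
  ∀ S : Finset ℕ, (∀ q ∈ S, q.Prime ∧ Y < q ∧ q ≠ p₁ ∧ q ≠ p₂ ∧ hq p₁ p₂ q < (B + 1) ^ 2) →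
  Y ^ S.card ≤ T ^ (4 * B * (B + 1) ^ 2)

/-- A prime divisor of `n ^ 2 - 1` modulo which two small prime divisors of `n` generate a small
subgroup. -/
def X2 : Prop := ∀ x y T : ℕ, 1 ≤ x → 2 ≤ T → T ≤ y →
  ({n : ℕ | 2 ≤ n ∧ n ≤ x ∧ ∃ q p₁ p₂ : ℕ, q.Prime ∧ y < q ∧ q ∣ n ^ 2 - 1 ∧ p₁.Prime ∧ p₂.Prime ∧
    p₁ ≠ p₂ ∧ p₁ ≤ T ∧ p₂ ≤ T ∧ p₁ ∣ n ∧ p₂ ∣ n ∧ (hq p₁ p₂ q) ^ 5 < q ^ 3}.ncard : ℝ) ≤
    2 ^ 20 * T ^ 2 * x / (y : ℝ) ^ (1 / 10 : ℝ)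

/-- Two prime divisors of `n ^ 2 - 1` with a large `gcd (q - 1, q' - 1)`. -/
def X3 : Prop := ∃ C : ℝ, 0 < C ∧ ∀ x g : ℕ, 3 ≤ x → 1 ≤ g →
  ({n : ℕ | 2 ≤ n ∧ n ≤ x ∧ n ∉ TWs x ∧ ∃ q q' : ℕ, q.Prime ∧ q'.Prime ∧ q ≠ q' ∧
    q ∣ n ^ 2 - 1 ∧ q' ∣ n ^ 2 - 1 ∧ g < Nat.gcd (q - 1) (q' - 1)}.ncard : ℝ) ≤
    C * (x * Real.log x ^ 2 / Real.sqrt g)

/-- A large prime whose square divides `n ^ 2 - 1`. -/
def X4 : Prop := ∀ x y : ℕ, 1 ≤ x → 2 ≤ y →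
  ({n : ℕ | 2 ≤ n ∧ n ≤ x ∧ ∃ q : ℕ, q.Prime ∧ y < q ∧ q ^ 2 ∣ n ^ 2 - 1}.ncard : ℝ) ≤
    16 * x / y

/-! ### The multiplier group -/

/-- The size of a suitable orbit of the multipliers. -/
def Orb : Prop := ∀ n : ℕ, IsOrder n → ∀ p₁ p₂ : ℕ, p₁.Prime → p₂.Prime → p₁ ∣ n → p₂ ∣ n →
  ∀ S : Finset ℕ, (∀ q ∈ S, q.Prime ∧ q ∣ n ^ 2 - 1) →
  ∑ q ∈ S, ((n : ℝ) / Real.sqrt q + 1) < n →
  ∃ k : ℕ, 0 < k ∧ k ≤ n ∧ ∀ q ∈ S, hq p₁ p₂ q ∣ k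

/-- Lower bound for a common multiple. -/
def LcmS : Prop := ∀ (S : Finset ℕ) (h : ℕ → ℕ) (g k : ℕ), (∀ i ∈ S, 0 < h i) → 0 < k → 1 ≤ g →
  (∀ i ∈ S, ∀ j ∈ S, i ≠ j → Nat.gcd (h i) (h j) ≤ g) → (∀ i ∈ S, h i ∣ k) →
  ∏ i ∈ S, h i ≤ k * g ^ (S.card ^ 2)

/-- **Main theorem**: all but `O(x / (log x) ^ (11/10))` of the orders up to `x` are prime
powers. -/
def Main : Prop := ∃ C : ℝ, 0 < C ∧ ∀ x : ℕ, 2 ≤ x →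
  ({n : ℕ | n ≤ x ∧ IsOrder n ∧ ¬ IsPrimePow n}.ncard : ℝ) ≤
    C * (x / Real.log x ^ (11 / 10 : ℝ))

end Pool.Agent.H27.AP
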