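import Pool.Agent.H27.AP.Fin1

/-!
# Assembly
-/

set_option autoImplicit false

open Pool.Agent.H27.ADS

namespace Pool.Agent.H27.AP

open Filter

theorem KK_pos : (0 : ℝ) < KK := by unfold KK; norm_num

/-- `small` in terms of `x`, with a factor `x`. -/
theorem small_x (a b c : ℝ) (hb : 0 < b) (hc : 0 < c) :
    ∀ᶠ x : ℝ in atTop, b * Real.log x ^ a *
      Real.exp (-(c * (Real.log x / (Real.log (Real.log x)) ^ 2))) * x ≤
      x / Real.log x ^ (11 / 10 : ℝ) := by
  filter_upwards [Real.tendsto_log_atTop.eventually (small a b c hb hc),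
    eventually_ge_atTop (0 : ℝ)] with x hx h0
  calc _ ≤ 1 / Real.log x ^ (11 / 10 : ℝ) * x := mul_le_mul_of_nonneg_right hx h0
    _ = _ := by ring

theorem ll_ge (c : ℝ) : ∀ᶠ x : ℝ in atTop, c ≤ Real.log (Real.log x) :=
  Real.tendsto_log_atTop.eventually (Real.tendsto_log_atTop.eventually_ge_atTop c)

theorem l_ge (c : ℝ) : ∀ᶠ x : ℝ in atTop, c ≤ Real.log x :=
  Real.tendsto_log_atTop.eventually_ge_atTop c

/-- `L / (c log L)` is eventually large. -/
theorem l_div_ll (c B : ℝ) (hc : 0 < c) :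
    ∀ᶠ x : ℝ in atTop, B ≤ Real.log x / (c * Real.log (Real.log x)) := by
  filter_upwards [Real.tendsto_log_atTop.eventually (asy (max B 0) (1 / c) (by positivity)),
    ll_ge 1, l_ge 1] with x h1 h2 h3
  have h4 : B ≤ max B 0 * Real.log (Real.log x) + max B 0 := by
    have h5 : B ≤ max B 0 := le_max_left _ _
    have h6 : 0 ≤ max B 0 := le_max_right _ _
    nlinarith
  refine h4.trans (h1.trans ?_)
  rw [div_mul_div_comm, one_mul]
  apply div_le_div_of_nonneg_left (by linarith) (by positivity)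
  apply mul_le_mul_of_nonneg_left _ hc.le
  nlinarith

theorem yy_ge (B : ℝ) : ∀ᶠ x : ℝ in atTop, B ≤ yy x := by
  filter_upwards [l_div_ll KK (max B 1) KK_pos] with x hx
  unfold yy
  have h1 := Real.add_one_le_exp (Real.log x / (KK * Real.log (Real.log x)))
  have h2 := le_max_left B 1
  linarith

theorem TT_ge (B : ℝ) : ∀ᶠ x : ℝ in atTop, B ≤ TT x := by
  filter_upwards [l_div_ll (KK ^ 2) (max B 1) (pow_pos KK_pos 2)] with x hx
  unfold TT
  have h1 := Real.add_one_le_exp (Real.log x / (KK ^ 2 * Real.log (Real.log x)))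
  have h2 := le_max_left B 1
  linarith

theorem TT_le_yy : ∀ᶠ x : ℝ in atTop, TT x ≤ yy x := by
  filter_upwards [ll_ge 1, l_ge 1] with x h2 h3
  unfold TT yy
  apply Real.exp_le_exp.mpr
  have hK := KK_pos
  apply div_le_div_of_nonneg_left (by linarith) (by positivity)
  apply mul_le_mul_of_nonneg_right _ (by linarith)
  unfold KK
  norm_num

theorem T1_le_TT : ∀ᶠ x : ℝ in atTop, T1 x ≤ TT x := by
  have h0 : (fun x : ℝ => Real.log x) =o[atTop] (fun x : ℝ => x ^ (1 / 2 : ℝ)) :=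
    isLittleO_log_rpow_atTop (by norm_num)
  have hK := KK_pos
  have h1 := h0.bound (show (0 : ℝ) < 1 / KK ^ 2 by positivity)
  filter_upwards [Real.tendsto_log_atTop.eventually h1, ll_ge 1, l_ge 1] with x h1 h2 h3
  unfold TT T1
  apply Real.exp_le_exp.mpr
  rw [Real.norm_eq_abs, Real.norm_eq_abs, abs_of_nonneg (by linarith),
    abs_of_nonneg (Real.rpow_nonneg (by linarith) _), ← Real.sqrt_eq_rpow] at h1
  rw [le_div_iff₀ (by positivity)]
  have h4 : KK ^ 2 * Real.log (Real.log x) ≤ Real.sqrt (Real.log x) := by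
    calc KK ^ 2 * Real.log (Real.log x) ≤ KK ^ 2 * (1 / KK ^ 2 * Real.sqrt (Real.log x)) := by
          gcongr
      _ = Real.sqrt (Real.log x) := by field_simp
  calc Real.sqrt (Real.log x) * (KK ^ 2 * Real.log (Real.log x)) ≤
        Real.sqrt (Real.log x) * Real.sqrt (Real.log x) := by gcongr
    _ = Real.log x := Real.mul_self_sqrt (by linarith)

/-- half of a large real is below its floor -/
theorem half_le_floor {a : ℝ} (ha : 2 ≤ a) : a / 2 ≤ (⌊a⌋₊ : ℝ) := by
  have := Nat.lt_floor_add_one a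
  linarith

/-! ### The sizes of the exceptional sets -/

theorem szA0 : ∀ᶠ x : ℕ in atTop, Real.sqrt x + 1 ≤ x / Real.log x ^ (11 / 10 : ℝ) := by
  have h := small_x 0 2 (1 / 2) (by norm_num) (by norm_num)
  have h' := tendsto_natCast_atTop_atTop (R := ℝ) |>.eventually
    (h.and ((ll_ge 1).and ((l_ge 1).and (eventually_ge_atTop (1 : ℝ)))))
  filter_upwards [h'] with x ⟨h1, h2, h3, h4⟩
  refine le_trans ?_ h1
  have hx0 : (0 : ℝ) < x := by linarith
  have h5 : Real.sqrt x = Real.exp (-(Real.log x / 2)) * x := by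
    rw [Real.sqrt_eq_rpow, Real.rpow_def_of_pos hx0]
    conv_rhs => rw [← Real.exp_log hx0, Real.exp_log hx0]
    nth_rewrite 3 [← Real.exp_log hx0]
    rw [← Real.exp_add]
    congr 1
    ring
  have h6 : 1 ≤ Real.sqrt x := by rw [Real.one_le_sqrt]; exact h4
  rw [Real.rpow_zero, mul_one]
  have h7 : Real.exp (-(Real.log x / 2)) ≤
      Real.exp (-(1 / 2 * (Real.log x / Real.log (Real.log x) ^ 2))) := by
    apply Real.exp_le_exp.mpr
    rw [neg_le_neg_iff]
    have h8 : Real.log x / Real.log (Real.log x) ^ 2 ≤ Real.log x := by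
      apply div_le_self (by linarith)
      nlinarith
    linarith
  calc Real.sqrt x + 1 ≤ 2 * Real.sqrt x := by linarith
    _ = 2 * (Real.exp (-(Real.log x / 2)) * x) := by rw [h5]
    _ ≤ 2 * (Real.exp (-(1 / 2 * (Real.log x / Real.log (Real.log x) ^ 2))) * x) := by gcongr
    _ = _ := by ring

/-- `exp (-(c L / log L))` with a factor `x` -/
theorem small_y (b c : ℝ) (hb : 0 < b) (hc : 0 < c) :
    ∀ᶠ x : ℝ in atTop, b * Real.exp (-(c * (Real.log x / Real.log (Real.log x)))) * x ≤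
      x / Real.log x ^ (11 / 10 : ℝ) := by
  filter_upwards [small_x 0 b c hb hc, ll_ge 1, l_ge 1, eventually_ge_atTop (1 : ℝ)]
    with x h1 h2 h3 h4
  refine le_trans ?_ h1
  rw [Real.rpow_zero, mul_one]
  have h8 : Real.log x / Real.log (Real.log x) ^ 2 ≤ Real.log x / Real.log (Real.log x) := by
    apply div_le_div_of_nonneg_left (by linarith) (by linarith)
    nlinarith
  gcongr

theorem floor_yy_inv : ∀ᶠ x : ℝ in atTop, 2 ≤ ⌊yy x⌋₊ ∧
    (1 : ℝ) / (⌊yy x⌋₊ : ℝ) ≤ 2 * Real.exp (-(1 / KK * (Real.log x / Real.log (Real.log x)))) := by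
  filter_upwards [yy_ge 2, ll_ge 1, l_ge 1] with x h1 h2 h3
  have h4 := half_le_floor h1
  have hK := KK_pos
  refine ⟨Nat.le_floor (by exact_mod_cast h1), ?_⟩
  have h5 : yy x = Real.exp (1 / KK * (Real.log x / Real.log (Real.log x))) := by
    unfold yy
    rw [div_mul_div_comm, one_mul]
  have h0 : 0 < yy x := by unfold yy; positivity
  calc (1 : ℝ) / (⌊yy x⌋₊ : ℝ) ≤ 1 / (yy x / 2) := by gcongr
    _ = 2 * (yy x)⁻¹ := by field_simp
    _ = _ := by rw [h5, Real.exp_neg]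

theorem szA7 : ∀ᶠ x : ℝ in atTop, 16 * x / (⌊yy x⌋₊ : ℝ) ≤ x / Real.log x ^ (11 / 10 : ℝ) := by
  filter_upwards [small_y 32 (1 / KK) (by norm_num) (div_pos one_pos KK_pos), floor_yy_inv,
    eventually_ge_atTop (0 : ℝ)] with x h1 h2 h3
  refine le_trans ?_ h1
  calc 16 * x / (⌊yy x⌋₊ : ℝ) = 16 * x * (1 / (⌊yy x⌋₊ : ℝ)) := by ring
    _ ≤ 16 * x * (2 * Real.exp (-(1 / KK * (Real.log x / Real.log (Real.log x))))) := by
        gcongr; exact h2.2
    _ = _ := by ring

theorem szA4 : ∀ᶠ x : ℝ in atTop, 2 ^ 20 * (⌊TT x⌋₊ : ℝ) ^ 2 * x / (⌊yy x⌋₊ : ℝ) ^ (1 / 10 : ℝ) ≤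
    x / Real.log x ^ (11 / 10 : ℝ) := by
  filter_upwards [small_y (2 ^ 21) (1 / (20 * KK)) (by norm_num)
    (div_pos one_pos (mul_pos (by norm_num) KK_pos)), yy_ge 2, ll_ge 1, l_ge 1,
    eventually_ge_atTop (0 : ℝ)] with x h1 h2 h3 h4 h5
  refine le_trans ?_ h1
  have hK := KK_pos
  have h6 := half_le_floor h2
  have h0 : 0 < yy x := by unfold yy; positivity
  set l := Real.log (Real.log x) with hl
  set L := Real.log x with hL
  have e1 : yy x = Real.exp (1 / KK * (L / l)) := by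
    unfold yy
    rw [div_mul_div_comm, one_mul]
  have e2 : TT x = Real.exp (1 / KK ^ 2 * (L / l)) := by
    unfold TT
    rw [div_mul_div_comm, one_mul]
  have e3 : (⌊TT x⌋₊ : ℝ) ≤ Real.exp (1 / KK ^ 2 * (L / l)) := by
    rw [← e2]
    exact Nat.floor_le (by unfold TT; positivity)
  have e4 : Real.exp (1 / (10 * KK) * (L / l)) / 2 ≤ (⌊yy x⌋₊ : ℝ) ^ (1 / 10 : ℝ) := by
    calc Real.exp (1 / (10 * KK) * (L / l)) / 2
        ≤ Real.exp (1 / (10 * KK) * (L / l)) / 2 ^ (1 / 10 : ℝ) := by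
          apply div_le_div_of_nonneg_left (Real.exp_pos _).le (by positivity)
          calc (2 : ℝ) ^ (1 / 10 : ℝ) ≤ 2 ^ (1 : ℝ) :=
                Real.rpow_le_rpow_of_exponent_le (by norm_num) (by norm_num)
            _ = 2 := Real.rpow_one 2
      _ = (yy x / 2) ^ (1 / 10 : ℝ) := by
          rw [Real.div_rpow h0.le (by norm_num), e1, ← Real.exp_mul]
          congr 2
          field_simp
      _ ≤ _ := Real.rpow_le_rpow (by positivity) h6 (by norm_num)
  have e5 : Real.exp (1 / KK ^ 2 * (L / l)) ^ 2 / Real.exp (1 / (10 * KK) * (L / l)) ≤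
      Real.exp (-(1 / (20 * KK) * (L / l))) := by
    rw [← Real.exp_nat_mul, ← Real.exp_sub]
    apply Real.exp_le_exp.mpr
    have e6 : 0 ≤ L / l := by positivity
    have e7 : (2 : ℝ) * (1 / KK ^ 2) - 1 / (10 * KK) ≤ -(1 / (20 * KK)) := by
      unfold KK
      norm_num
    push_cast
    nlinarith
  calc 2 ^ 20 * (⌊TT x⌋₊ : ℝ) ^ 2 * x / (⌊yy x⌋₊ : ℝ) ^ (1 / 10 : ℝ) ≤
        2 ^ 20 * Real.exp (1 / KK ^ 2 * (L / l)) ^ 2 * x /
          (Real.exp (1 / (10 * KK) * (L / l)) / 2) := by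
        gcongr
    _ = 2 ^ 21 * (Real.exp (1 / KK ^ 2 * (L / l)) ^ 2 / Real.exp (1 / (10 * KK) * (L / l))) * x := by
        field_simp
    _ ≤ 2 ^ 21 * Real.exp (-(1 / (20 * KK) * (L / l))) * x := by gcongr

theorem szA5 (C : ℝ) (hC : 0 < C) : ∀ᶠ x : ℝ in atTop, 1 ≤ ⌊gg x⌋₊ ∧
    C * (x * Real.log x ^ 2 / Real.sqrt (⌊gg x⌋₊ : ℝ)) ≤ x / Real.log x ^ (11 / 10 : ℝ) := by
  have hK := KK_pos
  filter_upwards [small_x 2 (2 * C) (1 / (200 * KK ^ 2)) (by positivity) (by positivity), ll_ge 1,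
    l_ge 1, eventually_ge_atTop (0 : ℝ),
    Real.tendsto_log_atTop.eventually (asy 1 (1 / (100 * KK ^ 2)) (by positivity))]
    with x h1 h3 h4 h5 h6
  set l := Real.log (Real.log x) with hl
  set L := Real.log x with hL
  have e1 : gg x = Real.exp (1 / (100 * KK ^ 2) * (L / l ^ 2)) := by
    unfold gg
    rw [div_mul_div_comm, one_mul]
  have e2 : 2 ≤ gg x := by
    rw [e1]
    have := Real.add_one_le_exp (1 / (100 * KK ^ 2) * (L / l ^ 2))
    linarith
  refine ⟨Nat.le_floor (by push_cast; linarith), le_trans ?_ h1⟩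
  have h6 := half_le_floor e2
  have h0 : 0 < gg x := by linarith
  have e4 : Real.exp (1 / (200 * KK ^ 2) * (L / l ^ 2)) / 2 ≤ Real.sqrt (⌊gg x⌋₊ : ℝ) := by
    apply Real.le_sqrt_of_sq_le
    rw [div_pow, ← Real.exp_nat_mul]
    calc Real.exp (((2 : ℕ) : ℝ) * (1 / (200 * KK ^ 2) * (L / l ^ 2))) / 2 ^ 2 =
          gg x / 2 ^ 2 := by
          rw [e1]
          congr 2
          push_cast
          field_simp
          ring
      _ ≤ gg x / 2 := by
          apply div_le_div_of_nonneg_left h0.le (by norm_num) (by norm_num)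
      _ ≤ _ := h6
  have e5 : Real.log x ^ (2 : ℝ) = L ^ 2 := Real.rpow_two L
  calc C * (x * L ^ 2 / Real.sqrt (⌊gg x⌋₊ : ℝ)) ≤
        C * (x * L ^ 2 / (Real.exp (1 / (200 * KK ^ 2) * (L / l ^ 2)) / 2)) := by
        gcongr
    _ = 2 * C * L ^ 2 * (Real.exp (1 / (200 * KK ^ 2) * (L / l ^ 2)))⁻¹ * x := by
        field_simp
    _ = _ := by rw [e5, Real.exp_neg]

theorem szA2 : ∀ᶠ x : ℝ in atTop, ∀ N : ℝ, x ≤ N → N ≤ 2 * x →
    N * (1 + Real.log N) ^ 20 *
      (2 / 3 : ℝ) ^ (Real.log (Real.exp (Real.log x / 40)) / Real.log (⌊yy x⌋₊ : ℝ)) ≤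
      x / Real.log x ^ (11 / 10 : ℝ) := by
  have hK := KK_pos
  filter_upwards [ll_ge 1, l_ge (2 * 3 ^ 20), eventually_ge_atTop (1 : ℝ), floor_yy_inv]
    with x h3 h4 h5 h6 N hN1 hN2
  set l := Real.log (Real.log x) with hl
  set L := Real.log x with hL
  have hL1 : 1 ≤ L := le_trans (by norm_num) h4
  have hLl : Real.exp l = L := Real.exp_log (by linarith)
  have e1 : Real.log (⌊yy x⌋₊ : ℝ) ≤ L / (KK * l) := by
    have : (⌊yy x⌋₊ : ℝ) ≤ yy x := Nat.floor_le (by unfold yy; positivity)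
    calc Real.log (⌊yy x⌋₊ : ℝ) ≤ Real.log (yy x) := by
          apply Real.log_le_log _ this
          have := h6.1
          positivity
      _ = L / (KK * l) := by unfold yy; rw [Real.log_exp]
  have e2 : 0 < Real.log (⌊yy x⌋₊ : ℝ) := by
    apply Real.log_pos
    have := h6.1
    exact_mod_cast (by omega : 1 < ⌊yy x⌋₊)
  have e3 : 75 * l ≤ Real.log (Real.exp (L / 40)) / Real.log (⌊yy x⌋₊ : ℝ) := by
    rw [Real.log_exp, le_div_iff₀ e2]
    calc 75 * l * Real.log (⌊yy x⌋₊ : ℝ) ≤ 75 * l * (L / (KK * l)) := by gcongr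
      _ = L / 40 := by unfold KK; field_simp; ring
  have e4 : (2 / 3 : ℝ) ^ (Real.log (Real.exp (L / 40)) / Real.log (⌊yy x⌋₊ : ℝ)) ≤
      Real.exp (-(25 * l)) := by
    calc (2 / 3 : ℝ) ^ (Real.log (Real.exp (L / 40)) / Real.log (⌊yy x⌋₊ : ℝ)) ≤
          (2 / 3 : ℝ) ^ (75 * l) :=
          Real.rpow_le_rpow_of_exponent_ge (by norm_num) (by norm_num) e3
      _ = Real.exp (Real.log (2 / 3) * (75 * l)) := Real.rpow_def_of_pos (by norm_num) _
      _ ≤ Real.exp (-(25 * l)) := by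
          apply Real.exp_le_exp.mpr
          have : Real.log (2 / 3) ≤ -(1 / 3) := by
            have := Real.log_le_sub_one_of_pos (show (0 : ℝ) < 2 / 3 by norm_num)
            linarith
          nlinarith
  have e5 : Real.exp (-(25 * l)) = 1 / L ^ 25 := by
    rw [Real.exp_neg, one_div]
    congr 1
    calc Real.exp (25 * l) = Real.exp ((25 : ℕ) * l) := by norm_num
      _ = Real.exp l ^ 25 := Real.exp_nat_mul l 25
      _ = L ^ 25 := by rw [hLl]
  have e6 : 1 + Real.log N ≤ 3 * L := by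
    have : Real.log N ≤ Real.log (2 * x) := Real.log_le_log (by linarith) hN2
    rw [Real.log_mul (by norm_num) (by linarith)] at this
    have h2 := Real.log_two_lt_d9
    linarith
  have e7 : 0 ≤ 1 + Real.log N := by
    have := Real.log_nonneg (by linarith : (1 : ℝ) ≤ N)
    linarith
  have e8 : L ^ (11 / 10 : ℝ) ≤ L ^ 2 := by
    rw [← Real.rpow_two]
    exact Real.rpow_le_rpow_of_exponent_le hL1 (by norm_num)
  calc N * (1 + Real.log N) ^ 20 *
        (2 / 3 : ℝ) ^ (Real.log (Real.exp (L / 40)) / Real.log (⌊yy x⌋₊ : ℝ)) ≤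
        (2 * x) * (3 * L) ^ 20 * (1 / L ^ 25) := by
        rw [← e5]
        gcongr
    _ = 2 * 3 ^ 20 * x / L ^ 5 := by
        field_simp
    _ ≤ L * x / L ^ 5 := by gcongr
    _ = x / L ^ 4 := by field_simp
    _ ≤ x / L ^ 2 := by
        apply div_le_div_of_nonneg_left (by linarith) (by positivity)
        exact pow_le_pow_right₀ hL1 (by norm_num)
    _ ≤ _ := by
        apply div_le_div_of_nonneg_left (by linarith) (by positivity) e8

end Pool.Agent.H27.AP
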