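import Pool.Agent.H27.AP.Asy

/-!
# No two small prime divisors outside the exceptional sets
-/

set_option autoImplicit false

open Pool.Agent.H27.ADS

namespace Pool.Agent.H27.AP

open Filter Finset

/-- `g = exp (L / (100 K ^ 2 (log L) ^ 2))` -/
noncomputable def gg (x : ℝ) : ℝ :=
  Real.exp (Real.log x / (100 * KK ^ 2 * Real.log (Real.log x) ^ 2))

theorem no_two (horb : Orb) (hlcm : LcmS) : ∀ᶠ x : ℝ in atTop, ∀ n : ℕ, IsOrder n →
    Real.sqrt x < n → (n : ℝ) ≤ x → ∀ p₁ p₂ : ℕ, p₁.Prime → p₂.Prime → p₁ ∣ n → p₂ ∣ n →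
    ((smp ⌊yy x⌋₊ (n - 1) : ℕ) : ℝ) ≤ Real.exp (Real.log x / 40) →
    ((smp ⌊yy x⌋₊ (n + 1) : ℕ) : ℝ) ≤ Real.exp (Real.log x / 40) →
    (∀ q : ℕ, q.Prime → ⌊yy x⌋₊ < q → ¬ q ^ 2 ∣ n ^ 2 - 1) →
    (∀ q : ℕ, q.Prime → ⌊yy x⌋₊ < q → q ∣ n ^ 2 - 1 → q ^ 3 ≤ (hq p₁ p₂ q) ^ 5) →
    (∀ q q' : ℕ, q.Prime → q'.Prime → q ≠ q' → q ∣ n ^ 2 - 1 → q' ∣ n ^ 2 - 1 →
      ⌊yy x⌋₊ < q → ⌊yy x⌋₊ < q' → Nat.gcd (q - 1) (q' - 1) ≤ ⌊gg x⌋₊) → False := by
  have hKK : (0 : ℝ) < KK := by unfold KK; norm_num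
  have ev1 := Real.tendsto_log_atTop.eventually
    (small 1 (8 * KK) (1 / (2 * KK)) (by positivity) (by positivity))
  have ev2 := Real.tendsto_log_atTop.eventually
    (Real.tendsto_log_atTop.eventually_ge_atTop (1 : ℝ))
  have ev3 := Real.tendsto_log_atTop.eventually_ge_atTop (20 : ℝ)
  filter_upwards [ev1, ev2, ev3, eventually_ge_atTop (1 : ℝ)] with x e1 hl hL20 hx1
  intro n hn hsx hnx p₁ p₂ hp₁ hp₂ h₁ h₂ hs1 hs2 hX4 hX2 hX3
  set L := Real.log x with hL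
  set l := Real.log L with hl'
  have hx0 : 0 < x := by linarith
  have hL0 : 0 < L := by linarith
  have hl0 : 0 < l := by linarith
  have hlL : l ≤ L := (Real.log_le_sub_one_of_pos hL0).trans (by linarith)
  have hn2 := two_le_of_order hn
  have hnpos : (0 : ℝ) < n := by positivity
  have hyy : yy x = Real.exp (L / (KK * l)) := rfl
  have hgg : gg x = Real.exp (L / (100 * KK ^ 2 * l ^ 2)) := rfl
  have hg1 : 1 ≤ ⌊gg x⌋₊ := by
    rw [Nat.one_le_floor_iff, hgg]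
    exact Real.one_le_exp (by positivity)
  -- the exponential decay
  have hE : Real.exp (-(1 / (2 * KK) * (L / l ^ 2))) ≤ 1 / (8 * KK * L) := by
    have h1 : (1 : ℝ) / L ^ (11 / 10 : ℝ) ≤ 1 := by
      rw [div_le_one (Real.rpow_pos_of_pos hL0 _)]
      exact Real.one_le_rpow (by linarith) (by norm_num)
    have h2 := e1.trans h1
    rw [Real.rpow_one] at h2
    rw [le_div_iff₀ (by positivity), mul_comm]
    exact h2
  have hE1 : Real.exp (-(L / (2 * KK * l))) ≤ 1 / (8 * KK * L) := by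
    refine le_trans (Real.exp_le_exp.mpr ?_) hE
    rw [neg_le_neg_iff, div_mul_div_comm, one_mul]
    apply div_le_div_of_nonneg_left hL0.le (by positivity)
    have : l ≤ l ^ 2 := by nlinarith
    nlinarith
  have hE2 : Real.exp (-(L / 2)) ≤ 1 / (8 * KK * L) := by
    refine le_trans (Real.exp_le_exp.mpr ?_) hE
    rw [neg_le_neg_iff, div_mul_div_comm, one_mul]
    apply div_le_div_of_nonneg_left hL0.le (by norm_num)
    have h1 : (1 : ℝ) ≤ l ^ 2 := by nlinarith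
    have h2 : (1 : ℝ) ≤ KK := by unfold KK; norm_num
    nlinarith
  have hsqx : Real.sqrt x = Real.exp (L / 2) := by
    rw [Real.sqrt_eq_rpow, Real.rpow_def_of_pos hx0]
    congr 1
    ring
  rw [hsqx] at hsx
  -- the set S
  set S := SY ⌊yy x⌋₊ n with hS
  have hSmem : ∀ q ∈ S, q.Prime ∧ ⌊yy x⌋₊ < q ∧ q ∣ n ^ 2 - 1 := by
    intro q hq
    rw [hS, SY, mem_filter] at hq
    exact ⟨Nat.prime_of_mem_primeFactors hq.1, hq.2, Nat.dvd_of_mem_primeFactors hq.1⟩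
  have hSyy : ∀ q ∈ S, yy x < q := fun q hq => (Nat.floor_lt (Real.exp_pos _).le).mp (hSmem q hq).2.1
  have hm : n ^ 2 - 1 ≠ 0 := by
    have : 2 ^ 2 ≤ n ^ 2 := Nat.pow_le_pow_left hn2 2
    omega
  have hcard : (S.card : ℝ) ≤ 2 * KK * l := by
    have h1 : ∏ q ∈ S, q ≤ n ^ 2 - 1 := by
      apply Nat.le_of_dvd (Nat.pos_of_ne_zero hm)
      refine (Finset.prod_dvd_prod_of_subset _ _ _ ?_).trans (Nat.prod_primeFactors_dvd _)
      exact Finset.filter_subset _ _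
    have h2 : (yy x) ^ S.card ≤ ∏ q ∈ S, (q : ℝ) := by
      rw [← Finset.prod_const]
      exact Finset.prod_le_prod (fun q _ => (Real.exp_pos _).le) fun q hq => (hSyy q hq).le
    have h3 : ∏ q ∈ S, (q : ℝ) ≤ x ^ 2 := by
      have h4 : ((∏ q ∈ S, q : ℕ) : ℝ) ≤ ((n ^ 2 - 1 : ℕ) : ℝ) := by exact_mod_cast h1
      rw [Nat.cast_prod] at h4
      refine h4.trans ?_
      have h5 : ((n ^ 2 - 1 : ℕ) : ℝ) ≤ ((n ^ 2 : ℕ) : ℝ) := by exact_mod_cast Nat.sub_le _ _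
      refine h5.trans ?_
      push_cast
      exact pow_le_pow_left₀ hnpos.le hnx 2
    have h6 := Real.log_le_log (pow_pos (Real.exp_pos _) _ : 0 < (yy x) ^ S.card) (h2.trans h3)
    rw [Real.log_pow, Real.log_pow, Real.log_exp, ← hL, ← hl'] at h6
    have h7 : (S.card : ℝ) * (L / (KK * l)) ≤ 2 * L := by
      push_cast at h6
      exact h6
    rw [← mul_div_assoc, div_le_iff₀ (by positivity)] at h7
    have h8 : (S.card : ℝ) * L ≤ (2 * KK * l) * L := by linarith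
    exact le_of_mul_le_mul_right h8 hL0
  have hsum : ∑ q ∈ S, ((n : ℝ) / Real.sqrt q + 1) < n := by
    have h1 : ∀ q ∈ S, ((n : ℝ) / Real.sqrt q + 1) ≤ n * (1 / (4 * KK * L)) := by
      intro q hq
      have h2 : Real.exp (L / (2 * KK * l)) ≤ Real.sqrt q := by
        have h3 : Real.exp (L / (2 * KK * l)) = Real.sqrt (yy x) := by
          rw [hyy, Real.sqrt_eq_rpow, ← Real.exp_mul]
          congr 1
          field_simp
        rw [h3]
        exact Real.sqrt_le_sqrt (hSyy q hq).le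
      have h4 : (n : ℝ) / Real.sqrt q ≤ n * (1 / (8 * KK * L)) := by
        calc (n : ℝ) / Real.sqrt q ≤ n / Real.exp (L / (2 * KK * l)) := by gcongr
          _ = n * Real.exp (-(L / (2 * KK * l))) := by rw [Real.exp_neg]; rfl
          _ ≤ _ := by gcongr
      have h5 : (1 : ℝ) ≤ n * (1 / (8 * KK * L)) := by
        calc (1 : ℝ) = Real.exp (L / 2) * Real.exp (-(L / 2)) := by
              rw [← Real.exp_add]; simp
          _ ≤ n * (1 / (8 * KK * L)) := mul_le_mul hsx.le hE2 (Real.exp_pos _).le hnpos.le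
      have h6 : (n : ℝ) * (1 / (4 * KK * L)) = n * (1 / (8 * KK * L)) + n * (1 / (8 * KK * L)) := by
        field_simp
        ring
      linarith
    calc ∑ q ∈ S, ((n : ℝ) / Real.sqrt q + 1) ≤ ∑ q ∈ S, n * (1 / (4 * KK * L)) :=
          Finset.sum_le_sum h1
      _ = S.card * (n * (1 / (4 * KK * L))) := by rw [Finset.sum_const, nsmul_eq_mul]
      _ ≤ (2 * KK * l) * (n * (1 / (4 * KK * L))) := by gcongr
      _ = n * (l / (2 * L)) := by field_simp; ring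
      _ < n * 1 := by
          apply mul_lt_mul_of_pos_left _ hnpos
          rw [div_lt_one (by positivity)]
          linarith
      _ = n := mul_one _
  have hcore := core horb hlcm hn ⌊yy x⌋₊ ⌊gg x⌋₊ hg1 hp₁ hp₂ h₁ h₂ hX4 hX2 hX3 hsum
  -- real version
  have hsm : ((smp ⌊yy x⌋₊ (n ^ 2 - 1) : ℕ) : ℝ) ≤ Real.exp (L / 20) := by
    have h1 : n ^ 2 - 1 = (n - 1) * (n + 1) := by
      obtain ⟨k, rfl⟩ : ∃ k, n = k + 1 := ⟨n - 1, by omega⟩
      have h3 : (k + 1) ^ 2 = k * (k + 1 + 1) + 1 := by ring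
      rw [h3]
      simp
    rw [h1, smp_mul _ (by omega) (by omega)]
    push_cast
    calc _ ≤ Real.exp (L / 40) * Real.exp (L / 40) :=
          mul_le_mul hs1 hs2 (Nat.cast_nonneg _) (Real.exp_pos _).le
      _ = Real.exp (L / 20) := by rw [← Real.exp_add]; congr 1; ring
  have hgp : ((⌊gg x⌋₊ : ℕ) : ℝ) ^ (S.card ^ 2) ≤ Real.exp (L / 25) := by
    have h1 : ((⌊gg x⌋₊ : ℕ) : ℝ) ≤ gg x := Nat.floor_le (Real.exp_pos _).le
    calc ((⌊gg x⌋₊ : ℕ) : ℝ) ^ (S.card ^ 2) ≤ (gg x) ^ (S.card ^ 2) :=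
          pow_le_pow_left₀ (Nat.cast_nonneg _) h1 _
      _ = Real.exp ((S.card : ℝ) ^ 2 * (L / (100 * KK ^ 2 * l ^ 2))) := by
          rw [hgg, ← Real.exp_nat_mul]
          push_cast
          rfl
      _ ≤ Real.exp (L / 25) := by
          apply Real.exp_le_exp.mpr
          have h2 : (S.card : ℝ) ^ 2 ≤ (2 * KK * l) ^ 2 :=
            pow_le_pow_left₀ (Nat.cast_nonneg _) hcard 2
          calc (S.card : ℝ) ^ 2 * (L / (100 * KK ^ 2 * l ^ 2)) ≤
                (2 * KK * l) ^ 2 * (L / (100 * KK ^ 2 * l ^ 2)) := by gcongr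
            _ = L / 25 := by field_simp; ring
  have hreal : ((n : ℝ) ^ 2 - 1) ^ 3 ≤ Real.exp (L / 20) ^ 3 * (n * Real.exp (L / 25)) ^ 5 := by
    have h1 : (((n ^ 2 - 1) ^ 3 : ℕ) : ℝ) ≤
        (((smp ⌊yy x⌋₊ (n ^ 2 - 1)) ^ 3 * (n * ⌊gg x⌋₊ ^ (S.card ^ 2)) ^ 5 : ℕ) : ℝ) := by
      exact_mod_cast hcore
    push_cast at h1
    rw [Nat.cast_sub (Nat.one_le_pow _ _ (by omega))] at h1
    push_cast at h1
    refine h1.trans ?_
    gcongr
  have h10 : (n : ℝ) ^ 2 / 2 ≤ (n : ℝ) ^ 2 - 1 := by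
    have : (2 : ℝ) ≤ n := by exact_mod_cast hn2
    nlinarith
  have h11 : ((n : ℝ) ^ 2 / 2) ^ 3 ≤ ((n : ℝ) ^ 2 - 1) ^ 3 :=
    pow_le_pow_left₀ (by positivity) h10 3
  have h12 : (n : ℝ) ^ 5 * (n : ℝ) ≤ (n : ℝ) ^ 5 * (8 * Real.exp (7 * L / 20)) := by
    have h13 : Real.exp (L / 20) ^ 3 * (n * Real.exp (L / 25)) ^ 5 =
        (n : ℝ) ^ 5 * Real.exp (7 * L / 20) := by
      rw [mul_pow, ← Real.exp_nat_mul, ← Real.exp_nat_mul, mul_left_comm, ← Real.exp_add]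
      congr 2
      push_cast
      ring
    have h14 := h11.trans (hreal.trans_eq h13)
    have h15 : ((n : ℝ) ^ 2 / 2) ^ 3 = (n : ℝ) ^ 5 * n / 8 := by ring
    rw [h15] at h14
    linarith
  have h16 : (n : ℝ) ≤ 8 * Real.exp (7 * L / 20) := le_of_mul_le_mul_left h12 (by positivity)
  have h17 : Real.exp (L / 2) < 8 * Real.exp (7 * L / 20) := hsx.trans_le h16
  have h18 : Real.exp (L / 2) = Real.exp (3 * L / 20) * Real.exp (7 * L / 20) := by
    rw [← Real.exp_add]; congr 1; ring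
  rw [h18] at h17
  have h19 : Real.exp (3 * L / 20) < 8 := lt_of_mul_lt_mul_right h17 (Real.exp_pos _).le
  have h20 : Real.exp 3 ≤ Real.exp (3 * L / 20) := Real.exp_le_exp.mpr (by linarith)
  have h21 : (8 : ℝ) < Real.exp 3 := by
    have h22 : (2.7182818283 : ℝ) < Real.exp 1 := Real.exp_one_gt_d9
    have h23 : Real.exp 3 = Real.exp 1 ^ 3 := by
      rw [← Real.exp_nat_mul]; norm_num
    rw [h23]
    calc (8 : ℝ) < 2.7182818283 ^ 3 := by norm_num
      _ < Real.exp 1 ^ 3 := pow_lt_pow_left₀ h22 (by norm_num) (by norm_num)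
  linarith

end Pool.Agent.H27.AP
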