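import Pool.Agent.H27.AP.Fin

/-!
# Assembly, second part
-/

set_option autoImplicit false

open Pool.Agent.H27.ADS

namespace Pool.Agent.H27.AP

open Filter

/-- Small sets. -/
def Sm (A : ℕ → Set ℕ) : Prop := ∃ C : ℝ, 0 < C ∧ ∀ᶠ x : ℕ in atTop,
  ((A x).ncard : ℝ) ≤ C * (x / Real.log x ^ (11 / 10 : ℝ))

theorem Sm.union {A B : ℕ → Set ℕ} (hA : Sm A) (hB : Sm B) : Sm (fun x => A x ∪ B x) := by
  obtain ⟨C, hC, h1⟩ := hA
  obtain ⟨C', hC', h2⟩ := hB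
  refine ⟨C + C', by positivity, ?_⟩
  filter_upwards [h1, h2] with x h1 h2
  have h3 : ((A x ∪ B x).ncard : ℝ) ≤ (A x).ncard + (B x).ncard := by
    exact_mod_cast Set.ncard_union_le _ _
  linarith

theorem Sm.mono {A B : ℕ → Set ℕ} (hB : Sm B) (hf : ∀ x, (B x).Finite)
    (h : ∀ᶠ x : ℕ in atTop, A x ⊆ B x) : Sm A := by
  obtain ⟨C, hC, h1⟩ := hB
  refine ⟨C, hC, ?_⟩
  filter_upwards [h1, h] with x h1 h2
  exact (Nat.cast_le.mpr (Set.ncard_le_ncard h2 (hf x))).trans h1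

/-- A set of integers up to `x` which is small is uniformly small. -/
theorem Sm.all {A : ℕ → Set ℕ} (hA : Sm A) (hf : ∀ x, A x ⊆ Set.Iic x) :
    ∃ C : ℝ, 0 < C ∧ ∀ x : ℕ, 2 ≤ x →
      ((A x).ncard : ℝ) ≤ C * (x / Real.log x ^ (11 / 10 : ℝ)) := by
  obtain ⟨C, hC, h1⟩ := hA
  rw [eventually_atTop] at h1
  obtain ⟨M, hM⟩ := h1
  have hlM : 0 ≤ Real.log (M + 3 : ℕ) := Real.log_natCast_nonneg _
  refine ⟨C + 2 * (Real.log (M + 3 : ℕ)) ^ (11 / 10 : ℝ), by positivity, fun x hx => ?_⟩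
  have hx0 : (0 : ℝ) < x := by positivity
  have hlx : 0 < Real.log x := Real.log_pos (by exact_mod_cast (by omega : 1 < x))
  have hq : 0 ≤ (x : ℝ) / Real.log x ^ (11 / 10 : ℝ) := by positivity
  rcases le_or_gt M x with h | h
  · refine (hM x h).trans ?_
    apply mul_le_mul_of_nonneg_right _ hq
    have : 0 ≤ 2 * (Real.log (M + 3 : ℕ)) ^ (11 / 10 : ℝ) := by positivity
    linarith
  · have h2 : ((A x).ncard : ℝ) ≤ x + 1 := by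
      have h3 : (A x).ncard ≤ (Set.Iic x).ncard := Set.ncard_le_ncard (hf x) (Set.finite_Iic x)
      have h4 : (Set.Iic x).ncard = x + 1 := by
        rw [Set.ncard_eq_toFinset_card']
        simp
      rw [h4] at h3
      exact_mod_cast h3
    have h5 : Real.log x ^ (11 / 10 : ℝ) ≤ (Real.log (M + 3 : ℕ)) ^ (11 / 10 : ℝ) := by
      apply Real.rpow_le_rpow hlx.le _ (by norm_num)
      apply Real.log_le_log hx0
      exact_mod_cast (by omega : x ≤ M + 3)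
    have h6 : (x : ℝ) ≤ (Real.log (M + 3 : ℕ)) ^ (11 / 10 : ℝ) *
        (x / Real.log x ^ (11 / 10 : ℝ)) := by
      rw [mul_div_assoc', le_div_iff₀ (by positivity), mul_comm]
      gcongr
    have h7 : (1 : ℝ) ≤ x := by exact_mod_cast (by omega : 1 ≤ x)
    have h8 : 0 ≤ C * (x / Real.log x ^ (11 / 10 : ℝ)) := by positivity
    calc ((A x).ncard : ℝ) ≤ 2 * x := by linarith
      _ ≤ 2 * ((Real.log (M + 3 : ℕ)) ^ (11 / 10 : ℝ) * (x / Real.log x ^ (11 / 10 : ℝ))) := by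
        linarith
      _ ≤ _ := by linarith

theorem nat_ev {P : ℝ → Prop} (h : ∀ᶠ x : ℝ in atTop, P x) : ∀ᶠ x : ℕ in atTop, P x :=
  tendsto_natCast_atTop_atTop.eventually h

theorem sm0 : Sm (fun x => {n : ℕ | (n : ℝ) ≤ Real.sqrt x}) := by
  refine ⟨1, one_pos, ?_⟩
  filter_upwards [szA0] with x hx
  rw [one_mul]
  refine le_trans ?_ hx
  have h1 : {n : ℕ | (n : ℝ) ≤ Real.sqrt x} = Set.Iic ⌊Real.sqrt x⌋₊ := by
    ext n
    simp only [Set.mem_ofPred_eq, Set.mem_Iic]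
    rw [Nat.le_floor_iff (Real.sqrt_nonneg _)]
  have h2 : (Set.Iic ⌊Real.sqrt x⌋₊).ncard = ⌊Real.sqrt x⌋₊ + 1 := by
    rw [Set.ncard_eq_toFinset_card']
    simp
  rw [h1, h2]
  push_cast
  have := Nat.floor_le (Real.sqrt_nonneg (x : ℝ))
  linarith

theorem sm1 : Sm (fun x => {n : ℕ | n ≤ x ∧ IsSquare n}) := by
  refine ⟨1, one_pos, ?_⟩
  filter_upwards [szA0] with x hx
  rw [one_mul]
  refine le_trans ?_ hx
  have h1 : {n : ℕ | n ≤ x ∧ IsSquare n} ⊆ (fun m => m * m) '' Set.Iic ⌊Real.sqrt x⌋₊ := by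
    rintro n ⟨hn, m, rfl⟩
    refine ⟨m, ?_, rfl⟩
    rw [Set.mem_Iic, Nat.le_floor_iff (Real.sqrt_nonneg _)]
    apply Real.le_sqrt_of_sq_le
    rw [pow_two]
    exact_mod_cast hn
  have h2 : (Set.Iic ⌊Real.sqrt x⌋₊).ncard = ⌊Real.sqrt x⌋₊ + 1 := by
    rw [Set.ncard_eq_toFinset_card']
    simp
  have h3 : {n : ℕ | n ≤ x ∧ IsSquare n}.ncard ≤ ⌊Real.sqrt x⌋₊ + 1 := by
    rw [← h2]
    exact (Set.ncard_le_ncard h1 ((Set.finite_Iic _).image _)).trans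
      (Set.ncard_image_le (Set.finite_Iic _))
  have h4 : ({n : ℕ | n ≤ x ∧ IsSquare n}.ncard : ℝ) ≤ (⌊Real.sqrt x⌋₊ : ℝ) + 1 := by
    exact_mod_cast h3
  have := Nat.floor_le (Real.sqrt_nonneg (x : ℝ))
  linarith

theorem sm2 (h : X1) : Sm (fun x => {n : ℕ | 2 ≤ n ∧ n ≤ x ∧
    Real.exp (Real.log x / 40) < smp ⌊yy x⌋₊ (n - 1)}) := by
  refine ⟨1, one_pos, ?_⟩
  filter_upwards [nat_ev szA2, nat_ev floor_yy_inv, nat_ev (l_ge 0), eventually_ge_atTop 2]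
    with x hx h1 h2 h3
  rw [one_mul]
  refine le_trans ?_ (hx x le_rfl (by linarith))
  refine le_trans ?_ (h x ⌊yy x⌋₊ (Real.exp (Real.log x / 40)) h3 h1.1
    (Real.one_le_exp (by positivity)))
  rw [Nat.cast_le]
  refine Set.ncard_le_ncard_of_injOn (fun n => n - 1) ?_ ?_
    ((Set.finite_Iic x).subset (fun m hm => hm.2.1))
  · rintro n ⟨a1, a2, a3⟩
    exact ⟨by omega, by omega, a3⟩
  · rintro n ⟨a1, a2, a3⟩ m ⟨b1, b2, b3⟩ hnm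
    simp only at hnm
    omega

theorem sm3 (h : X1) : Sm (fun x => {n : ℕ | 2 ≤ n ∧ n ≤ x ∧
    Real.exp (Real.log x / 40) < smp ⌊yy x⌋₊ (n + 1)}) := by
  refine ⟨1, one_pos, ?_⟩
  filter_upwards [nat_ev szA2, nat_ev floor_yy_inv, nat_ev (l_ge 0), eventually_ge_atTop 2]
    with x hx h1 h2 h3
  rw [one_mul]
  have h3' : (2 : ℝ) ≤ x := by exact_mod_cast h3
  refine le_trans ?_ (hx ((x + 1 : ℕ) : ℝ) (by push_cast; linarith) (by push_cast; linarith))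
  refine le_trans ?_ (h (x + 1) ⌊yy x⌋₊ (Real.exp (Real.log x / 40)) (by omega) h1.1
    (Real.one_le_exp (by positivity)))
  rw [Nat.cast_le]
  refine Set.ncard_le_ncard_of_injOn (fun n => n + 1) ?_ ?_
    ((Set.finite_Iic (x + 1)).subset (fun m hm => hm.2.1))
  · rintro n ⟨a1, a2, a3⟩
    exact ⟨by omega, by omega, a3⟩
  · rintro n ⟨a1, a2, a3⟩ m ⟨b1, b2, b3⟩ hnm
    simp only at hnm
    omega

theorem sm4 (h : X2) : Sm (fun x => {n : ℕ | 2 ≤ n ∧ n ≤ x ∧ ∃ q p₁ p₂ : ℕ, q.Prime ∧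
    ⌊yy x⌋₊ < q ∧ q ∣ n ^ 2 - 1 ∧ p₁.Prime ∧ p₂.Prime ∧ p₁ ≠ p₂ ∧ p₁ ≤ ⌊TT x⌋₊ ∧ p₂ ≤ ⌊TT x⌋₊ ∧
    p₁ ∣ n ∧ p₂ ∣ n ∧ (hq p₁ p₂ q) ^ 5 < q ^ 3}) := by
  refine ⟨1, one_pos, ?_⟩
  filter_upwards [nat_ev szA4, nat_ev (TT_ge 2), nat_ev TT_le_yy, eventually_ge_atTop 2]
    with x hx h1 h2 h3
  rw [one_mul]
  refine le_trans ?_ hx
  exact h x ⌊yy x⌋₊ ⌊TT x⌋₊ (by omega) (Nat.le_floor (by exact_mod_cast h1))
    (Nat.floor_le_floor h2)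

theorem sm5 (h : X3) : Sm (fun x => {n : ℕ | 2 ≤ n ∧ n ≤ x ∧ n ∉ TWs x ∧ ∃ q q' : ℕ, q.Prime ∧
    q'.Prime ∧ q ≠ q' ∧ q ∣ n ^ 2 - 1 ∧ q' ∣ n ^ 2 - 1 ∧
    ⌊gg x⌋₊ < Nat.gcd (q - 1) (q' - 1)}) := by
  obtain ⟨C, hC, h⟩ := h
  refine ⟨1, one_pos, ?_⟩
  filter_upwards [nat_ev (szA5 C hC), eventually_ge_atTop 3] with x hx h3
  rw [one_mul]
  exact (h x ⌊gg x⌋₊ h3 hx.1).trans hx.2

theorem sm6 (h : TW) : Sm TWs := by
  obtain ⟨C, hC, h⟩ := h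
  refine ⟨C, hC, ?_⟩
  filter_upwards [nat_ev (l_ge 1), eventually_ge_atTop 3] with x h1 h3
  refine (h x h3).trans ?_
  apply mul_le_mul_of_nonneg_left _ hC.le
  apply div_le_div_of_nonneg_left (by positivity) (by positivity)
  exact Real.rpow_le_rpow_of_exponent_le h1 (by norm_num)

theorem sm7 (h : X4) : Sm (fun x => {n : ℕ | 2 ≤ n ∧ n ≤ x ∧ ∃ q : ℕ, q.Prime ∧
    ⌊yy x⌋₊ < q ∧ q ^ 2 ∣ n ^ 2 - 1}) := by
  refine ⟨1, one_pos, ?_⟩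
  filter_upwards [nat_ev szA7, nat_ev floor_yy_inv, eventually_ge_atTop 1] with x hx h1 h3
  rw [one_mul]
  exact (h x ⌊yy x⌋₊ h3 h1.1).trans hx

theorem sm8 (h : S1) : Sm (fun x => {n : ℕ | 2 ≤ n ∧ n ≤ x ∧ Mann n ∧ ∃ p : ℕ, p.Prime ∧ p ∣ n ∧
    (p : ℝ) ≤ T1 x ∧ ∀ p' : ℕ, p'.Prime → p' ∣ n → p' ≠ p → TT x < p'}) := by
  obtain ⟨C, hC, h⟩ := h
  refine ⟨C, hC, ?_⟩
  filter_upwards [eventually_ge_atTop 3] with x h3
  exact h x h3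

theorem sm9 (h : S2) : Sm (fun x => {n : ℕ | 2 ≤ n ∧ n ≤ x ∧ Mann n ∧ ¬ n.Prime ∧
    (∀ p : ℕ, p.Prime → p ∣ n → T1 x < p) ∧
    ∀ p p' : ℕ, p.Prime → p'.Prime → p ∣ n → p' ∣ n → (p : ℝ) ≤ TT x → (p' : ℝ) ≤ TT x →
      p = p'}) := by
  obtain ⟨C, hC, h⟩ := h
  refine ⟨C, hC, ?_⟩
  filter_upwards [eventually_ge_atTop 3] with x h3
  exact h x h3

theorem main_of (hs1 : S1) (hs2 : S2) (htw : TW) (hx1 : X1) (hx2 : X2) (hx3 : X3) (hx4 : X4)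
    (horb : Orb) (hlcm : LcmS) : Main := by
  refine Sm.all (A := fun x => {n : ℕ | n ≤ x ∧ IsOrder n ∧ ¬ IsPrimePow n}) ?_
    (fun x n hn => hn.1)
  refine (((((((((sm0.union sm1).union (sm2 hx1)).union (sm3 hx1)).union (sm4 hx2)).union
    (sm5 hx3)).union (sm6 htw)).union (sm7 hx4)).union (sm8 hs1)).union (sm9 hs2)).mono ?_ ?_
  · intro x
    simp only [Set.finite_union]
    refine ⟨⟨⟨⟨⟨⟨⟨⟨⟨?_, ?_⟩, ?_⟩, ?_⟩, ?_⟩, ?_⟩, ?_⟩, ?_⟩, ?_⟩, ?_⟩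
    · refine (Set.finite_Iic ⌊Real.sqrt x⌋₊).subset fun n hn => ?_
      rw [Set.mem_Iic, Nat.le_floor_iff (Real.sqrt_nonneg _)]
      exact hn
    · exact (Set.finite_Iic x).subset fun n hn => hn.1
    all_goals exact (Set.finite_Iic x).subset fun n hn => hn.2.1
  · filter_upwards [nat_ev (no_two horb hlcm), nat_ev T1_le_TT] with x hno hTT n hn
    obtain ⟨hnx, hord, hpp⟩ := hn
    by_contra hcon
    simp only [Set.mem_union, not_or] at hcon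
    obtain ⟨⟨⟨⟨⟨⟨⟨⟨⟨c0, c1⟩, c2⟩, c3⟩, c4⟩, c5⟩, c6⟩, c7⟩, c8⟩, c9⟩ := hcon
    simp only [Set.mem_ofPred_eq] at c0 c1 c2 c3 c4 c5 c7 c8 c9
    have hn2 := two_le_of_order hord
    have hsq : ¬ IsSquare n := fun hc => c1 ⟨hnx, hc⟩
    have hmann := mann_of_order hord hsq
    have hall : ∀ p p' : ℕ, p.Prime → p'.Prime → p ∣ n → p' ∣ n → (p : ℝ) ≤ TT x →
        (p' : ℝ) ≤ TT x → p = p' := by
      intro p p' hp hp' hpn hpn' hpT hpT'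
      by_contra hne
      refine hno n hord (not_le.mp c0) (by exact_mod_cast hnx) p p' hp hp' hpn hpn' ?_ ?_ ?_ ?_ ?_
      · by_contra hc
        exact c2 ⟨hn2, hnx, not_le.mp hc⟩
      · by_contra hc
        exact c3 ⟨hn2, hnx, not_le.mp hc⟩
      · intro q hq hyq hqn
        exact c7 ⟨hn2, hnx, q, hq, hyq, hqn⟩
      · intro q hq hyq hqn
        by_contra hc
        exact c4 ⟨hn2, hnx, q, p, p', hq, hyq, hqn, hp, hp', hne, Nat.le_floor hpT,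
          Nat.le_floor hpT', hpn, hpn', not_le.mp hc⟩
      · intro q q' hq hq' hqq hqn hqn' _ _
        by_contra hc
        exact c5 ⟨hn2, hnx, c6, q, q', hq, hq', hqq, hqn, hqn', not_le.mp hc⟩
    by_cases hex : ∃ p : ℕ, p.Prime ∧ p ∣ n ∧ (p : ℝ) ≤ T1 x
    · obtain ⟨p, hp, hpn, hpT⟩ := hex
      refine c8 ⟨hn2, hnx, hmann, p, hp, hpn, hpT, ?_⟩
      intro p' hp' hpn' hne
      by_contra hc
      exact hne (hall p' p hp' hp hpn' hpn (not_lt.mp hc) (hpT.trans hTT))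
    · refine c9 ⟨hn2, hnx, hmann, fun hc => hpp hc.isPrimePow, ?_, hall⟩
      intro p hp hpn
      by_contra hc
      exact hex ⟨p, hp, hpn, not_lt.mp hc⟩

end Pool.Agent.H27.AP
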