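import Pool.Agent.H27.AP.Defs

/-!
# The orbit of the multiplier group
-/

set_option autoImplicit false

open Pool.Agent.H27.ADS Finset

namespace Pool.Agent.H27.AP

section
variable {G : Type} [AddCommGroup G] [Fintype G] [DecidableEq G]
variable {n : ℕ} {N : AddSubgroup G} {D : Finset G}

/-- the elements of order prime to `q` -/
def orbU (G : Type) [AddCommGroup G] (q : ℕ) (hq : q.Prime) : AddSubgroup G where
  carrier := {g | ¬ q ∣ addOrderOf g}
  add_mem' := by
    intro a b ha hb hc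
    have h1 : q ∣ Nat.lcm (addOrderOf a) (addOrderOf b) :=
      hc.trans (AddCommute.all a b).addOrderOf_add_dvd_lcm
    have h2 : q ∣ addOrderOf a * addOrderOf b := h1.trans (Nat.lcm_dvd_mul _ _)
    rcases hq.dvd_mul.1 h2 with h3 | h3
    · exact ha h3
    · exact hb h3
  zero_mem' := by
    intro hc
    rw [addOrderOf_zero] at hc
    exact hq.one_lt.ne' (Nat.dvd_one.1 hc)
  neg_mem' := by
    intro a ha hc
    rw [addOrderOf_neg] at hc
    exact ha hc

theorem mem_orbU {q : ℕ} (hq : q.Prime) (g : G) : g ∈ orbU G q hq ↔ ¬ q ∣ addOrderOf g := Iff.rfl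

theorem orbU_card {q : ℕ} (hq : q.Prime) (hqG : q ∣ Nat.card G) :
    Nat.card (orbU G q hq) * q ≤ Nat.card G := by
  have : Fact q.Prime := ⟨hq⟩
  obtain ⟨z, hz⟩ := exists_prime_addOrderOf_dvd_card' q hqG
  have h1 : Nat.card (AddSubgroup.zmultiples z) = q := by
    rw [Nat.card_zmultiples, hz]
  have h1' : Nat.card (orbU G q hq) * q =
      Nat.card (orbU G q hq × AddSubgroup.zmultiples z) := by rw [Nat.card_prod, h1]
  rw [h1']
  apply Nat.card_le_card_of_injective
    (fun x : orbU G q hq × AddSubgroup.zmultiples z => (x.1 : G) + (x.2 : G))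
  rintro ⟨⟨u, hu⟩, ⟨w, hw⟩⟩ ⟨⟨u', hu'⟩, ⟨w', hw'⟩⟩ hxy
  simp only at hxy
  have h2 : u - u' = w' - w := by
    rw [sub_eq_sub_iff_add_eq_add, hxy, add_comm]
  have h3 : u - u' ∈ orbU G q hq := (orbU G q hq).sub_mem hu hu'
  have h4 : w' - w ∈ AddSubgroup.zmultiples z := (AddSubgroup.zmultiples z).sub_mem hw' hw
  have h5 : addOrderOf (w' - w) ∣ q := by
    rw [← hz]
    exact addOrderOf_dvd_of_mem_zmultiples h4
  rcases (Nat.dvd_prime hq).1 h5 with h6 | h6
  · rw [AddMonoid.addOrderOf_eq_one_iff] at h6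
    rw [h6, sub_eq_zero] at h2
    rw [sub_eq_zero] at h6
    subst h2 h6
    rfl
  · exfalso
    rw [h2, mem_orbU, h6] at h3
    exact h3 dvd_rfl

/-- distinct pairs have distinct differences -/
theorem orb_inj (h : IsADS n N D) {a b c d : G} (ha : a ∈ D) (hb : b ∈ D) (hc : c ∈ D)
    (hd : d ∈ D) (hab : a ≠ b) (he : a - b = c - d) : a = c ∧ b = d :=
  h.uniq ha hb hc hd (fun hN => hab (h.eq_of_sub_mem ha hb hN)) he

theorem orb_count (h : IsADS n N D) (c : G) {q : ℕ} (hq : q.Prime) (hqn : q ∣ n ^ 2 - 1) :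
    (((D.image (fun d => d - c)).filter (fun x => ¬ q ∣ addOrderOf x)).card : ℝ) ≤
      (n : ℝ) / Real.sqrt q + 1 := by
  set T := (D.image (fun d => d - c)).filter (fun x => ¬ q ∣ addOrderOf x) with hT
  have hcard := orbU_card (G := G) hq (by rw [h.card_group]; exact hqn)
  rw [h.card_group] at hcard
  have h1 : T.offDiag.card ≤ Nat.card (orbU G q hq) := by
    have hmem : ∀ x : T.offDiag, (x : G × G).1 - (x : G × G).2 ∈ orbU G q hq := by
      rintro ⟨⟨a, b⟩, hx⟩
      rw [mem_offDiag, hT, mem_filter, mem_filter] at hx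
      exact (orbU G q hq).sub_mem hx.1.2 hx.2.1.2
    have h2 : Nat.card T.offDiag = T.offDiag.card := by
      rw [Nat.card_eq_fintype_card, Fintype.card_coe]
    rw [← h2]
    apply Nat.card_le_card_of_injective
      (fun x : T.offDiag => (⟨_, hmem x⟩ : orbU G q hq))
    rintro ⟨⟨a, b⟩, hx⟩ ⟨⟨a', b'⟩, hx'⟩ hxy
    have h3 : a - b = a' - b' := congrArg Subtype.val hxy
    rw [mem_offDiag, hT, mem_filter, mem_filter, mem_image, mem_image] at hx hx'
    obtain ⟨⟨⟨a₁, ha₁, ha⟩, -⟩, ⟨⟨b₁, hb₁, hb⟩, -⟩, hne⟩ := hx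
    obtain ⟨⟨⟨a₂, ha₂, ha'⟩, -⟩, ⟨⟨b₂, hb₂, hb'⟩, -⟩, hne'⟩ := hx'
    simp only at ha hb ha' hb' hne
    subst ha hb ha' hb'
    have h4 : a₁ - b₁ = a₂ - b₂ := by simpa using h3
    obtain ⟨h5, h6⟩ := orb_inj h ha₁ hb₁ ha₂ hb₂ (fun h7 => hne (by rw [h7])) h4
    subst h5 h6
    rfl
  rw [offDiag_card] at h1
  have hq0 : (0 : ℝ) < q := by exact_mod_cast hq.pos
  have hs : 0 < Real.sqrt q := Real.sqrt_pos.2 hq0
  by_contra hcon
  push Not at hcon
  have hn0 : (0 : ℝ) ≤ n := Nat.cast_nonneg n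
  have hdiv : 0 ≤ (n : ℝ) / Real.sqrt q := by positivity
  have hT1 : (1 : ℝ) < T.card := by linarith
  have hT1' : 1 < T.card := by exact_mod_cast hT1
  have h7 : ((T.card : ℝ) * T.card - T.card) * q ≤ (n : ℝ) ^ 2 - 1 := by
    have h8 : (T.card * T.card - T.card) * q ≤ n ^ 2 - 1 :=
      (Nat.mul_le_mul_right q h1).trans hcard
    have h9 : T.card ≤ T.card * T.card := Nat.le_mul_self _
    have h10 : 1 ≤ n ^ 2 := Nat.one_le_pow _ _ (by have := h.two_le; omega)
    have h11 : (((T.card * T.card - T.card) * q : ℕ) : ℝ) ≤ ((n ^ 2 - 1 : ℕ) : ℝ) := by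
      exact_mod_cast h8
    rw [Nat.cast_mul, Nat.cast_sub h9, Nat.cast_mul, Nat.cast_sub h10, Nat.cast_pow,
      Nat.cast_one] at h11
    exact h11
  have h12 : ((n : ℝ) / Real.sqrt q) * ((n : ℝ) / Real.sqrt q) * q = (n : ℝ) ^ 2 := by
    have h13 : Real.sqrt q * Real.sqrt q = q := Real.mul_self_sqrt hq0.le
    have h14 : ((n : ℝ) / Real.sqrt q) * ((n : ℝ) / Real.sqrt q) * q =
        (n : ℝ) ^ 2 * (q / (Real.sqrt q * Real.sqrt q)) := by
      field_simp
    rw [h14, h13, div_self hq0.ne', mul_one]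
  have h15 : ((n : ℝ) / Real.sqrt q) * ((n : ℝ) / Real.sqrt q) ≤
      (T.card : ℝ) * T.card - T.card := by
    nlinarith
  nlinarith

theorem orb_nsmul_inj {m : ℕ} (hm : Nat.Coprime m (Nat.card G)) {a b : G}
    (hab : m • a = m • b) : a = b := (nsmulCoprime hm.symm).injective hab

/-- The multiplier group acts on a suitable translate. -/
theorem orb_translate (h : IsADS n N D) (h0 : ∀ d ∈ D, d ∉ N) : ∃ c : G, ∀ p : ℕ, p.Prime →
    p ∣ n → ∀ x ∈ D.image (fun d => d - c), p • x ∈ D.image (fun d => d - c) := by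
  have hcop : ∀ t : ℕ, (∀ p : ℕ, p.Prime → p ∣ t → p ∣ n) → Nat.Coprime t (Nat.card G) := by
    intro t ht
    rw [h.card_group]
    exact h.card_coprime ht
  have hn := hcop n (fun p _ hp => hp)
  obtain ⟨c, hc⟩ := (nsmulCoprime hn.symm).surjective (∑ d ∈ D, d)
  have hc' : n • c = ∑ d ∈ D, d := hc
  refine ⟨c, fun p hp hpn x hx => ?_⟩
  obtain ⟨g, hg⟩ := h.prime_multiplier h0 hp hpn
  have hpc := hcop p (fun r hr hrp => by rwa [(Nat.prime_dvd_prime_iff_eq hr hp).1 hrp])
  have hinj : Set.InjOn (fun d : G => p • d - g) D := by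
    intro a _ b _ hab
    exact orb_nsmul_inj hpc (sub_left_injective hab)
  have himg : D.image (fun d => p • d - g) = D := by
    apply Finset.eq_of_subset_of_card_le
    · intro y hy
      obtain ⟨d, hd, rfl⟩ := mem_image.1 hy
      exact hg d hd
    · rw [Finset.card_image_of_injOn hinj]
  have hsum : ∑ d ∈ D, d = p • (∑ d ∈ D, d) - n • g := by
    conv_lhs => rw [← himg, Finset.sum_image hinj]
    rw [Finset.sum_sub_distrib, ← Finset.smul_sum, Finset.sum_const, h.card_set]
  have hgc : g = p • c - c := by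
    apply orb_nsmul_inj hn
    rw [← hc'] at hsum
    rw [smul_sub, smul_comm n p c]
    have h1 := hsum
    rw [eq_sub_iff_add_eq] at h1
    rw [eq_sub_iff_add_eq, add_comm]
    exact h1
  obtain ⟨d, hd, rfl⟩ := mem_image.1 hx
  refine mem_image.2 ⟨p • d - g, hg d hd, ?_⟩
  rw [hgc, smul_sub]
  abel

/-- multiplication by a unit modulo the order of `d` -/
theorem orb_group {E : Finset G} {d : G} (hd : d ∈ E) {p₁ p₂ : ℕ}
    (h1 : ∀ x ∈ E, p₁ • x ∈ E) (h2 : ∀ x ∈ E, p₂ • x ∈ E) (u : (ZMod (addOrderOf d))ˣ)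
    (hu : u ∈ Subgroup.closure {u : (ZMod (addOrderOf d))ˣ | (u : ZMod (addOrderOf d)) = (p₁ : ℕ) ∨
      (u : ZMod (addOrderOf d)) = (p₂ : ℕ)}) :
    ∀ k : ℕ, k • d ∈ E → ((u : ZMod (addOrderOf d)).val * k) • d ∈ E := by
  have hpos : 0 < addOrderOf d := addOrderOf_pos d
  have : NeZero (addOrderOf d) := ⟨hpos.ne'⟩
  have hmod : ∀ a b : ℕ, (a : ZMod (addOrderOf d)) = b → a • d = b • d := by
    intro a b hab
    rw [ZMod.natCast_eq_natCast_iff] at hab
    exact nsmul_eq_nsmul_iff_modEq.2 hab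
  induction hu using Subgroup.closure_induction with
  | mem u hu =>
    intro k hk
    rcases hu with hu | hu
    · have : ((u : ZMod (addOrderOf d)).val * k) • d = (p₁ * k) • d := by
        apply hmod
        push_cast
        rw [ZMod.natCast_zmod_val, hu]
      rw [this, mul_smul]
      exact h1 _ hk
    · have : ((u : ZMod (addOrderOf d)).val * k) • d = (p₂ * k) • d := by
        apply hmod
        push_cast
        rw [ZMod.natCast_zmod_val, hu]
      rw [this, mul_smul]
      exact h2 _ hk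
  | one =>
    intro k hk
    have : (((1 : (ZMod (addOrderOf d))ˣ) : ZMod (addOrderOf d)).val * k) • d = k • d := by
      apply hmod
      push_cast
      rw [ZMod.natCast_zmod_val]
      simp
    rw [this]
    exact hk
  | mul u v _ _ ihu ihv =>
    intro k hk
    have : (((u * v : (ZMod (addOrderOf d))ˣ) : ZMod (addOrderOf d)).val * k) • d =
        ((u : ZMod (addOrderOf d)).val * ((v : ZMod (addOrderOf d)).val * k)) • d := by
      apply hmod
      push_cast
      rw [ZMod.natCast_zmod_val, ZMod.natCast_zmod_val, ZMod.natCast_zmod_val]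
      push_cast
      ring
    rw [this]
    exact ihu _ (ihv _ hk)
  | inv u _ ihu =>
    have hpow : ∀ m k : ℕ, k • d ∈ E →
        (((u ^ m : (ZMod (addOrderOf d))ˣ) : ZMod (addOrderOf d)).val * k) • d ∈ E := by
      intro m
      induction m with
      | zero =>
        intro k hk
        have : (((u ^ 0 : (ZMod (addOrderOf d))ˣ) : ZMod (addOrderOf d)).val * k) • d
            = k • d := by
          apply hmod
          push_cast
          rw [ZMod.natCast_zmod_val]
          simp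
        rw [this]
        exact hk
      | succ m ih =>
        intro k hk
        have : (((u ^ (m + 1) : (ZMod (addOrderOf d))ˣ) : ZMod (addOrderOf d)).val * k) • d =
            ((u : ZMod (addOrderOf d)).val *
              (((u ^ m : (ZMod (addOrderOf d))ˣ) : ZMod (addOrderOf d)).val * k)) • d := by
          apply hmod
          push_cast
          rw [ZMod.natCast_zmod_val, ZMod.natCast_zmod_val, ZMod.natCast_zmod_val]
          push_cast
          ring
        rw [this]
        exact ihu _ (ih _ hk)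
    have hinv : u⁻¹ = u ^ (orderOf u - 1) := by
      rw [inv_eq_iff_mul_eq_one, ← pow_succ', Nat.sub_add_cancel (orderOf_pos u),
        pow_orderOf_eq_one]
    intro k hk
    rw [hinv]
    exact hpow _ k hk

/-- the group generated by `p₁` and `p₂` modulo a divisor -/
theorem orb_dvd {M q p₁ p₂ : ℕ} [NeZero M] (hqM : q ∣ M) (c1 : Nat.Coprime p₁ M)
    (c2 : Nat.Coprime p₂ M) : hq p₁ p₂ q ∣ Nat.card (Subgroup.closure
      {u : (ZMod M)ˣ | (u : ZMod M) = (p₁ : ℕ) ∨ (u : ZMod M) = (p₂ : ℕ)}) := by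
  have key : Subgroup.closure
      {u : (ZMod q)ˣ | (u : ZMod q) = (p₁ : ℕ) ∨ (u : ZMod q) = (p₂ : ℕ)} =
      (Subgroup.closure {u : (ZMod M)ˣ | (u : ZMod M) = (p₁ : ℕ) ∨
        (u : ZMod M) = (p₂ : ℕ)}).map (ZMod.unitsMap hqM) := by
    rw [MonoidHom.map_closure]
    congr 1
    ext v
    simp only [Set.mem_setOf_eq, Set.mem_image]
    constructor
    · rintro (hv | hv)
      · refine ⟨ZMod.unitOfCoprime p₁ c1, Or.inl (ZMod.coe_unitOfCoprime _ _), ?_⟩
        apply Units.ext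
        rw [ZMod.unitsMap_val, ZMod.coe_unitOfCoprime, hv]
        exact ZMod.cast_natCast hqM p₁
      · refine ⟨ZMod.unitOfCoprime p₂ c2, Or.inr (ZMod.coe_unitOfCoprime _ _), ?_⟩
        apply Units.ext
        rw [ZMod.unitsMap_val, ZMod.coe_unitOfCoprime, hv]
        exact ZMod.cast_natCast hqM p₂
    · rintro ⟨u, hu | hu, rfl⟩
      · left
        rw [ZMod.unitsMap_val, hu]
        exact ZMod.cast_natCast hqM p₁
      · right
        rw [ZMod.unitsMap_val, hu]
        exact ZMod.cast_natCast hqM p₂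
  unfold hq
  rw [key]
  exact Subgroup.card_map_dvd _ _

end

theorem orb : Orb := by
  classical
  rintro n ⟨G, _, _, _, N, D₀, hD₀⟩ p₁ p₂ hp1 hp2 hd1 hd2 S hS hsum
  obtain ⟨D, h, h0⟩ := hD₀.exists_normalised
  obtain ⟨c, hc⟩ := orb_translate h h0
  set E := D.image (fun d => d - c) with hE
  have hEcard : E.card = n := by
    rw [hE, Finset.card_image_of_injective _ sub_left_injective, h.card_set]
  -- an element whose order is divisible by all `q` in `S`
  have hex : ∃ d ∈ E, ∀ q ∈ S, q ∣ addOrderOf d := by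
    by_contra hcon
    push Not at hcon
    have hsub : E ⊆ S.biUnion (fun q => E.filter (fun x => ¬ q ∣ addOrderOf x)) := by
      intro x hx
      obtain ⟨q, hqS, hqx⟩ := hcon x hx
      exact mem_biUnion.2 ⟨q, hqS, mem_filter.2 ⟨hx, hqx⟩⟩
    have h1 : E.card ≤ ∑ q ∈ S, (E.filter (fun x => ¬ q ∣ addOrderOf x)).card :=
      (Finset.card_le_card hsub).trans Finset.card_biUnion_le
    have h2 : (E.card : ℝ) ≤ ∑ q ∈ S, ((E.filter (fun x => ¬ q ∣ addOrderOf x)).card : ℝ) := by
      exact_mod_cast h1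
    have h3 : ∑ q ∈ S, ((E.filter (fun x => ¬ q ∣ addOrderOf x)).card : ℝ) ≤
        ∑ q ∈ S, ((n : ℝ) / Real.sqrt q + 1) :=
      Finset.sum_le_sum fun q hqS => orb_count h c (hS q hqS).1 (hS q hqS).2
    rw [hEcard] at h2
    linarith
  obtain ⟨d, hdE, hdS⟩ := hex
  have hpos : 0 < addOrderOf d := addOrderOf_pos d
  have hne : NeZero (addOrderOf d) := ⟨hpos.ne'⟩
  have hM : addOrderOf d ∣ n ^ 2 - 1 := by
    rw [← h.card_group]
    exact addOrderOf_dvd_natCard d
  have hcop : ∀ p : ℕ, p.Prime → p ∣ n → Nat.Coprime p (addOrderOf d) := by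
    intro p hp hpn
    exact Nat.Coprime.coprime_dvd_right hM
      (h.card_coprime fun r hr hrp => by rwa [(Nat.prime_dvd_prime_iff_eq hr hp).1 hrp])
  set Γ := Subgroup.closure {u : (ZMod (addOrderOf d))ˣ |
    (u : ZMod (addOrderOf d)) = (p₁ : ℕ) ∨ (u : ZMod (addOrderOf d)) = (p₂ : ℕ)} with hΓ
  refine ⟨Nat.card Γ, Nat.card_pos, ?_, fun q hqS =>
    orb_dvd (hdS q hqS) (hcop p₁ hp1 hd1) (hcop p₂ hp2 hd2)⟩
  have hmem : ∀ u : Γ, ((u : (ZMod (addOrderOf d))ˣ) : ZMod (addOrderOf d)).val • d ∈ E := by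
    intro u
    have := orb_group hdE (hc p₁ hp1 hd1) (hc p₂ hp2 hd2) u.1 u.2 1 (by rwa [one_smul])
    rwa [mul_one] at this
  have hE' : Nat.card E = n := by
    rw [Nat.card_eq_fintype_card, Fintype.card_coe, hEcard]
  rw [← hE']
  apply Nat.card_le_card_of_injective (fun u : Γ => (⟨_, hmem u⟩ : E))
  intro u v huv
  have h1 : ((u : (ZMod (addOrderOf d))ˣ) : ZMod (addOrderOf d)).val • d =
      ((v : (ZMod (addOrderOf d))ˣ) : ZMod (addOrderOf d)).val • d := congrArg Subtype.val huv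
  rw [nsmul_eq_nsmul_iff_modEq, ← ZMod.natCast_eq_natCast_iff, ZMod.natCast_zmod_val,
    ZMod.natCast_zmod_val] at h1
  exact Subtype.ext (Units.ext h1)

end Pool.Agent.H27.AP
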