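import Pool.Agent.H27.AP.Defs

/-! Auxiliary lemmas for the module S2. -/

set_option autoImplicit false

open Finset Pool.Agent.H27.ADS

namespace Pool.Agent.H27.AP

/-- integers up to `x` divisible by the square of an integer larger than `M` -/
theorem s2_sq_count (x M : ℕ) (hM : 1 ≤ M) :
    ({n : ℕ | 1 ≤ n ∧ n ≤ x ∧ ∃ m : ℕ, M < m ∧ m ^ 2 ∣ n}.ncard : ℝ) ≤ x / M := by
  classical
  have hsub : {n : ℕ | 1 ≤ n ∧ n ≤ x ∧ ∃ m : ℕ, M < m ∧ m ^ 2 ∣ n} ⊆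
      (((Ioc M x).biUnion (fun m => (Ioc 0 x).filter (fun n => m ^ 2 ∣ n)) : Finset ℕ) :
        Set ℕ) := by
    rintro n ⟨h1, h2, m, h3, h4⟩
    simp only [coe_biUnion, Set.mem_iUnion, coe_filter, mem_coe, mem_Ioc, Set.mem_ofPred_eq]
    have h5 : m ^ 2 ≤ n := Nat.le_of_dvd h1 h4
    have h6 : m ≤ m ^ 2 := by nlinarith
    exact ⟨m, ⟨h3, by omega⟩, ⟨h1, h2⟩, h4⟩
  have h1 := Set.ncard_le_ncard hsub (Finset.finite_toSet _)
  rw [Set.ncard_coe_finset] at h1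
  have h2 : (((Ioc M x).biUnion (fun m => (Ioc 0 x).filter (fun n => m ^ 2 ∣ n))).card : ℝ) ≤
      ∑ m ∈ Ioc M x, (x : ℝ) * ((m : ℝ) ^ 2)⁻¹ := by
    have h3 : (((Ioc M x).biUnion (fun m => (Ioc 0 x).filter (fun n => m ^ 2 ∣ n))).card : ℝ) ≤
        ((∑ m ∈ Ioc M x, ((Ioc 0 x).filter (fun n => m ^ 2 ∣ n)).card : ℕ) : ℝ) := by
      exact_mod_cast card_biUnion_le
    refine h3.trans ?_
    push_cast
    apply sum_le_sum
    intro m hm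
    rw [Nat.Ioc_filter_dvd_card_eq_div]
    have h4 : ((x / m ^ 2 : ℕ) : ℝ) ≤ (x : ℝ) / ((m ^ 2 : ℕ) : ℝ) := Nat.cast_div_le
    rw [Nat.cast_pow] at h4
    rwa [← div_eq_mul_inv]
  rcases le_or_gt M x with hMx | hMx
  · have h3 := sum_Ioc_inv_sq_le_sub (α := ℝ) (by omega : M ≠ 0) hMx
    calc ({n : ℕ | 1 ≤ n ∧ n ≤ x ∧ ∃ m : ℕ, M < m ∧ m ^ 2 ∣ n}.ncard : ℝ)
        ≤ ∑ m ∈ Ioc M x, (x : ℝ) * ((m : ℝ) ^ 2)⁻¹ := (Nat.cast_le.2 h1).trans h2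
      _ = x * ∑ m ∈ Ioc M x, ((m : ℝ) ^ 2)⁻¹ := by rw [mul_sum]
      _ ≤ x * ((M : ℝ)⁻¹ - (x : ℝ)⁻¹) := by gcongr
      _ ≤ x * (M : ℝ)⁻¹ := by
        gcongr
        have : (0 : ℝ) ≤ (x : ℝ)⁻¹ := by positivity
        linarith
      _ = x / M := by rw [div_eq_mul_inv]
  · have h3 : Ioc M x = ∅ := Ioc_eq_empty (by omega)
    rw [h3, sum_empty] at h2
    rw [h3, biUnion_empty, card_empty, Nat.le_zero] at h1
    have h4 : ({n : ℕ | 1 ≤ n ∧ n ≤ x ∧ ∃ m : ℕ, M < m ∧ m ^ 2 ∣ n}.ncard : ℝ) ≤ 0 := by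
      rw [h1, Nat.cast_zero]
    exact h4.trans (by positivity)

theorem s2_mem_PZ {z : ℝ} {q : ℕ} (hz : 0 ≤ z) : q ∈ PZ z ↔ q.Prime ∧ (q : ℝ) ≤ z := by
  unfold PZ
  rw [mem_filter, mem_Icc, Nat.le_floor_iff hz]
  constructor
  · rintro ⟨⟨_, h2⟩, h3⟩
    exact ⟨h3, h2⟩
  · rintro ⟨h1, h2⟩
    exact ⟨⟨h1.one_lt.le, h2⟩, h1⟩

theorem s2_mem_NZ {p q : ℕ} {w : ℝ} : q ∈ NZ p w ↔
    q ∈ PZ w ∧ q ≠ 2 ∧ ¬ IsSquare ((p : ℕ) : ZMod q) := by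
  classical
  unfold NZ
  rw [mem_filter]

theorem s2_NZ_sub {p : ℕ} {w T : ℝ} (hw : 0 ≤ w) (hwT : w ≤ T) : NZ p w ⊆ PZ T := by
  intro q hq
  rw [s2_mem_NZ] at hq
  have h1 := (s2_mem_PZ hw).1 hq.1
  exact (s2_mem_PZ (hw.trans hwT)).2 ⟨h1.1, h1.2.trans hwT⟩

theorem s2_NZ_ne {p q : ℕ} {w : ℝ} (hq : q ∈ NZ p w) : ((p : ℕ) : ZMod q) ≠ 0 := by
  rw [s2_mem_NZ] at hq
  intro h0
  apply hq.2.2
  rw [h0]
  exact IsSquare.zero

open Classical in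
/-- the forbidden classes -/
noncomputable def s2Om (p : ℕ) (w : ℝ) (q : ℕ) : Finset (ZMod q) :=
  if q ∈ NZ p w then {0, ((p : ℕ) : ZMod q)⁻¹} else {0}

theorem s2_card_le (p : ℕ) (w : ℝ) (q : ℕ) : (s2Om p w q).card ≤ 2 := by
  classical
  unfold s2Om
  split_ifs with h
  · exact card_le_two
  · simp

theorem s2_card_eq {p : ℕ} {w : ℝ} {q : ℕ} (hq : q.Prime) (h : q ∈ NZ p w) :
    (s2Om p w q).card = 2 := by
  classical
  have : Fact q.Prime := ⟨hq⟩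
  unfold s2Om
  rw [if_pos h, card_pair]
  exact (inv_ne_zero (s2_NZ_ne h)).symm

theorem s2_card_eq' {p : ℕ} {w : ℝ} {q : ℕ} (h : q ∉ NZ p w) :
    (s2Om p w q).card = 1 := by
  classical
  unfold s2Om
  rw [if_neg h, card_singleton]

/-- the product over the sieving primes -/
theorem s2_prod_le (p : ℕ) {w T : ℝ} (hw : 0 ≤ w) (hwT : w ≤ T) :
    ∏ q ∈ PZ T, (1 - ((s2Om p w q).card : ℝ) / q) ≤
      (∏ q ∈ PZ T, (1 - 1 / (q : ℝ))) * ∏ q ∈ NZ p w, (1 - 1 / (q : ℝ)) := by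
  classical
  have h1 : ∏ q ∈ NZ p w, (1 - 1 / (q : ℝ)) =
      ∏ q ∈ PZ T, (if q ∈ NZ p w then (1 - 1 / (q : ℝ)) else 1) := by
    rw [prod_ite, prod_const_one, mul_one]
    apply prod_congr _ (fun _ _ => rfl)
    ext q
    rw [mem_filter]
    exact ⟨fun h => ⟨s2_NZ_sub hw hwT h, h⟩, fun h => h.2⟩
  rw [h1, ← prod_mul_distrib]
  apply prod_le_prod
  · intro q hq
    have hqp := ((s2_mem_PZ (hw.trans hwT)).1 hq).1
    have h2 : ((s2Om p w q).card : ℝ) ≤ 2 := by exact_mod_cast s2_card_le p w q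
    have h3 : (2 : ℝ) ≤ q := by exact_mod_cast hqp.two_le
    rw [sub_nonneg, div_le_one (by linarith)]
    linarith
  · intro q hq
    have hqp := ((s2_mem_PZ (hw.trans hwT)).1 hq).1
    have h3 : (2 : ℝ) ≤ q := by exact_mod_cast hqp.two_le
    have hq0 : (0 : ℝ) < q := by linarith
    by_cases hN : q ∈ NZ p w
    · rw [if_pos hN, s2_card_eq hqp hN]
      have h4 : (1 - 1 / (q : ℝ)) * (1 - 1 / (q : ℝ)) - (1 - ((2 : ℕ) : ℝ) / q) =
          (1 / (q : ℝ)) ^ 2 := by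
        push_cast
        field_simp
        ring
      nlinarith [sq_nonneg (1 / (q : ℝ))]
    · rw [if_neg hN, s2_card_eq' hN]
      simp

/-- the bad integers are covered -/
theorem s2_cover {x : ℕ} {T₁ T w : ℝ} (hT : 0 ≤ T) (hw : 0 ≤ w) (hwT : w ≤ T) (hT₁ : 1 ≤ T₁)
    {n : ℕ} (hn2 : 2 ≤ n) (hnx : n ≤ x) (hM : Mann n) (hnp : ¬ n.Prime)
    (h1 : ∀ p : ℕ, p.Prime → p ∣ n → T₁ < p)
    (h2 : ∀ p p' : ℕ, p.Prime → p'.Prime → p ∣ n → p' ∣ n → (p : ℝ) ≤ T → (p' : ℝ) ≤ T →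
      p = p') :
    (∃ m : ℕ, ⌊T₁⌋₊ < m ∧ m ^ 2 ∣ n) ∨
    ∃ p b : ℕ, p.Prime ∧ T₁ < p ∧ p ^ 2 ≤ x ∧ n = p * b ∧ 1 ≤ b ∧ b ≤ x / p ∧
      ∀ q ∈ PZ T, (b : ZMod q) ∉ s2Om p w q := by
  classical
  have hn1 : n ≠ 1 := by omega
  set p := n.minFac with hp
  have hpp : p.Prime := Nat.minFac_prime hn1
  have hpn : p ∣ n := Nat.minFac_dvd n
  have hpT := h1 p hpp hpn
  obtain ⟨b, hb⟩ := hpn
  have hb0 : 0 < b := by
    rcases Nat.eq_zero_or_pos b with h | h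
    · rw [h, mul_zero] at hb; omega
    · exact h
  by_cases hpb : p ∣ b
  · left
    refine ⟨p, ?_, ?_⟩
    · rw [Nat.floor_lt (by linarith)]
      exact hpT
    · obtain ⟨c, hc⟩ := hpb
      exact ⟨c, by rw [hb, hc]; ring⟩
  · right
    have hp2 : p ^ 2 ≤ n := by
      have := Nat.minFac_sq_le_self (by omega : 0 < n) hnp
      rwa [← hp] at this
    refine ⟨p, b, hpp, hpT, hp2.trans hnx, hb, hb0, ?_, ?_⟩
    · rw [Nat.le_div_iff_mul_le hpp.pos, mul_comm, ← hb]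
      exact hnx
    · intro q hq hmem
      obtain ⟨hqp, hqT⟩ := (s2_mem_PZ hT).1 hq
      have : Fact q.Prime := ⟨hqp⟩
      have hcase1 : ¬ (b : ZMod q) = 0 := by
        intro h0
        rw [ZMod.natCast_eq_zero_iff] at h0
        have hqn : q ∣ n := by rw [hb]; exact Dvd.dvd.mul_left h0 p
        have hpq : p ≤ q := Nat.minFac_le_of_dvd hqp.two_le hqn
        have hpT' : (p : ℝ) ≤ T := le_trans (by exact_mod_cast hpq) hqT
        have h3 := h2 p q hpp hqp (Nat.minFac_dvd n) hqn hpT' hqT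
        rw [← h3] at h0
        exact hpb h0
      unfold s2Om at hmem
      split_ifs at hmem with hN
      · rw [mem_insert, mem_singleton] at hmem
        rcases hmem with h0 | h0
        · exact hcase1 h0
        · have hp0 := s2_NZ_ne hN
          have h3 : ((n : ℕ) : ZMod q) = 1 := by
            rw [hb, Nat.cast_mul, h0, mul_inv_cancel₀ hp0]
          have h4 : q ∣ n - 1 := by
            rw [← ZMod.natCast_eq_zero_iff, Nat.cast_sub (by omega), h3]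
            simp
          have h5 := s2_mem_NZ.1 hN
          exact h5.2.2 (hM p hpp (Nat.minFac_dvd n) q hqp h5.2.1 h4)
      · rw [mem_singleton] at hmem
        exact hcase1 hmem

end Pool.Agent.H27.AP
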