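import Pool.Agent.H27.AP.S2a

/-! Asymptotic inequalities for the module S2. -/

set_option autoImplicit false

open Filter Real Topology

namespace Pool.Agent.H27.AP

theorem s2_ev1 : ∀ᶠ L : ℝ in atTop, Real.log L ^ (3 : ℝ) ≤ L ^ (1 / 40 : ℝ) := by
  have h := isLittleO_log_rpow_rpow_atTop (s := 1 / 40) 3 (by norm_num)
  have h1 := h.bound (c := 1) one_pos
  filter_upwards [h1, eventually_gt_atTop (1 : ℝ)] with L hL hL1
  have h2 : 0 ≤ Real.log L := (Real.log_pos hL1).le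
  rw [one_mul, Real.norm_of_nonneg (by positivity), Real.norm_of_nonneg (by positivity)] at hL
  exact hL

theorem s2_ev2 : ∀ᶠ L : ℝ in atTop, KK ^ 2 * Real.log L ≤ L ^ (3 / 4 : ℝ) := by
  have h := isLittleO_log_rpow_atTop (r := 3 / 4) (by norm_num)
  have hK : 0 < KK ^ 2 := by unfold KK; norm_num
  have h1 := h.bound (c := 1 / KK ^ 2) (by positivity)
  filter_upwards [h1, eventually_gt_atTop (1 : ℝ)] with L hL hL1
  have h2 : 0 ≤ Real.log L := (Real.log_pos hL1).le
  rw [Real.norm_of_nonneg h2, Real.norm_of_nonneg (by positivity)] at hL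
  calc KK ^ 2 * Real.log L ≤ KK ^ 2 * (1 / KK ^ 2 * L ^ (3 / 4 : ℝ)) := by gcongr
    _ = L ^ (3 / 4 : ℝ) := by rw [← mul_assoc, mul_one_div_cancel hK.ne', one_mul]

theorem s2_ev3 : ∀ᶠ L : ℝ in atTop, Real.exp (-Real.sqrt L) ≤ L ^ (-(11 / 10) : ℝ) := by
  have h := isLittleO_rpow_exp_atTop (11 / 5)
  have h1 := h.bound (c := 1) one_pos
  have h2 := (Real.tendsto_sqrt_atTop).eventually h1
  filter_upwards [h2, eventually_gt_atTop (1 : ℝ)] with L hL hL1
  have hL0 : 0 < L := by linarith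
  have hs : 0 < Real.sqrt L := Real.sqrt_pos.2 hL0
  rw [one_mul, Real.norm_of_nonneg (by positivity), Real.norm_of_nonneg (by positivity)] at hL
  have h3 : Real.sqrt L ^ (11 / 5 : ℝ) = L ^ (11 / 10 : ℝ) := by
    rw [Real.sqrt_eq_rpow, ← Real.rpow_mul hL0.le]
    norm_num
  rw [h3] at hL
  rw [Real.exp_neg, Real.rpow_neg hL0.le]
  exact inv_anti₀ (by positivity) hL

theorem s2_ev4 : ∀ᶠ L : ℝ in atTop, Real.exp (-(L / 4)) ≤ L ^ (-(11 / 10) : ℝ) := by
  filter_upwards [s2_ev3, eventually_ge_atTop (16 : ℝ)] with L hL hL1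
  refine le_trans ?_ hL
  rw [Real.exp_le_exp]
  have h1 : Real.sqrt L ≤ L / 4 := by
    rw [Real.sqrt_le_left (by linarith)]
    nlinarith
  linarith

/-- all the asymptotic facts about `L` -/
theorem s2_ev : ∃ L₀ : ℝ, 16 ≤ L₀ ∧ ∀ L : ℝ, L₀ ≤ L →
    Real.log L ^ (3 : ℝ) ≤ L ^ (1 / 40 : ℝ) ∧ KK ^ 2 * Real.log L ≤ L ^ (3 / 4 : ℝ) ∧
    Real.exp (-Real.sqrt L) ≤ L ^ (-(11 / 10) : ℝ) ∧
    Real.exp (-(L / 4)) ≤ L ^ (-(11 / 10) : ℝ) := by
  have h := (s2_ev1.and (s2_ev2.and (s2_ev3.and s2_ev4)))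
  obtain ⟨a, ha⟩ := eventually_atTop.1 h
  exact ⟨max a 16, le_max_right _ _, fun L hL => ha L (le_trans (le_max_left _ _) hL)⟩

/-- sum of the reciprocals of the logarithms of `T₁ 2 ^ i` -/
theorem s2_harm {L : ℝ} (hL : 16 ≤ L) (J : ℕ) (hJ : (J : ℝ) ≤ 3 * L) :
    ∑ i ∈ Finset.range J, 1 / (Real.sqrt L + i * Real.log 2) ≤ 5 * Real.log L := by
  have hl2 : 0.6931471803 < Real.log 2 := Real.log_two_gt_d9
  have hl2' : Real.log 2 < 0.6931471808 := Real.log_two_lt_d9
  have hsq : 4 ≤ Real.sqrt L := by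
    rw [Real.le_sqrt (by norm_num) (by linarith)]
    linarith
  have hlogL : 2.7 ≤ Real.log L := by
    have h1 : Real.log 16 ≤ Real.log L := Real.log_le_log (by norm_num) hL
    have h2 : Real.log 16 = 4 * Real.log 2 := by
      rw [show (16 : ℝ) = 2 ^ 4 by norm_num, Real.log_pow]
      norm_num
    linarith
  have h1 : ∑ i ∈ Finset.range J, 1 / (Real.sqrt L + i * Real.log 2) ≤
      ∑ i ∈ Finset.range J, (1 / Real.log 2) * ((i : ℝ) + 1)⁻¹ := by
    apply Finset.sum_le_sum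
    intro i _
    have h2 : ((i : ℝ) + 1) * Real.log 2 ≤ Real.sqrt L + i * Real.log 2 := by nlinarith
    have h3 : (0 : ℝ) < ((i : ℝ) + 1) * Real.log 2 := by positivity
    calc 1 / (Real.sqrt L + i * Real.log 2) ≤ 1 / (((i : ℝ) + 1) * Real.log 2) :=
          one_div_le_one_div_of_le h3 h2
      _ = (1 / Real.log 2) * ((i : ℝ) + 1)⁻¹ := by
          field_simp
  refine h1.trans ?_
  rw [← Finset.mul_sum]
  have h2 : ∑ i ∈ Finset.range J, ((i : ℝ) + 1)⁻¹ = (harmonic J : ℝ) := by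
    unfold harmonic
    push_cast
    rfl
  rw [h2]
  have h3 : (harmonic J : ℝ) ≤ 3 * Real.log L := by
    rcases Nat.eq_zero_or_pos J with h0 | h0
    · rw [h0, harmonic_zero]
      push_cast
      linarith
    · have h4 := harmonic_le_one_add_log J
      have hJ0 : (0 : ℝ) < J := by exact_mod_cast h0
      have h5 : Real.log J ≤ Real.log (3 * L) := Real.log_le_log hJ0 hJ
      rw [Real.log_mul (by norm_num) (by linarith)] at h5
      have h6 : Real.log 3 ≤ 1.2 := by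
        have : Real.log 3 < 1.2 := by
          rw [Real.log_lt_iff_lt_exp (by norm_num)]
          have h7 := Real.add_one_lt_exp (show (0.2 : ℝ) ≠ 0 by norm_num)
          have h8 := Real.exp_one_gt_d9
          have h9 : Real.exp 1.2 = Real.exp 1 * Real.exp 0.2 := by
            rw [← Real.exp_add]; norm_num
          rw [h9]
          nlinarith
        linarith
      linarith
  have h4 : 1 / Real.log 2 ≤ 1.5 := by
    rw [div_le_iff₀ (by linarith)]
    linarith
  have h5 : (0 : ℝ) ≤ (harmonic J : ℝ) := by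
    rw [← h2]
    exact Finset.sum_nonneg (fun i _ => by positivity)
  calc 1 / Real.log 2 * (harmonic J : ℝ) ≤ 1.5 * (3 * Real.log L) := by gcongr
    _ ≤ 5 * Real.log L := by linarith

end Pool.Agent.H27.AP
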