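import Pool.Agent.H27.AP.S2b

/-! Module S2: all prime divisors larger than `T₁`, at most one of them at most `T`. -/

set_option autoImplicit false

open Finset Pool.Agent.H27.ADS

namespace Pool.Agent.H27.AP

/-- product over the primes up to `w` modulo which `p` is not a square -/
noncomputable def s2Phi (p : ℕ) (w : ℝ) : ℝ := ∏ q ∈ NZ p w, (1 - 1 / (q : ℝ))

theorem s2_Phi_nonneg (p : ℕ) {w : ℝ} (hw : 0 ≤ w) : 0 ≤ s2Phi p w := by
  unfold s2Phi
  apply prod_nonneg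
  intro q hq
  have hqp := ((s2_mem_PZ hw).1 (s2_mem_NZ.1 hq).1).1
  have h3 : (2 : ℝ) ≤ q := by exact_mod_cast hqp.two_le
  rw [sub_nonneg, div_le_one (by linarith)]
  linarith

/-- the possible least prime divisors -/
noncomputable def s2Q (x : ℕ) (T₁ : ℝ) : Finset ℕ :=
  (Icc 1 (Nat.sqrt x)).filter (fun p : ℕ => p.Prime ∧ T₁ < (p : ℝ))

theorem s2_mem_Q {x p : ℕ} {T₁ : ℝ} : p ∈ s2Q x T₁ ↔ p ≤ Nat.sqrt x ∧ p.Prime ∧ T₁ < (p : ℝ) := by
  unfold s2Q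
  rw [mem_filter, mem_Icc]
  constructor
  · rintro ⟨⟨_, h1⟩, h2⟩
    exact ⟨h1, h2⟩
  · rintro ⟨h1, h2⟩
    exact ⟨⟨h2.1.one_lt.le, h1⟩, h2⟩

/-- the weighted sum over the primes -/
theorem s2_sumQ {C L w T₁ : ℝ} {x : ℕ} (hC : 0 < C) (hL : 16 ≤ L) (hx : 1 ≤ x)
    (hLx : Real.log x = L) (hw : 0 ≤ w) (hT₁ : T₁ = Real.exp (Real.sqrt L))
    (hav : ∀ A : ℝ, T₁ ≤ A → A ≤ x →
      ∑ p ∈ (PZ (2 * A)).filter (fun p : ℕ => A < (p : ℝ)), s2Phi p w ≤
        C * A * (Real.log L / Real.log A) * L ^ (-(1 / 8) : ℝ)) :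
    ∑ p ∈ s2Q x T₁, s2Phi p w / p ≤ 5 * C * Real.log L ^ 2 * L ^ (-(1 / 8) : ℝ) := by
  classical
  have hl2 : 0 < Real.log 2 := Real.log_pos (by norm_num)
  have hlL : 0 < Real.log L := Real.log_pos (by linarith)
  have hT0 : 0 < T₁ := by rw [hT₁]; exact Real.exp_pos _
  have hsq : 0 < Real.sqrt L := Real.sqrt_pos.2 (by linarith)
  have hT1 : 1 ≤ T₁ := by rw [hT₁]; exact Real.one_le_exp hsq.le
  have hx0 : (0 : ℝ) < x := by exact_mod_cast hx
  set g : ℕ → ℕ := fun p => ⌈Real.logb 2 (p / T₁)⌉₊ - 1 with hg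
  set J : ℕ := ⌈Real.logb 2 x⌉₊ with hJ
  have hpx : ∀ p ∈ s2Q x T₁, (p : ℝ) ≤ x := by
    intro p hp
    have h1 := (s2_mem_Q.1 hp).1
    exact_mod_cast h1.trans (Nat.sqrt_le_self x)
  have hgp : ∀ p ∈ s2Q x T₁, T₁ * 2 ^ (g p) < p ∧ (p : ℝ) ≤ 2 * (T₁ * 2 ^ (g p)) ∧ g p < J := by
    intro p hp
    obtain ⟨h1, h2, h3⟩ := s2_mem_Q.1 hp
    have hp0 : (0 : ℝ) < p := by linarith
    have hr : 0 < Real.logb 2 (p / T₁) := Real.logb_pos (by norm_num) ((one_lt_div hT0).2 h3)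
    have hm : 0 < ⌈Real.logb 2 (p / T₁)⌉₊ := Nat.ceil_pos.2 hr
    have h4 : ⌈Real.logb 2 (p / T₁)⌉₊ = g p + 1 := by
      simp only [hg]
      omega
    have h5 : ((g p : ℕ) : ℝ) < Real.logb 2 (p / T₁) :=
      Nat.lt_ceil.1 (show g p < ⌈Real.logb 2 (p / T₁)⌉₊ by omega)
    have h6 : Real.logb 2 (p / T₁) ≤ (g p : ℝ) + 1 := by
      have := Nat.le_ceil (Real.logb 2 (p / T₁))
      rw [h4] at this
      push_cast at this
      exact this
    have h7 : (2 : ℝ) ^ (Real.logb 2 (p / T₁)) = p / T₁ :=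
      Real.rpow_logb (by norm_num) (by norm_num) (by positivity)
    refine ⟨?_, ?_, ?_⟩
    · have h8 : (2 : ℝ) ^ ((g p : ℕ) : ℝ) < (2 : ℝ) ^ (Real.logb 2 (p / T₁)) :=
        Real.rpow_lt_rpow_of_exponent_lt (by norm_num) h5
      rw [h7, Real.rpow_natCast, lt_div_iff₀ hT0] at h8
      linarith
    · have h8 : (2 : ℝ) ^ (Real.logb 2 (p / T₁)) ≤ (2 : ℝ) ^ ((g p : ℝ) + 1) :=
        Real.rpow_le_rpow_of_exponent_le (by norm_num) h6
      rw [h7, Real.rpow_add (by norm_num), Real.rpow_natCast, Real.rpow_one,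
        div_le_iff₀ hT0] at h8
      linarith
    · have h9 : (p : ℝ) / T₁ ≤ x := by
        rw [div_le_iff₀ hT0]
        have := hpx p hp
        nlinarith
      have h8 : Real.logb 2 (p / T₁) ≤ Real.logb 2 x :=
        Real.logb_le_logb_of_le (by norm_num) (by positivity) h9
      have h10 : ((g p : ℕ) : ℝ) < J := lt_of_lt_of_le h5 (h8.trans (Nat.le_ceil _))
      exact_mod_cast h10
  have hJ3 : (J : ℝ) ≤ 3 * L := by
    have h1 : 0 ≤ Real.logb 2 x := Real.logb_nonneg (by norm_num) (by exact_mod_cast hx)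
    have h2 := (Nat.ceil_lt_add_one h1).le
    have h3 : Real.logb 2 x ≤ 2 * L := by
      unfold Real.logb
      rw [hLx, div_le_iff₀ hl2]
      have := Real.log_two_gt_d9
      nlinarith
    rw [← hJ] at h2
    linarith
  rw [← sum_fiberwise_of_maps_to (g := g) (t := range J)
    (fun p hp => mem_range.2 (hgp p hp).2.2)]
  calc ∑ i ∈ range J, ∑ p ∈ (s2Q x T₁).filter (fun p => g p = i), s2Phi p w / p
      ≤ ∑ i ∈ range J, C * Real.log L * L ^ (-(1 / 8) : ℝ) *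
          (1 / (Real.sqrt L + i * Real.log 2)) := by
        apply sum_le_sum
        intro i _
        set A : ℝ := T₁ * 2 ^ i with hA
        have hA0 : 0 < A := by positivity
        have hlogA : Real.log A = Real.sqrt L + i * Real.log 2 := by
          rw [hA, Real.log_mul hT0.ne' (by positivity), hT₁, Real.log_exp, Real.log_pow]
        have hL0 : 0 < L := by linarith
        rcases ((s2Q x T₁).filter (fun p => g p = i)).eq_empty_or_nonempty with h0 | ⟨p₀, hp₀⟩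
        · rw [h0, sum_empty]
          positivity
        · rw [mem_filter] at hp₀
          have hAx : A ≤ x := by
            have h1 := (hgp p₀ hp₀.1).1
            rw [hp₀.2] at h1
            exact h1.le.trans (hpx p₀ hp₀.1)
          have hTA : T₁ ≤ A := by
            have : (1 : ℝ) ≤ 2 ^ i := one_le_pow₀ (by norm_num)
            rw [hA]
            nlinarith
          have h1 := hav A hTA hAx
          calc ∑ p ∈ (s2Q x T₁).filter (fun p => g p = i), s2Phi p w / p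
              ≤ ∑ p ∈ (s2Q x T₁).filter (fun p => g p = i), s2Phi p w / A := by
                apply sum_le_sum
                intro p hp
                rw [mem_filter] at hp
                have h2 := (hgp p hp.1).1
                rw [hp.2] at h2
                exact div_le_div_of_nonneg_left (s2_Phi_nonneg p hw) hA0 h2.le
            _ ≤ ∑ p ∈ (PZ (2 * A)).filter (fun p : ℕ => A < (p : ℝ)), s2Phi p w / A := by
                apply sum_le_sum_of_subset_of_nonneg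
                · intro p hp
                  rw [mem_filter] at hp
                  obtain ⟨h2, h3, _⟩ := hgp p hp.1
                  rw [hp.2] at h2 h3
                  rw [mem_filter, s2_mem_PZ (by positivity)]
                  exact ⟨⟨(s2_mem_Q.1 hp.1).2.1, h3⟩, h2⟩
                · intro p _ _
                  exact div_nonneg (s2_Phi_nonneg p hw) hA0.le
            _ = (∑ p ∈ (PZ (2 * A)).filter (fun p : ℕ => A < (p : ℝ)), s2Phi p w) / A := by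
                rw [sum_div]
            _ ≤ (C * A * (Real.log L / Real.log A) * L ^ (-(1 / 8) : ℝ)) / A := by
                gcongr
            _ = C * Real.log L * L ^ (-(1 / 8) : ℝ) * (1 / (Real.sqrt L + i * Real.log 2)) := by
                rw [hlogA]
                field_simp
    _ = C * Real.log L * L ^ (-(1 / 8) : ℝ) *
          ∑ i ∈ range J, 1 / (Real.sqrt L + i * Real.log 2) := by rw [mul_sum]
    _ ≤ C * Real.log L * L ^ (-(1 / 8) : ℝ) * (5 * Real.log L) := by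
        have hL0 : 0 < L := by linarith
        gcongr
        exact s2_harm hL J hJ3
    _ = 5 * C * Real.log L ^ 2 * L ^ (-(1 / 8) : ℝ) := by ring

/-- the counting step -/
theorem s2_count {x : ℕ} {T₁ T w L : ℝ} (hT2 : 2 ≤ T) (hw : 0 ≤ w)
    (hwT : w ≤ T) (hT₁ : 1 ≤ T₁) (hM2 : M2) (hL : 0 < L)
    (hbr : ∀ (P : Finset ℕ) (Om : (q : ℕ) → Finset (ZMod q)) (N : ℕ),
      (∀ q ∈ P, q.Prime ∧ (q : ℝ) ≤ T) → (∀ q ∈ P, (Om q).card ≤ 2) → (N : ℝ) ≤ x →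
      ({k : ℕ | 1 ≤ k ∧ k ≤ N ∧ ∀ q ∈ P, (k : ZMod q) ∉ Om q}.ncard : ℝ) ≤
        N * ∏ q ∈ P, (1 - ((Om q).card : ℝ) / q) + N / L ^ 5 + (x : ℝ) ^ (1 / 4 : ℝ)) :
    ({n : ℕ | 2 ≤ n ∧ n ≤ x ∧ Mann n ∧ ¬ n.Prime ∧ (∀ p : ℕ, p.Prime → p ∣ n → T₁ < p) ∧
      ∀ p p' : ℕ, p.Prime → p'.Prime → p ∣ n → p' ∣ n → (p : ℝ) ≤ T → (p' : ℝ) ≤ T →
      p = p'}.ncard : ℝ) ≤
      x / ⌊T₁⌋₊ + (x / Real.log T * ∑ p ∈ s2Q x T₁, s2Phi p w / p +
        x / L ^ 5 * ∑ p ∈ s2Q x T₁, 1 / (p : ℝ) +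
        (s2Q x T₁).card * (x : ℝ) ^ (1 / 4 : ℝ)) := by
  classical
  set A1 : Set ℕ := {n : ℕ | 1 ≤ n ∧ n ≤ x ∧ ∃ m : ℕ, ⌊T₁⌋₊ < m ∧ m ^ 2 ∣ n} with hA1
  set B : ℕ → Set ℕ := fun p => {b : ℕ | 1 ≤ b ∧ b ≤ x / p ∧
    ∀ q ∈ PZ T, (b : ZMod q) ∉ s2Om p w q} with hB
  have hsub : {n : ℕ | 2 ≤ n ∧ n ≤ x ∧ Mann n ∧ ¬ n.Prime ∧
      (∀ p : ℕ, p.Prime → p ∣ n → T₁ < p) ∧
      ∀ p p' : ℕ, p.Prime → p'.Prime → p ∣ n → p' ∣ n → (p : ℝ) ≤ T → (p' : ℝ) ≤ T →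
      p = p'} ⊆ A1 ∪ ⋃ p ∈ s2Q x T₁, (fun b => p * b) '' B p := by
    rintro n ⟨h1, h2, h3, h4, h5, h6⟩
    rcases s2_cover (by linarith) hw hwT hT₁ h1 h2 h3 h4 h5 h6 with
      h | ⟨p, b, hp, hpT, hpx, hnb, hb1, hbx, hbq⟩
    · left
      exact ⟨by omega, h2, h⟩
    · right
      rw [Set.mem_iUnion₂]
      refine ⟨p, ?_, b, ⟨hb1, hbx, hbq⟩, hnb.symm⟩
      rw [s2_mem_Q]
      exact ⟨Nat.le_sqrt'.2 hpx, hp, hpT⟩
  have hfinB : ∀ p, (B p).Finite := fun p =>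
    (Set.finite_Icc 1 (x / p)).subset (fun b hb => ⟨hb.1, hb.2.1⟩)
  have hfinA : A1.Finite := (Set.finite_Icc 1 x).subset (fun n hn => ⟨hn.1, hn.2.1⟩)
  have hfinU : (⋃ p ∈ s2Q x T₁, (fun b => p * b) '' B p).Finite :=
    Set.Finite.biUnion (s2Q x T₁).finite_toSet (fun p _ => (hfinB p).image _)
  have h1 := Set.ncard_le_ncard hsub (hfinA.union hfinU)
  have h2 := Set.ncard_union_le A1 (⋃ p ∈ s2Q x T₁, (fun b => p * b) '' B p)
  have h3 : (⋃ p ∈ s2Q x T₁, (fun b => p * b) '' B p).ncard ≤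
      ∑ p ∈ s2Q x T₁, (B p).ncard := by
    refine (Finset.set_ncard_biUnion_le _ _).trans ?_
    exact sum_le_sum (fun p _ => Set.ncard_image_le (hfinB p))
  have h4 : (A1.ncard : ℝ) ≤ x / ⌊T₁⌋₊ := by
    apply s2_sq_count
    exact Nat.one_le_iff_ne_zero.2 (Nat.floor_pos.2 hT₁).ne'
  have hlogT : 0 < Real.log T := Real.log_pos (by linarith)
  have h5 : ∀ p ∈ s2Q x T₁, ((B p).ncard : ℝ) ≤
      x / Real.log T * (s2Phi p w / p) + x / L ^ 5 * (1 / (p : ℝ)) + (x : ℝ) ^ (1 / 4 : ℝ) := by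
    intro p hp
    have hpp := (s2_mem_Q.1 hp).2.1
    have hp0 : (0 : ℝ) < p := by exact_mod_cast hpp.pos
    have h6 : ((x / p : ℕ) : ℝ) ≤ x := by exact_mod_cast Nat.div_le_self x p
    have h7 := hbr (PZ T) (s2Om p w) (x / p) (fun q hq => (s2_mem_PZ (by linarith)).1 hq)
      (fun q _ => s2_card_le p w q) h6
    have h8 : ((x / p : ℕ) : ℝ) ≤ (x : ℝ) / p := Nat.cast_div_le
    have h9 := s2_prod_le p hw hwT
    have h10 := hM2 T hT2
    have hPhi := s2_Phi_nonneg p hw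
    have h11 : (∏ q ∈ PZ T, (1 - 1 / (q : ℝ))) * ∏ q ∈ NZ p w, (1 - 1 / (q : ℝ)) ≤
        1 / Real.log T * s2Phi p w := by
      change _ * s2Phi p w ≤ _
      exact mul_le_mul_of_nonneg_right h10 hPhi
    have h12 : ((x / p : ℕ) : ℝ) * ∏ q ∈ PZ T, (1 - ((s2Om p w q).card : ℝ) / q) ≤
        (x : ℝ) / p * (1 / Real.log T * s2Phi p w) := by
      calc ((x / p : ℕ) : ℝ) * ∏ q ∈ PZ T, (1 - ((s2Om p w q).card : ℝ) / q)
          ≤ ((x / p : ℕ) : ℝ) * (1 / Real.log T * s2Phi p w) := by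
            apply mul_le_mul_of_nonneg_left (h9.trans h11) (Nat.cast_nonneg _)
        _ ≤ (x : ℝ) / p * (1 / Real.log T * s2Phi p w) := by
            apply mul_le_mul_of_nonneg_right h8
            positivity
    have h13 : ((x / p : ℕ) : ℝ) / L ^ 5 ≤ (x : ℝ) / p / L ^ 5 := by gcongr
    have h14 : (x : ℝ) / p * (1 / Real.log T * s2Phi p w) =
        x / Real.log T * (s2Phi p w / p) := by
      field_simp
    have h15 : (x : ℝ) / p / L ^ 5 = x / L ^ 5 * (1 / (p : ℝ)) := by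
      field_simp
    rw [← h14, ← h15]
    exact h7.trans (by linarith)
  have h6 : ((∑ p ∈ s2Q x T₁, (B p).ncard : ℕ) : ℝ) ≤
      x / Real.log T * ∑ p ∈ s2Q x T₁, s2Phi p w / p +
        x / L ^ 5 * ∑ p ∈ s2Q x T₁, 1 / (p : ℝ) +
        (s2Q x T₁).card * (x : ℝ) ^ (1 / 4 : ℝ) := by
    push_cast
    refine (sum_le_sum h5).trans ?_
    rw [sum_add_distrib, sum_add_distrib, ← mul_sum, ← mul_sum, sum_const, nsmul_eq_mul]
  have h7 : ({n : ℕ | 2 ≤ n ∧ n ≤ x ∧ Mann n ∧ ¬ n.Prime ∧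
      (∀ p : ℕ, p.Prime → p ∣ n → T₁ < p) ∧
      ∀ p p' : ℕ, p.Prime → p'.Prime → p ∣ n → p' ∣ n → (p : ℝ) ≤ T → (p' : ℝ) ≤ T →
      p = p'}.ncard : ℝ) ≤ (A1.ncard : ℝ) + ((∑ p ∈ s2Q x T₁, (B p).ncard : ℕ) : ℝ) := by
    exact_mod_cast h1.trans (h2.trans (by omega))
  linarith

end Pool.Agent.H27.AP
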