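import Pool.Agent.H27.AP.X3d

/-! Auxiliary lemmas for the module X3c. -/

set_option autoImplicit false

open Finset Pool.Agent.H27.ADS

namespace Pool.Agent.H27.AP

/-- the integers attached to `(a, b, h)` -/
def x3cN (x a b h : ℕ) : Set ℕ :=
  {n : ℕ | 1 ≤ n ∧ n ≤ x ∧ Nat.gcd a b ∣ 2 ∧ ((h * a : ℕ) : ℤ) ∣ (n : ℤ) - 1 - a ∧
    ((h * b : ℕ) : ℤ) ∣ (n : ℤ) + 1 - b}

theorem x3c_N {x a b h : ℕ} (ha : 1 ≤ a) (hb : 1 ≤ b) (hh : 1 ≤ h) :
    ((x3cN x a b h).ncard : ℝ) ≤ 2 * x / (h * a * b) + 1 := by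
  by_cases hg : Nat.gcd a b ∣ 2
  swap
  · have h1 : x3cN x a b h = ∅ := by
      ext n
      simp only [x3cN, Set.mem_ofPred_eq, Set.mem_empty_iff_false, iff_false]
      rintro ⟨_, _, h2, _⟩
      exact hg h2
    rw [h1, Set.ncard_empty, Nat.cast_zero]
    positivity
  set m : ℕ := h * Nat.lcm a b with hm
  have hlcm : 0 < Nat.lcm a b := Nat.lcm_pos ha hb
  have hm0 : 0 < m := Nat.mul_pos hh hlcm
  have hmod : ∀ n₁ ∈ x3cN x a b h, ∀ n₂ ∈ x3cN x a b h, n₁ % m = n₂ % m := by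
    rintro n₁ ⟨_, _, _, h1, h2⟩ n₂ ⟨_, _, _, h3, h4⟩
    have h5 : ((h * a : ℕ) : ℤ) ∣ (n₂ : ℤ) - n₁ := by
      have := dvd_sub h3 h1
      have e : (n₂ : ℤ) - 1 - a - ((n₁ : ℤ) - 1 - a) = (n₂ : ℤ) - n₁ := by ring
      rwa [e] at this
    have h6 : ((h * b : ℕ) : ℤ) ∣ (n₂ : ℤ) - n₁ := by
      have := dvd_sub h4 h2
      have e : (n₂ : ℤ) + 1 - b - ((n₁ : ℤ) + 1 - b) = (n₂ : ℤ) - n₁ := by ring
      rwa [e] at this
    have h7 : m ∣ ((n₂ : ℤ) - n₁).natAbs := by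
      rw [hm, ← Nat.lcm_mul_left]
      exact Nat.lcm_dvd (Int.natCast_dvd.1 h5) (Int.natCast_dvd.1 h6)
    have h8 : (m : ℤ) ∣ (n₂ : ℤ) - n₁ := Int.natCast_dvd.2 h7
    exact (Nat.modEq_iff_dvd.2 h8)
  have hcard : (x3cN x a b h).ncard ≤ x / m + 1 := by
    have h1 := Set.ncard_le_ncard_of_injOn (s := x3cN x a b h)
      (t := ((Finset.range (x / m + 1) : Finset ℕ) : Set ℕ)) (fun n => n / m)
      (by
        rintro n ⟨_, h2, _⟩
        rw [mem_coe, mem_range]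
        exact Nat.lt_succ_of_le (Nat.div_le_div_right h2))
      (by
        intro n₁ h2 n₂ h3 h4
        have h5 := hmod n₁ h2 n₂ h3
        simp only at h4
        rw [← Nat.div_add_mod n₁ m, ← Nat.div_add_mod n₂ m, h4, h5])
      (Finset.finite_toSet _)
    rwa [Set.ncard_coe_finset, card_range] at h1
  have h1 : ((x / m + 1 : ℕ) : ℝ) ≤ (x : ℝ) / m + 1 := by
    push_cast
    have : ((x / m : ℕ) : ℝ) ≤ (x : ℝ) / m := Nat.cast_div_le
    linarith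
  have h2 : a * b ≤ 2 * Nat.lcm a b := by
    rw [← Nat.gcd_mul_lcm a b]
    exact Nat.mul_le_mul_right _ (Nat.le_of_dvd (by norm_num) hg)
  have h3 : (h : ℝ) * a * b ≤ 2 * m := by
    have : h * a * b ≤ 2 * m := by
      rw [hm]
      nlinarith
    exact_mod_cast this
  have ha' : (0 : ℝ) < a := by exact_mod_cast ha
  have hb' : (0 : ℝ) < b := by exact_mod_cast hb
  have hh' : (0 : ℝ) < h := by exact_mod_cast hh
  have hm' : (0 : ℝ) < m := by exact_mod_cast hm0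
  have h4 : (x : ℝ) / m ≤ 2 * x / (h * a * b) := by
    rw [div_le_div_iff₀ hm' (by positivity)]
    have : (0 : ℝ) ≤ x := Nat.cast_nonneg x
    nlinarith
  have h5 : ((x3cN x a b h).ncard : ℝ) ≤ ((x / m + 1 : ℕ) : ℝ) := by exact_mod_cast hcard
  linarith

theorem x3c_harm {x : ℕ} : ∑ k ∈ Icc 1 x, 1 / (k : ℝ) ≤ 1 + Real.log x := by
  have h2 : ∑ p ∈ Icc 1 x, 1 / (p : ℝ) = (harmonic x : ℝ) := by
    rw [harmonic_eq_sum_Icc]
    push_cast
    apply sum_congr rfl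
    intro p _
    rw [one_div]
  rw [h2]
  exact harmonic_le_one_add_log x

theorem x3c_sq {x g : ℕ} (hg : 1 ≤ g) : ∑ k ∈ Ioc g x, 1 / (k : ℝ) ^ 2 ≤ 1 / (g : ℝ) := by
  rcases le_or_gt g x with h | h
  · have h1 := sum_Ioc_inv_sq_le_sub (α := ℝ) (by omega : g ≠ 0) h
    have h2 : ∑ k ∈ Ioc g x, 1 / (k : ℝ) ^ 2 = ∑ k ∈ Ioc g x, ((k : ℝ) ^ 2)⁻¹ := by
      apply sum_congr rfl
      intro p _
      rw [one_div]
    rw [h2, one_div]
    have : (0 : ℝ) ≤ (x : ℝ)⁻¹ := by positivity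
    linarith
  · rw [Ioc_eq_empty (by omega), sum_empty]
    positivity

/-- the index set -/
noncomputable def x3cT (x g : ℕ) (c : ℝ) : Finset (ℕ × ℕ × ℕ) :=
  ((Icc 1 x) ×ˢ ((Icc 1 x) ×ˢ (Icc 1 x))).filter (fun t : ℕ × ℕ × ℕ =>
    g < t.2.1 ∧ (t.1 : ℝ) * t.2.1 * t.2.2 * Real.sqrt g ≤ c * x)

theorem x3c_mem_T {x g : ℕ} {c : ℝ} {a h k : ℕ} : (a, h, k) ∈ x3cT x g c ↔
    ((1 ≤ a ∧ a ≤ x) ∧ (1 ≤ h ∧ h ≤ x) ∧ (1 ≤ k ∧ k ≤ x)) ∧ g < h ∧
      (a : ℝ) * h * k * Real.sqrt g ≤ c * x := by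
  unfold x3cT
  rw [mem_filter, mem_product, mem_product, mem_Icc, mem_Icc, mem_Icc]

theorem x3c_card {x g : ℕ} {c : ℝ} (hg : 1 ≤ g) (hc : 0 ≤ c) :
    ((x3cT x g c).card : ℝ) ≤ c / Real.sqrt g * x * (1 + Real.log x) ^ 2 := by
  have hg0 : (0 : ℝ) < g := by exact_mod_cast hg
  have hs : 0 < Real.sqrt g := Real.sqrt_pos.2 hg0
  have h1 : ((x3cT x g c).card : ℝ) = ∑ a ∈ Icc 1 x, ∑ h ∈ Icc 1 x, ∑ k ∈ Icc 1 x,
      (if g < h ∧ (a : ℝ) * h * k * Real.sqrt g ≤ c * x then (1 : ℝ) else 0) := by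
    rw [card_eq_sum_ones, Nat.cast_sum]
    unfold x3cT
    rw [sum_filter, sum_product]
    apply sum_congr rfl
    intro a _
    rw [sum_product]
    apply sum_congr rfl
    intro h _
    apply sum_congr rfl
    intro k _
    simp
  have h2 : ∀ a ∈ Icc 1 x, ∀ h ∈ Icc 1 x, ∑ k ∈ Icc 1 x,
      (if g < h ∧ (a : ℝ) * h * k * Real.sqrt g ≤ c * x then (1 : ℝ) else 0) ≤
      c / Real.sqrt g * x * ((1 / (a : ℝ)) * (1 / (h : ℝ))) := by
    intro a ha h hh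
    rw [mem_Icc] at ha hh
    have ha0 : (0 : ℝ) < a := by exact_mod_cast ha.1
    have hh0 : (0 : ℝ) < h := by exact_mod_cast hh.1
    rw [← sum_filter]
    set Y : ℝ := c * x / (a * h * Real.sqrt g) with hY
    have hY0 : 0 ≤ Y := by positivity
    have h3 : (Icc 1 x).filter (fun k : ℕ => g < h ∧ (a : ℝ) * h * k * Real.sqrt g ≤ c * x) ⊆
        Icc 1 ⌊Y⌋₊ := by
      intro k hk
      rw [mem_filter, mem_Icc] at hk
      rw [mem_Icc, Nat.le_floor_iff hY0, hY, le_div_iff₀ (by positivity)]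
      refine ⟨hk.1.1, ?_⟩
      have := hk.2.2
      linarith
    have h4 := card_le_card h3
    rw [Nat.card_Icc, Nat.add_sub_cancel] at h4
    rw [sum_const, nsmul_eq_mul, mul_one]
    have h5 : (((Icc 1 x).filter
        (fun k : ℕ => g < h ∧ (a : ℝ) * h * k * Real.sqrt g ≤ c * x)).card : ℝ) ≤ Y :=
      (Nat.cast_le.2 h4).trans (Nat.floor_le hY0)
    refine h5.trans (le_of_eq ?_)
    rw [hY]
    field_simp
  rw [h1]
  calc ∑ a ∈ Icc 1 x, ∑ h ∈ Icc 1 x, ∑ k ∈ Icc 1 x,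
      (if g < h ∧ (a : ℝ) * h * k * Real.sqrt g ≤ c * x then (1 : ℝ) else 0)
      ≤ ∑ a ∈ Icc 1 x, ∑ h ∈ Icc 1 x,
          c / Real.sqrt g * x * ((1 / (a : ℝ)) * (1 / (h : ℝ))) :=
        sum_le_sum (fun a ha => sum_le_sum (fun h hh => h2 a ha h hh))
    _ = c / Real.sqrt g * x * ((∑ a ∈ Icc 1 x, 1 / (a : ℝ)) * ∑ h ∈ Icc 1 x, 1 / (h : ℝ)) := by
        rw [sum_mul_sum, mul_sum]
        apply sum_congr rfl
        intro a _
        rw [mul_sum]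
    _ ≤ c / Real.sqrt g * x * ((1 + Real.log x) * (1 + Real.log x)) := by
        have h6 : (0 : ℝ) ≤ ∑ a ∈ Icc 1 x, 1 / (a : ℝ) :=
          sum_nonneg (fun _ _ => by positivity)
        have h7 := x3c_harm (x := x)
        gcongr
    _ = c / Real.sqrt g * x * (1 + Real.log x) ^ 2 := by ring

theorem x3c_sum {x g : ℕ} {K c : ℝ} (hg : 1 ≤ g) (hK : 0 ≤ K) :
    ∑ t ∈ x3cT x g c, K * x / ((t.2.1 : ℝ) ^ 2 * t.1 * t.2.2) ≤
      K / g * x * (1 + Real.log x) ^ 2 := by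
  have hg0 : (0 : ℝ) < g := by exact_mod_cast hg
  have hsub : x3cT x g c ⊆ (Icc 1 x) ×ˢ ((Ioc g x) ×ˢ (Icc 1 x)) := by
    rintro ⟨a, h, k⟩ ht
    rw [x3c_mem_T] at ht
    rw [mem_product, mem_product, mem_Icc, mem_Ioc, mem_Icc]
    exact ⟨ht.1.1, ⟨ht.2.1, ht.1.2.1.2⟩, ht.1.2.2⟩
  calc ∑ t ∈ x3cT x g c, K * x / ((t.2.1 : ℝ) ^ 2 * t.1 * t.2.2)
      ≤ ∑ t ∈ (Icc 1 x) ×ˢ ((Ioc g x) ×ˢ (Icc 1 x)),
          K * x / ((t.2.1 : ℝ) ^ 2 * t.1 * t.2.2) :=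
        sum_le_sum_of_subset_of_nonneg hsub (fun _ _ _ => by positivity)
    _ = K * x * ((∑ a ∈ Icc 1 x, 1 / (a : ℝ)) *
          ((∑ h ∈ Ioc g x, 1 / (h : ℝ) ^ 2) * ∑ k ∈ Icc 1 x, 1 / (k : ℝ))) := by
        rw [sum_product, sum_mul_sum, sum_mul_sum, mul_sum]
        apply sum_congr rfl
        intro a ha
        rw [mem_Icc] at ha
        have ha0 : (a : ℝ) ≠ 0 := by
          have : (0 : ℝ) < a := by exact_mod_cast ha.1
          exact this.ne'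
        rw [sum_product, mul_sum]
        apply sum_congr rfl
        intro h hh
        rw [mem_Ioc] at hh
        have hh0 : (h : ℝ) ≠ 0 := by
          have : (0 : ℝ) < h := by exact_mod_cast (by omega : 0 < h)
          exact this.ne'
        rw [mul_sum, mul_sum]
        apply sum_congr rfl
        intro k hk
        rw [mem_Icc] at hk
        have hk0 : (k : ℝ) ≠ 0 := by
          have : (0 : ℝ) < k := by exact_mod_cast hk.1
          exact this.ne'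
        field_simp
    _ ≤ K * x * ((1 + Real.log x) * (1 / g * (1 + Real.log x))) := by
        have h6 : (0 : ℝ) ≤ ∑ a ∈ Icc 1 x, 1 / (a : ℝ) :=
          sum_nonneg (fun _ _ => by positivity)
        have h8 : (0 : ℝ) ≤ ∑ h ∈ Ioc g x, 1 / (h : ℝ) ^ 2 :=
          sum_nonneg (fun _ _ => by positivity)
        have h7 := x3c_harm (x := x)
        have h9 := x3c_sq (x := x) hg
        have h10 : (0 : ℝ) ≤ 1 + Real.log x := h6.trans h7
        gcongr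
    _ = K / g * x * (1 + Real.log x) ^ 2 := by ring

end Pool.Agent.H27.AP
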