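import Pool.Agent.H27.AP.Defs

/-!
# The three parts of X3
-/

set_option autoImplicit false

open Pool.Agent.H27.ADS

namespace Pool.Agent.H27.AP

/-- Both primes divide the same one of `n - 1`, `n + 1`. -/
def X3A : Prop := ∃ C : ℝ, 0 < C ∧ ∀ x g : ℕ, 3 ≤ x → 1 ≤ g →
  ({n : ℕ | 2 ≤ n ∧ n ≤ x ∧ ∃ q q' : ℕ, q.Prime ∧ q'.Prime ∧ q ≠ q' ∧
    (q * q' ∣ n - 1 ∨ q * q' ∣ n + 1) ∧ g < Nat.gcd (q - 1) (q' - 1)}.ncard : ℝ) ≤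
    C * (x * Real.log x ^ 2 / Real.sqrt g)

/-- Different sides, small product. -/
def X3B : Prop := ∃ C : ℝ, 0 < C ∧ ∀ x g : ℕ, 3 ≤ x → 1 ≤ g →
  ({n : ℕ | 2 ≤ n ∧ n ≤ x ∧ ∃ q q' : ℕ, q.Prime ∧ q'.Prime ∧ q ≠ q' ∧
    q ∣ n - 1 ∧ q' ∣ n + 1 ∧ g < Nat.gcd (q - 1) (q' - 1) ∧
    (q : ℝ) * q' ≤ x * Real.sqrt g}.ncard : ℝ) ≤
    C * (x * Real.log x ^ 2 / Real.sqrt g)

/-- Different sides, large product. -/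
def X3C : Prop := ∃ C : ℝ, 0 < C ∧ ∀ x g : ℕ, 3 ≤ x → 1 ≤ g →
  ({n : ℕ | 2 ≤ n ∧ n ≤ x ∧ n ∉ TWs x ∧ ∃ q q' : ℕ, q.Prime ∧ q'.Prime ∧ q ≠ q' ∧
    q ∣ n - 1 ∧ q' ∣ n + 1 ∧ g < Nat.gcd (q - 1) (q' - 1) ∧
    (x : ℝ) * Real.sqrt g < q * q'}.ncard : ℝ) ≤
    C * (x * Real.log x ^ 2 / Real.sqrt g)

theorem x3_of (hA : X3A) (hB : X3B) (hC : X3C) : X3 := by
  obtain ⟨C₁, h1, hA⟩ := hA
  obtain ⟨C₂, h2, hB⟩ := hB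
  obtain ⟨C₃, h3, hC⟩ := hC
  refine ⟨C₁ + C₂ + C₃, by positivity, fun x g hx hg => ?_⟩
  have a1 := hA x g hx hg
  have a2 := hB x g hx hg
  have a3 := hC x g hx hg
  set A := {n : ℕ | 2 ≤ n ∧ n ≤ x ∧ ∃ q q' : ℕ, q.Prime ∧ q'.Prime ∧ q ≠ q' ∧
    (q * q' ∣ n - 1 ∨ q * q' ∣ n + 1) ∧ g < Nat.gcd (q - 1) (q' - 1)} with hAd
  set B := {n : ℕ | 2 ≤ n ∧ n ≤ x ∧ ∃ q q' : ℕ, q.Prime ∧ q'.Prime ∧ q ≠ q' ∧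
    q ∣ n - 1 ∧ q' ∣ n + 1 ∧ g < Nat.gcd (q - 1) (q' - 1) ∧
    (q : ℝ) * q' ≤ x * Real.sqrt g} with hBd
  set D := {n : ℕ | 2 ≤ n ∧ n ≤ x ∧ n ∉ TWs x ∧ ∃ q q' : ℕ, q.Prime ∧ q'.Prime ∧ q ≠ q' ∧
    q ∣ n - 1 ∧ q' ∣ n + 1 ∧ g < Nat.gcd (q - 1) (q' - 1) ∧
    (x : ℝ) * Real.sqrt g < q * q'} with hDd
  have hcross : ∀ n q q' : ℕ, 2 ≤ n → n ≤ x → n ∉ TWs x → q.Prime → q'.Prime → q ≠ q' →
      q ∣ n - 1 → q' ∣ n + 1 → g < Nat.gcd (q - 1) (q' - 1) → n ∈ A ∪ B ∪ D := by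
    intro n q q' b1 b2 b3 b4 b5 b6 b7 b8 b9
    rcases le_or_gt ((q : ℝ) * q') (x * Real.sqrt g) with h | h
    · exact Or.inl (Or.inr ⟨b1, b2, q, q', b4, b5, b6, b7, b8, b9, h⟩)
    · exact Or.inr ⟨b1, b2, b3, q, q', b4, b5, b6, b7, b8, b9, h⟩
  have hsub : {n : ℕ | 2 ≤ n ∧ n ≤ x ∧ n ∉ TWs x ∧ ∃ q q' : ℕ, q.Prime ∧ q'.Prime ∧ q ≠ q' ∧
      q ∣ n ^ 2 - 1 ∧ q' ∣ n ^ 2 - 1 ∧ g < Nat.gcd (q - 1) (q' - 1)} ⊆ A ∪ B ∪ D := by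
    rintro n ⟨b1, b2, b3, q, q', b4, b5, b6, b7, b8, b9⟩
    have e1 : n ^ 2 - 1 = (n - 1) * (n + 1) := by
      obtain ⟨m, rfl⟩ : ∃ m, n = m + 1 := ⟨n - 1, by omega⟩
      have : (m + 1) ^ 2 = (m + 1 - 1) * (m + 1 + 1) + 1 := by
        simp only [Nat.add_sub_cancel]
        ring
      omega
    rw [e1] at b7 b8
    have hcop : Nat.Coprime q q' := (Nat.coprime_primes b4 b5).mpr b6
    rcases (b4.dvd_mul).mp b7 with h | h <;> rcases (b5.dvd_mul).mp b8 with h' | h'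
    · exact Or.inl (Or.inl ⟨b1, b2, q, q', b4, b5, b6,
        Or.inl (hcop.mul_dvd_of_dvd_of_dvd h h'), b9⟩)
    · exact hcross n q q' b1 b2 b3 b4 b5 b6 h h' b9
    · exact hcross n q' q b1 b2 b3 b5 b4 (Ne.symm b6) h' h (by rwa [Nat.gcd_comm])
    · exact Or.inl (Or.inl ⟨b1, b2, q, q', b4, b5, b6,
        Or.inr (hcop.mul_dvd_of_dvd_of_dvd h h'), b9⟩)
  have hfin : (A ∪ B ∪ D).Finite := by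
    simp only [Set.finite_union]
    refine ⟨⟨?_, ?_⟩, ?_⟩ <;> exact (Set.finite_Iic x).subset fun n hn => hn.2.1
  have h4 := Set.ncard_le_ncard hsub hfin
  have h5 := h4.trans (Set.ncard_union_le _ _)
  have h6 := Set.ncard_union_le A B
  have h7 : (({n : ℕ | 2 ≤ n ∧ n ≤ x ∧ n ∉ TWs x ∧ ∃ q q' : ℕ, q.Prime ∧ q'.Prime ∧ q ≠ q' ∧
      q ∣ n ^ 2 - 1 ∧ q' ∣ n ^ 2 - 1 ∧ g < Nat.gcd (q - 1) (q' - 1)}.ncard : ℕ) : ℝ) ≤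
      A.ncard + B.ncard + D.ncard := by
    exact_mod_cast h5.trans (Nat.add_le_add_right h6 _)
  linarith

end Pool.Agent.H27.AP
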